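import Pool.Agent.H305.SL.Ckn

/-!
The local regularity criterion for the solutions with viscosity `ν`.
-/

set_option autoImplicit false

open MeasureTheory Set Metric Filter Topology
open scoped ContDiff ENNReal

namespace Pool.Agent.H305.SL

open H459R3.NS W221.NS W382.ME Pool.Agent.V1183.PM Pool.Agent.H305.OS
open Pool.Agent.W583.MD (sm_pd pd_mul')

/-- The partial derivatives are local. -/
lemma pd_loc {f g : V → ℝ} {O : Set V} (hO : IsOpen O) (h : ∀ y ∈ O, f y = g y) (j : Fin 3) {x : V}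
    (hx : x ∈ O) : H459R3.NS.pd j f x = H459R3.NS.pd j g x := by
  have h1 : f =ᶠ[𝓝 x] g := by
    filter_upwards [hO.mem_nhds hx] with y hy using h y hy
  unfold H459R3.NS.pd
  rw [h1.fderiv_eq]

/-- Constants come out. -/
lemma pd_k {f : V → ℝ} (hf : ContDiff ℝ ∞ f) (k : ℝ) (j : Fin 3) (x : V) :
    H459R3.NS.pd j (fun y => k * f y) x = k * H459R3.NS.pd j f x := by
  unfold H459R3.NS.pd
  rw [fderiv_const_mul (hf.differentiable (by simp)).differentiableAt]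
  simp

section
variable {ν T t₀ E E' t : ℝ} {u : ℝ → V → V} {p : ℝ → V → ℝ} {ξ : V → ℝ} {O : Set V} {x : V}

/-- The rescaled and localised velocity. -/
noncomputable def lu (ν t₀ : ℝ) (ξ : V → ℝ) (u : ℝ → V → V) : ℝ → V → V :=
  fun t x i => ν⁻¹ * (ξ x * u (t₀ + t / ν) x i)

/-- The rescaled and localised pressure. -/
noncomputable def lq (ν t₀ : ℝ) (ξ : V → ℝ) (p : ℝ → V → ℝ) : ℝ → V → ℝ :=
  fun t x => (ν ^ 2)⁻¹ * (ξ x * p (t₀ + t / ν) x)

lemma lt_time (hν : 0 < ν) (ht₀ : 0 < t₀) (ht : t ∈ Ioo 0 (ν * (T - t₀))) :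
    t₀ + t / ν ∈ Ioo t₀ T ∧ t₀ + t / ν ∈ Ioo 0 T := by
  have h1 : 0 < t / ν := div_pos ht.1 hν
  have h2 : t / ν < T - t₀ := by
    rw [div_lt_iff₀ hν]
    linarith [ht.2]
  exact ⟨⟨by linarith, by linarith⟩, by linarith, by linarith⟩

lemma lu_pd (h : HS ν T u p) (ht₀ : 0 < t₀) (hO : IsOpen O) (h1 : ∀ x ∈ O, ξ x = 1)
    (ht : t ∈ Ioo 0 (ν * (T - t₀))) (hx : x ∈ O) (i j : Fin 3) :
    H459R3.NS.pd j (fun y => lu ν t₀ ξ u t y i) x
      = ν⁻¹ * H459R3.NS.pd j (fun y => u (t₀ + t / ν) y i) x := by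
  have hτ := (lt_time h.hν ht₀ ht).2
  rw [pd_loc hO (g := fun y => ν⁻¹ * u (t₀ + t / ν) y i) (fun y hy => by
    simp only [lu, h1 y hy, one_mul]) j hx]
  exact pd_k (h.cw_HF hτ i).sm ν⁻¹ j x

lemma lu_pd2 (h : HS ν T u p) (ht₀ : 0 < t₀) (hO : IsOpen O) (h1 : ∀ x ∈ O, ξ x = 1)
    (ht : t ∈ Ioo 0 (ν * (T - t₀))) (hx : x ∈ O) (i j : Fin 3) :
    H459R3.NS.pd j (H459R3.NS.pd j (fun y => lu ν t₀ ξ u t y i)) x
      = ν⁻¹ * H459R3.NS.pd j (H459R3.NS.pd j (fun y => u (t₀ + t / ν) y i)) x := by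
  have hτ := (lt_time h.hν ht₀ ht).2
  rw [pd_loc hO (g := fun y => ν⁻¹ * H459R3.NS.pd j (fun y => u (t₀ + t / ν) y i) y)
    (fun y hy => lu_pd h ht₀ hO h1 ht hy i j) j hx]
  exact pd_k ((h.cw_HF hτ i).pd j).sm ν⁻¹ j x

lemma lu_HF (h : HS ν T u p) (ht₀ : 0 < t₀) (hξ : BF ξ) (ht : t ∈ Ioo 0 (ν * (T - t₀))) (i : Fin 3) :
    HF (fun y => lu ν t₀ ξ u t y i) := by
  have hτ := (lt_time h.hν ht₀ ht).2
  have h1 := (Pool.Agent.H305.SL.HF.mulB (h.cw_HF hτ i) hξ).cmul ν⁻¹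
  have e : (fun y => lu ν t₀ ξ u t y i) = fun y => ν⁻¹ * (cw u (t₀ + t / ν) i y * ξ y) := by
    funext y
    simp only [lu, cw]
    ring
  rw [e]
  exact h1

lemma lu_dv (h : HS ν T u p) (ht₀ : 0 < t₀) (hξ : BF ξ) (ht : t ∈ Ioo 0 (ν * (T - t₀))) (x : V) :
    dv (lu ν t₀ ξ u t) x = ν⁻¹ * ∑ i, H459R3.NS.pd i ξ x * u (t₀ + t / ν) x i := by
  have hτ := (lt_time h.hν ht₀ ht).2
  have h2 : ∀ i, H459R3.NS.pd i (fun y => lu ν t₀ ξ u t y i) x
      = ν⁻¹ * (ξ x * H459R3.NS.pd i (fun y => u (t₀ + t / ν) y i) x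
        + H459R3.NS.pd i ξ x * u (t₀ + t / ν) x i) := by
    intro i
    have hu : ContDiff ℝ ∞ (fun y => u (t₀ + t / ν) y i) := (h.cw_HF hτ i).sm
    have e1 := pd_k (hξ.sm.mul hu) ν⁻¹ i x
    have e2 := pd_mul' hξ.sm hu i x
    have e3 : (fun y => lu ν t₀ ξ u t y i) = fun y => ν⁻¹ * (ξ y * u (t₀ + t / ν) y i) := rfl
    rw [e3, e1, e2]
  unfold dv
  rw [Finset.sum_congr rfl fun i _ => h2 i, ← Finset.mul_sum, Finset.sum_add_distrib,
    ← Finset.mul_sum, h.div _ hτ x, mul_zero, zero_add]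

/-- The localised solution. -/
lemma HS.toL (h : HS ν T u p) (ht₀ : 0 < t₀) (ht₀T : t₀ < T) (hξ : BF ξ) (hO : IsOpen O)
    (h1 : ∀ x ∈ O, ξ x = 1) (hE' : ∀ t ∈ Ioo t₀ T, enW (cw u t) (fun x => ξ x * ξ x) ≤ (ν * E') ^ 2)
    (hE : ∀ t ∈ Ioo t₀ T, enW (cw u t) (fun _ => 1) ≤ E) :
    ∃ κ, 0 ≤ κ ∧ LSol (ν * (T - t₀)) κ E' O (lu ν t₀ ξ u) (lq ν t₀ ξ p) := by
  have hν := h.hν
  obtain ⟨B, hB0, hB⟩ : ∃ B : ℝ, 0 ≤ B ∧ ∀ i x, |H459R3.NS.pd i ξ x| ≤ B := by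
    choose C hC0 hC using fun i => (hξ.pd i).bd []
    refine ⟨C 0 + C 1 + C 2, by linarith [hC0 0, hC0 1, hC0 2], fun i x => ?_⟩
    have h2 : C i ≤ ∑ j, C j := Finset.single_le_sum (fun j _ => hC0 j) (Finset.mem_univ i)
    have h3 : |H459R3.NS.pd i ξ x| ≤ C i := hC i 0 (mem_univ _) x
    rw [Fin.sum_univ_three] at h2
    exact h3.trans h2
  have hE0 : 0 ≤ E := by
    refine le_trans ?_ (hE ((t₀ + T) / 2) ⟨by linarith, by linarith⟩)
    unfold enW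
    exact integral_nonneg fun x => mul_nonneg (Finset.sum_nonneg fun _ _ => sq_nonneg _) zero_le_one
  have hφ : ContDiff ℝ ∞ (fun z : ℝ × V => (t₀ + z.1 / ν, z.2)) := by fun_prop
  have hmt : MapsTo (fun z : ℝ × V => (t₀ + z.1 / ν, z.2)) (Ioo 0 (ν * (T - t₀)) ×ˢ univ)
      (Ioo 0 T ×ˢ univ) := fun z hz => ⟨(lt_time hν ht₀ hz.1).2, mem_univ _⟩
  have hξ2 : ContDiffOn ℝ ∞ (fun z : ℝ × V => ξ z.2) (Ioo 0 (ν * (T - t₀)) ×ˢ univ) :=
    (hξ.sm.comp contDiff_snd).contDiffOn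
  have hint : ∀ t ∈ Ioo 0 (ν * (T - t₀)), ∀ i, Integrable fun x => lu ν t₀ ξ u t x i ^ 2 := by
    intro t ht i
    have := sqB_int (lu_HF h ht₀ hξ ht i) BF_one
    simpa using this
  have hens : ∀ t ∈ Ioo 0 (ν * (T - t₀)), ∫ x, nsq (lu ν t₀ ξ u t) x
      = (ν ^ 2)⁻¹ * enW (cw u (t₀ + t / ν)) (fun x => ξ x * ξ x) := by
    intro t ht
    unfold enW
    rw [← integral_const_mul]
    congr 1
    funext x
    simp only [nsq, lu, cw, Finset.sum_mul, Finset.mul_sum]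
    refine Finset.sum_congr rfl fun i _ => ?_
    field_simp
  refine ⟨√((ν ^ 2)⁻¹ * (3 * B ^ 2 * E)), Real.sqrt_nonneg _, ?_⟩
  constructor
  · exact hO
  · refine contDiffOn_pi.2 fun i => ?_
    exact contDiffOn_const.mul (hξ2.mul ((h.ju i).comp hφ.contDiffOn hmt))
  · exact contDiffOn_const.mul (hξ2.mul (h.jp.comp hφ.contDiffOn hmt))
  · intro t ht x hx
    have hτ := (lt_time hν ht₀ ht).2
    unfold dv
    rw [Finset.sum_congr rfl fun i _ => lu_pd h ht₀ hO h1 ht hx i i, ← Finset.mul_sum,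
      h.div _ hτ x, mul_zero]
  · intro t ht x hx i
    have hτ := (lt_time hν ht₀ ht).2
    have e1 : deriv (fun s => lu ν t₀ ξ u s x i) t
        = (ν ^ 2)⁻¹ * deriv (fun s => u s x i) (t₀ + t / ν) := by
      have a1 : HasDerivAt (fun s => u s x i) (deriv (fun s => u s x i) (t₀ + t / ν)) (t₀ + t / ν) :=
        ((h.ju i).dfT hτ x).hasDerivAt
      have a2 : HasDerivAt (fun s : ℝ => t₀ + s / ν) (ν⁻¹) t := by
        have := ((hasDerivAt_id t).div_const ν).const_add t₀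
        simpa using this
      have a3 := ((HasDerivAt.comp t a1 a2).const_mul ν⁻¹).deriv
      have e : (fun s => lu ν t₀ ξ u s x i) = fun s => ν⁻¹ * ((fun s => u s x i) ∘ fun s : ℝ => t₀ + s / ν) s := by
        funext s
        simp only [lu, h1 x hx, one_mul, Function.comp]
      rw [e, a3]
      field_simp
    have e2 : adv (lu ν t₀ ξ u t) (fun y => lu ν t₀ ξ u t y i) x
        = (ν ^ 2)⁻¹ * nl (fun i y => u (t₀ + t / ν) y i) i x := by
      unfold adv nl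
      rw [Finset.mul_sum]
      refine Finset.sum_congr rfl fun j _ => ?_
      rw [lu_pd h ht₀ hO h1 ht hx i j]
      simp only [lu, h1 x hx, one_mul]
      field_simp
    have e3 : lap (fun y => lu ν t₀ ξ u t y i) x = ν⁻¹ * OS.lp (fun y => u (t₀ + t / ν) y i) x := by
      unfold lap OS.lp
      rw [Finset.mul_sum]
      exact Finset.sum_congr rfl fun j _ => lu_pd2 h ht₀ hO h1 ht hx i j
    have e4 : H459R3.NS.pd i (lq ν t₀ ξ p t) x = (ν ^ 2)⁻¹ * H459R3.NS.pd i (p (t₀ + t / ν)) x := by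
      rw [pd_loc hO (g := fun y => (ν ^ 2)⁻¹ * p (t₀ + t / ν) y) (fun y hy => by
        simp only [lq, h1 y hy, one_mul]) i hx]
      exact pd_k (h.p_HF hτ).sm (ν ^ 2)⁻¹ i x
    rw [e1, e2, e3, e4, h.mom i _ hτ x]
    field_simp
    ring
  · intro t ht
    exact integrable_finsetSum _ fun i _ => hint t ht i
  · intro t ht
    rw [hens t ht]
    calc (ν ^ 2)⁻¹ * enW (cw u (t₀ + t / ν)) (fun x => ξ x * ξ x)
        ≤ (ν ^ 2)⁻¹ * (ν * E') ^ 2 :=
          mul_le_mul_of_nonneg_left (hE' _ (lt_time hν ht₀ ht).1) (by positivity)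
      _ = E' ^ 2 := by field_simp
  · intro t ht
    have h2 : HF (dv (lu ν t₀ ξ u t)) := HF.sum fun i => (lu_HF h ht₀ hξ ht i).pd i
    have := sqB_int h2 BF_one
    simpa using this
  · intro t ht
    have hτ := (lt_time hν ht₀ ht).2
    rw [Real.sq_sqrt (by positivity)]
    have h2 : HF (dv (lu ν t₀ ξ u t)) := HF.sum fun i => (lu_HF h ht₀ hξ ht i).pd i
    have i1 := sqB_int h2 BF_one
    simp only [mul_one] at i1
    have i2 : Integrable fun x => (∑ i, cw u (t₀ + t / ν) i x ^ 2) * 1 := by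
      have : ∀ i, Integrable fun x => cw u (t₀ + t / ν) i x ^ 2 := fun i => by
        simpa using sqB_int (h.cw_HF hτ i) BF_one
      simp only [mul_one]
      exact integrable_finsetSum _ fun i _ => this i
    calc ∫ x, dv (lu ν t₀ ξ u t) x ^ 2
        ≤ ∫ x, (ν ^ 2)⁻¹ * (3 * B ^ 2) * ((∑ i, cw u (t₀ + t / ν) i x ^ 2) * 1) := by
          refine integral_mono i1 (i2.const_mul _) fun x => ?_
          simp only
          rw [lu_dv h ht₀ hξ ht x, mul_pow, inv_pow, mul_assoc]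
          refine mul_le_mul_of_nonneg_left ?_ (by positivity)
          refine (Finset.sum_mul_sq_le_sq_mul_sq _ _ _).trans ?_
          rw [mul_one]
          refine mul_le_mul ?_ le_rfl (Finset.sum_nonneg fun _ _ => sq_nonneg _) (by positivity)
          calc ∑ i, H459R3.NS.pd i ξ x ^ 2 ≤ ∑ _i : Fin 3, B ^ 2 :=
                Finset.sum_le_sum fun i _ => by
                  rw [← sq_abs]
                  exact pow_le_pow_left₀ (abs_nonneg _) (hB i x) 2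
            _ = 3 * B ^ 2 := by simp
      _ = (ν ^ 2)⁻¹ * (3 * B ^ 2) * enW (cw u (t₀ + t / ν)) (fun _ => 1) := by
          rw [integral_const_mul]
          rfl
      _ ≤ (ν ^ 2)⁻¹ * (3 * B ^ 2) * E :=
          mul_le_mul_of_nonneg_left (hE _ (lt_time hν ht₀ ht).1) (by positivity)
      _ = _ := by ring

end

end Pool.Agent.H305.SL
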