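import Pool.Agent.H305.SL.Reg

/-!
Boundedness near the final time.
-/

set_option autoImplicit false

open MeasureTheory Set Metric Filter Topology
open scoped ContDiff ENNReal

namespace Pool.Agent.H305.SL

open H459R3.NS W221.NS W382.ME Pool.Agent.V1183.PM Pool.Agent.H305.OS

section
variable {c : Fin 3} {ν T : ℝ} {u : ℝ → V → V} {p : ℝ → V → ℝ} {t₀ σ E A ε κ : ℝ} {N : ℝ → ℝ≥0∞}

lemma ball_slb {x : V} {R : ℝ} (c : Fin 3) : ball x R ⊆ slb c (x c) R := by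
  intro y hy
  have h2 := norm_le_pi_norm (y - x) c
  rw [mem_ball, dist_eq_norm] at hy
  rw [Real.norm_eq_abs, Pi.sub_apply] at h2
  have h1 : |y c - x c| < R := h2.trans_lt hy
  exact h1

/-- Boundedness near a plane. -/
lemma P1.near (h : P1 ν T u p c t₀ σ E N A ε κ) (y : ℝ) : ∃ δ Q : ℝ, 0 < δ ∧
    ∀ t ∈ Ioo (T - δ) T, ∀ x : V, |x c - y| < δ → ‖u t x‖ ≤ Q := by
  obtain ⟨C, ε₀, hC, hε₀, hreg⟩ := reg'
  have hν := h.hν
  have hA := h.A0
  have hSB := MS.SB h.toMS h.EA h.bd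
  obtain ⟨b, hb, hb2⟩ : ∃ b : ℝ, 0 < b ∧ b ^ 2 = ν / 16 := by
    refine ⟨√(ν / 16), Real.sqrt_pos.2 (by positivity), Real.sq_sqrt (by positivity)⟩
  obtain ⟨q, hq⟩ : ∃ q : ℝ, q = 1 + C * b + C * (ν⁻¹ * √(3 * (2 * A) * b)) := ⟨_, rfl⟩
  have hq1 : 1 ≤ q := by
    have h1 : 0 ≤ C * b := by positivity
    have h2 : 0 ≤ C * (ν⁻¹ * √(3 * (2 * A) * b)) := by positivity
    linarith
  obtain ⟨L, hL⟩ : ∃ L : ℝ, L = q ^ 2 := ⟨_, rfl⟩
  have hL0 : 0 < L := by rw [hL]; positivity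
  have hθ : 0 < ε₀ * ν * b := by positivity
  obtain ⟨k, hk0, hk⟩ := (P1.small h y hL0 hθ).exists
  have hh : (0 : ℝ) < (1 / 2) ^ k := by positivity
  have h4 : ((1 : ℝ) / 4) ^ k = ((1 / 2) ^ k) ^ 2 := pow4 k
  have h4p : (0 : ℝ) < (1 / 4) ^ k := by positivity
  obtain ⟨m, hm⟩ : ∃ m : ℝ, m = 2 * A * (3 * (L * (1 / 2) ^ k)) := ⟨_, rfl⟩
  have hm0 : 0 ≤ m := by rw [hm]; positivity
  have hr : 0 < b * (1 / 2) ^ k := by positivity
  obtain ⟨δ, Q, hδ, hQ⟩ := hreg ν m (b * (1 / 2) ^ k) hν hm0 hr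
  have hrν : (b * (1 / 2) ^ k) ^ 2 / ν = (1 / 4) ^ k / 16 := by
    rw [mul_pow, hb2, ← h4]
    field_simp
  have hCρ : C * (b * (1 / 2) ^ k + ν⁻¹ * √m * √(b * (1 / 2) ^ k)) ≤ L * (1 / 2) ^ k := by
    have e1 : √m * √(b * (1 / 2) ^ k) = √(3 * (2 * A) * b) * q * (1 / 2) ^ k := by
      rw [← Real.sqrt_mul hm0, hm, hL]
      have e2 : 2 * A * (3 * (q ^ 2 * (1 / 2) ^ k)) * (b * (1 / 2) ^ k)
          = 3 * (2 * A) * b * (q * (1 / 2) ^ k) ^ 2 := by ring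
      rw [e2, Real.sqrt_mul (by positivity), Real.sqrt_sq (by positivity)]
      ring
    calc C * (b * (1 / 2) ^ k + ν⁻¹ * √m * √(b * (1 / 2) ^ k))
        = (C * b + C * (ν⁻¹ * √(3 * (2 * A) * b)) * q) * (1 / 2) ^ k := by
          rw [mul_assoc ν⁻¹, e1]; ring
      _ ≤ L * (1 / 2) ^ k := by
          refine mul_le_mul_of_nonneg_right ?_ hh.le
          have h1 : 0 ≤ C * b := by positivity
          have h2 : 0 ≤ C * (ν⁻¹ * √(3 * (2 * A) * b)) := by positivity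
          rw [hL, pow_two]
          calc C * b + C * (ν⁻¹ * √(3 * (2 * A) * b)) * q
              ≤ (1 + C * b) * q + C * (ν⁻¹ * √(3 * (2 * A) * b)) * q := by
                have : C * b ≤ (1 + C * b) * q := by nlinarith
                linarith
            _ = q * q := by rw [hq]; ring
  have ht₀' : 0 < T - (1 / 4) ^ k / 4 := by
    have := h.t0
    linarith
  refine ⟨min δ ((1 / 4) ^ k / 8), Q, by positivity, ?_⟩
  intro t ht x hx
  have hδ1 : min δ ((1 / 4) ^ k / 8) ≤ δ := min_le_left _ _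
  have hδ2 : min δ ((1 / 4 : ℝ) ^ k / 8) ≤ (1 / 4) ^ k / 8 := min_le_right _ _
  have hx0 : (Function.update x c y) c = y := Function.update_self _ _ _
  have hxb : x ∈ ball (Function.update x c y) δ := by
    rw [mem_ball, dist_pi_lt_iff hδ]
    intro i
    by_cases hi : i = c
    · subst hi
      rw [Function.update_self, Real.dist_eq]
      exact hx.trans_le hδ1
    · rw [Function.update_of_ne hi, dist_self]
      exact hδ
  refine hQ T u p h.toHS (T - (1 / 4) ^ k / 4) ht₀' (Function.update x c y) (L * (1 / 2) ^ k) hCρ ?_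
    ((t + T) / 2) ?_ ?_ ?_ t ?_ x hxb
  · intro τ hτ
    have h1 := hSB.sb1 y (3 * (L * (1 / 2) ^ k)) (by positivity) τ ⟨by linarith [hτ.1], hτ.2⟩
    rw [← hm] at h1
    refine le_trans (lintegral_mono_set ?_) h1
    have := ball_slb (x := Function.update x c y) (R := 3 * (L * (1 / 2) ^ k)) c
    rwa [hx0] at this
  · rw [hrν]
    linarith [ht.1]
  · linarith [ht.2]
  · refine le_trans (lintegral_mono_set Ioo_subset_Ioc_self) ?_
    refine (hk _ hx0 ((t + T) / 2) ⟨by linarith [ht.1], by linarith [ht.2]⟩).trans (le_of_eq ?_)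
    congr 1
    ring
  · constructor
    · linarith [ht.1]
    · linarith [ht.2]

/-- The tails of the dissipation. -/
lemma MS.tail (h : MS ν T u p c t₀ σ E N) {η : ℝ} (hη : 0 < η) : ∃ R : ℝ, 0 < R ∧
    ∫⁻ t in Ioo t₀ T, ∫⁻ x in {x : V | R < |x c|}, ENNReal.ofReal (gw (cw u t) x)
      ≤ ENNReal.ofReal η := by
  have hSm : ∀ n : ℕ, MeasurableSet {x : V | (n : ℝ) < |x c|} := fun n =>
    measurableSet_lt measurable_const (by fun_prop)
  have hsub : Ioo t₀ T ⊆ Ioo 0 T := Ioo_subset_Ioo_left h.t0.le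
  have hgm : ∀ t ∈ Ioo t₀ T, Measurable fun x => ENNReal.ofReal (gw (cw u t) x) := by
    intro t ht
    have : Continuous (gw (cw u t)) := gw_cont fun i => h.cw_HF (hsub ht) i
    exact this.measurable.ennreal_ofReal
  have hfin : ∫⁻ t in Ioo t₀ T, ∫⁻ x, ENNReal.ofReal (gw (cw u t) x) ≠ ⊤ :=
    ne_top_of_le_ne_top ENNReal.ofReal_ne_top h.e2
  have hm0 : AEMeasurable (fun t => ∫⁻ x, ENNReal.ofReal (gw (cw u t) x))
      (volume.restrict (Ioo t₀ T)) := by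
    have := J_aem (HS.j_gw h.toHS) (S := univ) (μ := volume) measurableSet_Ioo hsub
    simpa using this
  have hlim : Tendsto (fun n : ℕ => ∫⁻ t in Ioo t₀ T,
      ∫⁻ x in {x : V | (n : ℝ) < |x c|}, ENNReal.ofReal (gw (cw u t) x)) atTop (𝓝 0) := by
    have h0 : ∫⁻ t in Ioo t₀ T, (0 : ℝ≥0∞) = 0 := by simp
    rw [← h0]
    refine tendsto_lintegral_of_dominated_convergence'
      (fun t => ∫⁻ x, ENNReal.ofReal (gw (cw u t) x))
      (fun n => J_aem (HS.j_gw h.toHS) measurableSet_Ioo hsub) (fun n => ?_) hfin ?_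
    · exact Eventually.of_forall fun t => setLIntegral_le_lintegral _ _
    · filter_upwards [ae_restrict_mem measurableSet_Ioo,
        ae_lt_top' hm0 hfin] with t ht hft
      have e1 : ∀ n : ℕ, ∫⁻ x in {x : V | (n : ℝ) < |x c|}, ENNReal.ofReal (gw (cw u t) x)
          = ∫⁻ x, ({x : V | (n : ℝ) < |x c|}).indicator
            (fun x => ENNReal.ofReal (gw (cw u t) x)) x := fun n =>
        (lintegral_indicator (hSm n) _).symm
      simp only [e1]
      have h00 : ∫⁻ x : V, (0 : ℝ≥0∞) = 0 := by simp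
      rw [← h00]
      refine tendsto_lintegral_of_dominated_convergence
        (fun x => ENNReal.ofReal (gw (cw u t) x)) (fun n => (hgm t ht).indicator (hSm n))
        (fun n => Eventually.of_forall fun x => indicator_le_self _ _ _) hft.ne ?_
      refine Eventually.of_forall fun x => ?_
      refine tendsto_atTop_of_eventually_const (i₀ := ⌈|x c|⌉₊) fun n hn => ?_
      refine indicator_of_notMem ?_ _
      simp only [mem_setOf_eq, not_lt]
      exact (Nat.le_ceil _).trans (by exact_mod_cast hn)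
  have hev := (tendsto_order.1 hlim).2 (ENNReal.ofReal η) (by positivity)
  obtain ⟨n, hn, hn1⟩ := (hev.and (eventually_gt_atTop 0)).exists
  exact ⟨n, by exact_mod_cast hn1, hn.le⟩

/-- Boundedness far away. -/
lemma MS.far (h : MS ν T u p c t₀ σ E N) : ∃ R δ Q : ℝ, 0 < δ ∧
    ∀ t ∈ Ioo (T - δ) T, ∀ x : V, R ≤ |x c| → ‖u t x‖ ≤ Q := by
  obtain ⟨C, ε₀, hC, hε₀, hreg⟩ := reg'
  have hν := h.hν
  have hTt : 0 < T - t₀ := by linarith [h.tT]
  obtain ⟨r, hr, hr2⟩ : ∃ r : ℝ, 0 < r ∧ r ^ 2 = ν * (T - t₀) / 4 :=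
    ⟨√(ν * (T - t₀) / 4), Real.sqrt_pos.2 (by positivity), Real.sq_sqrt (by positivity)⟩
  have hrν : r ^ 2 / ν = (T - t₀) / 4 := by
    rw [hr2]
    field_simp
  obtain ⟨δ, Q, hδ, hQ⟩ := hreg ν E r hν h.E0 hr
  obtain ⟨R, hR, hRt⟩ := MS.tail h (η := ε₀ * ν * r) (by positivity)
  obtain ⟨ρ, hρ⟩ : ∃ ρ : ℝ, ρ = C * (r + ν⁻¹ * √E * √r) := ⟨_, rfl⟩
  refine ⟨R + ρ, min δ ((T - t₀) / 4), Q, by positivity, ?_⟩
  intro t ht x hx
  have hδ1 : min δ ((T - t₀) / 4) ≤ δ := min_le_left _ _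
  have hδ2 : min δ ((T - t₀) / 4) ≤ (T - t₀) / 4 := min_le_right _ _
  refine hQ T u p h.toHS t₀ h.t0 x ρ hρ.ge ?_ ((t + T) / 2) ?_ ?_ ?_ t ?_ x (mem_ball_self hδ)
  · intro τ hτ
    exact (setLIntegral_le_lintegral _ _).trans (h.e1 τ ⟨hτ.1.le, hτ.2⟩)
  · rw [hrν]
    linarith [ht.1]
  · linarith [ht.2]
  · refine le_trans ?_ hRt
    refine le_trans (lintegral_mono_set (Ioo_subset_Ioo_right (show (t + T) / 2 ≤ T by linarith [ht.2]))) ?_
    refine lintegral_mono fun τ => lintegral_mono_set ?_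
    intro z hz
    have h1 := ball_slb c hz
    have h2 : |z c - x c| < ρ := h1
    have h3 := abs_sub_abs_le_abs_sub (x c) (z c)
    rw [abs_sub_comm] at h3
    simp only [mem_setOf_eq]
    linarith
  · constructor
    · linarith [ht.1]
    · linarith [ht.2]

/-- Boundedness near the final time. -/
theorem P1.bounded (h : P1 ν T u p c t₀ σ E N A ε κ) : ∃ s ∈ Ioo t₀ T, ∃ Q : ℝ,
    ∀ t ∈ Ioo s T, ∀ x : V, ‖u t x‖ ≤ Q := by
  obtain ⟨R, δ₁, Q₁, hδ₁, hfar⟩ := MS.far h.toMS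
  obtain ⟨δ₂, Q₂, hδ₂, hnear⟩ : ∃ δ Q : ℝ, 0 < δ ∧
      ∀ t ∈ Ioo (T - δ) T, ∀ x : V, x c ∈ Icc (-|R|) |R| → ‖u t x‖ ≤ Q := by
    refine isCompact_Icc.induction_on (p := fun U : Set ℝ => ∃ δ Q : ℝ, 0 < δ ∧
      ∀ t ∈ Ioo (T - δ) T, ∀ x : V, x c ∈ U → ‖u t x‖ ≤ Q) ?_ ?_ ?_ ?_
    · exact ⟨1, 0, one_pos, fun t _ x hx => absurd hx (notMem_empty _)⟩
    · rintro U W hUW ⟨δ, Q, hδ, hQ⟩
      exact ⟨δ, Q, hδ, fun t ht x hx => hQ t ht x (hUW hx)⟩
    · rintro U W ⟨δ, Q, hδ, hQ⟩ ⟨δ', Q', hδ', hQ'⟩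
      refine ⟨min δ δ', max Q Q', lt_min hδ hδ', fun t ht x hx => ?_⟩
      rcases hx with hx | hx
      · exact (hQ t ⟨by linarith [ht.1, min_le_left δ δ'], ht.2⟩ x hx).trans (le_max_left _ _)
      · exact (hQ' t ⟨by linarith [ht.1, min_le_right δ δ'], ht.2⟩ x hx).trans (le_max_right _ _)
    · intro y _
      obtain ⟨δ, Q, hδ, hQ⟩ := P1.near h y
      refine ⟨ball y δ, mem_nhdsWithin_of_mem_nhds (ball_mem_nhds y hδ), δ, Q, hδ, ?_⟩
      intro t ht x hx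
      exact hQ t ht x (by rwa [mem_ball, Real.dist_eq] at hx)
  have hT := h.tT
  refine ⟨max (max (T - δ₁) (T - δ₂)) ((t₀ + T) / 2), ⟨?_, ?_⟩, max Q₁ Q₂, ?_⟩
  · exact lt_of_lt_of_le (by linarith) (le_max_right _ _)
  · refine max_lt (max_lt (by linarith) (by linarith)) (by linarith)
  · intro t ht x
    have h1 : T - δ₁ < t := lt_of_le_of_lt ((le_max_left _ _).trans (le_max_left _ _)) ht.1
    have h2 : T - δ₂ < t := lt_of_le_of_lt ((le_max_right _ _).trans (le_max_left _ _)) ht.1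
    by_cases hx : x c ∈ Icc (-|R|) |R|
    · exact (hnear t ⟨h2, ht.2⟩ x hx).trans (le_max_right _ _)
    · refine (hfar t ⟨h1, ht.2⟩ x ?_).trans (le_max_left _ _)
      by_contra hlt
      push Not at hlt
      exact hx (abs_le.1 (hlt.le.trans (le_abs_self R)))

end

end Pool.Agent.H305.SL
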