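import Pool.Agent.H305.SL.Gid

/-!
Uniform bounds on slabs.
-/

set_option autoImplicit false

open MeasureTheory Set Metric Filter Topology
open scoped ContDiff ENNReal

namespace Pool.Agent.H305.SL

open H459R3.NS W221.NS Pool.Agent.V1183.PM Pool.Agent.H305.OS
open Pool.Agent.W583.MD (sm_pd pd_mul')
open Pool.Agent.W22.ME.TD (pd_comm)
open Pool.Agent.H305.TI (it it_nil it_cons it_sm J_it dt_it)

lemma exists_tri (c : Fin 3) : ∃ a b, Tri c a b := by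
  fin_cases c
  · exact ⟨1, 2, by decide, by decide, by decide⟩
  · exact ⟨0, 2, by decide, by decide, by decide⟩
  · exact ⟨0, 1, by decide, by decide, by decide⟩

/-- The initial bound. -/
lemma slab0 {v : Fin 3 → V → ℝ} (hv : ∀ i, HF (v i)) (c : Fin 3) :
    ∃ m : ℝ, 0 ≤ m ∧ ∀ y ρ : ℝ, 0 < ρ → sE v c y ρ ≤ ENNReal.ofReal (m * ρ) := by
  obtain ⟨a, b, hT⟩ := exists_tri c
  have hL : ∀ i, LF (fun x => v i x * v i x) := fun i => (hv i).mulL (hv i)
  obtain ⟨M, hM⟩ : ∃ M : ℝ≥0∞, M = ∑ i, ∫⁻ x, ENNReal.ofReal |H459R3.NS.pd c (fun x => v i x * v i x) x| :=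
    ⟨_, rfl⟩
  have hMt : M ≠ (⊤ : ℝ≥0∞) := by
    rw [hM]
    refine (ENNReal.sum_lt_top.2 fun i _ => ?_).ne
    exact lt_top_iff_ne_top.2 ((hL i).int [c])
  refine ⟨2 * M.toReal, by positivity, ?_⟩
  intro y ρ hρ
  have h1 : ∀ i, ∫⁻ x in slb c y ρ, ENNReal.ofReal |v i x * v i x| ≤ ENNReal.ofReal (2 * ρ) *
      ∫⁻ x, ENNReal.ofReal |H459R3.NS.pd c (fun x => v i x * v i x) x| := by
    intro i
    have mF : Measurable fun x => ENNReal.ofReal |v i x * v i x| := (hL i).meas_abs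
    have mG : Measurable fun x => ENNReal.ofReal |H459R3.NS.pd c (fun x => v i x * v i x) x| :=
      ((hL i).pd c).meas_abs
    rw [← lintegral_indicator slb_meas, hT.fub (mF.indicator slb_meas), hT.fub mG,
      ← lintegral_const_mul' _ _ ENNReal.ofReal_ne_top]
    apply lintegral_mono
    intro β
    simp only
    rw [← lintegral_const_mul' _ _ ENNReal.ofReal_ne_top]
    apply lintegral_mono
    intro α
    simp only
    have h2 : ∀ s, (slb c y ρ).indicator (fun x => ENNReal.ofReal |v i x * v i x|) (pt c a s α β)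
        ≤ (Ioo (y - ρ) (y + ρ)).indicator (fun _ => ∫⁻ s', ENNReal.ofReal
          |H459R3.NS.pd c (fun x => v i x * v i x) (pt c a s' α β)|) s := by
      intro s
      by_cases hs : pt c a s α β ∈ slb c y ρ
      · have hc : pt c a s α β c = s := by
          unfold pt
          rw [if_pos rfl]
        have h3 : s ∈ Ioo (y - ρ) (y + ρ) := by
          have : |pt c a s α β c - y| < ρ := hs
          rw [hc, abs_lt] at this
          constructor <;> linarith [this.1, this.2]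
        rw [indicator_of_mem hs, indicator_of_mem h3]
        exact (hL i).le_j c a s α β
      · rw [indicator_of_notMem hs]
        exact zero_le
    refine (lintegral_mono h2).trans ?_
    rw [lintegral_indicator measurableSet_Ioo, setLIntegral_const, Real.volume_Ioo, mul_comm]
    gcongr
    linarith
  have h2 : sE v c y ρ = ∑ i, ∫⁻ x in slb c y ρ, ENNReal.ofReal |v i x * v i x| := by
    unfold sE nw
    rw [← lintegral_finsetSum _ fun i _ => (hL i).meas_abs]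
    apply lintegral_congr
    intro x
    rw [ENNReal.ofReal_sum_of_nonneg fun i _ => sq_nonneg _]
    apply Finset.sum_congr rfl
    intro i _
    rw [abs_of_nonneg (mul_self_nonneg _), sq]
  rw [h2]
  calc ∑ i, ∫⁻ x in slb c y ρ, ENNReal.ofReal |v i x * v i x|
      ≤ ∑ i, ENNReal.ofReal (2 * ρ) *
        ∫⁻ x, ENNReal.ofReal |H459R3.NS.pd c (fun x => v i x * v i x) x| :=
        Finset.sum_le_sum fun i _ => h1 i
    _ = ENNReal.ofReal (2 * ρ) * M := by rw [← Finset.mul_sum, hM]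
    _ = ENNReal.ofReal (2 * ρ) * ENNReal.ofReal M.toReal := by rw [ENNReal.ofReal_toReal hMt]
    _ = _ := by
        rw [← ENNReal.ofReal_mul (by positivity)]
        congr 1
        ring

/-- A Gaussian average of a function with bounded integrals over the slabs. -/
lemma gk_int {ν τ m y : ℝ} {c : Fin 3} (hν : 0 < ν) (hτ : 0 < τ) {F : V → ℝ≥0∞}
    (hF : Measurable F) (hm : 0 ≤ m)
    (h : ∀ y', ∫⁻ x in slb c y' (√τ), F x ≤ ENNReal.ofReal (m * √τ)) :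
    ∫⁻ x, F x * ENNReal.ofReal (gk ν τ (x c - y)) ≤ ENNReal.ofReal (3 * kap ν * Zs * m) := by
  have h0 : 0 < √τ := Real.sqrt_pos.2 hτ
  have hk := kap_pos ν
  have hZ := Zs_pos
  have h1 := cov_le (c := c) (y := y) h0 hF (φ := fun z => ENNReal.ofReal (gk ν τ z))
    (Φ := fun i : ℤ => ENNReal.ofReal ((3 * kap ν / √τ) / (1 + (i : ℝ) ^ 2))) (by
      intro i z hi
      apply ENNReal.ofReal_le_ofReal
      refine (gk_le hν hτ).trans ?_
      have h2 := wt_i h0 i hi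
      rw [Real.sq_sqrt hτ.le] at h2
      calc kap ν * (√τ / (τ + z ^ 2)) = kap ν * √τ * (1 / (τ + z ^ 2)) := by ring
        _ ≤ kap ν * √τ * (3 / (τ * (1 + (i : ℝ) ^ 2))) := by gcongr
        _ = _ := by
            nth_rewrite 2 [← Real.mul_self_sqrt hτ.le]
            field_simp) h
  refine h1.trans ?_
  rw [Zs_ofReal _ (by positivity), ← ENNReal.ofReal_mul (by positivity)]
  apply ENNReal.ofReal_le_ofReal
  apply le_of_eq
  field_simp

lemma BF_one : BF (fun _ : V => (1 : ℝ)) := UB.const 1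

lemma pd_one (k : Fin 3) (x : V) : H459R3.NS.pd k (fun _ : V => (1 : ℝ)) x = 0 := by
  unfold H459R3.NS.pd
  simp

lemma lp_one (x : V) : lp (fun _ : V => (1 : ℝ)) x = 0 := by
  unfold OS.lp
  have : ∀ k, H459R3.NS.pd k (fun _ : V => (1 : ℝ)) = fun _ => 0 := fun k => funext fun x => pd_one k x
  simp only [this]
  unfold H459R3.NS.pd
  simp

section
variable {c : Fin 3} {ν T T' y τ s t₁ : ℝ} {u : ℝ → V → V} {p : ℝ → V → ℝ} {ζ : V → ℝ}

lemma enW_lint {w : Fin 3 → V → ℝ} {Φ : V → ℝ} (hw : ∀ i, HF (w i)) (hΦ : BF Φ)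
    (h0 : ∀ x, 0 ≤ Φ x) :
    ENNReal.ofReal (enW w Φ) = ∫⁻ x, ENNReal.ofReal (nw w x) * ENNReal.ofReal (Φ x) := by
  unfold enW
  rw [ofReal_integral_eq_lintegral_ofReal]
  · apply lintegral_congr
    intro x
    exact ENNReal.ofReal_mul (nw_nonneg w x)
  · simp only [Finset.sum_mul]
    exact integrable_finsetSum _ fun i _ => sqB_int (hw i) hΦ
  · exact Eventually.of_forall fun x => mul_nonneg (nw_nonneg w x) (h0 x)

lemma dsW_lint {w : Fin 3 → V → ℝ} {Φ : V → ℝ} (hw : ∀ i, HF (w i)) (hΦ : BF Φ)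
    (h0 : ∀ x, 0 ≤ Φ x) :
    ENNReal.ofReal (dsW w Φ) = ∫⁻ x, ENNReal.ofReal (gw w x) * ENNReal.ofReal (Φ x) := by
  unfold dsW
  rw [ofReal_integral_eq_lintegral_ofReal]
  · apply lintegral_congr
    intro x
    exact ENNReal.ofReal_mul (gw_nonneg w x)
  · simp only [Finset.sum_mul]
    exact integrable_finsetSum _ fun i _ => integrable_finsetSum _ fun k _ =>
      sqB_int ((hw i).pd k) hΦ
  · exact Eventually.of_forall fun x => mul_nonneg (gw_nonneg w x) (h0 x)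

lemma wg_BF (hζ : BF ζ) (hν : 0 < ν) (hτ : τ < T') : BF (wg ζ ν c T' y τ) := by
  have h1 : UB (Icc τ τ) (gW ν c T' y) := gW_ub hν le_rfl hτ y
  have h2 : UB (Icc τ τ) (fun _ => ζ) := hζ.mono (subset_univ _)
  exact (h2.mul h1).at ⟨le_rfl, le_rfl⟩

/-- The energy inequality in a slab. -/
lemma gin1 (h : HS ν T u p) (ht₁ : 0 < t₁) (hts : t₁ ≤ s) (hs : s < T) (hT' : s < T') (y : ℝ) :
    (∫⁻ x, ENNReal.ofReal (nw (cw u s) x) * ENNReal.ofReal (gk ν (T' - s) (x c - y)))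
      + ENNReal.ofReal ν * ∫⁻ τ in Ioc t₁ s, ∫⁻ x, ENNReal.ofReal (gw (cw u τ) x)
        * ENNReal.ofReal (gk ν (T' - τ) (x c - y))
      ≤ (∫⁻ x, ENNReal.ofReal (nw (cw u t₁) x) * ENNReal.ofReal (gk ν (T' - t₁) (x c - y)))
      + ENNReal.ofReal (kap ν ^ 2 / ν) * ∫⁻ τ in Ioc t₁ s, ∫⁻ x, ENNReal.ofReal (fx u p c τ x)
        * ENNReal.ofReal (1 / ((T' - τ) + (x c - y) ^ 2)) := by
  have hν := h.hν
  have hk := kap_pos ν
  have key := gin (c := c) h ht₁ hts hs hT' BF_one (fun x => pd_one c x) (fun x => zero_le_one) y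
  have hI : ∀ τ ∈ Icc t₁ s, τ ∈ Ioo 0 T := fun τ hτ => ⟨ht₁.trans_le hτ.1, hτ.2.trans_lt hs⟩
  have e0 : ∀ τ x, wg (fun _ => 1) ν c T' y τ x = gk ν (T' - τ) (x c - y) := by
    intro τ x
    unfold wg
    rw [one_mul]
    rfl
  have hw : ∀ τ ∈ Icc t₁ s, ∀ i, HF (cw u τ i) := fun τ hτ i => h.cw_HF (hI τ hτ) i
  have hg : ∀ τ ∈ Icc t₁ s, BF (wg (fun _ => 1) ν c T' y τ) := fun τ hτ =>
    wg_BF BF_one hν (hτ.2.trans_lt hT')
  have hg0 : ∀ τ x, 0 ≤ wg (fun _ => 1) ν c T' y τ x := fun τ x => by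
    rw [e0]
    exact gk_nonneg _ _ _
  have e1 : ∀ τ ∈ Icc t₁ s, ENNReal.ofReal (enW (cw u τ) (wg (fun _ => 1) ν c T' y τ))
      = ∫⁻ x, ENNReal.ofReal (nw (cw u τ) x) * ENNReal.ofReal (gk ν (T' - τ) (x c - y)) := by
    intro τ hτ
    rw [enW_lint (hw τ hτ) (hg τ hτ) (hg0 τ)]
    simp only [e0]
  have e2 : ∫⁻ τ in Ioc t₁ s, ENNReal.ofReal (ν * dsW (cw u τ) (wg (fun _ => 1) ν c T' y τ))
      = ENNReal.ofReal ν * ∫⁻ τ in Ioc t₁ s, ∫⁻ x, ENNReal.ofReal (gw (cw u τ) x)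
        * ENNReal.ofReal (gk ν (T' - τ) (x c - y)) := by
    rw [← lintegral_const_mul' _ _ ENNReal.ofReal_ne_top]
    apply setLIntegral_congr_fun measurableSet_Ioc
    intro τ hτ
    have hτ' := Ioc_subset_Icc_self hτ
    simp only
    rw [ENNReal.ofReal_mul hν.le, dsW_lint (hw τ hτ') (hg τ hτ') (hg0 τ)]
    simp only [e0]
  have e3 : ∫⁻ τ in Ioc t₁ s, ENNReal.ofReal |flW (cw u τ) (p τ) (wg (fun _ => 1) ν c T' y τ)
      + ν * enW (cw u τ) (fun x => lp (fun _ => 1) x * gW ν c T' y τ x)|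
      ≤ ENNReal.ofReal (kap ν ^ 2 / ν) * ∫⁻ τ in Ioc t₁ s, ∫⁻ x, ENNReal.ofReal (fx u p c τ x)
        * ENNReal.ofReal (1 / ((T' - τ) + (x c - y) ^ 2)) := by
    rw [← lintegral_const_mul' _ _ ENNReal.ofReal_ne_top]
    apply setLIntegral_mono' measurableSet_Ioc
    intro τ hτ
    have hτ' := Ioc_subset_Icc_self hτ
    have e4 : enW (cw u τ) (fun x => lp (fun _ => 1) x * gW ν c T' y τ x) = 0 := by
      unfold enW
      simp only [lp_one, zero_mul, mul_zero, integral_zero]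
    rw [e4, mul_zero, add_zero]
    refine (flW_le hν (hτ.2.trans_lt hT') (cw u τ) (p τ) BF_one.sm (fun x => zero_le_one)
      (fun x => pd_one c x) (fun i => (hw τ hτ' i).sm.continuous.measurable)
      (h.p_HF (hI τ hτ')).sm.continuous.measurable).trans ?_
    simp only [pd_one, abs_zero, mul_zero, Finset.sum_const_zero, ENNReal.ofReal_zero, zero_mul,
      lintegral_zero, add_zero, ENNReal.ofReal_one, one_mul]
    exact le_rfl
  rw [e1 s ⟨hts, le_rfl⟩, e1 t₁ ⟨le_rfl, hts⟩, e2] at key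
  exact key.trans (add_le_add le_rfl e3)

end

/-- The sum of the weights over the scales. -/
noncomputable def Sk (κ : ℝ) : ℝ := ∑' j : ℕ, (1 + (j : ℝ)) * κ ^ j

lemma Sk_sum {κ : ℝ} (h0 : 0 < κ) (h1 : κ < 1) : Summable fun j : ℕ => (1 + (j : ℝ)) * κ ^ j := by
  have a1 := summable_geometric_of_lt_one h0.le h1
  have a2 := summable_pow_mul_geometric_of_norm_lt_one (R := ℝ) 1 (r := κ)
    (by rw [Real.norm_eq_abs, abs_of_pos h0]; exact h1)
  refine (a1.add a2).congr fun j => ?_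
  ring

lemma Sk_pos {κ : ℝ} (h0 : 0 < κ) (h1 : κ < 1) : 0 < Sk κ := by
  have h2 : (1 + ((0 : ℕ) : ℝ)) * κ ^ 0 ≤ Sk κ := (Sk_sum h0 h1).le_tsum 0 (fun i _ => by positivity)
  norm_num at h2
  linarith

/-- The norms of the multiplier on short intervals. -/
def NU (σ : ℝ) (N : ℝ → ℝ≥0∞) (t₀ T ε κ : ℝ) : Prop :=
  ∀ j : ℕ, ∀ s' s : ℝ, t₀ ≤ s' → s' ≤ s → s < T → s - s' ≤ (1 / 4) ^ j →
    nI σ N (Ioc s' s) ≤ ENNReal.ofReal (ε * κ ^ j)

lemma NU.sum {σ : ℝ} {N : ℝ → ℝ≥0∞} {t₀ T ε κ : ℝ} (h : NU σ N t₀ T ε κ) (hκ0 : 0 < κ)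
    (hκ1 : κ < 1) (hε : 0 ≤ ε) {t₁ s : ℝ} (ht₁ : t₀ ≤ t₁) (hts : t₁ ≤ s) (hs : s < T) (k : ℕ) :
    ∑ j ∈ Finset.range (k + 1), (1 + (j : ℝ≥0∞)) * nI σ N (Ioc (max t₁ (s - (1 / 4) ^ j)) s)
      ≤ ENNReal.ofReal (ε * Sk κ) := by
  calc ∑ j ∈ Finset.range (k + 1), (1 + (j : ℝ≥0∞)) * nI σ N (Ioc (max t₁ (s - (1 / 4) ^ j)) s)
      ≤ ∑ j ∈ Finset.range (k + 1), ENNReal.ofReal (ε * ((1 + (j : ℝ)) * κ ^ j)) := by
        apply Finset.sum_le_sum
        intro j _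
        have e1 : 0 < ((1 : ℝ) / 4) ^ j := by positivity
        have e2 := h j (max t₁ (s - (1 / 4) ^ j)) s (ht₁.trans (le_max_left _ _))
          (max_le hts (by linarith)) hs (by linarith [le_max_right t₁ (s - (1 / 4) ^ j)])
        have e3 : (1 + (j : ℝ≥0∞)) = ENNReal.ofReal (1 + j) := by
          rw [ENNReal.ofReal_add (by norm_num) (Nat.cast_nonneg j), ENNReal.ofReal_one,
            ENNReal.ofReal_natCast]
        rw [e3]
        refine (mul_le_mul_right e2 _).trans ?_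
        rw [← ENNReal.ofReal_mul (by positivity)]
        apply ENNReal.ofReal_le_ofReal
        apply le_of_eq
        ring
    _ = ENNReal.ofReal (∑ j ∈ Finset.range (k + 1), ε * ((1 + (j : ℝ)) * κ ^ j)) := by
        rw [ENNReal.ofReal_sum_of_nonneg fun j _ => by positivity]
    _ ≤ _ := by
        apply ENNReal.ofReal_le_ofReal
        rw [← Finset.mul_sum]
        gcongr
        exact (Sk_sum hκ0 hκ1).sum_le_tsum _ (fun j _ => by positivity)

/-- The constant in the slab bounds. -/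
noncomputable def Kn (ν : ℝ) : ℝ := 2 * Real.exp (1 / (4 * ν)) * (1 + ν⁻¹)

lemma Kn_pos {ν : ℝ} (hν : 0 < ν) : 0 < Kn ν := by
  unfold Kn
  positivity

/-- From the weighted integrals to the slabs. -/
lemma slab_of_gk {c : Fin 3} {ν T : ℝ} {u : ℝ → V → V} (hν : 0 < ν) {t₀ s y R : ℝ} (hR : 0 ≤ R) (j : ℕ)
    (h : (∫⁻ x, ENNReal.ofReal (nw (cw u s) x) * ENNReal.ofReal (gk ν ((s + (1 / 4) ^ j) - s) (x c - y)))
      + ENNReal.ofReal ν * ∫⁻ τ in Ioc t₀ s, ∫⁻ x, ENNReal.ofReal (gw (cw u τ) x)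
        * ENNReal.ofReal (gk ν ((s + (1 / 4) ^ j) - τ) (x c - y)) ≤ ENNReal.ofReal R) :
    sE (cw u s) c y ((1 / 2) ^ j) ≤ ENNReal.ofReal (Kn ν * R * (1 / 2) ^ j) ∧
    ∫⁻ τ in Ioc (max t₀ (s - (1 / 4) ^ j)) s, sG (cw u τ) c y ((1 / 2) ^ j)
      ≤ ENNReal.ofReal (Kn ν * R * (1 / 2) ^ j) := by
  obtain ⟨ρ, hρe⟩ : ∃ ρ : ℝ, ρ = (1 / 2) ^ j := ⟨_, rfl⟩
  have hρ : 0 < ρ := by rw [hρe]; positivity
  have hρ2 : ((1 : ℝ) / 4) ^ j = ρ ^ 2 := by
    rw [hρe, ← pow_mul, mul_comm, pow_mul]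
    norm_num
  rw [hρ2] at h ⊢
  rw [← hρe]
  obtain ⟨e, he⟩ : ∃ e : ℝ, e = Real.exp (1 / (4 * ν)) := ⟨_, rfl⟩
  have he0 : 0 < e := by rw [he]; exact Real.exp_pos _
  have hlow : ∀ τ ∈ Icc (s - ρ ^ 2) s, ∀ z : ℝ, |z| < ρ → (2 * ρ * e)⁻¹ ≤ gk ν ((s + ρ ^ 2) - τ) z := by
    intro τ hτ z hz
    have := gk_low (τ := (s + ρ ^ 2) - τ) (z := z) (L := 1) hν hρ (by linarith [hτ.2])
      (by linarith [hτ.1]) (by linarith)
    rw [one_pow, Real.exp_neg, ← he, ← mul_inv] at this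
    exact this
  have hinv : ∀ {S : ℝ≥0∞}, ENNReal.ofReal ((2 * ρ * e)⁻¹) * S ≤ ENNReal.ofReal R →
      S ≤ ENNReal.ofReal (2 * ρ * e * R) := by
    intro S hS
    calc S = ENNReal.ofReal (2 * ρ * e) * (ENNReal.ofReal ((2 * ρ * e)⁻¹) * S) := by
          rw [← mul_assoc, ← ENNReal.ofReal_mul (by positivity), mul_inv_cancel₀ (by positivity),
            ENNReal.ofReal_one, one_mul]
      _ ≤ ENNReal.ofReal (2 * ρ * e) * ENNReal.ofReal R := mul_le_mul_right hS _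
      _ = _ := (ENNReal.ofReal_mul (by positivity)).symm
  have hsl : ∀ τ ∈ Icc (s - ρ ^ 2) s, ∀ (F : V → ℝ≥0∞), ENNReal.ofReal ((2 * ρ * e)⁻¹)
      * (∫⁻ x in slb c y ρ, F x) ≤ ∫⁻ x, F x * ENNReal.ofReal (gk ν ((s + ρ ^ 2) - τ) (x c - y)) := by
    intro τ hτ F
    rw [← lintegral_const_mul' _ _ ENNReal.ofReal_ne_top]
    refine le_trans ?_ (setLIntegral_le_lintegral (slb c y ρ) _)
    apply setLIntegral_mono' slb_meas
    intro x hx
    rw [mul_comm]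
    gcongr
    exact hlow τ hτ _ hx
  have hν' : 0 < ν⁻¹ := inv_pos.2 hν
  constructor
  · have h1 := hinv (((hsl s ⟨by nlinarith, le_rfl⟩ fun x => ENNReal.ofReal (nw (cw u s) x)).trans
      le_self_add).trans h)
    refine h1.trans (ENNReal.ofReal_le_ofReal ?_)
    unfold Kn
    rw [← he]
    have : 0 ≤ 2 * e * ν⁻¹ * R * ρ := by positivity
    nlinarith
  · have h1 : ENNReal.ofReal ((2 * ρ * e)⁻¹) * (ENNReal.ofReal ν *
        ∫⁻ τ in Ioc (max t₀ (s - ρ ^ 2)) s, sG (cw u τ) c y ρ) ≤ ENNReal.ofReal R := by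
      refine le_trans ?_ (le_add_self.trans h)
      rw [mul_left_comm, ← lintegral_const_mul' _ _ ENNReal.ofReal_ne_top]
      refine mul_le_mul_right ?_ _
      refine le_trans ?_ (lintegral_mono_set (Ioc_subset_Ioc_left (le_max_left t₀ (s - ρ ^ 2))))
      apply setLIntegral_mono' measurableSet_Ioc
      intro τ hτ
      exact hsl τ ⟨(le_max_right _ _).trans hτ.1.le, hτ.2⟩ _
    have h2 := inv_cancel' hν (hinv h1)
    refine h2.trans ?_
    rw [← ENNReal.ofReal_mul hν'.le]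
    apply ENNReal.ofReal_le_ofReal
    unfold Kn
    rw [← he]
    have : 0 ≤ 2 * e * R * ρ := by positivity
    nlinarith

/-- Uniform bounds on all slabs. -/
theorem CL : ∃ δ : ℝ → ℝ → ℝ, (∀ ν κ : ℝ, 0 < ν → 0 < κ → κ < 1 → 0 < δ ν κ) ∧
    ∀ (c : Fin 3) (ν T : ℝ) (u : ℝ → V → V) (p : ℝ → V → ℝ) (t₀ σ E : ℝ) (N : ℝ → ℝ≥0∞),
    MS ν T u p c t₀ σ E N → ∀ κ ε : ℝ, 0 < κ → κ < 1 → 0 ≤ ε → ε ≤ δ ν κ → NU σ N t₀ T ε κ →
    ∃ A : ℝ, E ≤ A ∧ ∀ n, Bd u c t₀ T n A := by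
  obtain ⟨C, hC, hFL⟩ := FL
  refine ⟨fun ν κ => (2 * (Kn ν * (kap ν ^ 2 / ν) * C * Sk κ + 1))⁻¹, ?_, ?_⟩
  · intro ν κ hν hκ0 hκ1
    have := Kn_pos hν
    have := Sk_pos hκ0 hκ1
    have := kap_pos ν
    positivity
  intro c ν T u p t₀ σ E N h κ ε hκ0 hκ1 hε0 hε hNU
  have hν := h.hν
  have hK := Kn_pos hν
  have hS := Sk_pos hκ0 hκ1
  have hk := kap_pos ν
  have hZ := Zs_pos
  have hsmall : Kn ν * (kap ν ^ 2 / ν) * C * Sk κ * ε ≤ 1 / 2 := by
    have h0 : 0 ≤ Kn ν * (kap ν ^ 2 / ν) * C * Sk κ := by positivity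
    calc Kn ν * (kap ν ^ 2 / ν) * C * Sk κ * ε ≤ Kn ν * (kap ν ^ 2 / ν) * C * Sk κ
          * (2 * (Kn ν * (kap ν ^ 2 / ν) * C * Sk κ + 1))⁻¹ := by gcongr
      _ ≤ 1 / 2 := by
          rw [mul_inv_le_iff₀ (by positivity)]
          linarith
  obtain ⟨m₀, hm₀, hm⟩ := slab0 (fun i => h.cw_HF ⟨h.t0, h.tT⟩ i) c
  obtain ⟨C₁, hC₁⟩ : ∃ C₁ : ℝ, C₁ = Kn ν * (3 * kap ν * Zs * m₀) + E := ⟨_, rfl⟩
  have hE0 := h.E0
  have hC₁0 : 0 ≤ C₁ := by rw [hC₁]; positivity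
  -- one step
  have step : ∀ (n : ℕ) (A : ℝ), E ≤ A → Bd u c t₀ T n A → Bd u c t₀ T n (C₁ + A / 2) := by
    intro n A hEA hB j hj y s hs
    have hA : 0 ≤ A := hE0.trans hEA
    have hρ4 : 0 < ((1 : ℝ) / 4) ^ j := by positivity
    have hB' : Bd u c t₀ T j A := fun i hi => hB i (hi.trans hj)
    have g1 := gin1 (c := c) (T' := s + (1 / 4) ^ j) h.toHS h.t0 hs.1 hs.2 (by linarith) y
    have f1 := hFL c ν T u p t₀ σ E A N h j hB' hEA t₀ s (s + (1 / 4) ^ j) le_rfl hs.1 hs.2 le_rfl y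
    have f2 := hNU.sum hκ0 hκ1 hε0 le_rfl hs.1 hs.2 j
    have i1 := gk_int (c := c) (y := y) (ν := ν) (τ := (s + (1 / 4) ^ j) - t₀) hν
      (by linarith [hs.1])
      ((ENNReal.continuous_ofReal.comp (nw_cont fun i => h.cw_HF ⟨h.t0, h.tT⟩ i)).measurable) hm₀
      (fun y' => hm y' _ (Real.sqrt_pos.2 (by linarith [hs.1])))
    have g2 := g1.trans (add_le_add i1 (mul_le_mul_right (f1.trans (mul_le_mul_right f2 _)) _))
    have hR : 0 ≤ 3 * kap ν * Zs * m₀ + kap ν ^ 2 / ν * (C * A * (ε * Sk κ)) := by positivity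
    rw [← ENNReal.ofReal_mul (by positivity), ← ENNReal.ofReal_mul (by positivity),
      ← ENNReal.ofReal_add (by positivity) (by positivity)] at g2
    have g3 := slab_of_gk (T := T) hν hR j g2
    have hle : Kn ν * (3 * kap ν * Zs * m₀ + kap ν ^ 2 / ν * (C * A * (ε * Sk κ))) ≤ C₁ + A / 2 := by
      rw [hC₁]
      have e1 : Kn ν * (kap ν ^ 2 / ν * (C * A * (ε * Sk κ)))
          = (Kn ν * (kap ν ^ 2 / ν) * C * Sk κ * ε) * A := by ring
      have e2 := mul_le_mul_of_nonneg_right hsmall hA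
      rw [mul_add, e1]
      linarith
    constructor
    · refine g3.1.trans (ENNReal.ofReal_le_ofReal ?_)
      gcongr
    · refine g3.2.trans (ENNReal.ofReal_le_ofReal ?_)
      gcongr
  -- start
  have start : ∀ n : ℕ, Bd u c t₀ T n (2 ^ n * E) := by
    intro n j hj y s hs
    have e1 : E ≤ 2 ^ n * E * (1 / 2) ^ j := by
      have : (1 : ℝ) ≤ 2 ^ n * (1 / 2) ^ j := by
        have e2 : (2 : ℝ) ^ n * (1 / 2) ^ n = 1 := by
          rw [← mul_pow]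
          norm_num
        have e3 : ((1 : ℝ) / 2) ^ n ≤ (1 / 2) ^ j :=
          pow_le_pow_of_le_one (by norm_num) (by norm_num) hj
        nlinarith [pow_pos (two_pos : (0 : ℝ) < 2) n]
      nlinarith
    exact ⟨(h.sE_le hs y _).trans (ENNReal.ofReal_le_ofReal e1),
      (h.sG_le (le_max_left _ _) hs.2 y _).trans (ENNReal.ofReal_le_ofReal e1)⟩
  refine ⟨2 * C₁ + 1, ?_, ?_⟩
  · have : E ≤ C₁ := by
      rw [hC₁]
      have : 0 ≤ Kn ν * (3 * kap ν * Zs * m₀) := by positivity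
      linarith
    linarith
  intro n
  have it : ∀ m : ℕ, Bd u c t₀ T n (2 * C₁ + 2 ^ n * E / 2 ^ m) := by
    intro m
    induction m with
    | zero =>
      rw [pow_zero, div_one]
      exact (start n).mono (by linarith)
    | succ m ih =>
      have hE1 : E ≤ C₁ := by
        rw [hC₁]
        have : 0 ≤ Kn ν * (3 * kap ν * Zs * m₀) := by positivity
        linarith
      have h1 := step n _ (by
        have : 0 ≤ 2 ^ n * E / 2 ^ m := by positivity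
        linarith) ih
      refine h1.mono (le_of_eq ?_)
      rw [pow_succ]
      field_simp
      ring
  obtain ⟨m, hm2⟩ : ∃ m : ℕ, 2 ^ n * E ≤ 2 ^ m := by
    obtain ⟨m, hm2⟩ := pow_unbounded_of_one_lt (2 ^ n * E) (by norm_num : (1 : ℝ) < 2)
    exact ⟨m, hm2.le⟩
  refine (it m).mono ?_
  have : 2 ^ n * E / 2 ^ m ≤ 1 := by
    rw [div_le_one (by positivity)]
    exact hm2
  linarith

end Pool.Agent.H305.SL
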