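import Pool.Agent.H305.SL.Loc

/-!
Decay of the dissipation in slabs, and good times.
-/

set_option autoImplicit false

open MeasureTheory Set Metric Filter Topology
open scoped ContDiff ENNReal

namespace Pool.Agent.H305.SL

open H459R3.NS W221.NS Pool.Agent.V1183.PM Pool.Agent.H305.OS
open Pool.Agent.W583.MD (sm_pd pd_mul')
open Pool.Agent.W22.ME.TD (pd_comm)
open Pool.Agent.H305.TI (it it_nil it_cons it_sm J_it dt_it)

/-- All the information of the first part. -/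
structure P1 (ν T : ℝ) (u : ℝ → V → V) (p : ℝ → V → ℝ) (c : Fin 3) (t₀ σ E : ℝ) (N : ℝ → ℝ≥0∞)
    (A ε κ : ℝ) : Prop extends MS ν T u p c t₀ σ E N where
  κ0 : 0 < κ
  κ1 : κ < 1
  ε0 : 0 ≤ ε
  nu : NU σ N t₀ T ε κ
  EA : E ≤ A
  bd : ∀ n, Bd u c t₀ T n A

section
variable {c : Fin 3} {ν T : ℝ} {u : ℝ → V → V} {p : ℝ → V → ℝ} {t₀ σ E A ε κ : ℝ} {N : ℝ → ℝ≥0∞}

lemma P1.A0 (h : P1 ν T u p c t₀ σ E N A ε κ) : 0 ≤ A := h.E0.trans h.EA

lemma ofReal_cancel {x R : ℝ} (hx : 0 < x) {S : ℝ≥0∞} (h : ENNReal.ofReal x * S ≤ ENNReal.ofReal R) :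
    S ≤ ENNReal.ofReal (x⁻¹ * R) := by
  calc S = ENNReal.ofReal x⁻¹ * (ENNReal.ofReal x * S) := by
        rw [← mul_assoc, ← ENNReal.ofReal_mul (inv_nonneg.2 hx.le), inv_mul_cancel₀ hx.ne',
          ENNReal.ofReal_one, one_mul]
    _ ≤ ENNReal.ofReal x⁻¹ * ENNReal.ofReal R := mul_le_mul_right h _
    _ = _ := (ENNReal.ofReal_mul (inv_nonneg.2 hx.le)).symm

/-- The dissipation at the vertex `(T, y)`. -/
lemma P1.vtx (h : P1 ν T u p c t₀ σ E N A ε κ) : ∃ M : ℝ, ∀ y : ℝ,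
    ∫⁻ τ in Ioo t₀ T, ∫⁻ x, ENNReal.ofReal (gw (cw u τ) x)
      * ENNReal.ofReal (gk ν (T - τ) (x c - y)) ≤ ENNReal.ofReal M := by
  obtain ⟨C, hC, hFL⟩ := FL
  have hν := h.hν
  have hk := kap_pos ν
  have hZ := Zs_pos
  have hA := h.A0
  have hS := Sk_pos h.κ0 h.κ1
  have hε := h.ε0
  obtain ⟨m₀, hm₀, hm⟩ := slab0 (fun i => h.cw_HF ⟨h.t0, h.tT⟩ i) c
  obtain ⟨R, hR⟩ : ∃ R : ℝ, R = 3 * kap ν * Zs * m₀ + kap ν ^ 2 / ν * (C * A * (ε * Sk κ)) :=
    ⟨_, rfl⟩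
  refine ⟨ν⁻¹ * R, ?_⟩
  intro y
  have hs : ∀ s ∈ Ico t₀ T, ∫⁻ τ in Ioc t₀ s, ∫⁻ x, ENNReal.ofReal (gw (cw u τ) x)
      * ENNReal.ofReal (gk ν (T - τ) (x c - y)) ≤ ENNReal.ofReal (ν⁻¹ * R) := by
    intro s hs
    obtain ⟨k, hk4⟩ : ∃ k : ℕ, ((1 : ℝ) / 4) ^ k < T - s :=
      exists_pow_lt_of_lt_one (by linarith [hs.2]) (by norm_num)
    have g1 := gin1 (c := c) (T' := T) h.toHS h.t0 hs.1 hs.2 hs.2 y
    have f1 := hFL c ν T u p t₀ σ E A N h.toMS k (h.bd k) h.EA t₀ s T le_rfl hs.1 hs.2 (by linarith) y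
    have f2 := h.nu.sum h.κ0 h.κ1 h.ε0 le_rfl hs.1 hs.2 k
    have i1 := gk_int (c := c) (y := y) (ν := ν) (τ := T - t₀) hν
      (by linarith [h.tT])
      ((ENNReal.continuous_ofReal.comp (nw_cont fun i => h.cw_HF ⟨h.t0, h.tT⟩ i)).measurable) hm₀
      (fun y' => hm y' _ (Real.sqrt_pos.2 (by linarith [h.tT])))
    have g2 := g1.trans (add_le_add i1 (mul_le_mul_right (f1.trans (mul_le_mul_right f2 _)) _))
    rw [← ENNReal.ofReal_mul (by positivity), ← ENNReal.ofReal_mul (by positivity),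
      ← ENNReal.ofReal_add (by positivity) (by positivity), ← hR] at g2
    exact ofReal_cancel hν (le_add_self.trans g2)
  obtain ⟨S, hS'⟩ : ∃ S : ℕ → Set ℝ, S = fun n : ℕ => Ioc t₀ (T - (T - t₀) / ((n : ℝ) + 2)) := ⟨_, rfl⟩
  have hT0 : 0 < T - t₀ := by linarith [h.tT]
  have hU : Ioo t₀ T = ⋃ n, S n := by
    ext τ
    rw [mem_iUnion, hS']
    constructor
    · intro hτ
      obtain ⟨n, hn⟩ := exists_nat_gt ((T - t₀) / (T - τ))
      refine ⟨n, hτ.1, ?_⟩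
      have h1 : 0 < T - τ := by linarith [hτ.2]
      rw [div_lt_iff₀ h1] at hn
      have h2 : (T - t₀) / (n + 2) ≤ T - τ := by
        rw [div_le_iff₀ (by positivity)]
        nlinarith
      linarith
    · rintro ⟨n, hn⟩
      refine ⟨hn.1, hn.2.trans_lt ?_⟩
      have : 0 < (T - t₀) / (n + 2) := by positivity
      linarith
  have hD : Directed (· ⊆ ·) S := by
    apply Monotone.directed_le
    intro n m hnm
    rw [hS']
    apply Ioc_subset_Ioc_right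
    have : (T - t₀) / ((m : ℝ) + 2) ≤ (T - t₀) / ((n : ℝ) + 2) := by
      gcongr
    linarith
  rw [hU, setLIntegral_iUnion_of_directed _ hD]
  apply iSup_le
  intro n
  rw [hS']
  apply hs
  have h1 : 0 < (T - t₀) / ((n : ℝ) + 2) := by positivity
  have h2 : (T - t₀) / ((n : ℝ) + 2) ≤ T - t₀ := div_le_self hT0.le (by linarith [Nat.cast_nonneg (α := ℝ) n])
  constructor <;> linarith

lemma pow4 (k : ℕ) : ((1 : ℝ) / 4) ^ k = ((1 / 2) ^ k) ^ 2 := by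
  rw [← pow_mul, mul_comm, pow_mul]
  norm_num

/-- Good times. -/
lemma P1.good (h : P1 ν T u p c t₀ σ E N A ε κ) (y : ℝ) {M η : ℝ} (hM : 0 < M) (hη : 0 < η) :
    ∀ᶠ k : ℕ in atTop, t₀ ≤ T - (1 / 4) ^ k ∧ ∃ t₁ ∈ Ioo (T - (1 / 4) ^ k) (T - (1 / 4) ^ k / 4),
      sG (cw u t₁) c y (M * (1 / 2) ^ k) ≤ ENNReal.ofReal (η / (1 / 2) ^ k) := by
  have hν := h.hν
  obtain ⟨B, hB⟩ := h.vtx
  obtain ⟨f, hf⟩ : ∃ f : ℝ → ℝ≥0∞, f = fun τ => ∫⁻ x, ENNReal.ofReal (gw (cw u τ) x)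
      * ENNReal.ofReal (gk ν (T - τ) (x c - y)) := ⟨_, rfl⟩
  have h1 : ∫⁻ τ, f τ ∂(volume.restrict (Ioo t₀ T)) ≠ (⊤ : ℝ≥0∞) := by
    rw [hf]
    exact ((hB y).trans_lt ENNReal.ofReal_lt_top).ne
  have hS : Tendsto ((volume.restrict (Ioo t₀ T)) ∘ fun k : ℕ => Ioo (T - (1 / 4) ^ k) T) atTop
      (𝓝 0) := by
    have h2 : Tendsto (fun k : ℕ => ENNReal.ofReal (((1 : ℝ) / 4) ^ k)) atTop (𝓝 0) := by
      rw [← ENNReal.ofReal_zero]
      exact (ENNReal.continuous_ofReal.tendsto 0).comp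
        (tendsto_pow_atTop_nhds_zero_of_lt_one (by norm_num) (by norm_num))
    refine tendsto_of_tendsto_of_tendsto_of_le_of_le tendsto_const_nhds h2 (fun _ => zero_le) ?_
    intro k
    simp only [Function.comp]
    refine (Measure.restrict_le_self _).trans ?_
    rw [Real.volume_Ioo]
    apply ENNReal.ofReal_le_ofReal
    linarith
  have h3 := tendsto_setLIntegral_zero h1 hS
  obtain ⟨δ, hδ⟩ : ∃ δ : ℝ, δ = Real.exp (-(M ^ 2 / ν)) * (η / 2) := ⟨_, rfl⟩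
  have hδ0 : 0 < δ := by
    rw [hδ]
    have := Real.exp_pos (-(M ^ 2 / ν))
    positivity
  have h4 : ∀ᶠ k : ℕ in atTop, ∫⁻ τ in Ioo (T - (1 / 4) ^ k) T, f τ ∂(volume.restrict (Ioo t₀ T))
      < ENNReal.ofReal δ := (tendsto_order.1 h3).2 _ (by simpa using hδ0)
  have h5 : ∀ᶠ k : ℕ in atTop, ((1 : ℝ) / 4) ^ k < T - t₀ :=
    (tendsto_order.1 (tendsto_pow_atTop_nhds_zero_of_lt_one (by norm_num : (0 : ℝ) ≤ 1 / 4)
      (by norm_num))).2 _ (by linarith [h.tT])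
  filter_upwards [h4, h5] with k hk4 hk5
  refine ⟨by linarith, ?_⟩
  obtain ⟨r, hr⟩ : ∃ r : ℝ, r = (1 / 2) ^ k := ⟨_, rfl⟩
  have hr0 : 0 < r := by rw [hr]; positivity
  rw [pow4, ← hr] at hk4 hk5 ⊢
  rw [Measure.restrict_restrict measurableSet_Ioo, inter_eq_self_of_subset_left
    (Ioo_subset_Ioo_left (by linarith))] at hk4
  by_contra hcon
  push Not at hcon
  -- the lower bound
  have h6 : ∀ τ ∈ Ioo (T - r ^ 2) (T - r ^ 2 / 4), ENNReal.ofReal (Real.exp (-(M ^ 2 / ν)) * (η / r ^ 2))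
      ≤ f τ := by
    intro τ hτ
    have hT0 : 0 < T - τ := by nlinarith [hτ.2]
    have e1 : ∀ x ∈ slb c y (M * r), r⁻¹ * Real.exp (-(M ^ 2 / ν)) ≤ gk ν (T - τ) (x c - y) := by
      intro x hx
      unfold gk
      have hs0 : 0 < √(T - τ) := Real.sqrt_pos.2 hT0
      have hs1 : √(T - τ) ≤ r := by
        rw [Real.sqrt_le_left hr0.le]
        linarith [hτ.1]
      have hz : (x c - y) ^ 2 ≤ M ^ 2 * r ^ 2 := by
        rw [← sq_abs, ← mul_pow]
        exact pow_le_pow_left₀ (abs_nonneg _) (le_of_lt hx) 2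
      apply mul_le_mul
      · exact inv_anti₀ hs0 hs1
      · apply Real.exp_le_exp.2
        rw [neg_mul, neg_le_neg_iff, one_div_mul_eq_div, div_le_div_iff₀ (by positivity) hν]
        have : r ^ 2 ≤ 4 * (T - τ) := by linarith [hτ.2]
        have h9 : (x c - y) ^ 2 ≤ M ^ 2 * (4 * (T - τ)) :=
          hz.trans (mul_le_mul_of_nonneg_left this (sq_nonneg M))
        nlinarith
      · exact (Real.exp_pos _).le
      · positivity
    have e2 := (hcon τ hτ).le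
    rw [hf]
    calc ENNReal.ofReal (Real.exp (-(M ^ 2 / ν)) * (η / r ^ 2))
        = ENNReal.ofReal (η / r) * ENNReal.ofReal (r⁻¹ * Real.exp (-(M ^ 2 / ν))) := by
          rw [← ENNReal.ofReal_mul (by positivity)]
          congr 1
          field_simp
      _ ≤ sG (cw u τ) c y (M * r) * ENNReal.ofReal (r⁻¹ * Real.exp (-(M ^ 2 / ν))) := by gcongr
      _ ≤ ∫⁻ x in slb c y (M * r), ENNReal.ofReal (gw (cw u τ) x)
          * ENNReal.ofReal (gk ν (T - τ) (x c - y)) := by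
          unfold sG
          rw [← lintegral_mul_const' _ _ ENNReal.ofReal_ne_top]
          apply setLIntegral_mono' slb_meas
          intro x hx
          gcongr
          exact e1 x hx
      _ ≤ _ := setLIntegral_le_lintegral _ _
  have h7 : ENNReal.ofReal (Real.exp (-(M ^ 2 / ν)) * (η / r ^ 2)) * ENNReal.ofReal (3 / 4 * r ^ 2)
      < ENNReal.ofReal δ := by
    refine lt_of_le_of_lt ?_ hk4
    refine le_trans ?_ (lintegral_mono_set (Ioo_subset_Ioo_right (by nlinarith : T - r ^ 2 / 4 ≤ T)))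
    refine le_trans ?_ (setLIntegral_mono' measurableSet_Ioo h6)
    rw [setLIntegral_const, Real.volume_Ioo]
    gcongr
    linarith
  rw [← ENNReal.ofReal_mul (by positivity), ENNReal.ofReal_lt_ofReal_iff hδ0, hδ] at h7
  have e3 : Real.exp (-(M ^ 2 / ν)) * (η / r ^ 2) * (3 / 4 * r ^ 2)
      = Real.exp (-(M ^ 2 / ν)) * (3 / 4 * η) := by
    field_simp
  rw [e3] at h7
  have := Real.exp_pos (-(M ^ 2 / ν))
  nlinarith

end

end Pool.Agent.H305.SL
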