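import Pool.Agent.H305.SL.Mul

/-!
The pairing of a multiplier with the far part of the pressure.
-/

set_option autoImplicit false

open MeasureTheory Set Metric Filter Topology
open scoped ContDiff ENNReal

namespace Pool.Agent.H305.SL

open H459R3.NS W221.NS Pool.Agent.V1183.PM Pool.Agent.H305.OS
open Pool.Agent.W583.MD (sm_pd pd_mul')
open Pool.Agent.W22.ME.TD (pd_comm)
open Pool.Agent.H305.TI (it it_nil it_cons it_sm J_it dt_it)

/-- Scaling of an integral. -/
lemma lint_smul {R : ℝ} (hR : 0 < R) {g : V → ℝ≥0∞} (hg : Measurable g) :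
    ∫⁻ y, g (R • y) = ENNReal.ofReal ((R ^ 3)⁻¹) * ∫⁻ y, g y := by
  have h1 : ∫⁻ y, g y ∂(Measure.map (fun y : V => R • y) volume) = ∫⁻ y, g (R • y) :=
    lintegral_map hg (by fun_prop)
  rw [← h1, Measure.map_addHaar_smul volume hR.ne', lintegral_smul_measure]
  have e : Module.finrank ℝ V = 3 := by simp [V]
  rw [e, abs_of_pos (by positivity)]
  rfl

lemma ball_av {R : ℝ} (hR : 0 < R) {g : V → ℝ≥0∞} (hg : Measurable g) (x : V) :
    ∫⁻ y in closedBall (0 : V) 1, g (x + R • y)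
      = ENNReal.ofReal ((R ^ 3)⁻¹) * ∫⁻ z in closedBall x R, g z := by
  have h1 : ∀ y : V, (closedBall (0 : V) 1).indicator (fun y => g (x + R • y)) y
      = (fun z => (closedBall x R).indicator g (x + z)) (R • y) := by
    intro y
    have : y ∈ closedBall (0 : V) 1 ↔ x + R • y ∈ closedBall x R := by
      rw [mem_closedBall, mem_closedBall, dist_zero_right, dist_eq_norm, add_sub_cancel_left,
        norm_smul, Real.norm_eq_abs, abs_of_pos hR]
      constructor
      · intro h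
        nlinarith
      · intro h
        nlinarith
    by_cases hy : y ∈ closedBall (0 : V) 1
    · rw [indicator_of_mem hy]
      simp only
      rw [indicator_of_mem (this.1 hy)]
    · rw [indicator_of_notMem hy]
      simp only
      rw [indicator_of_notMem (fun h => hy (this.2 h))]
  rw [← lintegral_indicator measurableSet_closedBall]
  simp only [h1]
  have hm : Measurable (fun z => (closedBall x R).indicator g (x + z)) :=
    (hg.indicator measurableSet_closedBall).comp (measurable_const_add x)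
  rw [lint_smul hR hm, lintegral_add_left_eq_self (fun z => (closedBall x R).indicator g z) x,
    lintegral_indicator measurableSet_closedBall]

/-! ### The test function -/

/-- The test function for a piece of a slab. -/
noncomputable def tf (c : Fin 3) (y ρ : ℝ) (z : V) (R : ℝ) : V → ℝ := fun x =>
  ct c y ρ x * (ct 0 (z 0) R x * (ct 1 (z 1) R x * ct 2 (z 2) R x))

/-- The box. -/
def bx (c : Fin 3) (y ρ : ℝ) (z : V) (R : ℝ) : Set V :=
  slb c y (3 * ρ) ∩ ball z (3 * R)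

section
variable {c : Fin 3} {y ρ R : ℝ} {z : V}

lemma bx_meas : MeasurableSet (bx c y ρ z R) := slb_meas.inter measurableSet_ball

lemma tf_BF (hρ : 0 < ρ) (hR : 0 < R) : BF (tf c y ρ z R) :=
  UB.mul (ct_BF hρ) (UB.mul (ct_BF hR) (UB.mul (ct_BF hR) (ct_BF hR)))

lemma tf_sm : ContDiff ℝ ∞ (tf c y ρ z R) :=
  ct_sm.mul (ct_sm.mul (ct_sm.mul ct_sm))

lemma not_ball {x : V} (hR : 0 < R) (h : x ∉ ball z R) : ∃ i, R ≤ |x i - z i| := by
  rw [mem_ball, dist_eq_norm, pi_norm_lt_iff hR] at h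
  push Not at h
  obtain ⟨i, hi⟩ := h
  exact ⟨i, hi⟩

lemma tf_out (hρ : 0 < ρ) (hR : 0 < R) {x : V} (h : x ∉ bx c y ρ z R) : tf c y ρ z R x = 0 := by
  unfold tf
  by_cases h1 : x ∈ slb c y (3 * ρ)
  · have h2 : x ∉ ball z (3 * R) := fun h3 => h ⟨h1, h3⟩
    obtain ⟨i, hi⟩ := not_ball (by positivity) h2
    have h3 : ∀ j : Fin 3, 3 * R ≤ |x j - z j| → ct j (z j) R x = 0 := by
      intro j hj
      apply ct_out hR
      show ¬ (|x j - z j| < 2 * R)
      linarith
    fin_cases i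
    · rw [h3 0 hi]; ring
    · rw [h3 1 hi]; ring
    · rw [h3 2 hi]; ring
  · rw [ct_out hρ (fun h2 => h1 (slb_mono (by linarith) h2))]
    ring

lemma tf_cs (hρ : 0 < ρ) (hR : 0 < R) : HasCompactSupport (tf c y ρ z R) := by
  apply HasCompactSupport.of_support_subset_isCompact (isCompact_closedBall z (3 * R))
  intro x hx
  by_contra h
  exact hx (tf_out hρ hR fun h1 => h (ball_subset_closedBall h1.2))

lemma tf_HF (hρ : 0 < ρ) (hR : 0 < R) : HF (tf c y ρ z R) := HF_of_supp tf_sm (tf_cs hρ hR)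

lemma tf_nonneg (x : V) : 0 ≤ tf c y ρ z R x :=
  mul_nonneg (ct_nonneg x) (mul_nonneg (ct_nonneg x) (mul_nonneg (ct_nonneg x) (ct_nonneg x)))

lemma tf_le (x : V) : tf c y ρ z R x ≤ 1 := by
  unfold tf
  have a := fun (i : Fin 3) (y ρ : ℝ) => ct_nonneg (c := i) (y := y) (ρ := ρ) x
  have b := fun (i : Fin 3) (y ρ : ℝ) => ct_le (c := i) (y := y) (ρ := ρ) x
  exact mul_le_one₀ (b _ _ _) (mul_nonneg (a _ _ _) (mul_nonneg (a _ _ _) (a _ _ _)))
    (mul_le_one₀ (b _ _ _) (mul_nonneg (a _ _ _) (a _ _ _)) (mul_le_one₀ (b _ _ _) (a _ _ _) (b _ _ _)))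

lemma tf_one (hρ : 0 < ρ) (hR : 0 < R) {x : V} (h1 : x ∈ slb c y ρ) (h2 : x ∈ closedBall z R) :
    tf c y ρ z R x = 1 := by
  have h3 : ∀ i : Fin 3, ct i (z i) R x = 1 := by
    intro i
    apply b1_one
    rw [abs_div, abs_of_pos hR, div_le_one hR]
    rw [mem_closedBall, dist_eq_norm, pi_norm_le_iff_of_nonneg hR.le] at h2
    exact h2 i
  unfold tf
  rw [ct_one hρ h1, h3, h3, h3]
  norm_num

lemma pd_tf_out (hρ : 0 < ρ) (hR : 0 < R) (m : Fin 3) {x : V} (h : x ∉ bx c y ρ z R) :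
    pd m (tf c y ρ z R) x = 0 := by
  have e1 := pd_mul' (ct_sm (c := c) (y := y) (ρ := ρ)) ((ct_sm (c := 0) (y := z 0) (ρ := R)).mul
    ((ct_sm (c := 1) (y := z 1) (ρ := R)).mul (ct_sm (c := 2) (y := z 2) (ρ := R)))) m x
  have e2 := pd_mul' (ct_sm (c := 0) (y := z 0) (ρ := R))
    ((ct_sm (c := 1) (y := z 1) (ρ := R)).mul (ct_sm (c := 2) (y := z 2) (ρ := R))) m x
  have e3 := pd_mul' (ct_sm (c := 1) (y := z 1) (ρ := R)) (ct_sm (c := 2) (y := z 2) (ρ := R)) m x
  have e0 : pd m (tf c y ρ z R) x = _ := e1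
  rw [e0, e2, e3]
  by_cases h1 : x ∈ slb c y (3 * ρ)
  · have h2 : x ∉ ball z (3 * R) := fun h3 => h ⟨h1, h3⟩
    obtain ⟨i, hi⟩ := not_ball (by positivity) h2
    have h3 : ∀ j : Fin 3, 3 * R ≤ |x j - z j| → ct j (z j) R x = 0 ∧ pd m (ct j (z j) R) x = 0 := by
      intro j hj
      refine ⟨ct_out hR ?_, pd_ct_out hR m ?_⟩
      · show ¬ (|x j - z j| < 2 * R)
        linarith
      · show ¬ (|x j - z j| < 3 * R)
        linarith
    fin_cases i
    · rw [(h3 0 hi).1, (h3 0 hi).2]; ring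
    · rw [(h3 1 hi).1, (h3 1 hi).2]; ring
    · rw [(h3 2 hi).1, (h3 2 hi).2]; ring
  · rw [ct_out hρ (fun h2 => h1 (slb_mono (by linarith) h2)), pd_ct_out hρ m h1]
    ring

lemma pd_tf_le (hρ : 0 < ρ) (hR : ρ ≤ R) (m : Fin 3) (x : V) :
    |pd m (tf c y ρ z R) x| ≤ 4 * B1 / ρ := by
  have hR0 : 0 < R := hρ.trans_le hR
  have hB := B1_one
  have e1 := pd_mul' (ct_sm (c := c) (y := y) (ρ := ρ)) ((ct_sm (c := 0) (y := z 0) (ρ := R)).mul
    ((ct_sm (c := 1) (y := z 1) (ρ := R)).mul (ct_sm (c := 2) (y := z 2) (ρ := R)))) m x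
  have e2 := pd_mul' (ct_sm (c := 0) (y := z 0) (ρ := R))
    ((ct_sm (c := 1) (y := z 1) (ρ := R)).mul (ct_sm (c := 2) (y := z 2) (ρ := R))) m x
  have e3 := pd_mul' (ct_sm (c := 1) (y := z 1) (ρ := R)) (ct_sm (c := 2) (y := z 2) (ρ := R)) m x
  have e0 : pd m (tf c y ρ z R) x = _ := e1
  rw [e0, e2, e3]
  have a : ∀ (i : Fin 3) (y ρ : ℝ), |ct i y ρ x| ≤ 1 := fun i y ρ => by
    rw [abs_of_nonneg (ct_nonneg x)]
    exact ct_le x
  have b0 : |pd m (ct c y ρ) x| ≤ B1 / ρ := pd_ct_le hρ m x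
  have b : ∀ i : Fin 3, |pd m (ct i (z i) R) x| ≤ B1 / ρ := fun i =>
    (pd_ct_le hR0 m x).trans (div_le_div_of_nonneg_left (by linarith) hρ hR)
  have hb0 : 0 ≤ B1 / ρ := by positivity
  have m1 : ∀ {p q C : ℝ}, |p| ≤ 1 → |q| ≤ C → |p * q| ≤ C := by
    intro p q C hp hq
    rw [abs_mul]
    calc |p| * |q| ≤ 1 * C := mul_le_mul hp hq (abs_nonneg _) (by norm_num)
      _ = C := one_mul C
  have m2 : ∀ {p q C : ℝ}, |p| ≤ C → |q| ≤ 1 → |p * q| ≤ C := by
    intro p q C hp hq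
    rw [mul_comm]
    exact m1 hq hp
  have k3 : |ct 1 (z 1) R x * pd m (ct 2 (z 2) R) x + pd m (ct 1 (z 1) R) x * ct 2 (z 2) R x|
      ≤ 2 * (B1 / ρ) := by
    refine (abs_add_le _ _).trans ?_
    have := m1 (a 1 (z 1) R) (b 2)
    have := m2 (b 1) (a 2 (z 2) R)
    linarith
  have k2 : |ct 0 (z 0) R x * (ct 1 (z 1) R x * pd m (ct 2 (z 2) R) x
      + pd m (ct 1 (z 1) R) x * ct 2 (z 2) R x)
      + pd m (ct 0 (z 0) R) x * (ct 1 (z 1) R x * ct 2 (z 2) R x)| ≤ 3 * (B1 / ρ) := by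
    refine (abs_add_le _ _).trans ?_
    have := m1 (a 0 (z 0) R) k3
    have := m2 (b 0) (m1 (a 1 (z 1) R) (a 2 (z 2) R))
    linarith
  refine (abs_add_le _ _).trans ?_
  have := m1 (a c y ρ) k2
  have := m2 b0 (m1 (a 0 (z 0) R) (m1 (a 1 (z 1) R) (a 2 (z 2) R)))
  have e : 4 * B1 / ρ = 4 * (B1 / ρ) := by ring
  rw [e]
  linarith

lemma bx_vol (hρ : 0 < ρ) (hR : 0 < R) : volume (bx c y ρ z R) ≤ ENNReal.ofReal (216 * (ρ * R ^ 2)) := by
  obtain ⟨I, hI⟩ : ∃ I : Fin 3 → Set ℝ, I = fun i => if i = c then Ioo (y - 3 * ρ) (y + 3 * ρ)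
      else Ioo (z i - 3 * R) (z i + 3 * R) := ⟨_, rfl⟩
  have h1 : bx c y ρ z R ⊆ Set.pi univ I := by
    rintro x ⟨hx1, hx2⟩ i -
    rw [hI]
    simp only
    split_ifs with h
    · subst h
      have : |x i - y| < 3 * ρ := hx1
      rw [abs_lt] at this
      exact ⟨by linarith, by linarith⟩
    · rw [mem_ball, dist_eq_norm, pi_norm_lt_iff (by positivity)] at hx2
      have : |x i - z i| < 3 * R := hx2 i
      rw [abs_lt] at this
      exact ⟨by linarith, by linarith⟩
  refine (measure_mono h1).trans ?_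
  rw [volume_pi_pi, Fin.prod_univ_three]
  have hv : ∀ i, volume (I i) = if i = c then ENNReal.ofReal (6 * ρ) else ENNReal.ofReal (6 * R) := by
    intro i
    rw [hI]
    simp only
    split_ifs
    · rw [Real.volume_Ioo]
      congr 1
      ring
    · rw [Real.volume_Ioo]
      congr 1
      ring
  rw [hv, hv, hv]
  apply le_of_eq
  have e : ∀ a b c : ℝ, 0 ≤ a → 0 ≤ b → 0 ≤ c → ENNReal.ofReal a * ENNReal.ofReal b
      * ENNReal.ofReal c = ENNReal.ofReal (a * b * c) := by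
    intro a b c ha hb hc
    rw [← ENNReal.ofReal_mul ha, ← ENNReal.ofReal_mul (by positivity)]
  fin_cases c
  · simp only [Fin.zero_eta, Fin.isValue, ↓reduceIte, one_ne_zero, Fin.reduceEq]
    rw [e _ _ _ (by positivity) (by positivity) (by positivity)]
    congr 1
    ring
  · simp only [Fin.mk_one, Fin.isValue, ↓reduceIte, zero_ne_one, Fin.reduceEq]
    rw [e _ _ _ (by positivity) (by positivity) (by positivity)]
    congr 1
    ring
  · simp only [Fin.reduceFinMk, Fin.isValue, ↓reduceIte, Fin.reduceEq]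
    rw [e _ _ _ (by positivity) (by positivity) (by positivity)]
    congr 1
    ring

lemma B1_sq : (1 : ℝ) ≤ 48 * B1 ^ 2 := by
  have := B1_one
  nlinarith

/-- The integral of a multiplier over a piece of a slab. -/
lemma TC1 {σ : ℝ} {N : ℝ≥0∞} {w : V → ℝ} (hN : MU σ N w) (hw : Continuous w) (hσ0 : 0 ≤ σ)
    (hσ : σ ≤ 1 / 2) (hρ : 0 < ρ) (hR : ρ ≤ R) :
    ∫⁻ x in slb c y ρ ∩ closedBall z R, ENNReal.ofReal |w x| ≤
      ENNReal.ofReal (48 * B1 ^ 2 * 216) * (N * (ENNReal.ofReal (ρ * R ^ 2)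
        * ENNReal.ofReal ((ρ ^ 2)⁻¹) ^ σ)) := by
  have hR0 : 0 < R := hρ.trans_le hR
  have hF := tf_HF (c := c) (y := y) (z := z) hρ hR0
  set F := tf c y ρ z R with hFd
  obtain ⟨m, hm⟩ : ∃ m, m = ENNReal.ofReal (216 * (ρ * R ^ 2)) := ⟨_, rfl⟩
  have hvol : volume (bx c y ρ z R) ≤ m := by
    rw [hm]
    exact bx_vol hρ hR0
  have k1 : sqi F ≤ m := by
    refine le_trans ?_ hvol
    unfold sqi
    calc ∫⁻ x, ENNReal.ofReal (F x ^ 2) ≤ ∫⁻ x, (bx c y ρ z R).indicator 1 x := by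
          apply lintegral_mono
          intro x
          by_cases hx : x ∈ bx c y ρ z R
          · rw [indicator_of_mem hx]
            simp only [Pi.one_apply]
            rw [← ENNReal.ofReal_one]
            apply ENNReal.ofReal_le_ofReal
            exact pow_le_one₀ (tf_nonneg x) (tf_le x)
          · simp only
            rw [hFd, tf_out hρ hR0 hx]
            simp
      _ = volume (bx c y ρ z R) := lintegral_indicator_one bx_meas
  have k2 : ∑ k, sqi (pd k F) ≤ ENNReal.ofReal (48 * B1 ^ 2 * (ρ ^ 2)⁻¹) * m := by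
    have k3 : ∀ k, sqi (pd k F) ≤ ENNReal.ofReal (16 * B1 ^ 2 * (ρ ^ 2)⁻¹) * m := by
      intro k
      refine le_trans ?_ (mul_le_mul_right hvol _)
      unfold sqi
      calc ∫⁻ x, ENNReal.ofReal (pd k F x ^ 2)
          ≤ ∫⁻ x, (bx c y ρ z R).indicator (fun _ => ENNReal.ofReal (16 * B1 ^ 2 * (ρ ^ 2)⁻¹)) x := by
            apply lintegral_mono
            intro x
            by_cases hx : x ∈ bx c y ρ z R
            · rw [indicator_of_mem hx]
              apply ENNReal.ofReal_le_ofReal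
              rw [← sq_abs]
              calc |pd k F x| ^ 2 ≤ (4 * B1 / ρ) ^ 2 :=
                    pow_le_pow_left₀ (abs_nonneg _) (pd_tf_le hρ hR k x) 2
                _ = _ := by
                  rw [div_pow]
                  ring
            · simp only
              rw [hFd, pd_tf_out hρ hR0 k hx]
              simp
        _ = _ := by
            rw [lintegral_indicator bx_meas, setLIntegral_const]
    calc ∑ k, sqi (pd k F) ≤ ∑ _k : Fin 3, ENNReal.ofReal (16 * B1 ^ 2 * (ρ ^ 2)⁻¹) * m :=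
          Finset.sum_le_sum fun k _ => k3 k
      _ = _ := by
        simp only [Finset.sum_const, Finset.card_univ, Fintype.card_fin, nsmul_eq_mul]
        rw [← mul_assoc, ← ENNReal.ofReal_natCast, ← ENNReal.ofReal_mul (by norm_num)]
        congr 2
        push_cast
        ring
  have k3 := hN F hF
  have k4 : ∫⁻ x in slb c y ρ ∩ closedBall z R, ENNReal.ofReal |w x|
      ≤ ∫⁻ x, ENNReal.ofReal (|w x| * |F x|) * ENNReal.ofReal |F x| := by
    rw [← lintegral_indicator (slb_meas.inter measurableSet_closedBall)]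
    apply lintegral_mono
    intro x
    by_cases hx : x ∈ slb c y ρ ∩ closedBall z R
    · rw [indicator_of_mem hx]
      simp only
      rw [hFd, tf_one hρ hR0 hx.1 hx.2]
      simp
    · rw [indicator_of_notMem hx]
      exact zero_le
  have m1 : Measurable fun x => ENNReal.ofReal (|w x| * |F x|) :=
    (ENNReal.continuous_ofReal.comp (hw.abs.mul hF.sm.continuous.abs)).measurable
  have m2 : Measurable fun x => ENNReal.ofReal |F x| :=
    (ENNReal.continuous_ofReal.comp hF.sm.continuous.abs).measurable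
  refine k4.trans ((csE m1.aemeasurable m2.aemeasurable).trans ?_)
  have e1 : ∫⁻ x, ENNReal.ofReal (|w x| * |F x|) ^ 2 = ∫⁻ x, ENNReal.ofReal (w x ^ 2 * F x ^ 2) := by
    apply lintegral_congr
    intro x
    rw [← ENNReal.ofReal_pow (by positivity), mul_pow, sq_abs, sq_abs]
  have e2 : ∫⁻ x, ENNReal.ofReal |F x| ^ 2 = sqi F := by
    unfold sqi
    apply lintegral_congr
    intro x
    rw [← ENNReal.ofReal_pow (by positivity), sq_abs]
  rw [e1, e2]
  obtain ⟨P, hP⟩ : ∃ P, P = ENNReal.ofReal ((ρ ^ 2)⁻¹) := ⟨_, rfl⟩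
  have k5 : N ^ 2 * (sqi F ^ (1 - 2 * σ) * (∑ k, sqi (pd k F)) ^ (2 * σ))
      ≤ N ^ 2 * (ENNReal.ofReal (48 * B1 ^ 2) * (m * P ^ (2 * σ))) := by
    have hB : ENNReal.ofReal (48 * B1 ^ 2 * (ρ ^ 2)⁻¹) = ENNReal.ofReal (48 * B1 ^ 2) * P := by
      rw [ENNReal.ofReal_mul (by positivity), hP]
    rw [hB] at k2
    have hone : 1 ≤ ENNReal.ofReal (48 * B1 ^ 2) := by
      rw [← ENNReal.ofReal_one]
      exact ENNReal.ofReal_le_ofReal B1_sq
    calc N ^ 2 * (sqi F ^ (1 - 2 * σ) * (∑ k, sqi (pd k F)) ^ (2 * σ))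
        ≤ N ^ 2 * (m ^ (1 - 2 * σ) * (ENNReal.ofReal (48 * B1 ^ 2) * P * m) ^ (2 * σ)) := by
          gcongr
          linarith
      _ = N ^ 2 * (m ^ (1 - 2 * σ) * (ENNReal.ofReal (48 * B1 ^ 2) ^ (2 * σ) * P ^ (2 * σ)
            * m ^ (2 * σ))) := by
          rw [ENNReal.mul_rpow_of_nonneg _ _ (by linarith), ENNReal.mul_rpow_of_nonneg _ _ (by linarith)]
      _ = N ^ 2 * (ENNReal.ofReal (48 * B1 ^ 2) ^ (2 * σ) * ((m ^ (1 - 2 * σ) * m ^ (2 * σ))
            * P ^ (2 * σ))) := by ring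
      _ ≤ _ := by
          rw [← ENNReal.rpow_add_of_nonneg _ _ (by linarith) (by linarith),
            show 1 - 2 * σ + 2 * σ = 1 by ring, ENNReal.rpow_one]
          gcongr
          calc ENNReal.ofReal (48 * B1 ^ 2) ^ (2 * σ) ≤ ENNReal.ofReal (48 * B1 ^ 2) ^ (1 : ℝ) :=
                ENNReal.rpow_le_rpow_of_exponent_le hone (by linarith)
            _ = _ := ENNReal.rpow_one _
  have k6 : (∫⁻ x, ENNReal.ofReal (w x ^ 2 * F x ^ 2)) ^ (1 / 2 : ℝ) * sqi F ^ (1 / 2 : ℝ)
      ≤ (N ^ 2 * (ENNReal.ofReal (48 * B1 ^ 2) * (m * P ^ (2 * σ)))) ^ (1 / 2 : ℝ) * m ^ (1 / 2 : ℝ) :=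
    mul_le_mul' (ENNReal.rpow_le_rpow (k3.trans k5) (by norm_num))
      (ENNReal.rpow_le_rpow k1 (by norm_num))
  refine k6.trans ?_
  rw [ENNReal.mul_rpow_of_nonneg _ _ (by norm_num), ENNReal.mul_rpow_of_nonneg _ _ (by norm_num),
    ENNReal.mul_rpow_of_nonneg _ _ (by norm_num), ← ENNReal.rpow_natCast N, ← ENNReal.rpow_mul N,
    ← ENNReal.rpow_mul P, show ((2 : ℕ) : ℝ) * (1 / 2) = 1 by norm_num,
    show 2 * σ * (1 / 2) = σ by ring, ENNReal.rpow_one]
  have hone : 1 ≤ ENNReal.ofReal (48 * B1 ^ 2) := by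
    rw [← ENNReal.ofReal_one]
    exact ENNReal.ofReal_le_ofReal B1_sq
  calc N * (ENNReal.ofReal (48 * B1 ^ 2) ^ (1 / 2 : ℝ) * (m ^ (1 / 2 : ℝ) * P ^ σ)) * m ^ (1 / 2 : ℝ)
      = ENNReal.ofReal (48 * B1 ^ 2) ^ (1 / 2 : ℝ) * (N * ((m ^ (1 / 2 : ℝ) * m ^ (1 / 2 : ℝ)) * P ^ σ)) := by
        ring
    _ ≤ ENNReal.ofReal (48 * B1 ^ 2) * (N * (m * P ^ σ)) := by
        rw [← ENNReal.rpow_add_of_nonneg _ _ (by norm_num) (by norm_num),
          show (1 / 2 : ℝ) + 1 / 2 = 1 by norm_num, ENNReal.rpow_one]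
        gcongr
        calc ENNReal.ofReal (48 * B1 ^ 2) ^ (1 / 2 : ℝ) ≤ ENNReal.ofReal (48 * B1 ^ 2) ^ (1 : ℝ) :=
              ENNReal.rpow_le_rpow_of_exponent_le hone (by norm_num)
          _ = _ := ENNReal.rpow_one _
    _ = _ := by
        rw [hm, hP, ENNReal.ofReal_mul (by norm_num : (0 : ℝ) ≤ 216),
          ENNReal.ofReal_mul (by positivity : 0 ≤ 48 * B1 ^ 2)]
        ring

/-- The energy in a slab. -/
noncomputable def sE (v : Fin 3 → V → ℝ) (c : Fin 3) (y ρ : ℝ) : ℝ≥0∞ :=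
  ∫⁻ x in slb c y ρ, ENNReal.ofReal (nw v x)

/-- The constant of the far part. -/
noncomputable def KF : ℝ := 48 * B1 ^ 2 * 216

lemma KF_pos : 0 < KF := by
  have := B1_one
  unfold KF
  positivity

/-- The far part of the pressure, tested with a multiplier. -/
lemma TC2 {σ : ℝ} {N : ℝ≥0∞} {w : V → ℝ} {v : Fin 3 → V → ℝ} (hN : MU σ N w) (hw : Continuous w)
    (hv : ∀ i, HF (v i)) (hσ0 : 0 ≤ σ) (hσ : σ ≤ 1 / 2) (hρ : 0 < ρ) :
    ∫⁻ x in slb c y ρ, ENNReal.ofReal |w x| * farP v ρ x ≤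
      ENNReal.ofReal KF * (N * (ENNReal.ofReal ρ * ENNReal.ofReal ((ρ ^ 2)⁻¹) ^ σ
        * ∫⁻ R in Ioi ρ, ENNReal.ofReal ((R ^ 2)⁻¹) * sE v c y (2 * R))) := by
  have cn := nw_cont hv
  have mn : Measurable fun x => ENNReal.ofReal (nw v x) := (ENNReal.continuous_ofReal.comp cn).measurable
  -- the inner integral
  have h1 : ∀ R ∈ Ioi ρ, ∫⁻ x in slb c y ρ, ENNReal.ofReal |w x| * ∫⁻ y' in closedBall (0 : V) 1,
      ENNReal.ofReal (nw v (x + R • y')) ≤ ENNReal.ofReal ((R ^ 3)⁻¹) *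
        (ENNReal.ofReal KF * (N * (ENNReal.ofReal (ρ * R ^ 2) * ENNReal.ofReal ((ρ ^ 2)⁻¹) ^ σ))
          * sE v c y (2 * R)) := by
    intro R hR
    have hR0 : 0 < R := hρ.trans hR
    have e1 : ∀ x, ∫⁻ y' in closedBall (0 : V) 1, ENNReal.ofReal (nw v (x + R • y'))
        = ENNReal.ofReal ((R ^ 3)⁻¹) * ∫⁻ z in closedBall x R, ENNReal.ofReal (nw v z) := fun x =>
      ball_av hR0 mn x
    have e2 : ∫⁻ x in slb c y ρ, ENNReal.ofReal |w x| * ∫⁻ y' in closedBall (0 : V) 1,
        ENNReal.ofReal (nw v (x + R • y'))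
        = ENNReal.ofReal ((R ^ 3)⁻¹) * ∫⁻ x in slb c y ρ, ∫⁻ z in closedBall x R,
          ENNReal.ofReal |w x| * ENNReal.ofReal (nw v z) := by
      rw [← lintegral_const_mul' _ _ ENNReal.ofReal_ne_top]
      apply lintegral_congr
      intro x
      rw [e1 x, lintegral_const_mul' _ _ ENNReal.ofReal_ne_top]
      ring
    rw [e2]
    refine mul_le_mul_right ?_ _
    -- swap the integrals
    have e3 : ∫⁻ x in slb c y ρ, ∫⁻ z in closedBall x R,
          ENNReal.ofReal |w x| * ENNReal.ofReal (nw v z)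
        = ∫⁻ z, ∫⁻ x in slb c y ρ, (if dist z x ≤ R then
          ENNReal.ofReal |w x| * ENNReal.ofReal (nw v z) else 0) := by
      rw [lintegral_lintegral_swap]
      · apply lintegral_congr
        intro x
        rw [← lintegral_indicator measurableSet_closedBall]
        rfl
      · apply Measurable.aemeasurable
        apply Measurable.ite
        · exact measurableSet_le (by fun_prop) measurable_const
        · have m1 : Measurable fun x => ENNReal.ofReal |w x| :=
            (ENNReal.continuous_ofReal.comp hw.abs).measurable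
          exact (m1.comp measurable_snd).mul (mn.comp measurable_fst)
        · exact measurable_const
    rw [e3]
    have e4 : ∀ z, ∫⁻ x in slb c y ρ, (if dist z x ≤ R then
          ENNReal.ofReal |w x| * ENNReal.ofReal (nw v z) else 0)
        = ENNReal.ofReal (nw v z) * ∫⁻ x in slb c y ρ ∩ closedBall z R, ENNReal.ofReal |w x| := by
      intro z
      rw [← lintegral_const_mul' _ _ ENNReal.ofReal_ne_top, inter_comm,
        ← Measure.restrict_restrict measurableSet_closedBall, ← lintegral_indicator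
        measurableSet_closedBall]
      apply lintegral_congr
      intro x
      simp only [indicator, mem_closedBall]
      rw [dist_comm z x]
      split_ifs
      · rw [mul_comm]
      · rfl
    simp only [e4]
    have e5 : ∀ z, ENNReal.ofReal (nw v z) * ∫⁻ x in slb c y ρ ∩ closedBall z R, ENNReal.ofReal |w x|
        ≤ (slb c y (2 * R)).indicator (fun z => ENNReal.ofReal KF * (N * (ENNReal.ofReal (ρ * R ^ 2)
          * ENNReal.ofReal ((ρ ^ 2)⁻¹) ^ σ)) * ENNReal.ofReal (nw v z)) z := by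
      intro z
      by_cases hz : z ∈ slb c y (2 * R)
      · rw [indicator_of_mem hz, mul_comm]
        exact mul_le_mul_left (TC1 hN hw hσ0 hσ hρ (le_of_lt hR)) _
      · have : slb c y ρ ∩ closedBall z R = ∅ := by
          rw [eq_empty_iff_forall_notMem]
          rintro x ⟨hx1, hx2⟩
          apply hz
          rw [mem_closedBall, dist_eq_norm, pi_norm_le_iff_of_nonneg hR0.le] at hx2
          have a1 : |x c - z c| ≤ R := hx2 c
          have a2 : |x c - y| < ρ := hx1
          have a3 : ρ < R := hR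
          show |z c - y| < 2 * R
          have a4 : z c - y = -(x c - z c) + (x c - y) := by ring
          rw [a4]
          refine (abs_add_le _ _).trans_lt ?_
          rw [abs_neg]
          linarith
        rw [this]
        simp
    refine (lintegral_mono e5).trans ?_
    rw [lintegral_indicator slb_meas, lintegral_const_mul _ mn]
    rfl
  have m0 : Measurable fun z : V × ℝ × V => ENNReal.ofReal (nw v (z.1 + z.2.1 • z.2.2)) := by
    have : Continuous fun z : V × ℝ × V => nw v (z.1 + z.2.1 • z.2.2) := by fun_prop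
    exact (ENNReal.continuous_ofReal.comp this).measurable
  have e0 : ∫⁻ x in slb c y ρ, ENNReal.ofReal |w x| * farP v ρ x
      = ∫⁻ R in Ioi ρ, ENNReal.ofReal R⁻¹ * ∫⁻ x in slb c y ρ, ENNReal.ofReal |w x|
        * ∫⁻ y' in closedBall (0 : V) 1, ENNReal.ofReal (nw v (x + R • y')) := by
    unfold farP
    have m1 : Measurable fun x => ENNReal.ofReal |w x| :=
      (ENNReal.continuous_ofReal.comp hw.abs).measurable
    have m2 : Measurable fun z : V × ℝ => ∫⁻ y' in closedBall (0 : V) 1,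
        ENNReal.ofReal (nw v (z.1 + z.2 • y')) := by
      have : Measurable fun q : (V × ℝ) × V => ENNReal.ofReal (nw v (q.1.1 + q.1.2 • q.2)) := by
        have : Continuous fun q : (V × ℝ) × V => nw v (q.1.1 + q.1.2 • q.2) := by fun_prop
        exact (ENNReal.continuous_ofReal.comp this).measurable
      exact this.lintegral_prod_right'
    have e6 : ∀ x, ENNReal.ofReal |w x| * ∫⁻ R in Ioi ρ, ENNReal.ofReal R⁻¹ *
        ∫⁻ y' in closedBall (0 : V) 1, ENNReal.ofReal (nw v (x + R • y'))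
        = ∫⁻ R in Ioi ρ, ENNReal.ofReal |w x| * (ENNReal.ofReal R⁻¹ *
        ∫⁻ y' in closedBall (0 : V) 1, ENNReal.ofReal (nw v (x + R • y'))) := fun x =>
      (lintegral_const_mul' _ _ ENNReal.ofReal_ne_top).symm
    simp only [e6]
    rw [lintegral_lintegral_swap]
    · apply lintegral_congr
      intro R
      rw [← lintegral_const_mul' _ _ ENNReal.ofReal_ne_top]
      apply lintegral_congr
      intro x
      ring
    · apply Measurable.aemeasurable
      apply (m1.comp measurable_fst).mul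
      apply Measurable.mul _ m2
      fun_prop
  rw [e0]
  calc ∫⁻ R in Ioi ρ, ENNReal.ofReal R⁻¹ * ∫⁻ x in slb c y ρ, ENNReal.ofReal |w x|
        * ∫⁻ y' in closedBall (0 : V) 1, ENNReal.ofReal (nw v (x + R • y'))
      ≤ ∫⁻ R in Ioi ρ, ENNReal.ofReal R⁻¹ * (ENNReal.ofReal ((R ^ 3)⁻¹) *
        (ENNReal.ofReal KF * (N * (ENNReal.ofReal (ρ * R ^ 2) * ENNReal.ofReal ((ρ ^ 2)⁻¹) ^ σ))
          * sE v c y (2 * R))) := by
        apply setLIntegral_mono' measurableSet_Ioi
        intro R hR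
        exact mul_le_mul_right (h1 R hR) _
    _ = ∫⁻ R in Ioi ρ, ENNReal.ofReal KF * (N * (ENNReal.ofReal ρ * ENNReal.ofReal ((ρ ^ 2)⁻¹) ^ σ))
        * (ENNReal.ofReal ((R ^ 2)⁻¹) * sE v c y (2 * R)) := by
        apply setLIntegral_congr_fun measurableSet_Ioi
        intro R hR
        have hR0 : 0 < R := hρ.trans hR
        simp only
        have e7 : ENNReal.ofReal R⁻¹ * ENNReal.ofReal ((R ^ 3)⁻¹) * ENNReal.ofReal (ρ * R ^ 2)
            = ENNReal.ofReal ρ * ENNReal.ofReal ((R ^ 2)⁻¹) := by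
          rw [← ENNReal.ofReal_mul (by positivity), ← ENNReal.ofReal_mul (by positivity),
            ← ENNReal.ofReal_mul hρ.le]
          congr 1
          field_simp
        calc _ = ENNReal.ofReal KF * (N * ((ENNReal.ofReal R⁻¹ * ENNReal.ofReal ((R ^ 3)⁻¹)
              * ENNReal.ofReal (ρ * R ^ 2)) * ENNReal.ofReal ((ρ ^ 2)⁻¹) ^ σ)) * sE v c y (2 * R) := by
              ring
          _ = _ := by
              rw [e7]
              ring
    _ = _ := by
        have mR : Measurable fun R : ℝ => ENNReal.ofReal ((R ^ 2)⁻¹) * sE v c y (2 * R) := by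
          apply Measurable.mul (by fun_prop)
          have : Monotone fun R : ℝ => sE v c y (2 * R) := by
            intro R R' h
            exact lintegral_mono_set (slb_mono (by linarith))
          exact this.measurable
        rw [lintegral_const_mul _ mR]
        ring

/-- The sum over all scales. -/
lemma TC3 {v : Fin 3 → V → ℝ} {A E : ℝ} (hA : 0 ≤ A) (hE : 0 ≤ E)
    (hE1 : ∀ ρ, sE v c y ρ ≤ ENNReal.ofReal E) (n : ℕ)
    (hA1 : ∀ j ≤ n, sE v c y ((1 / 2) ^ j) ≤ ENNReal.ofReal (A * (1 / 2) ^ j)) :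
    ∀ k ≤ n, ∫⁻ R in Ioi ((1 / 2 : ℝ) ^ k), ENNReal.ofReal ((R ^ 2)⁻¹) * sE v c y (2 * R)
      ≤ ENNReal.ofReal (4 * A * k + 3 * E) := by
  have hmono : ∀ R R' : ℝ, R ≤ R' → sE v c y R ≤ sE v c y R' := fun R R' h =>
    lintegral_mono_set (slb_mono h)
  have h0 : ∫⁻ R in Ioi (1 : ℝ), ENNReal.ofReal ((R ^ 2)⁻¹) * sE v c y (2 * R)
      ≤ ENNReal.ofReal E := by
    calc ∫⁻ R in Ioi (1 : ℝ), ENNReal.ofReal ((R ^ 2)⁻¹) * sE v c y (2 * R)
        ≤ ∫⁻ R in Ioi (1 : ℝ), ENNReal.ofReal ((R ^ 2)⁻¹) * ENNReal.ofReal E :=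
          lintegral_mono fun R => mul_le_mul_right (hE1 _) _
      _ = ENNReal.ofReal E := by
          rw [lintegral_mul_const' _ _ ENNReal.ofReal_ne_top]
          have h1 : ∫⁻ R in Ioi (1 : ℝ), ENNReal.ofReal ((R ^ 2)⁻¹) = 1 := by
            have h2 := integrableOn_Ioi_rpow_of_lt (by norm_num : (-2 : ℝ) < -1) one_pos
            have h3 := integral_Ioi_rpow_of_lt (by norm_num : (-2 : ℝ) < -1) one_pos
            have h4 : ∀ R ∈ Ioi (1 : ℝ), R ^ (-2 : ℝ) = (R ^ 2)⁻¹ := by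
              intro R hR
              have : (0 : ℝ) < R := one_pos.trans hR
              rw [Real.rpow_neg this.le]
              norm_num
            rw [integrableOn_congr_fun h4 measurableSet_Ioi] at h2
            rw [setIntegral_congr_fun measurableSet_Ioi h4] at h3
            rw [← ofReal_integral_eq_lintegral_ofReal h2
              (Eventually.of_forall fun R => by positivity), h3]
            norm_num
          rw [h1, one_mul]
  have h1 : ∀ k : ℕ, ∀ M : ℝ≥0∞, sE v c y (2 * (1 / 2) ^ k) ≤ M →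
      ∫⁻ R in Ioc ((1 / 2 : ℝ) ^ (k + 1)) ((1 / 2) ^ k), ENNReal.ofReal ((R ^ 2)⁻¹) * sE v c y (2 * R)
      ≤ ENNReal.ofReal (2 * 2 ^ k) * M := by
    intro k M hM
    calc ∫⁻ R in Ioc ((1 / 2 : ℝ) ^ (k + 1)) ((1 / 2) ^ k),
          ENNReal.ofReal ((R ^ 2)⁻¹) * sE v c y (2 * R)
        ≤ ∫⁻ R in Ioc ((1 / 2 : ℝ) ^ (k + 1)) ((1 / 2) ^ k), ENNReal.ofReal (4 * 4 ^ k) * M := by
          apply setLIntegral_mono' measurableSet_Ioc
          intro R hR
          apply mul_le_mul'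
          · apply ENNReal.ofReal_le_ofReal
            have h2 : (0 : ℝ) < (1 / 2) ^ (k + 1) := by positivity
            have h3 : ((1 / 2 : ℝ) ^ (k + 1)) ^ 2 ≤ R ^ 2 := pow_le_pow_left₀ h2.le hR.1.le 2
            calc (R ^ 2)⁻¹ ≤ (((1 / 2 : ℝ) ^ (k + 1)) ^ 2)⁻¹ := inv_anti₀ (by positivity) h3
              _ = 4 * 4 ^ k := by
                have e1 : ((1 / 2 : ℝ) ^ (k + 1)) ^ 2 = (4 * 4 ^ k)⁻¹ := by
                  rw [← pow_mul, mul_comm (k + 1) 2, pow_mul, ← pow_succ', ← inv_pow]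
                  norm_num
                rw [e1, inv_inv]
          · exact (hmono _ _ (by linarith [hR.2])).trans hM
      _ = _ := by
          rw [setLIntegral_const, Real.volume_Ioc, mul_right_comm,
            ← ENNReal.ofReal_mul (by positivity)]
          congr 2
          rw [pow_succ]
          have : (4 : ℝ) ^ k * (1 / 2) ^ k = 2 ^ k := by
            rw [← mul_pow]
            norm_num
          linear_combination 2 * this
  have hsplit : ∀ k : ℕ, ∫⁻ R in Ioi ((1 / 2 : ℝ) ^ (k + 1)),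
      ENNReal.ofReal ((R ^ 2)⁻¹) * sE v c y (2 * R)
      ≤ (∫⁻ R in Ioc ((1 / 2 : ℝ) ^ (k + 1)) ((1 / 2) ^ k),
        ENNReal.ofReal ((R ^ 2)⁻¹) * sE v c y (2 * R))
        + ∫⁻ R in Ioi ((1 / 2 : ℝ) ^ k), ENNReal.ofReal ((R ^ 2)⁻¹) * sE v c y (2 * R) := by
    intro k
    have : Ioi ((1 / 2 : ℝ) ^ (k + 1)) = Ioc ((1 / 2 : ℝ) ^ (k + 1)) ((1 / 2) ^ k)
        ∪ Ioi ((1 / 2 : ℝ) ^ k) := by
      rw [Ioc_union_Ioi_eq_Ioi]
      apply pow_le_pow_of_le_one (by norm_num) (by norm_num) (Nat.le_succ k)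
    rw [this]
    exact lintegral_union_le _ _ _
  intro k
  induction k with
  | zero =>
    intro _
    rw [pow_zero]
    refine h0.trans (ENNReal.ofReal_le_ofReal ?_)
    simp only [Nat.cast_zero, mul_zero, zero_add]
    linarith
  | succ k ih =>
    intro hk
    have ihk := ih (Nat.le_of_succ_le hk)
    refine (hsplit k).trans ?_
    rcases Nat.eq_zero_or_pos k with rfl | hk0
    · have h2 := h1 0 (ENNReal.ofReal E) (hE1 _)
      rw [← ENNReal.ofReal_mul (by positivity)] at h2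
      rw [pow_zero] at h2 ⊢
      refine (add_le_add h2 h0).trans ?_
      rw [← ENNReal.ofReal_add (by positivity) hE]
      apply ENNReal.ofReal_le_ofReal
      push_cast
      nlinarith
    · obtain ⟨j, rfl⟩ : ∃ j, k = j + 1 := ⟨k - 1, by omega⟩
      have h3 : (2 : ℝ) * (1 / 2) ^ (j + 1) = (1 / 2) ^ j := by
        rw [pow_succ]
        ring
      have h2 := h1 (j + 1) (ENNReal.ofReal (A * (1 / 2) ^ j)) (by
        rw [h3]
        exact hA1 j (by omega))
      rw [← ENNReal.ofReal_mul (by positivity)] at h2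
      refine (add_le_add h2 ihk).trans ?_
      rw [← ENNReal.ofReal_add (by positivity) (by positivity)]
      apply ENNReal.ofReal_le_ofReal
      have h4 : (2 : ℝ) ^ j * (1 / 2) ^ j = 1 := by
        rw [← mul_pow]
        norm_num
      push_cast
      rw [pow_succ]
      nlinarith [h4]

end

end Pool.Agent.H305.SL
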