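import Pool.Agent.H305.SL.Hyp2

/-!
The near-critical criterion.
-/

set_option autoImplicit false

open MeasureTheory Set Metric Filter Topology
open scoped ContDiff ENNReal

namespace Pool.Agent.H305.SL

open H459R3.NS W221.NS W382.ME Pool.Agent.V1183.PM Pool.Agent.H305.OS

section
variable {ν T : ℝ} {u : ℝ → V → V} {p : ℝ → V → ℝ}

lemma gw_N2 {w : Fin 3 → V → ℝ} (hw : ∀ i, HF (w i)) :
    ∫⁻ x, ENNReal.ofReal (gw w x) = ENNReal.ofReal (N2 w) := by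
  have h1 := dsW_lint hw BF_one fun _ => zero_le_one
  simp only [ENNReal.ofReal_one, mul_one] at h1
  rw [← h1]
  congr 1
  have i1 : ∀ i k, Integrable fun x => H459R3.NS.pd k (w i) x ^ 2 := fun i k => by
    simpa using sqB_int ((hw i).pd k) BF_one
  unfold dsW N2 n1 ip
  simp only [mul_one]
  rw [integral_finset_sum _ fun i _ => integrable_finset_sum _ fun k _ => i1 i k, Finset.sum_comm]
  refine Finset.sum_congr rfl fun i _ => ?_
  rw [integral_finset_sum _ fun k _ => i1 i k]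
  refine Finset.sum_congr rfl fun k _ => ?_
  congr 1
  funext x
  ring

lemma nw_en {t : ℝ} (hw : ∀ i, HF (cw u t i)) :
    ∫⁻ x, ENNReal.ofReal (nw (cw u t) x) = ENNReal.ofReal (en u t) := by
  have h1 := enW_lint hw BF_one fun _ => zero_le_one
  simp only [ENNReal.ofReal_one, mul_one] at h1
  rw [← h1]
  congr 1
  have i1 : ∀ i, Integrable fun x => cw u t i x ^ 2 := fun i => by
    simpa using sqB_int (hw i) BF_one
  unfold enW en ip
  simp only [mul_one]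
  rw [integral_finset_sum _ fun i _ => i1 i]
  refine Finset.sum_congr rfl fun i _ => ?_
  congr 1
  funext x
  ring

lemma HS.diss_le (h : HS ν T u p) {s₁ κ : ℝ} (hs₁ : s₁ ∈ Ioo 0 T)
    (hd : ∀ t, s₁ ≤ t → t < T → ∫⁻ τ in Ioc s₁ t, ENNReal.ofReal (N2 (cw u τ)) ≤ ENNReal.ofReal κ) :
    ∫⁻ t in Ioo s₁ T, ∫⁻ x, ENNReal.ofReal (gw (cw u t) x) ≤ ENNReal.ofReal κ := by
  have e1 : ∫⁻ t in Ioo s₁ T, ∫⁻ x, ENNReal.ofReal (gw (cw u t) x)
      = ∫⁻ t in Ioo s₁ T, ENNReal.ofReal (N2 (cw u t)) := by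
    refine setLIntegral_congr_fun measurableSet_Ioo fun t ht => ?_
    exact gw_N2 fun i => h.cw_HF ⟨hs₁.1.trans ht.1, ht.2⟩ i
  rw [e1]
  have hT : 0 < T - s₁ := by linarith [hs₁.2]
  obtain ⟨S, hS⟩ : ∃ S : ℕ → ℝ, S = fun n => T - (T - s₁) * (1 / 2) ^ n := ⟨_, rfl⟩
  have hSm : Monotone S := by
    intro n m hnm
    rw [hS]
    simp only
    have : (1 / 2 : ℝ) ^ m ≤ (1 / 2) ^ n := pow_le_pow_of_le_one (by norm_num) (by norm_num) hnm
    nlinarith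
  have hSl : ∀ n, s₁ ≤ S n ∧ S n < T := by
    intro n
    rw [hS]
    simp only
    have h1 : (1 / 2 : ℝ) ^ n ≤ 1 := pow_le_one₀ (by norm_num) (by norm_num)
    have h2 : (0 : ℝ) < (1 / 2) ^ n := by positivity
    constructor
    · nlinarith
    · nlinarith
  have hU : Ioo s₁ T = ⋃ n, Ioc s₁ (S n) := by
    ext τ
    rw [mem_iUnion]
    constructor
    · intro hτ
      have h1 : 0 < (T - τ) / (T - s₁) := div_pos (by linarith [hτ.2]) hT
      obtain ⟨n, hn⟩ := exists_pow_lt_of_lt_one h1 (show (1 / 2 : ℝ) < 1 by norm_num)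
      refine ⟨n, hτ.1, ?_⟩
      rw [hS]
      simp only
      rw [lt_div_iff₀ hT] at hn
      linarith
    · rintro ⟨n, hn⟩
      exact ⟨hn.1, hn.2.trans_lt (hSl n).2⟩
  have hD : Directed (· ⊆ ·) fun n => Ioc s₁ (S n) := by
    refine Monotone.directed_le fun n m hnm => ?_
    exact Ioc_subset_Ioc_right (hSm hnm)
  rw [hU, setLIntegral_iUnion_of_directed _ hD]
  exact iSup_le fun n => hd (S n) (hSl n).1 (hSl n).2

/-- The near-critical criterion. -/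
theorem HS.critN (h : HS ν T u p) {a : ℝ} (ha : 0 ≤ a) (haT : a < T) {f : V}
    (hf : ∑ i, f i ^ 2 = 1) {e : ℝ → V} (he : ∀ t ∈ Ioo a T, ∑ i, e t i ^ 2 = 1) {α β : ℝ≥0∞}
    (hαβ : 2 / α + 2 / β < 1) {g : ℝ → ℝ} (hg : MemLp g α (volume.restrict (Ioo a T)))
    (hb : ∀ t ∈ Ioo a T, eLpNorm (fun x => max (-(dq (e t) f (u t) x)) 0) β volume
      ≤ ENNReal.ofReal (g t)) :
    ∃ M : ℝ, ∃ s ∈ Ioo 0 T, ∀ t ∈ Ioo s T, ∀ x i, |u t x i| ≤ M := by
  obtain ⟨M, hM, hMf⟩ := exists_SO hf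
  obtain ⟨a₀, ha₀⟩ : ∃ a₀, a₀ = (a + T) / 2 := ⟨_, rfl⟩
  have h1 : a < a₀ := by rw [ha₀]; linarith
  have h2 : a₀ < T := by rw [ha₀]; linarith
  have h3 : 0 < a₀ := ha.trans_lt h1
  have hr := OS.HS.rot h hM
  have hsub : Ioo a₀ T ⊆ Ioo a T := Ioo_subset_Ioo_left h1.le
  have hg' : MemLp g α (volume.restrict (Ioo a₀ T)) := hg.mono_measure (Measure.restrict_mono hsub le_rfl)
  obtain ⟨E, hE⟩ : ∃ E, E = en (uM M u) a₀ := ⟨_, rfl⟩
  have hE0 : 0 ≤ E := by rw [hE]; exact en_nonneg _ _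
  have hEn : ∀ τ ∈ Ioo a₀ T, sqi (cw (uM M u) τ 2) ≤ ENNReal.ofReal E := by
    intro τ hτ
    have hτ' : τ ∈ Ioo 0 T := ⟨h3.trans hτ.1, hτ.2⟩
    apply sqi_le_of (hr.cw_HF hτ' 2)
    have k1 := hr.en_anti h3 hτ.1.le hτ.2
    have k2 : ip (cw (uM M u) τ 2) (cw (uM M u) τ 2) ≤ en (uM M u) τ :=
      single1 (F := fun i => ip (cw (uM M u) τ i) (cw (uM M u) τ i)) (fun _ => ip_self_nonneg _) 2
    rw [hE]
    linarith
  have hbb : ∀ τ ∈ Ioo a₀ T, eLpNorm (fun x => max (-(De (lm M (e τ)) (cw (uM M u) τ 2) x)) 0) β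
      volume ≤ ENNReal.ofReal |g τ| := by
    intro τ hτ
    have hτ' : τ ∈ Ioo 0 T := ⟨h3.trans hτ.1, hτ.2⟩
    rw [h.De_uM hM hMf hτ' (e τ)]
    have k1 : Continuous (dq (e τ) f (u τ)) := by
      unfold dq
      refine continuous_finsetSum _ fun i _ => continuous_finsetSum _ fun j _ => ?_
      exact continuous_const.mul ((h.cw_HF hτ' j).pd i).sm.continuous
    have k2 : AEStronglyMeasurable (fun x => max (-(dq (e τ) f (u τ) x)) 0) volume :=
      (k1.neg.max continuous_const).aestronglyMeasurable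
    have k3 := eLpNorm_comp_measurePreserving (p := β) k2 hM.mp
    have k4 : ((fun x => max (-(dq (e τ) f (u τ) x)) 0) ∘ (lm M))
        = fun x => max (-(dq (e τ) f (u τ) (lm M x))) 0 := rfl
    rw [k4] at k3
    rw [k3]
    exact (hb τ (hsub hτ)).trans (ENNReal.ofReal_le_ofReal (le_abs_self _))
  have hβ0 : β ≠ 0 := by
    rintro rfl
    rw [ENNReal.div_zero (by norm_num)] at hαβ
    simp at hαβ
  have hα0 : α ≠ 0 := by
    rintro rfl
    rw [ENNReal.div_zero (by norm_num)] at hαβ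
    simp at hαβ
  obtain ⟨b, hbdef⟩ : ∃ b, b = β⁻¹.toReal := ⟨_, rfl⟩
  obtain ⟨α', hα'⟩ : ∃ α', α' = α⁻¹.toReal := ⟨_, rfl⟩
  have hb0 : 0 ≤ b := by rw [hbdef]; exact ENNReal.toReal_nonneg
  have hαi : α⁻¹ = ENNReal.ofReal α' := by
    rw [hα', ENNReal.ofReal_toReal (ENNReal.inv_ne_top.2 hα0)]
  have hβi : β⁻¹ = ENNReal.ofReal b := by
    rw [hbdef, ENNReal.ofReal_toReal (ENNReal.inv_ne_top.2 hβ0)]
  have hα'0 : 0 ≤ α' := by rw [hα']; exact ENNReal.toReal_nonneg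
  have hab : 2 * α' + 2 * b < 1 := by
    rw [div_eq_mul_inv, div_eq_mul_inv, hαi, hβi, show (2 : ℝ≥0∞) = ENNReal.ofReal 2 by norm_num,
      ← ENNReal.ofReal_mul (by norm_num), ← ENNReal.ofReal_mul (by norm_num),
      ← ENNReal.ofReal_add (by positivity) (by positivity), ← ENNReal.ofReal_one] at hαβ
    exact (ENNReal.ofReal_lt_ofReal_iff one_pos).1 hαβ
  obtain ⟨r, hrd⟩ : ∃ r, r = 3 - 2 * b := ⟨_, rfl⟩
  have hr2 : 2 < r := by rw [hrd]; linarith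
  have hr0 : 0 < r := by linarith
  obtain ⟨C, hC, hMU⟩ := mu_dir hr2
  obtain ⟨σ, hσ⟩ : ∃ σ, σ = (1 - b)⁻¹ := ⟨_, rfl⟩
  have h1b : 0 < 1 - b := by linarith
  have hσr : 2 / σ = r - 1 := by
    rw [hσ, hrd, div_inv_eq_mul]
    ring
  obtain ⟨K, hK⟩ : ∃ K, K = C * (E ^ (1 / σ)) ^ (1 / r) := ⟨_, rfl⟩
  have hK0 : 0 ≤ K := by rw [hK]; positivity
  have hmu : ∀ τ ∈ Ioo a₀ T, MU (1 / r) (ENNReal.ofReal (K * |g τ| ^ (1 / r))) (cw (uM M u) τ 2) := by
    intro τ hτ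
    have hτ' : τ ∈ Ioo 0 T := ⟨h3.trans hτ.1, hτ.2⟩
    have k0 : ∑ i, lm M (e τ) i ^ 2 = 1 := by rw [hM.sum_sq]; exact he τ (hsub hτ)
    refine (hMU _ (lm M (e τ)) (hr.cw_HF hτ' 2) k0).mono ?_
    have k1 := space_holder (hr.cw_HF hτ' 2) (lm M (e τ)) hbdef hβ0 (by linarith) hσ (abs_nonneg (g τ))
      hE0 (hbb τ hτ) (hEn τ hτ)
    rw [hσr] at k1
    calc ENNReal.ofReal C * (∫⁻ x, ENNReal.ofReal (|cw (uM M u) τ 2 x| ^ (r - 1)
          * max (-(De (lm M (e τ)) (cw (uM M u) τ 2) x)) 0)) ^ (1 / r)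
        ≤ ENNReal.ofReal C * (ENNReal.ofReal (|g τ| * E ^ (1 / σ))) ^ (1 / r) :=
          mul_le_mul_right (ENNReal.rpow_le_rpow k1 (by positivity)) _
      _ = _ := by
          rw [ENNReal.ofReal_rpow_of_nonneg (by positivity) (by positivity), ← ENNReal.ofReal_mul hC,
            Real.mul_rpow (abs_nonneg _) (by positivity), hK]
          congr 1
          ring
  obtain ⟨K', γ, hK', hγ, hnI⟩ := nI_le hα' hα0 hab hrd hg' hK0
  obtain ⟨δ, hδ, hCL⟩ := CL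
  obtain ⟨s₁, hs₁, hs₁d⟩ := hr.small h3 h2 (κ := 1) one_pos
  -- the constants of the time
  obtain ⟨κ, hκ⟩ : ∃ κ : ℝ, κ = (1 / 4) ^ (γ / 2) := ⟨_, rfl⟩
  have hκ0 : 0 < κ := by rw [hκ]; positivity
  have hκ1 : κ < 1 := by
    rw [hκ]
    exact Real.rpow_lt_one (by norm_num) (by norm_num) (by positivity)
  have hδκ := hδ ν κ h.hν hκ0 hκ1
  obtain ⟨t₀, ht₀, ht₀1, ht₀ε⟩ : ∃ t₀ ∈ Ioo s₁ T, T - t₀ ≤ 1 ∧ K' * (T - t₀) ^ (γ / 2) ≤ δ ν κ := by
    have hlim : Tendsto (fun t₀ : ℝ => K' * (T - t₀) ^ (γ / 2)) (𝓝[<] T) (𝓝 0) := by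
      have c1 : Continuous fun t₀ : ℝ => K' * (T - t₀) ^ (γ / 2) := by
        refine continuous_const.mul ?_
        exact (continuous_const.sub continuous_id).rpow_const fun _ => Or.inr (by positivity)
      have c2 := c1.tendsto T
      simp only [sub_self] at c2
      rw [Real.zero_rpow (by positivity), mul_zero] at c2
      exact c2.mono_left nhdsWithin_le_nhds
    have e1 := (tendsto_order.1 hlim).2 _ hδκ
    have e2 : ∀ᶠ t₀ in 𝓝[<] T, t₀ ∈ Ioo (max s₁ (T - 1)) T :=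
      Ioo_mem_nhdsLT (max_lt hs₁.2 (by linarith))
    obtain ⟨t₀, k1, k2⟩ := (e1.and e2).exists
    exact ⟨t₀, ⟨(le_max_left _ _).trans_lt k2.1, k2.2⟩,
      by linarith [(le_max_right s₁ (T - 1)).trans_lt k2.1], k1.le⟩
  have hat : a₀ < t₀ := hs₁.1.trans ht₀.1
  have ht₀0 : 0 < t₀ := h3.trans hat
  obtain ⟨N, hN⟩ : ∃ N : ℝ → ℝ≥0∞, N = fun τ => ENNReal.ofReal (K * |g τ| ^ (1 / r)) := ⟨_, rfl⟩
  have hMS : MS ν T (uM M u) (pM M p) 2 t₀ (1 / r) (E + 1) N := by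
    refine ⟨hr, ht₀0, ht₀.2, ht₀1, by positivity, ?_, by linarith, ?_, ?_, ?_, ?_⟩
    · rw [one_div, one_div]
      exact (inv_lt_inv₀ hr0 two_pos).2 hr2
    · rw [hN]
      have m1 : AEStronglyMeasurable g (volume.restrict (Ioo t₀ T)) :=
        hg'.1.mono_measure (Measure.restrict_mono (Ioo_subset_Ioo_left hat.le) le_rfl)
      have m2 : AEMeasurable g (volume.restrict (Ioo t₀ T)) := m1.aemeasurable
      have m3 : Measurable fun y : ℝ => ENNReal.ofReal (K * |y| ^ (1 / r)) := by fun_prop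
      exact m3.comp_aemeasurable m2
    · intro τ hτ
      rw [hN]
      exact hmu τ ⟨hat.trans hτ.1, hτ.2⟩
    · intro t ht
      rw [nw_en fun i => hr.cw_HF ⟨ht₀0.trans_le ht.1, ht.2⟩ i]
      apply ENNReal.ofReal_le_ofReal
      have := hr.en_anti h3 (hat.le.trans ht.1) ht.2
      rw [hE]
      linarith
    · have k1 := HS.diss_le hr (s₁ := s₁) (κ := 1) ⟨h3.trans hs₁.1, hs₁.2⟩ hs₁d
      refine (lintegral_mono_set (Ioo_subset_Ioo_left ht₀.1.le)).trans (k1.trans ?_)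
      exact ENNReal.ofReal_le_ofReal (by linarith)
  have hNU : NU (1 / r) N t₀ T (K' * (T - t₀) ^ (γ / 2)) κ := by
    intro j s' s hs' hss hs hj
    rw [hN]
    refine (hnI s' s (hat.le.trans hs') hss hs).trans (ENNReal.ofReal_le_ofReal ?_)
    rw [mul_assoc]
    refine mul_le_mul_of_nonneg_left ?_ hK'
    have d0 : 0 ≤ s - s' := by linarith
    have e1 : (s - s') ^ γ = (s - s') ^ (γ / 2) * (s - s') ^ (γ / 2) := by
      rw [← Real.rpow_add_of_nonneg d0 (by positivity) (by positivity)]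
      congr 1
      ring
    rw [e1]
    have e2 : (s - s') ^ (γ / 2) ≤ (T - t₀) ^ (γ / 2) :=
      Real.rpow_le_rpow d0 (by linarith) (by positivity)
    have e3 : (s - s') ^ (γ / 2) ≤ κ ^ j := by
      rw [hκ, ← Real.rpow_natCast, ← Real.rpow_mul (by norm_num), mul_comm (γ / 2),
        Real.rpow_mul (by norm_num), Real.rpow_natCast]
      exact Real.rpow_le_rpow d0 hj (by positivity)
    exact mul_le_mul e2 e3 (by positivity) (Real.rpow_nonneg (by linarith [ht₀.2]) _)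
  have hε0 : 0 ≤ K' * (T - t₀) ^ (γ / 2) :=
    mul_nonneg hK' (Real.rpow_nonneg (by linarith [ht₀.2]) _)
  obtain ⟨A, hEA, hA⟩ := hCL 2 ν T (uM M u) (pM M p) t₀ (1 / r) (E + 1) N hMS κ
    (K' * (T - t₀) ^ (γ / 2)) hκ0 hκ1 hε0 ht₀ε hNU
  obtain ⟨s, hs, Q, hQ⟩ := P1.bounded ⟨hMS, hκ0, hκ1, hε0, hNU, hEA, hA⟩
  refine ⟨∑ i, ∑ k, |M i k| * |Q|, s, ⟨ht₀0.trans hs.1, hs.2⟩, fun t ht x i => ?_⟩
  have e1 : u t x i = ∑ k, M i k * uM M u t (lm M x) k := by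
    have k1 : (fun k => uM M u t (lm M x) k) = lm M (u t x) := by
      funext k
      unfold uM
      rw [hM.lm_lm, lm_apply]
    have k2 : uM M u t (lm M x) = lm M (u t x) := k1
    rw [k2, ← lm_apply, hM.lm_lm]
  rw [e1]
  have k3 : |∑ k, M i k * uM M u t (lm M x) k| ≤ ∑ k, |M i k| * |Q| := by
    refine (Finset.abs_sum_le_sum_abs _ _).trans (Finset.sum_le_sum fun k _ => ?_)
    rw [abs_mul]
    have k4 := norm_le_pi_norm (uM M u t (lm M x)) k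
    rw [Real.norm_eq_abs] at k4
    exact mul_le_mul_of_nonneg_left ((k4.trans (hQ t ht (lm M x))).trans (le_abs_self Q)) (abs_nonneg _)
  refine k3.trans ?_
  exact single1 (F := fun i => ∑ k, |M i k| * |Q|)
    (fun i => Finset.sum_nonneg fun k _ => by positivity) i

end

end Pool.Agent.H305.SL
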