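import Pool.Agent.H305.SL.Hk

/-!
Coverings by slabs, and the flux for a backward heat kernel.
-/

set_option autoImplicit false

open MeasureTheory Set Metric Filter Topology
open scoped ContDiff ENNReal

namespace Pool.Agent.H305.SL

open H459R3.NS W221.NS Pool.Agent.V1183.PM Pool.Agent.H305.OS
open Pool.Agent.W583.MD (sm_pd pd_mul')
open Pool.Agent.W22.ME.TD (pd_comm)
open Pool.Agent.H305.TI (it it_nil it_cons it_sm J_it dt_it)

/-- The sum of the weights of a covering. -/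
noncomputable def Zs : ℝ := ∑' i : ℤ, 1 / (1 + (i : ℝ) ^ 2)

lemma Zs_sum : Summable fun i : ℤ => 1 / (1 + (i : ℝ) ^ 2) := by
  have h0 : Summable fun n : ℕ => 1 / (1 + (n : ℝ) ^ 2) := by
    have h1 : Summable fun n : ℕ => 2 * (1 / (((n + 1 : ℕ) : ℝ)) ^ 2) :=
      ((summable_nat_add_iff 1).2 (Real.summable_one_div_nat_pow.2 (by norm_num : 1 < 2))).mul_left 2
    refine Summable.of_nonneg_of_le (fun n => by positivity) (fun n => ?_) h1
    push_cast
    rw [mul_one_div, div_le_div_iff₀ (by positivity) (by positivity)]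
    nlinarith [sq_nonneg ((n : ℝ) - 1)]
  apply Summable.of_nat_of_neg
  · simpa using h0
  · simpa using h0

lemma Zs_pos : 0 < Zs := by
  have h1 : 1 / (1 + ((0 : ℤ) : ℝ) ^ 2) ≤ Zs :=
    Zs_sum.le_tsum 0 (fun i _ => by positivity)
  norm_num at h1
  linarith

lemma Zs_ofReal (K : ℝ) (hK : 0 ≤ K) :
    ∑' i : ℤ, ENNReal.ofReal (K / (1 + (i : ℝ) ^ 2)) = ENNReal.ofReal (K * Zs) := by
  have h1 : Summable fun i : ℤ => K / (1 + (i : ℝ) ^ 2) := by
    have := Zs_sum.mul_left K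
    simpa only [mul_one_div] using this
  rw [← ENNReal.ofReal_tsum_of_nonneg (fun i => by positivity) h1]
  congr 1
  unfold Zs
  rw [← tsum_mul_left]
  simp only [mul_one_div]

section
variable {c : Fin 3} {y r : ℝ}

/-- A covering by slabs. -/
lemma cov (hr : 0 < r) {F : V → ℝ≥0∞} (hF : Measurable F) {φ : ℝ → ℝ≥0∞} {Φ : ℤ → ℝ≥0∞}
    (h : ∀ i : ℤ, ∀ z, |z - i * r| < r → φ z ≤ Φ i) :
    ∫⁻ x, F x * φ (x c - y) ≤ ∑' i : ℤ, Φ i * ∫⁻ x in slb c (y + i * r) r, F x := by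
  have h1 : ∀ x, F x * φ (x c - y) ≤ ∑' i : ℤ, Φ i * (slb c (y + i * r) r).indicator F x := by
    intro x
    obtain ⟨i, hi⟩ : ∃ i : ℤ, i = ⌊(x c - y) / r⌋ := ⟨_, rfl⟩
    have h2 : |x c - y - i * r| < r := by
      have a1 := Int.floor_le ((x c - y) / r)
      have a2 := Int.lt_floor_add_one ((x c - y) / r)
      rw [← hi] at a1 a2
      rw [le_div_iff₀ hr] at a1
      rw [div_lt_iff₀ hr] at a2
      rw [abs_lt]
      constructor <;> linarith
    refine le_trans ?_ (ENNReal.le_tsum i)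
    have hx : x ∈ slb c (y + i * r) r := by
      show |x c - (y + i * r)| < r
      rw [← sub_sub]
      exact h2
    rw [indicator_of_mem hx, mul_comm]
    exact mul_le_mul_left (h i _ h2) _
  refine (lintegral_mono h1).trans ?_
  rw [lintegral_tsum]
  · apply ENNReal.tsum_le_tsum
    intro i
    rw [lintegral_const_mul _ (hF.indicator slb_meas), lintegral_indicator slb_meas]
  · intro i
    exact ((hF.indicator slb_meas).const_mul _).aemeasurable

lemma cov_le (hr : 0 < r) {F : V → ℝ≥0∞} (hF : Measurable F) {φ : ℝ → ℝ≥0∞} {Φ : ℤ → ℝ≥0∞}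
    (h : ∀ i : ℤ, ∀ z, |z - i * r| < r → φ z ≤ Φ i) {M : ℝ≥0∞}
    (hM : ∀ y', ∫⁻ x in slb c y' r, F x ≤ M) :
    ∫⁻ x, F x * φ (x c - y) ≤ (∑' i : ℤ, Φ i) * M := by
  refine (cov hr hF h).trans ?_
  rw [← ENNReal.tsum_mul_right]
  exact ENNReal.tsum_le_tsum fun i => mul_le_mul_right (hM _) _

/-- The covering, integrated in time. -/
lemma cov_t (hr : 0 < r) {I : Set ℝ} (hI : MeasurableSet I) {F : ℝ → V → ℝ≥0∞}
    (hF : ∀ τ ∈ I, Measurable (F τ))
    (hm : ∀ y', AEMeasurable (fun τ => ∫⁻ x in slb c y' r, F τ x) (volume.restrict I))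
    {φ : ℝ → ℝ → ℝ≥0∞} {Φ : ℤ → ℝ≥0∞}
    (h : ∀ τ ∈ I, ∀ i : ℤ, ∀ z, |z - i * r| < r → φ τ z ≤ Φ i) {M : ℝ≥0∞}
    (hM : ∀ y', ∫⁻ τ in I, ∫⁻ x in slb c y' r, F τ x ≤ M) :
    ∫⁻ τ in I, ∫⁻ x, F τ x * φ τ (x c - y) ≤ (∑' i : ℤ, Φ i) * M := by
  calc ∫⁻ τ in I, ∫⁻ x, F τ x * φ τ (x c - y)
      ≤ ∫⁻ τ in I, ∑' i : ℤ, Φ i * ∫⁻ x in slb c (y + i * r) r, F τ x := by
        apply setLIntegral_mono' hI
        intro τ hτ
        exact cov hr (hF τ hτ) (h τ hτ)
    _ = ∑' i : ℤ, Φ i * ∫⁻ τ in I, ∫⁻ x in slb c (y + i * r) r, F τ x := by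
        rw [lintegral_tsum fun i => (hm _).const_mul _]
        congr 1
        ext i
        rw [lintegral_const_mul'' _ (hm _)]
    _ ≤ _ := by
        rw [← ENNReal.tsum_mul_right]
        exact ENNReal.tsum_le_tsum fun i => mul_le_mul_right (hM _) _

end

/-- The weight of the flux, decomposed. -/
lemma wt_dec {q z τ : ℝ} (hq : q = τ + z ^ 2) (hτ : 0 ≤ τ) (k : ℕ) (hk : (1 / 4 : ℝ) ^ k ≤ q) :
    1 / q ≤ 2 / (1 + z ^ 2)
      + 4 * ∑ j ∈ Finset.range k, 4 ^ j * (if q < (1 / 4 : ℝ) ^ j then (1 : ℝ) else 0) := by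
  have hq0 : 0 < q := lt_of_lt_of_le (by positivity) hk
  have hS : 0 ≤ 4 * ∑ j ∈ Finset.range k, (4 : ℝ) ^ j * (if q < (1 / 4 : ℝ) ^ j then (1 : ℝ) else 0) := by
    apply mul_nonneg (by norm_num)
    apply Finset.sum_nonneg
    intro j _
    split_ifs <;> positivity
  by_cases h1 : 1 ≤ q
  · have h2 : 1 / q ≤ 2 / (1 + z ^ 2) := by
      rw [div_le_div_iff₀ hq0 (by positivity)]
      linarith
    linarith
  · rw [not_le] at h1
    have h2 := dyad k hk
    have h3 : (1 : ℝ) ≤ 2 / (1 + z ^ 2) := by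
      rw [le_div_iff₀ (by positivity)]
      linarith
    linarith

/-- The weights of the covering. -/
lemma wt_i {r z : ℝ} (hr : 0 < r) (i : ℤ) (hi : |z - i * r| < r) :
    1 / (r ^ 2 + z ^ 2) ≤ 3 / (r ^ 2 * (1 + (i : ℝ) ^ 2)) := by
  have hiz : |(i : ℝ) * r| ≤ |z| + r := by
    have : (i : ℝ) * r = z - (z - i * r) := by ring
    rw [this]
    exact (abs_sub _ _).trans (by linarith)
  rw [div_le_div_iff₀ (by positivity) (by positivity)]
  have h3 : ((i : ℝ) * r) ^ 2 ≤ (|z| + r) ^ 2 := by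
    rw [← sq_abs ((i : ℝ) * r)]
    exact pow_le_pow_left₀ (abs_nonneg _) hiz 2
  have h4 : (|z| + r) ^ 2 ≤ 2 * z ^ 2 + 2 * r ^ 2 := by
    nlinarith [sq_nonneg (|z| - r), sq_abs z]
  nlinarith

section
variable {ν T : ℝ} {u : ℝ → V → V} {p : ℝ → V → ℝ}

/-- The density of the flux. -/
noncomputable def fx (u : ℝ → V → V) (p : ℝ → V → ℝ) (c : Fin 3) (τ : ℝ) (x : V) : ℝ :=
  (nw (cw u τ) x + 2 * |p τ x|) * |cw u τ c x|

lemma fx_nonneg (u : ℝ → V → V) (p : ℝ → V → ℝ) (c : Fin 3) (τ : ℝ) (x : V) : 0 ≤ fx u p c τ x := by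
  have := nw_nonneg (cw u τ) x
  unfold fx
  positivity

lemma fx_contOn (h : HS ν T u p) (c : Fin 3) :
    ContinuousOn (fun z : ℝ × V => fx u p c z.1 z.2) (Ioo 0 T ×ˢ univ) := by
  have h1 := (HS.j_nw h).continuousOn
  have h2 := h.jp.continuousOn
  have h3 := (h.ju c).continuousOn
  unfold fx
  exact (h1.add (continuousOn_const.mul h2.abs)).mul h3.abs

lemma fx_meas (h : HS ν T u p) (c : Fin 3) {τ : ℝ} (hτ : τ ∈ Ioo 0 T) :
    Measurable fun x => ENNReal.ofReal (fx u p c τ x) := by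
  have h1 : Continuous (nw (cw u τ)) := nw_cont fun i => h.cw_HF hτ i
  have h2 : Continuous (p τ) := (h.p_HF hτ).sm.continuous
  have h3 : Continuous (cw u τ c) := (h.cw_HF hτ c).sm.continuous
  have : Continuous (fx u p c τ) := by
    unfold fx
    exact (h1.add (continuous_const.mul h2.abs)).mul h3.abs
  exact (ENNReal.continuous_ofReal.comp this).measurable

/-- The flux of the energy, weighted with a backward heat kernel. -/
theorem FL : ∃ C : ℝ, 0 ≤ C ∧ ∀ (c : Fin 3) (ν T : ℝ) (u : ℝ → V → V) (p : ℝ → V → ℝ)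
    (t₀ σ E A : ℝ) (N : ℝ → ℝ≥0∞), MS ν T u p c t₀ σ E N → ∀ k : ℕ, Bd u c t₀ T k A → E ≤ A →
    ∀ t₁ s T' : ℝ, t₀ ≤ t₁ → t₁ ≤ s → s < T → s + (1 / 4) ^ k ≤ T' → ∀ y : ℝ,
    ∫⁻ τ in Ioc t₁ s, ∫⁻ x, ENNReal.ofReal (fx u p c τ x)
        * ENNReal.ofReal (1 / ((T' - τ) + (x c - y) ^ 2))
      ≤ ENNReal.ofReal (C * A) * ∑ j ∈ Finset.range (k + 1),
        (1 + (j : ℝ≥0∞)) * nI σ N (Ioc (max t₁ (s - (1 / 4) ^ j)) s) := by
  obtain ⟨C, hC, hHk⟩ := Hk
  have hZ := Zs_pos
  refine ⟨C * (6 * Zs) + 4 * C, by positivity, ?_⟩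
  intro c ν T u p t₀ σ E A N h k hB hEA t₁ s T' ht₁ hts hs hT' y
  have hA : 0 ≤ A := h.E0.trans hEA
  have hI : Ioc t₁ s ⊆ Ioo 0 T := fun τ hτ => ⟨h.t0.trans_le (ht₁.trans hτ.1.le), hτ.2.trans_lt hs⟩
  have hBj : ∀ j ≤ k, Bd u c t₀ T j A := fun j hj i hi => hB i (hi.trans hj)
  obtain ⟨J, hJ⟩ : ∃ J : ℕ → ℝ≥0∞, J = fun j => nI σ N (Ioc (max t₁ (s - (1 / 4) ^ j)) s) := ⟨_, rfl⟩
  -- the slabs of width one
  have h0 : ∀ y', ∫⁻ τ in Ioc t₁ s, ∫⁻ x in slb c y' 1, ENNReal.ofReal (fx u p c τ x)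
      ≤ ENNReal.ofReal (C * A) * J 0 := by
    intro y'
    have e1 := hHk c ν T u p t₀ σ E A N h 0 (hBj 0 (Nat.zero_le _)) hEA t₁ s ht₁ hts hs
      (by rw [pow_zero]; linarith [h.tT1]) y'
    rw [pow_zero, pow_zero] at e1
    have e2 : J 0 = nI σ N (Ioc t₁ s) := by
      rw [hJ]
      simp only [pow_zero]
      rw [max_eq_left (by linarith [h.tT1])]
    rw [e2]
    refine le_trans e1 ?_
    simp
  have hz1 : ∀ τ ∈ Ioc t₁ s, ∀ i : ℤ, ∀ z : ℝ, |z - i * 1| < 1 →
      (fun (_ : ℝ) (z : ℝ) => ENNReal.ofReal (2 / (1 + z ^ 2))) τ z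
        ≤ ENNReal.ofReal (6 / (1 + (i : ℝ) ^ 2)) := by
    intro τ _ i z hi
    apply ENNReal.ofReal_le_ofReal
    have := wt_i one_pos i hi
    rw [one_pow, one_mul] at this
    calc 2 / (1 + z ^ 2) = 2 * (1 / (1 + z ^ 2)) := by ring
      _ ≤ 2 * (3 / (1 + (i : ℝ) ^ 2)) := by gcongr
      _ = _ := by ring
  have h1 := cov_t (c := c) (y := y) one_pos (measurableSet_Ioc (a := t₁) (b := s))
    (F := fun τ x => ENNReal.ofReal (fx u p c τ x)) (fun τ hτ => fx_meas h.toHS c (hI hτ))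
    (fun y' => C_aem (fx_contOn h.toHS c) _ measurableSet_Ioc hI) hz1 h0
  rw [Zs_ofReal 6 (by norm_num)] at h1
  -- the small slabs
  have h2 : ∀ j ∈ Finset.range k, ∫⁻ τ in Ioc (max t₁ (s - (1 / 4) ^ j)) s,
      fxd (cw u τ) (p τ) (cw u τ c) c y ((1 / 2) ^ j) ≤ ENNReal.ofReal (C * (A * (1 + j) * (1 / 4) ^ j)) * J j := by
    intro j hj
    rw [Finset.mem_range] at hj
    have e1 : 0 < ((1 : ℝ) / 4) ^ j := by positivity
    rw [hJ]
    refine hHk c ν T u p t₀ σ E A N h j (hBj j hj.le) hEA _ s (ht₁.trans (le_max_left _ _))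
      (max_le hts (by linarith)) hs ?_ y
    have := le_max_right t₁ (s - (1 / 4) ^ j)
    linarith
  have h3 : ∀ τ ∈ Ioc t₁ s, ∫⁻ x, ENNReal.ofReal (fx u p c τ x)
        * ENNReal.ofReal (1 / ((T' - τ) + (x c - y) ^ 2))
      ≤ (∫⁻ x, ENNReal.ofReal (fx u p c τ x) * ENNReal.ofReal (2 / (1 + (x c - y) ^ 2)))
        + ∑ j ∈ Finset.range k, ENNReal.ofReal (4 * 4 ^ j) *
          (Ioc (max t₁ (s - (1 / 4) ^ j)) s).indicator (fun τ => fxd (cw u τ) (p τ) (cw u τ c) c y
            ((1 / 2) ^ j)) τ := by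
    intro τ hτ
    have mf := fx_meas h.toHS c (hI hτ)
    have e1 : ∀ x, ENNReal.ofReal (fx u p c τ x) * ENNReal.ofReal (1 / ((T' - τ) + (x c - y) ^ 2))
        ≤ ENNReal.ofReal (fx u p c τ x) * ENNReal.ofReal (2 / (1 + (x c - y) ^ 2))
          + ∑ j ∈ Finset.range k, ENNReal.ofReal (4 * 4 ^ j) *
            (if τ ∈ Ioc (max t₁ (s - (1 / 4) ^ j)) s then (slb c y ((1 / 2) ^ j)).indicator
              (fun x => ENNReal.ofReal (fx u p c τ x)) x else 0) := by
      intro x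
      have e2 : 0 < ((1 : ℝ) / 4) ^ k := by positivity
      have e3 := wt_dec (q := (T' - τ) + (x c - y) ^ 2) rfl (by linarith [hτ.2]) k
        (by nlinarith [hτ.2, sq_nonneg (x c - y)])
      have e4 : ∀ j, (0 : ℝ) ≤ 4 ^ j * (if (T' - τ) + (x c - y) ^ 2 < (1 / 4 : ℝ) ^ j then (1 : ℝ) else 0) := by
        intro j
        split_ifs <;> positivity
      calc ENNReal.ofReal (fx u p c τ x) * ENNReal.ofReal (1 / ((T' - τ) + (x c - y) ^ 2))
          ≤ ENNReal.ofReal (fx u p c τ x) * ENNReal.ofReal (2 / (1 + (x c - y) ^ 2)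
            + 4 * ∑ j ∈ Finset.range k, 4 ^ j *
              (if (T' - τ) + (x c - y) ^ 2 < (1 / 4 : ℝ) ^ j then (1 : ℝ) else 0)) := by
            gcongr
        _ = ENNReal.ofReal (fx u p c τ x) * ENNReal.ofReal (2 / (1 + (x c - y) ^ 2))
            + ∑ j ∈ Finset.range k, ENNReal.ofReal (fx u p c τ x) * ENNReal.ofReal (4 * (4 ^ j *
              (if (T' - τ) + (x c - y) ^ 2 < (1 / 4 : ℝ) ^ j then (1 : ℝ) else 0))) := by
            rw [ENNReal.ofReal_add (by positivity) (mul_nonneg (by norm_num)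
              (Finset.sum_nonneg fun j _ => e4 j)), mul_add, Finset.mul_sum,
              ENNReal.ofReal_sum_of_nonneg (fun j _ => mul_nonneg (by norm_num) (e4 j)),
              Finset.mul_sum]
        _ ≤ _ := by
            refine add_le_add le_rfl (Finset.sum_le_sum fun j hj => ?_)
            by_cases hq : (T' - τ) + (x c - y) ^ 2 < (1 / 4 : ℝ) ^ j
            · have e5 : τ ∈ Ioc (max t₁ (s - (1 / 4) ^ j)) s := by
                refine ⟨max_lt hτ.1 ?_, hτ.2⟩
                nlinarith [sq_nonneg (x c - y)]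
              have e6 : x ∈ slb c y ((1 / 2) ^ j) := by
                show |x c - y| < (1 / 2) ^ j
                apply abs_lt_of_sq_lt_sq _ (by positivity)
                have : (((1 : ℝ) / 2) ^ j) ^ 2 = (1 / 4) ^ j := by
                  rw [← pow_mul, mul_comm, pow_mul]
                  norm_num
                rw [this]
                nlinarith [hτ.2]
              rw [if_pos hq, if_pos e5, indicator_of_mem e6, mul_one, mul_comm]
            · rw [if_neg hq]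
              simp
    refine (lintegral_mono e1).trans ?_
    have m2 : Measurable fun x => ENNReal.ofReal (fx u p c τ x)
        * ENNReal.ofReal (2 / (1 + (x c - y) ^ 2)) := by
      apply mf.mul
      have : Measurable fun x : V => 2 / (1 + (x c - y) ^ 2) := by fun_prop
      exact this.ennreal_ofReal
    rw [lintegral_add_left m2]
    gcongr
    rw [lintegral_finsetSum]
    · gcongr with j hj
      by_cases e5 : τ ∈ Ioc (max t₁ (s - (1 / 4) ^ j)) s
      · simp only [if_pos e5]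
        rw [indicator_of_mem e5, lintegral_const_mul _ (mf.indicator slb_meas),
          lintegral_indicator slb_meas]
        exact le_rfl
      · simp only [if_neg e5]
        simp
    · intro j _
      apply Measurable.const_mul
      by_cases e5 : τ ∈ Ioc (max t₁ (s - (1 / 4) ^ j)) s
      · simp only [if_pos e5]
        exact mf.indicator slb_meas
      · simp only [if_neg e5]
        exact measurable_const
  have m3 : AEMeasurable (fun τ => ∫⁻ x, ENNReal.ofReal (fx u p c τ x)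
      * ENNReal.ofReal (2 / (1 + (x c - y) ^ 2))) (volume.restrict (Ioc t₁ s)) := by
    have hc : ContinuousOn (fun z : ℝ × V => fx u p c z.1 z.2 * (2 / (1 + (z.2 c - y) ^ 2)))
        (Ioo 0 T ×ˢ univ) := by
      apply (fx_contOn h.toHS c).mul
      apply Continuous.continuousOn
      apply Continuous.div (by fun_prop) (by fun_prop)
      intro z
      positivity
    have := C_aem (F := fun τ x => fx u p c τ x * (2 / (1 + (x c - y) ^ 2))) hc univ
      (μ := volume) (measurableSet_Ioc (a := t₁) (b := s)) hI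
    simp only [Measure.restrict_univ] at this
    refine this.congr (Eventually.of_forall fun τ => ?_)
    apply lintegral_congr
    intro x
    rw [ENNReal.ofReal_mul (fx_nonneg u p c τ x)]
  have m4 : ∀ j : ℕ, AEMeasurable (fun τ => fxd (cw u τ) (p τ) (cw u τ c) c y ((1 / 2) ^ j))
      (volume.restrict (Ioc t₁ s)) := fun j =>
    C_aem (fx_contOn h.toHS c) _ measurableSet_Ioc hI
  calc ∫⁻ τ in Ioc t₁ s, ∫⁻ x, ENNReal.ofReal (fx u p c τ x)
        * ENNReal.ofReal (1 / ((T' - τ) + (x c - y) ^ 2))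
      ≤ ∫⁻ τ in Ioc t₁ s, ((∫⁻ x, ENNReal.ofReal (fx u p c τ x)
          * ENNReal.ofReal (2 / (1 + (x c - y) ^ 2)))
        + ∑ j ∈ Finset.range k, ENNReal.ofReal (4 * 4 ^ j) *
          (Ioc (max t₁ (s - (1 / 4) ^ j)) s).indicator (fun τ => fxd (cw u τ) (p τ) (cw u τ c) c y
            ((1 / 2) ^ j)) τ) := setLIntegral_mono' measurableSet_Ioc h3
    _ = (∫⁻ τ in Ioc t₁ s, ∫⁻ x, ENNReal.ofReal (fx u p c τ x)
          * ENNReal.ofReal (2 / (1 + (x c - y) ^ 2)))
        + ∑ j ∈ Finset.range k, ENNReal.ofReal (4 * 4 ^ j) *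
          ∫⁻ τ in Ioc (max t₁ (s - (1 / 4) ^ j)) s, fxd (cw u τ) (p τ) (cw u τ c) c y
            ((1 / 2) ^ j) := by
        rw [lintegral_add_left' m3, lintegral_finset_sum']
        · congr 1
          apply Finset.sum_congr rfl
          intro j _
          rw [lintegral_const_mul' _ _ ENNReal.ofReal_ne_top, lintegral_indicator measurableSet_Ioc,
            Measure.restrict_restrict measurableSet_Ioc, inter_eq_self_of_subset_left
            (Ioc_subset_Ioc_left (le_max_left _ _))]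
        · intro j _
          exact ((m4 j).indicator measurableSet_Ioc).const_mul _
    _ ≤ ENNReal.ofReal (6 * Zs) * (ENNReal.ofReal (C * A) * J 0)
        + ∑ j ∈ Finset.range k, ENNReal.ofReal (4 * 4 ^ j) *
          (ENNReal.ofReal (C * (A * (1 + j) * (1 / 4) ^ j)) * J j) := by
        gcongr with j hj
        exact h2 j hj
    _ = ENNReal.ofReal (C * (6 * Zs) * A) * ((1 + ((0 : ℕ) : ℝ≥0∞)) * J 0)
        + ENNReal.ofReal (4 * C * A) * ∑ j ∈ Finset.range k, (1 + (j : ℝ≥0∞)) * J j := by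
        rw [Finset.mul_sum]
        congr 1
        · rw [Nat.cast_zero, add_zero, one_mul, ← mul_assoc, ← ENNReal.ofReal_mul (by positivity)]
          congr 2
          ring
        · apply Finset.sum_congr rfl
          intro j _
          have e1 : (1 + (j : ℝ≥0∞)) = ENNReal.ofReal (1 + j) := by
            rw [ENNReal.ofReal_add (by norm_num) (Nat.cast_nonneg j), ENNReal.ofReal_one,
              ENNReal.ofReal_natCast]
          have e3 : ENNReal.ofReal (4 * 4 ^ j) * ENNReal.ofReal (C * (A * (1 + j) * (1 / 4) ^ j))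
              = ENNReal.ofReal (4 * C * A) * (1 + (j : ℝ≥0∞)) := by
            rw [e1, ← ENNReal.ofReal_mul (by positivity), ← ENNReal.ofReal_mul (by positivity)]
            congr 1
            have e2 : (4 : ℝ) ^ j * (1 / 4) ^ j = 1 := by
              rw [← mul_pow]
              norm_num
            linear_combination 4 * C * A * (1 + j) * e2
          rw [← mul_assoc, e3, mul_assoc]
    _ ≤ ENNReal.ofReal (C * (6 * Zs) * A) * (∑ j ∈ Finset.range (k + 1), (1 + (j : ℝ≥0∞)) * J j)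
        + ENNReal.ofReal (4 * C * A) * ∑ j ∈ Finset.range (k + 1), (1 + (j : ℝ≥0∞)) * J j := by
        gcongr
        · exact Finset.single_le_sum (f := fun j : ℕ => (1 + (j : ℝ≥0∞)) * J j)
            (fun _ _ => zero_le) (Finset.mem_range.2 (Nat.succ_pos k))
        · exact Nat.le_succ k
    _ = _ := by
        rw [← add_mul, ← ENNReal.ofReal_add (by positivity) (by positivity), ← add_mul, hJ]

end

end Pool.Agent.H305.SL
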