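import Pool.Agent.H305.SL.Slb

/-!
The flux through a slab, integrated in time.
-/

set_option autoImplicit false

open MeasureTheory Set Metric Filter Topology
open scoped ContDiff ENNReal

namespace Pool.Agent.H305.SL

open H459R3.NS W221.NS Pool.Agent.V1183.PM Pool.Agent.H305.OS
open Pool.Agent.W583.MD (sm_pd pd_mul')
open Pool.Agent.W22.ME.TD (pd_comm)
open Pool.Agent.H305.TI (it it_nil it_cons it_sm J_it dt_it)

section
variable {c : Fin 3} {y ρ R : ℝ} {v : Fin 3 → V → ℝ} {w q : V → ℝ}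

/-- The flux in a slab. -/
noncomputable def fxd (v : Fin 3 → V → ℝ) (q w : V → ℝ) (c : Fin 3) (y ρ : ℝ) : ℝ≥0∞ :=
  ∫⁻ x in slb c y ρ, ENNReal.ofReal ((nw v x + 2 * |q x|) * |w x|)

/-- The flux at one time. -/
lemma inst : ∃ C : ℝ, 0 ≤ C ∧ ∀ (σ : ℝ) (N : ℝ≥0∞) (v : Fin 3 → V → ℝ) (q w : V → ℝ) (c : Fin 3)
    (y ρ : ℝ), MU σ N w → (∀ i, HF (v i)) → (∀ x, ∑ i, pd i (v i) x = 0) → HF q →
    (∀ x, - lp q x = ∑ i, pd i (nl v i) x) → Continuous w → 0 ≤ σ → σ ≤ 1 / 2 → 0 < ρ →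
    fxd v q w c y ρ ≤ ENNReal.ofReal C * (ENNReal.ofReal ρ *
      (N * ((sE v c y (4 * ρ)) ^ ((1 - 2 * σ) / 2) * (Dt v c y ρ) ^ ((1 + 2 * σ) / 2)))
      + N * (ENNReal.ofReal ρ * ENNReal.ofReal ((ρ ^ 2)⁻¹) ^ σ
        * ∫⁻ R in Ioi ρ, ENNReal.ofReal ((R ^ 2)⁻¹) * sE v c y (2 * R))) := by
  obtain ⟨Cp, hCp, hp⟩ := press_bd
  have hKF := KF_pos
  refine ⟨18 + 288 * Cp + 2 * Cp * KF, by positivity, ?_⟩
  intro σ N v q w c y ρ hN hv hdiv hq he hw hσ0 hσ hρ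
  have cn := nw_cont hv
  have mw : Measurable fun x => ENNReal.ofReal |w x| :=
    (ENNReal.continuous_ofReal.comp hw.abs).measurable
  have h1 : fxd v q w c y ρ ≤ (∫⁻ x in slb c y ρ, ENNReal.ofReal (|w x| * nw v x))
      + ENNReal.ofReal (2 * Cp) * ((∫⁻ x in slb c y ρ, ENNReal.ofReal |w x| * nearP v ρ x)
        + ∫⁻ x in slb c y ρ, ENNReal.ofReal |w x| * farP v ρ x) := by
    have m1 : Measurable fun x => ENNReal.ofReal (|w x| * nw v x) :=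
      (ENNReal.continuous_ofReal.comp (hw.abs.mul cn)).measurable
    have m2 : Measurable fun x => ENNReal.ofReal |w x| * nearP v ρ x := by
      apply mw.mul
      unfold nearP
      have cG : Continuous fun x => √(nw v x) * √(gw v x) := cn.sqrt.mul (gw_cont hv).sqrt
      have : Measurable fun z : V × ℝ => ∫⁻ y' in closedBall (0 : V) 1,
          ENNReal.ofReal (√(nw v (z.1 + z.2 • y')) * √(gw v (z.1 + z.2 • y'))) := by
        have : Measurable fun q : (V × ℝ) × V => ENNReal.ofReal ((fun x => √(nw v x) * √(gw v x))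
            (q.1.1 + q.1.2 • q.2)) := by
          have : Continuous fun q : (V × ℝ) × V => (fun x => √(nw v x) * √(gw v x))
              (q.1.1 + q.1.2 • q.2) := cG.comp (by fun_prop)
          exact (ENNReal.continuous_ofReal.comp this).measurable
        exact this.lintegral_prod_right'
      exact this.lintegral_prod_right'
    rw [← lintegral_add_left m2, ← lintegral_const_mul' _ _ ENNReal.ofReal_ne_top,
      ← lintegral_add_left m1]
    apply lintegral_mono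
    intro x
    simp only
    have h2 : ENNReal.ofReal ((nw v x + 2 * |q x|) * |w x|)
        = ENNReal.ofReal (|w x| * nw v x) + ENNReal.ofReal 2 * (ENNReal.ofReal |w x|
          * ENNReal.ofReal |q x|) := by
      have n1 := nw_nonneg v x
      rw [← ENNReal.ofReal_mul (abs_nonneg _), ← ENNReal.ofReal_mul (by norm_num),
        ← ENNReal.ofReal_add (by positivity) (by positivity)]
      congr 1
      ring
    rw [h2]
    have h3 := hp v q hv hdiv hq he ρ hρ x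
    calc ENNReal.ofReal (|w x| * nw v x) + ENNReal.ofReal 2 * (ENNReal.ofReal |w x|
          * ENNReal.ofReal |q x|)
        ≤ ENNReal.ofReal (|w x| * nw v x) + ENNReal.ofReal 2 * (ENNReal.ofReal |w x|
          * (ENNReal.ofReal Cp * (nearP v ρ x + farP v ρ x))) := by gcongr
      _ = _ := by
          rw [ENNReal.ofReal_mul (by norm_num : (0 : ℝ) ≤ 2)]
          ring
  have h4 := TB' (c := c) (y := y) hN hv hw hσ0 hσ hρ
  have h5 := TN (c := c) (y := y) hN hv hw hσ0 hσ hρ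
  have h6 := TC2 (c := c) (y := y) hN hw hv hσ0 hσ hρ
  obtain ⟨X, hX⟩ : ∃ X, X = ENNReal.ofReal ρ *
      (N * ((sE v c y (4 * ρ)) ^ ((1 - 2 * σ) / 2) * (Dt v c y ρ) ^ ((1 + 2 * σ) / 2))) := ⟨_, rfl⟩
  obtain ⟨Y, hY⟩ : ∃ Y, Y = N * (ENNReal.ofReal ρ * ENNReal.ofReal ((ρ ^ 2)⁻¹) ^ σ
        * ∫⁻ R in Ioi ρ, ENNReal.ofReal ((R ^ 2)⁻¹) * sE v c y (2 * R)) := ⟨_, rfl⟩
  rw [← hX] at h4 h5 ⊢
  rw [← hY] at h6 ⊢
  calc fxd v q w c y ρ ≤ 18 * X + ENNReal.ofReal (2 * Cp) * (144 * X + ENNReal.ofReal KF * Y) := by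
        refine h1.trans ?_
        gcongr
    _ = (18 + ENNReal.ofReal (2 * Cp) * 144) * X + (ENNReal.ofReal (2 * Cp) * ENNReal.ofReal KF) * Y := by
        ring
    _ ≤ ENNReal.ofReal (18 + 288 * Cp + 2 * Cp * KF) * X
        + ENNReal.ofReal (18 + 288 * Cp + 2 * Cp * KF) * Y := by
        have e1 : (18 : ℝ≥0∞) = ENNReal.ofReal 18 := by norm_num
        have e2 : (144 : ℝ≥0∞) = ENNReal.ofReal 144 := by norm_num
        gcongr
        · rw [e1, e2, ← ENNReal.ofReal_mul (by positivity), ← ENNReal.ofReal_add (by norm_num) (by positivity)]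
          apply ENNReal.ofReal_le_ofReal
          have : 0 ≤ 2 * Cp * KF := by positivity
          linarith
        · rw [← ENNReal.ofReal_mul (by positivity)]
          apply ENNReal.ofReal_le_ofReal
          linarith
    _ = _ := by ring

/-- Hölder's inequality in time. -/
lemma hold {X : Type*} [MeasurableSpace X] {μ : Measure X} {N D : X → ℝ≥0∞} {σ : ℝ}
    (hN : AEMeasurable N μ) (hD : AEMeasurable D μ) (hσ0 : 0 ≤ σ) (hσ : σ < 1 / 2) :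
    ∫⁻ x, N x * D x ^ ((1 + 2 * σ) / 2) ∂μ
      ≤ (∫⁻ x, N x ^ (2 / (1 - 2 * σ)) ∂μ) ^ ((1 - 2 * σ) / 2) * (∫⁻ x, D x ∂μ) ^ ((1 + 2 * σ) / 2) := by
  have h := hol3 (μ := μ) (f := fun x => N x ^ (2 / (1 - 2 * σ))) (g := D) (h := fun _ => 1)
    (hN.pow_const _) hD aemeasurable_const (p := (1 - 2 * σ) / 2) (q := (1 + 2 * σ) / 2) (r := 0)
    (by linarith) (by linarith) le_rfl (by ring)
  have h0 : 0 < 1 - 2 * σ := by linarith
  have e : ∀ x, (N x ^ (2 / (1 - 2 * σ))) ^ ((1 - 2 * σ) / 2) = N x := by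
    intro x
    rw [← ENNReal.rpow_mul, show 2 / (1 - 2 * σ) * ((1 - 2 * σ) / 2) = 1 by field_simp,
      ENNReal.rpow_one]
  simp only [e, ENNReal.rpow_zero, mul_one] at h
  exact h

lemma C_aem {T : ℝ} {F : ℝ → V → ℝ} (hF : ContinuousOn (fun z : ℝ × V => F z.1 z.2) (Ioo 0 T ×ˢ univ))
    (S : Set V) {μ : Measure ℝ} {I : Set ℝ} (hI : MeasurableSet I) (hIT : I ⊆ Ioo 0 T) :
    AEMeasurable (fun τ => ∫⁻ x in S, ENNReal.ofReal (F τ x)) (μ.restrict I) := by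
  have hs : MeasurableSet (Ioo (0 : ℝ) T ×ˢ (univ : Set V)) :=
    measurableSet_Ioo.prod MeasurableSet.univ
  have hm : Measurable ((Ioo (0 : ℝ) T ×ˢ (univ : Set V)).piecewise (fun z : ℝ × V => F z.1 z.2)
      (fun _ => 0)) :=
    ContinuousOn.measurable_piecewise hF continuousOn_const hs
  have hm2 := (hm.ennreal_ofReal).lintegral_prod_right' (ν := volume.restrict S)
  refine ⟨_, hm2, ?_⟩
  rw [EventuallyEq, ae_restrict_iff' hI]
  refine Eventually.of_forall fun τ hτ => ?_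
  apply lintegral_congr
  intro x
  rw [piecewise_eq_of_mem _ _ _ (show (τ, x) ∈ Ioo (0 : ℝ) T ×ˢ (univ : Set V) from
    ⟨hIT hτ, mem_univ _⟩)]

lemma J_aem {T : ℝ} {F : ℝ → V → ℝ} (hF : J T F) {S : Set V} {μ : Measure ℝ}
    {I : Set ℝ} (hI : MeasurableSet I) (hIT : I ⊆ Ioo 0 T) :
    AEMeasurable (fun τ => ∫⁻ x in S, ENNReal.ofReal (F τ x)) (μ.restrict I) :=
  C_aem hF.continuousOn S hI hIT

section
variable {ν T : ℝ} {u : ℝ → V → V} {p : ℝ → V → ℝ}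

lemma HS.j_nw (h : HS ν T u p) : J T (fun τ => nw (cw u τ)) := by
  unfold nw cw
  apply J.sum
  intro i
  have := (h.ju i).mul (h.ju i)
  simpa only [sq] using this

lemma HS.j_gw (h : HS ν T u p) : J T (fun τ => gw (cw u τ)) := by
  unfold gw cw
  apply J.sum
  intro i
  apply J.sum
  intro k
  have := ((h.ju i).pd k).mul ((h.ju i).pd k)
  simpa only [sq] using this

lemma HS.m_sE (h : HS ν T u p) (c : Fin 3) (y ρ : ℝ) {μ : Measure ℝ} {I : Set ℝ}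
    (hI : MeasurableSet I) (hIT : I ⊆ Ioo 0 T) :
    AEMeasurable (fun τ => sE (cw u τ) c y ρ) (μ.restrict I) :=
  J_aem (HS.j_nw h) hI hIT

lemma HS.m_sG (h : HS ν T u p) (c : Fin 3) (y ρ : ℝ) {μ : Measure ℝ} {I : Set ℝ}
    (hI : MeasurableSet I) (hIT : I ⊆ Ioo 0 T) :
    AEMeasurable (fun τ => sG (cw u τ) c y ρ) (μ.restrict I) :=
  J_aem (HS.j_gw h) hI hIT

/-- The hypotheses: a solution with a multiplier bound, near the final time. -/
structure MS (ν T : ℝ) (u : ℝ → V → V) (p : ℝ → V → ℝ) (c : Fin 3) (t₀ σ E : ℝ) (N : ℝ → ℝ≥0∞) :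
    Prop extends HS ν T u p where
  t0 : 0 < t₀
  tT : t₀ < T
  tT1 : T - t₀ ≤ 1
  σ0 : 0 ≤ σ
  σ1 : σ < 1 / 2
  E0 : 0 ≤ E
  mN : AEMeasurable N (volume.restrict (Ioo t₀ T))
  mu : ∀ τ ∈ Ioo t₀ T, MU σ (N τ) (cw u τ c)
  e1 : ∀ t ∈ Ico t₀ T, ∫⁻ x, ENNReal.ofReal (nw (cw u t) x) ≤ ENNReal.ofReal E
  e2 : ∫⁻ t in Ioo t₀ T, ∫⁻ x, ENNReal.ofReal (gw (cw u t) x) ≤ ENNReal.ofReal E

/-- The norm of the multiplier bound. -/
noncomputable def nI (σ : ℝ) (N : ℝ → ℝ≥0∞) (I : Set ℝ) : ℝ≥0∞ :=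
  (∫⁻ τ in I, N τ ^ (2 / (1 - 2 * σ))) ^ ((1 - 2 * σ) / 2)

lemma nI_mono {σ : ℝ} (hσ : σ ≤ 1 / 2) {N : ℝ → ℝ≥0∞} {I I' : Set ℝ} (h : I ⊆ I') :
    nI σ N I ≤ nI σ N I' :=
  ENNReal.rpow_le_rpow (lintegral_mono_set h) (by linarith)

/-- The bounds on all slabs down to the width `2⁻ⁿ`. -/
def Bd (u : ℝ → V → V) (c : Fin 3) (t₀ T : ℝ) (n : ℕ) (A : ℝ) : Prop :=
  ∀ j ≤ n, ∀ y : ℝ, ∀ s ∈ Ico t₀ T,
    sE (cw u s) c y ((1 / 2) ^ j) ≤ ENNReal.ofReal (A * (1 / 2) ^ j) ∧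
    ∫⁻ τ in Ioc (max t₀ (s - (1 / 4) ^ j)) s, sG (cw u τ) c y ((1 / 2) ^ j)
      ≤ ENNReal.ofReal (A * (1 / 2) ^ j)

lemma Bd.mono {c : Fin 3} {t₀ T : ℝ} {n : ℕ} {A A' : ℝ} (h : Bd u c t₀ T n A) (hA : A ≤ A') :
    Bd u c t₀ T n A' := fun j hj y s hs =>
  ⟨((h j hj y s hs).1).trans (ENNReal.ofReal_le_ofReal (by gcongr)),
    ((h j hj y s hs).2).trans (ENNReal.ofReal_le_ofReal (by gcongr))⟩

variable {t₀ σ E A : ℝ} {N : ℝ → ℝ≥0∞} {n : ℕ}

lemma MS.sE_le (h : MS ν T u p c t₀ σ E N) {s : ℝ} (hs : s ∈ Ico t₀ T) (y ρ : ℝ) :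
    sE (cw u s) c y ρ ≤ ENNReal.ofReal E :=
  (setLIntegral_le_lintegral _ _).trans (h.e1 s hs)

lemma MS.sG_le (h : MS ν T u p c t₀ σ E N) {s s' : ℝ} (hs' : t₀ ≤ s') (hs : s < T) (y ρ : ℝ) :
    ∫⁻ τ in Ioc s' s, sG (cw u τ) c y ρ ≤ ENNReal.ofReal E := by
  calc ∫⁻ τ in Ioc s' s, sG (cw u τ) c y ρ
      ≤ ∫⁻ τ in Ioo t₀ T, sG (cw u τ) c y ρ := by
        apply lintegral_mono_set
        intro τ hτ
        exact ⟨hs'.trans_lt hτ.1, hτ.2.trans_lt hs⟩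
    _ ≤ ∫⁻ τ in Ioo t₀ T, ∫⁻ x, ENNReal.ofReal (gw (cw u τ) x) :=
        lintegral_mono fun τ => setLIntegral_le_lintegral _ _
    _ ≤ _ := h.e2

lemma MS.sE4 (h : MS ν T u p c t₀ σ E N) {k : ℕ} (hB : Bd u c t₀ T k A) (hEA : E ≤ A) {s : ℝ}
    (hs : s ∈ Ico t₀ T) (y : ℝ) :
    sE (cw u s) c y (4 * (1 / 2) ^ k) ≤ ENNReal.ofReal (4 * A * (1 / 2) ^ k) := by
  have hA : 0 ≤ A := h.E0.trans hEA
  match k with
  | 0 =>
    refine (h.sE_le hs y _).trans (ENNReal.ofReal_le_ofReal ?_)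
    rw [pow_zero]
    linarith
  | 1 =>
    refine (h.sE_le hs y _).trans (ENNReal.ofReal_le_ofReal ?_)
    rw [pow_one]
    linarith
  | k + 2 =>
    have h1 := (hB k (by omega) y s hs).1
    have e : (4 : ℝ) * (1 / 2) ^ (k + 2) = (1 / 2) ^ k := by
      rw [pow_add]
      ring
    rw [e, mul_right_comm, e, mul_comm]
    exact h1

lemma MS.sG4 (h : MS ν T u p c t₀ σ E N) {k : ℕ} (hB : Bd u c t₀ T k A) (hEA : E ≤ A) {s s' : ℝ}
    (hs' : t₀ ≤ s') (hss : s' ≤ s) (hs : s < T) (hk : s - s' ≤ (1 / 4) ^ k) (y : ℝ) :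
    ∫⁻ τ in Ioc s' s, sG (cw u τ) c y (4 * (1 / 2) ^ k) ≤ ENNReal.ofReal (4 * A * (1 / 2) ^ k) := by
  have hA : 0 ≤ A := h.E0.trans hEA
  match k with
  | 0 =>
    refine (h.sG_le hs' hs y _).trans (ENNReal.ofReal_le_ofReal ?_)
    rw [pow_zero]
    linarith
  | 1 =>
    refine (h.sG_le hs' hs y _).trans (ENNReal.ofReal_le_ofReal ?_)
    rw [pow_one]
    linarith
  | k + 2 =>
    have h1 := (hB k (by omega) y s ⟨hs'.trans hss, hs⟩).2
    have e : (4 : ℝ) * (1 / 2) ^ (k + 2) = (1 / 2) ^ k := by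
      rw [pow_add]
      ring
    rw [e, mul_right_comm, e, mul_comm]
    refine le_trans (lintegral_mono_set ?_) h1
    apply Ioc_subset_Ioc_left
    apply max_le hs'
    have : ((1 : ℝ) / 4) ^ (k + 2) ≤ (1 / 4) ^ k := pow_le_pow_of_le_one (by norm_num) (by norm_num) (by omega)
    linarith

end

end

end Pool.Agent.H305.SL
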