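import Pool.Agent.H305.SL.Prs

/-!
The Gaussian weight in one variable.
-/

set_option autoImplicit false

open MeasureTheory Set Metric Filter Topology
open scoped ContDiff ENNReal

namespace Pool.Agent.H305.SL

open H459R3.NS W221.NS Pool.Agent.V1183.PM Pool.Agent.H305.OS
open Pool.Agent.W583.MD (sm_pd pd_mul')
open Pool.Agent.W22.ME.TD (pd_comm)
open Pool.Agent.H305.TI (it it_nil it_cons it_sm J_it dt_it)

/-- The Gaussian kernel (not normalised). -/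
noncomputable def gk (ν τ z : ℝ) : ℝ := (√τ)⁻¹ * Real.exp (-(1 / (4 * ν * τ)) * z ^ 2)

/-- The weight with vertex `(T', y)`. -/
noncomputable def gW (ν : ℝ) (c : Fin 3) (T' y : ℝ) (t : ℝ) (x : V) : ℝ := gk ν (T' - t) (x c - y)

section
variable {ν τ z T' y t T : ℝ} {c : Fin 3}

lemma gW_mon (ν : ℝ) (c : Fin 3) (T' y t : ℝ) :
    gW ν c T' y t = mon c y 0 ((√(T' - t))⁻¹) (1 / (4 * ν * (T' - t))) := by
  funext x
  unfold gW gk mon
  simp

lemma gk_nonneg (ν τ z : ℝ) : 0 ≤ gk ν τ z := by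
  unfold gk
  positivity

lemma gW_sm (ν : ℝ) (c : Fin 3) (T' y t : ℝ) : ContDiff ℝ ∞ (gW ν c T' y t) := by
  rw [gW_mon]
  exact mon_sm _ _ _ _ _

lemma gW_ub (hν : 0 < ν) {s t : ℝ} (hst : s ≤ t) (ht : t < T') (y : ℝ) :
    UB (Icc s t) (gW ν c T' y) := by
  have h1 : UB (Icc s t) (fun τ => mon c y 0 ((√(T' - τ))⁻¹) (1 / (4 * ν * (T' - τ)))) := by
    apply mon_ub (A := (√(T' - t))⁻¹) (b₀ := 1 / (4 * ν * (T' - s)))
      (b₁ := 1 / (4 * ν * (T' - t))) (by positivity)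
    · have : 0 < T' - s := by linarith
      positivity
    · intro τ hτ
      rw [abs_of_nonneg (by positivity)]
      have h2 : 0 < √(T' - t) := Real.sqrt_pos.2 (by linarith)
      apply inv_anti₀ h2
      exact Real.sqrt_le_sqrt (by linarith [hτ.2])
    · intro τ hτ
      have h2 : 0 < T' - τ := by linarith [hτ.2]
      have h3 : T' - τ ≤ T' - s := by linarith [hτ.1]
      apply one_div_le_one_div_of_le (by positivity)
      gcongr
    · intro τ hτ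
      have h2 : 0 < T' - t := by linarith
      have h3 : T' - t ≤ T' - τ := by linarith [hτ.2]
      apply one_div_le_one_div_of_le (by positivity)
      gcongr
  exact h1.congr fun τ _ => gW_mon ν c T' y τ

lemma gW_j (hν : 0 < ν) (hT : T ≤ T') (y : ℝ) : J T (gW ν c T' y) := by
  unfold J gW gk
  have h0 : ∀ z ∈ Ioo 0 T ×ˢ (univ : Set V), 0 < T' - z.1 := by
    rintro ⟨t, x⟩ ⟨ht, -⟩
    have := ht.2
    simp only
    linarith
  have h1 : ContDiffOn ℝ ∞ (fun z : ℝ × V => T' - z.1) (Ioo 0 T ×ˢ univ) := by fun_prop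
  have h2 : ContDiffOn ℝ ∞ (fun z : ℝ × V => z.2 c - y) (Ioo 0 T ×ˢ univ) := by
    have : ContDiff ℝ ∞ (fun z : ℝ × V => z.2 c - y) :=
      ((contDiff_apply ℝ ℝ c).comp contDiff_snd).sub contDiff_const
    exact this.contDiffOn
  apply ContDiffOn.mul
  · apply ContDiffOn.inv
    · exact h1.sqrt fun z hz => (h0 z hz).ne'
    · intro z hz
      exact (Real.sqrt_pos.2 (h0 z hz)).ne'
  · apply ContDiffOn.exp
    apply ContDiffOn.mul _ (h2.pow 2)
    apply ContDiffOn.neg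
    apply ContDiffOn.div contDiffOn_const (contDiffOn_const.mul h1)
    intro z hz
    have := h0 z hz
    positivity

lemma pd_gW (ν : ℝ) (c m : Fin 3) (T' y t : ℝ) : pd m (gW ν c T' y t)
    = fun x => if m = c then -(2 * (1 / (4 * ν * (T' - t))) * (x c - y)) * gW ν c T' y t x else 0 := by
  rw [gW_mon, pd_mon]
  funext x
  unfold mon
  split_ifs
  · simp
    ring
  · simp

/-- The second derivative. -/
lemma lp_gW (ν : ℝ) (c : Fin 3) (T' y t : ℝ) (x : V) : lp (gW ν c T' y t) x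
    = (-(2 * (1 / (4 * ν * (T' - t)))) + (2 * (1 / (4 * ν * (T' - t))) * (x c - y)) ^ 2)
      * gW ν c T' y t x := by
  have h1 : ∀ k, pd k (pd k (gW ν c T' y t)) x = if k = c then
      (-(2 * (1 / (4 * ν * (T' - t)))) + (2 * (1 / (4 * ν * (T' - t))) * (x c - y)) ^ 2)
      * gW ν c T' y t x else 0 := by
    intro k
    have e1 : pd k (gW ν c T' y t) = mon c y 1
        (if k = c then -2 * (1 / (4 * ν * (T' - t))) * (√(T' - t))⁻¹ else 0)
        (1 / (4 * ν * (T' - t))) := by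
      rw [pd_gW, gW_mon]
      funext x
      unfold mon
      split_ifs
      · simp
        ring
      · simp
    rw [e1, pd_mon, gW_mon]
    unfold mon
    split_ifs
    · simp
      ring
    · simp
  unfold Pool.Agent.H305.OS.lp
  simp only [h1]
  simp

/-- The backward heat equation. -/
lemma heat_gW (hν : 0 < ν) (ht : t < T') (y : ℝ) (x : V) :
    deriv (fun s => gW ν c T' y s x) t = - (ν * lp (gW ν c T' y t) x) := by
  have h0 : 0 < T' - t := by linarith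
  have hs0 : 0 < √(T' - t) := Real.sqrt_pos.2 h0
  have hss : √(T' - t) ^ 2 = T' - t := Real.sq_sqrt h0.le
  have h1 : HasDerivAt (fun s => T' - s) (-1) t := by
    simpa using (hasDerivAt_id t).const_sub T'
  have h2 : HasDerivAt (fun s => (√(T' - s))⁻¹) (-(-1 / (2 * √(T' - t))) / √(T' - t) ^ 2) t :=
    (h1.sqrt h0.ne').inv hs0.ne'
  have h3 : HasDerivAt (fun s => Real.exp (-(1 / (4 * ν * (T' - s))) * (x c - y) ^ 2))
      (Real.exp (-(1 / (4 * ν * (T' - t))) * (x c - y) ^ 2) *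
        (-((0 * (4 * ν * (T' - t)) - 1 * (4 * ν * -1)) / (4 * ν * (T' - t)) ^ 2) * (x c - y) ^ 2)) t := by
    have h4 : HasDerivAt (fun s => 4 * ν * (T' - s)) (4 * ν * -1) t := h1.const_mul (4 * ν)
    have h5 := (hasDerivAt_const t (1 : ℝ)).div h4 (by positivity)
    exact (h5.neg.mul_const ((x c - y) ^ 2)).exp
  have h4 := h2.mul h3
  have h5 : deriv (fun s => gW ν c T' y s x) t = _ := h4.deriv
  rw [h5, lp_gW]
  unfold gW gk
  rw [hss]
  have hne : T' - t ≠ 0 := h0.ne'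
  have hsne : √(T' - t) ≠ 0 := hs0.ne'
  field_simp
  ring

end

/-! ### Bounds -/

lemma exp_low1 {x : ℝ} (hx : 0 ≤ x) : Real.exp (-x) ≤ 1 / (1 + x) := by
  rw [Real.exp_neg, ← one_div]
  apply one_div_le_one_div_of_le (by positivity)
  linarith [Real.add_one_le_exp x]

lemma exp_low2 {x : ℝ} (hx : 0 ≤ x) : Real.exp (-x) ≤ 2 / (1 + x) ^ 2 := by
  rw [Real.exp_neg, ← one_div, div_le_div_iff₀ (Real.exp_pos _) (by positivity)]
  have := Real.quadratic_le_exp_of_nonneg hx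
  nlinarith

section
variable {ν τ z : ℝ}

/-- The constant. -/
noncomputable def kap (ν : ℝ) : ℝ := max 1 (4 * ν)

lemma kap_one (ν : ℝ) : 1 ≤ kap ν := le_max_left _ _
lemma kap_pos (ν : ℝ) : 0 < kap ν := lt_of_lt_of_le one_pos (kap_one ν)

lemma kap_le (hν : 0 < ν) (hτ : 0 < τ) : (τ + z ^ 2) / τ ≤ kap ν * (1 + 1 / (4 * ν * τ) * z ^ 2) := by
  rw [div_le_iff₀ hτ]
  have h1 := kap_one ν
  have h2 : 4 * ν ≤ kap ν := le_max_right _ _
  have e : kap ν * (1 + 1 / (4 * ν * τ) * z ^ 2) * τ = kap ν * τ + kap ν / (4 * ν) * z ^ 2 := by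
    field_simp
  rw [e]
  have h3 : 1 ≤ kap ν / (4 * ν) := by
    rw [le_div_iff₀ (by positivity)]
    linarith
  nlinarith [sq_nonneg z]

lemma gk_le (hν : 0 < ν) (hτ : 0 < τ) : gk ν τ z ≤ kap ν * (√τ / (τ + z ^ 2)) := by
  unfold gk
  have h0 : 0 < √τ := Real.sqrt_pos.2 hτ
  have hss : √τ * √τ = τ := Real.mul_self_sqrt hτ.le
  have hq : 0 < τ + z ^ 2 := by positivity
  have h1 : Real.exp (-(1 / (4 * ν * τ)) * z ^ 2) ≤ kap ν * (τ / (τ + z ^ 2)) := by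
    rw [neg_mul]
    refine (exp_low1 (by positivity)).trans ?_
    have h2 := kap_le (z := z) hν hτ
    rw [div_le_iff₀ (by positivity)]
    rw [div_le_iff₀ hτ] at h2
    have : kap ν * (τ / (τ + z ^ 2)) * (1 + 1 / (4 * ν * τ) * z ^ 2)
        = (kap ν * (1 + 1 / (4 * ν * τ) * z ^ 2) * τ) / (τ + z ^ 2) := by ring
    rw [this, le_div_iff₀ hq]
    linarith
  calc (√τ)⁻¹ * Real.exp (-(1 / (4 * ν * τ)) * z ^ 2) ≤ (√τ)⁻¹ * (kap ν * (τ / (τ + z ^ 2))) := by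
        gcongr
    _ = kap ν * ((√τ)⁻¹ * (√τ * √τ) / (τ + z ^ 2)) := by rw [hss]; ring
    _ = _ := by
        rw [inv_mul_cancel_left₀ h0.ne']

lemma gexp_le2 (hν : 0 < ν) (hτ : 0 < τ) :
    Real.exp (-(1 / (4 * ν * τ)) * z ^ 2) ≤ 2 * kap ν ^ 2 * (τ / (τ + z ^ 2)) ^ 2 := by
  have hq : 0 < τ + z ^ 2 := by positivity
  rw [neg_mul]
  refine (exp_low2 (by positivity)).trans ?_
  have h2 := kap_le (z := z) hν hτ
  have h3 : 0 < (τ + z ^ 2) / τ := by positivity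
  have h4 : ((τ + z ^ 2) / τ) ^ 2 ≤ (kap ν * (1 + 1 / (4 * ν * τ) * z ^ 2)) ^ 2 :=
    pow_le_pow_left₀ h3.le h2 2
  rw [div_le_iff₀ (by positivity)]
  have h5 : (τ / (τ + z ^ 2)) ^ 2 * ((τ + z ^ 2) / τ) ^ 2 = 1 := by
    field_simp
  have h6 : (τ / (τ + z ^ 2)) ^ 2 * ((τ + z ^ 2) / τ) ^ 2
      ≤ (τ / (τ + z ^ 2)) ^ 2 * (kap ν * (1 + 1 / (4 * ν * τ) * z ^ 2)) ^ 2 :=
    mul_le_mul_of_nonneg_left h4 (by positivity)
  rw [h5] at h6
  nlinarith

lemma gk_le2 (hν : 0 < ν) (hτ : 0 < τ) :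
    gk ν τ z ≤ 2 * kap ν ^ 2 * ((√τ)⁻¹ * (τ / (τ + z ^ 2)) ^ 2) := by
  unfold gk
  have h0 : 0 < √τ := Real.sqrt_pos.2 hτ
  calc (√τ)⁻¹ * Real.exp (-(1 / (4 * ν * τ)) * z ^ 2)
      ≤ (√τ)⁻¹ * (2 * kap ν ^ 2 * (τ / (τ + z ^ 2)) ^ 2) := by
        gcongr
        exact gexp_le2 hν hτ
    _ = _ := by ring

lemma gd_le (hν : 0 < ν) (hτ : 0 < τ) :
    |2 * (1 / (4 * ν * τ)) * z * gk ν τ z| ≤ kap ν ^ 2 / ν * (1 / (τ + z ^ 2)) := by
  have h0 : 0 < √τ := Real.sqrt_pos.2 hτ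
  have hq : 0 < τ + z ^ 2 := by positivity
  have hq0 : 0 < √(τ + z ^ 2) := Real.sqrt_pos.2 hq
  have hz : |z| ≤ √(τ + z ^ 2) := by
    apply Real.abs_le_sqrt
    linarith
  have h1 := gk_le2 (z := z) hν hτ
  have h2 : √τ ≤ √(τ + z ^ 2) := Real.sqrt_le_sqrt (by nlinarith [sq_nonneg z])
  rw [abs_mul, abs_mul, abs_of_nonneg (gk_nonneg ν τ z), abs_of_pos (by positivity : 0 < 2 * (1 / (4 * ν * τ)))]
  calc 2 * (1 / (4 * ν * τ)) * |z| * gk ν τ z
      ≤ 2 * (1 / (4 * ν * τ)) * √(τ + z ^ 2) * (2 * kap ν ^ 2 * ((√τ)⁻¹ * (τ / (τ + z ^ 2)) ^ 2)) := by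
        gcongr
        exact gk_nonneg _ _ _
    _ = kap ν ^ 2 / ν * (√(τ + z ^ 2) * (τ * (√τ)⁻¹) / (τ + z ^ 2) ^ 2) := by
        field_simp
        ring
    _ = kap ν ^ 2 / ν * (√(τ + z ^ 2) * √τ / (τ + z ^ 2) ^ 2) := by
        congr 3
        have : τ = √τ * √τ := (Real.mul_self_sqrt hτ.le).symm
        nth_rewrite 1 [this]
        rw [mul_assoc, mul_inv_cancel₀ h0.ne', mul_one]
    _ ≤ kap ν ^ 2 / ν * (√(τ + z ^ 2) * √(τ + z ^ 2) / (τ + z ^ 2) ^ 2) := by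
        gcongr
    _ = _ := by
        rw [Real.mul_self_sqrt hq.le]
        congr 1
        field_simp

/-- The lower bound. -/
lemma gk_low (hν : 0 < ν) {r L : ℝ} (hr : 0 < r) (h1 : r ^ 2 ≤ τ) (h2 : τ ≤ 2 * r ^ 2)
    (hz : |z| ≤ L * r) : (2 * r)⁻¹ * Real.exp (-(L ^ 2 / (4 * ν))) ≤ gk ν τ z := by
  unfold gk
  have hτ : 0 < τ := lt_of_lt_of_le (by positivity) h1
  have h0 : 0 < √τ := Real.sqrt_pos.2 hτ
  have h3 : √τ ≤ 2 * r := by
    rw [Real.sqrt_le_left (by positivity)]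
    nlinarith
  have h4 : z ^ 2 ≤ L ^ 2 * r ^ 2 := by
    rw [← sq_abs, ← mul_pow]
    exact pow_le_pow_left₀ (abs_nonneg _) hz 2
  have h5 : 1 / (4 * ν * τ) * z ^ 2 ≤ L ^ 2 / (4 * ν) := by
    rw [one_div_mul_eq_div, div_le_div_iff₀ (by positivity) (by positivity)]
    have : z ^ 2 ≤ L ^ 2 * τ := h4.trans (mul_le_mul_of_nonneg_left h1 (sq_nonneg L))
    nlinarith
  apply mul_le_mul
  · exact inv_anti₀ h0 h3
  · apply Real.exp_le_exp.2
    linarith
  · positivity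
  · positivity

end

/-- The dyadic bound. -/
lemma dyad {q : ℝ} (n : ℕ) : (1 / 4 : ℝ) ^ n ≤ q →
    1 / q ≤ 1 + 4 * ∑ k ∈ Finset.range n, 4 ^ k * (if q < (1 / 4 : ℝ) ^ k then (1 : ℝ) else 0) := by
  induction n with
  | zero =>
    intro h
    simp only [pow_zero] at h
    simp only [Finset.range_zero, Finset.sum_empty, mul_zero, add_zero]
    rw [div_le_one (by linarith)]
    exact h
  | succ n ih =>
    intro h
    rw [Finset.sum_range_succ]
    have hn0 : (0 : ℝ) ≤ ∑ k ∈ Finset.range n, 4 ^ k * (if q < (1 / 4 : ℝ) ^ k then (1 : ℝ) else 0) := by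
      apply Finset.sum_nonneg
      intro k _
      split_ifs <;> positivity
    rcases le_or_gt ((1 / 4 : ℝ) ^ n) q with h1 | h1
    · have h2 := ih h1
      have h3 : (0 : ℝ) ≤ 4 ^ n * (if q < (1 / 4 : ℝ) ^ n then (1 : ℝ) else 0) := by
        split_ifs <;> positivity
      linarith
    · rw [if_pos h1]
      have hq : 0 < q := lt_of_lt_of_le (by positivity) h
      have h3 : 1 / q ≤ 4 ^ (n + 1) := by
        rw [div_le_iff₀ hq]
        calc (1 : ℝ) = 4 ^ (n + 1) * (1 / 4) ^ (n + 1) := by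
              rw [← mul_pow]
              norm_num
          _ ≤ _ := by gcongr
      have e : (4 : ℝ) ^ (n + 1) = 4 * 4 ^ n := by ring
      linarith

end Pool.Agent.H305.SL
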