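import Pool.Agent.H305.SL.Fls

/-!
The energy identity with a backward heat kernel in one variable and a cut-off in the other ones.
-/

set_option autoImplicit false

open MeasureTheory Set Metric Filter Topology
open scoped ContDiff ENNReal

namespace Pool.Agent.H305.SL

open H459R3.NS W221.NS Pool.Agent.V1183.PM Pool.Agent.H305.OS
open Pool.Agent.W583.MD (sm_pd pd_mul')
open Pool.Agent.W22.ME.TD (pd_comm)
open Pool.Agent.H305.TI (it it_nil it_cons it_sm J_it dt_it)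

section
variable {c : Fin 3} {ν T T' y τ s t₁ : ℝ} {u : ℝ → V → V} {p : ℝ → V → ℝ} {ζ : V → ℝ}

lemma J_mono {F : ℝ → V → ℝ} (h : J T F) (hT : T' ≤ T) : J T' F :=
  ContDiffOn.mono h (prod_mono (Ioo_subset_Ioo_right hT) le_rfl)

lemma HS_mono (h : HS ν T u p) (hT : T' ≤ T) : HS ν T' u p where
  hν := h.hν
  ju := fun i => J_mono (h.ju i) hT
  jp := J_mono h.jp hT
  uu := fun s t hs ht i => h.uu s t hs (ht.trans_le hT) i
  up := fun s t hs ht => h.up s t hs (ht.trans_le hT)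
  div := fun t ht x => h.div t ⟨ht.1, ht.2.trans_le hT⟩ x
  mom := fun i t ht x => h.mom i t ⟨ht.1, ht.2.trans_le hT⟩ x

/-- The weight. -/
noncomputable def wg (ζ : V → ℝ) (ν : ℝ) (c : Fin 3) (T' y : ℝ) (τ : ℝ) (x : V) : ℝ :=
  ζ x * gW ν c T' y τ x

lemma gW_pd_ne {k : Fin 3} (hk : k ≠ c) (x : V) : H459R3.NS.pd k (gW ν c T' y τ) x = 0 := by
  rw [pd_gW]
  simp only [if_neg hk]

lemma pd_wg (hζ : ContDiff ℝ ∞ ζ) (k : Fin 3) (x : V) :
    H459R3.NS.pd k (wg ζ ν c T' y τ) x = ζ x * H459R3.NS.pd k (gW ν c T' y τ) x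
      + H459R3.NS.pd k ζ x * gW ν c T' y τ x :=
  pd_mul' hζ (gW_sm ν c T' y τ) k x

lemma lp_wg (hζ : ContDiff ℝ ∞ ζ) (hc : ∀ x, H459R3.NS.pd c ζ x = 0) (x : V) :
    lp (wg ζ ν c T' y τ) x = ζ x * lp (gW ν c T' y τ) x + lp ζ x * gW ν c T' y τ x := by
  have hG := gW_sm ν c T' y τ
  have h1 : ∀ k, H459R3.NS.pd k (H459R3.NS.pd k (wg ζ ν c T' y τ)) x
      = ζ x * H459R3.NS.pd k (H459R3.NS.pd k (gW ν c T' y τ)) x
        + H459R3.NS.pd k (H459R3.NS.pd k ζ) x * gW ν c T' y τ x := by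
    intro k
    have e : H459R3.NS.pd k (wg ζ ν c T' y τ) = fun x => ζ x * H459R3.NS.pd k (gW ν c T' y τ) x
      + H459R3.NS.pd k ζ x * gW ν c T' y τ x := funext fun x => pd_wg hζ k x
    have e' : H459R3.NS.pd k (fun x => ζ x * H459R3.NS.pd k (gW ν c T' y τ) x
      + H459R3.NS.pd k ζ x * gW ν c T' y τ x) x
      = H459R3.NS.pd k (fun x => ζ x * H459R3.NS.pd k (gW ν c T' y τ) x) x
      + H459R3.NS.pd k (fun x => H459R3.NS.pd k ζ x * gW ν c T' y τ x) x :=
      pd_add2 ((hζ.mul (sm_pd hG k)).of_le (by norm_cast)) (((sm_pd hζ k).mul hG).of_le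
        (by norm_cast)) k x
    rw [e, e', pd_mul' hζ (sm_pd hG k), pd_mul' (sm_pd hζ k) hG]
    by_cases hk : k = c
    · subst hk
      rw [hc x]
      ring
    · rw [gW_pd_ne hk]
      ring
  unfold OS.lp
  simp only [h1]
  rw [Finset.sum_add_distrib, ← Finset.mul_sum, ← Finset.sum_mul]

/-- The localised energy identity. -/
lemma gid (h : HS ν T u p) (ht₁ : 0 < t₁) (hts : t₁ ≤ s) (hs : s < T) (hT' : s < T')
    (hζ : BF ζ) (hc : ∀ x, H459R3.NS.pd c ζ x = 0) (y : ℝ) :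
    IntegrableOn (fun τ => ν * dsW (cw u τ) (wg ζ ν c T' y τ)) (Ioc t₁ s) ∧
    IntegrableOn (fun τ => flW (cw u τ) (p τ) (wg ζ ν c T' y τ)
      + ν * enW (cw u τ) (fun x => lp ζ x * gW ν c T' y τ x)) (Ioc t₁ s) ∧
    enW (cw u s) (wg ζ ν c T' y s) = enW (cw u t₁) (wg ζ ν c T' y t₁)
      + ∫ τ in Ioc t₁ s, ((flW (cw u τ) (p τ) (wg ζ ν c T' y τ)
      + ν * enW (cw u τ) (fun x => lp ζ x * gW ν c T' y τ x))
        - 2 * (ν * dsW (cw u τ) (wg ζ ν c T' y τ))) := by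
  have hν := h.hν
  obtain ⟨T₁, hT₁⟩ : ∃ T₁, T₁ = min T T' := ⟨_, rfl⟩
  have hsT₁ : s < T₁ := by rw [hT₁]; exact lt_min hs hT'
  have h1 : HS ν T₁ u p := HS_mono h (by rw [hT₁]; exact min_le_left _ _)
  have jG : J T₁ (gW ν c T' y) := gW_j hν (by rw [hT₁]; exact min_le_right _ _) y
  have jΨ : J T₁ (wg ζ ν c T' y) := (J.space hζ.sm).mul jG
  have hG : UB (Icc t₁ s) (gW ν c T' y) := gW_ub hν hts hT' y
  have hZ : UB (Icc t₁ s) (fun _ => ζ) := hζ.mono (subset_univ _)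
  have hΨ : UB (Icc t₁ s) (wg ζ ν c T' y) := hZ.mul hG
  have hlp : UB (Icc t₁ s) (fun τ => lp (gW ν c T' y τ)) := by
    unfold OS.lp
    exact UB.sum fun k => (hG.pd k).pd k
  have hd : ∀ τ ∈ Icc t₁ s, ∀ x, deriv (fun r => wg ζ ν c T' y r x) τ
      = ζ x * (-(ν * lp (gW ν c T' y τ) x)) := by
    intro τ hτ x
    unfold wg
    have e3 : deriv (fun r => ζ x * gW ν c T' y r x) τ = ζ x * deriv (fun r => gW ν c T' y r x) τ :=
      deriv_const_mul_field (ζ x)
    rw [e3, heat_gW hν (hτ.2.trans_lt hT') y x]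
  have hΨ' : UB (Icc t₁ s) (fun τ x => deriv (fun r => wg ζ ν c T' y r x) τ) := by
    refine (hZ.mul (hlp.cmul (-ν))).congr fun τ hτ => ?_
    funext x
    rw [hd τ hτ x]
    ring
  have key := wid h1 ht₁ hts hsT₁ jΨ hΨ hΨ'
  have hI : ∀ τ ∈ Icc t₁ s, τ ∈ Ioo 0 T₁ := fun τ hτ => ⟨ht₁.trans_le hτ.1, hτ.2.trans_lt hsT₁⟩
  -- the terms with the Laplacian
  have e1 : ∀ τ ∈ Icc t₁ s, ν * enW (cw u τ) (lp (wg ζ ν c T' y τ))
      + enW (cw u τ) (fun x => deriv (fun r => wg ζ ν c T' y r x) τ)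
      = ν * enW (cw u τ) (fun x => lp ζ x * gW ν c T' y τ x) := by
    intro τ hτ
    have hw : ∀ i, HF (cw u τ i) := fun i => h1.cw_HF (hI τ hτ) i
    have b1 : BF (lp (wg ζ ν c T' y τ)) := by
      have : UB (Icc t₁ s) (fun τ => lp (wg ζ ν c T' y τ)) := by
        unfold OS.lp
        exact UB.sum fun k => (hΨ.pd k).pd k
      exact this.at hτ
    have b2 := hΨ'.at hτ
    have b3 : BF (fun x => lp ζ x * gW ν c T' y τ x) := by
      have : UB (Icc t₁ s) (fun τ x => lp ζ x * gW ν c T' y τ x) := by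
        refine UB.mul ?_ hG
        unfold OS.lp
        exact UB.sum fun k => (hZ.pd k).pd k
      exact this.at hτ
    have I0 : ∀ {Φ : V → ℝ}, BF Φ → Integrable fun x => (∑ i, cw u τ i x ^ 2) * Φ x := by
      intro Φ hΦ
      simp only [Finset.sum_mul]
      exact integrable_finsetSum _ fun i _ => sqB_int (hw i) hΦ
    unfold enW
    rw [← integral_const_mul, ← integral_const_mul, ← integral_add ((I0 b1).const_mul ν) (I0 b2)]
    congr 1
    funext x
    rw [lp_wg hζ.sm hc, hd τ hτ x]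
    ring
  have e2 : ∀ τ ∈ Ioc t₁ s, - (2 * ν * dsW (cw u τ) (wg ζ ν c T' y τ))
      + ν * enW (cw u τ) (lp (wg ζ ν c T' y τ))
      + flW (cw u τ) (p τ) (wg ζ ν c T' y τ) + enW (cw u τ) (fun x => deriv (fun r => wg ζ ν c T' y r x) τ)
      = (flW (cw u τ) (p τ) (wg ζ ν c T' y τ)
      + ν * enW (cw u τ) (fun x => lp ζ x * gW ν c T' y τ x))
        - 2 * (ν * dsW (cw u τ) (wg ζ ν c T' y τ)) := by
    intro τ hτ
    rw [← e1 τ (Ioc_subset_Icc_self hτ)]
    ring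
  have i1 := key.1.congr_fun e2 measurableSet_Ioc
  have i2 : IntegrableOn (fun τ => ν * dsW (cw u τ) (wg ζ ν c T' y τ)) (Ioc t₁ s) := by
    have e3 : ∀ τ ∈ Ioc t₁ s, ∑ i, ∑ k, ip (H459R3.NS.pd k (cw u τ i))
        (fun x => H459R3.NS.pd k (cw u τ i) x * wg ζ ν c T' y τ x)
        = dsW (cw u τ) (wg ζ ν c T' y τ) := by
      intro τ hτ
      have hτ' := Ioc_subset_Icc_self hτ
      have hw : ∀ i, HF (cw u τ i) := fun i => h1.cw_HF (hI τ hτ') i
      have i4 : ∀ i k, Integrable fun x => H459R3.NS.pd k (cw u τ i) x ^ 2 * wg ζ ν c T' y τ x :=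
        fun i k => sqB_int ((hw i).pd k) (hΨ.at hτ')
      have e4 : ∀ i k, ip (H459R3.NS.pd k (cw u τ i))
          (fun x => H459R3.NS.pd k (cw u τ i) x * wg ζ ν c T' y τ x)
          = ∫ x, H459R3.NS.pd k (cw u τ i) x ^ 2 * wg ζ ν c T' y τ x := by
        intro i k
        unfold ip
        congr 1
        funext x
        ring
      unfold dsW
      simp only [e4]
      have : ∀ i, ∑ k, ∫ x, H459R3.NS.pd k (cw u τ i) x ^ 2 * wg ζ ν c T' y τ x
          = ∫ x, ∑ k, H459R3.NS.pd k (cw u τ i) x ^ 2 * wg ζ ν c T' y τ x :=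
        fun i => (sum_int3 fun k => i4 i k).symm
      simp only [this]
      rw [← sum_int3 fun i => integrable_finsetSum _ fun k _ => i4 i k]
      congr 1
      funext x
      simp only [Finset.sum_mul]
    have i5 : IntegrableOn (fun τ => ∑ i, ∑ k, ip (H459R3.NS.pd k (cw u τ i))
        (fun x => H459R3.NS.pd k (cw u τ i) x * wg ζ ν c T' y τ x)) (Ioc t₁ s) := by
      apply integrable_finsetSum
      intro i _
      apply integrable_finsetSum
      intro k _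
      have hu : UF (Icc t₁ s) (fun τ => H459R3.NS.pd k (cw u τ i)) := (h1.uu t₁ s ht₁ hsT₁ i).pd k
      have ju : J T₁ (fun τ => H459R3.NS.pd k (cw u τ i)) := (h1.ju i).pd k
      exact ip_intOn ht₁ hsT₁ ju (ju.mul jΨ) hu (UF.mulB hu hΨ)
    exact (i5.congr_fun e3 measurableSet_Ioc).const_mul ν
  refine ⟨i2, ?_, ?_⟩
  · have i3 := i1.add (i2.const_mul 2)
    refine i3.congr_fun (fun τ _ => ?_) measurableSet_Ioc
    simp only [Pi.add_apply]
    ring
  · rw [key.2]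
    congr 1
    exact setIntegral_congr_fun measurableSet_Ioc e2

lemma dsW_nonneg {w : Fin 3 → V → ℝ} {Φ : V → ℝ} (h : ∀ x, 0 ≤ Φ x) : 0 ≤ dsW w Φ := by
  unfold dsW
  apply integral_nonneg
  intro x
  exact mul_nonneg (Finset.sum_nonneg fun i _ => Finset.sum_nonneg fun k _ => sq_nonneg _) (h x)

lemma enW_nonneg {w : Fin 3 → V → ℝ} {Φ : V → ℝ} (h : ∀ x, 0 ≤ Φ x) : 0 ≤ enW w Φ := by
  unfold enW
  apply integral_nonneg
  intro x
  exact mul_nonneg (Finset.sum_nonneg fun i _ => sq_nonneg _) (h x)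

lemma gW_nonneg (x : V) : 0 ≤ gW ν c T' y τ x := gk_nonneg _ _ _

/-- The localised energy inequality. -/
lemma gin (h : HS ν T u p) (ht₁ : 0 < t₁) (hts : t₁ ≤ s) (hs : s < T) (hT' : s < T')
    (hζ : BF ζ) (hc : ∀ x, H459R3.NS.pd c ζ x = 0) (hζ0 : ∀ x, 0 ≤ ζ x) (y : ℝ) :
    ENNReal.ofReal (enW (cw u s) (wg ζ ν c T' y s))
      + ∫⁻ τ in Ioc t₁ s, ENNReal.ofReal (ν * dsW (cw u τ) (wg ζ ν c T' y τ))
      ≤ ENNReal.ofReal (enW (cw u t₁) (wg ζ ν c T' y t₁))
      + ∫⁻ τ in Ioc t₁ s, ENNReal.ofReal |flW (cw u τ) (p τ) (wg ζ ν c T' y τ)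
      + ν * enW (cw u τ) (fun x => lp ζ x * gW ν c T' y τ x)| := by
  obtain ⟨i1, i2, e⟩ := gid h ht₁ hts hs hT' hζ hc y
  have hΨ : ∀ τ x, 0 ≤ wg ζ ν c T' y τ x := fun τ x => mul_nonneg (hζ0 x) (gW_nonneg x)
  exact cmp i1 (fun τ _ => mul_nonneg h.hν.le (dsW_nonneg (hΨ τ))) i2 (enW_nonneg (hΨ s)) e
    (fun τ _ => le_add_self)

lemma pd_gW_le (hν : 0 < ν) (hτ : τ < T') (k : Fin 3) (x : V) :
    |H459R3.NS.pd k (gW ν c T' y τ) x| ≤ kap ν ^ 2 / ν * (1 / ((T' - τ) + (x c - y) ^ 2)) := by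
  have hq : 0 < (T' - τ) + (x c - y) ^ 2 := by
    have := sq_nonneg (x c - y)
    linarith
  by_cases hk : k = c
  · rw [pd_gW]
    simp only [if_pos hk]
    rw [neg_mul, abs_neg]
    exact gd_le hν (by linarith)
  · rw [gW_pd_ne hk, abs_zero]
    have := kap_pos ν
    positivity

lemma ofReal_int_le {f : V → ℝ} {g : V → ℝ≥0∞} (h : ∀ x, ENNReal.ofReal |f x| ≤ g x) :
    ENNReal.ofReal |∫ x, f x| ≤ ∫⁻ x, g x := by
  have h1 := ofReal_integral_norm_eq_lintegral_enorm (f := f) (μ := (volume : Measure V))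
  calc ENNReal.ofReal |∫ x, f x| = ‖∫ x, f x‖ₑ := by
        rw [← Real.norm_eq_abs, ofReal_norm_eq_enorm]
    _ ≤ ∫⁻ x, ‖f x‖ₑ := enorm_integral_le_lintegral_enorm _
    _ = ∫⁻ x, ENNReal.ofReal |f x| := by
        simp only [← ofReal_norm_eq_enorm, Real.norm_eq_abs]
    _ ≤ _ := lintegral_mono h

/-- The flux term. -/
lemma flW_le (hν : 0 < ν) (hτ : τ < T') (w : Fin 3 → V → ℝ) (q : V → ℝ) (hζ : ContDiff ℝ ∞ ζ)
    (hζ0 : ∀ x, 0 ≤ ζ x) (hc : ∀ x, H459R3.NS.pd c ζ x = 0)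
    (mw : ∀ i, Measurable (w i)) (mq : Measurable q) :
    ENNReal.ofReal |flW w q (wg ζ ν c T' y τ)| ≤
      ENNReal.ofReal (kap ν ^ 2 / ν) * (∫⁻ x, ENNReal.ofReal (ζ x) *
        (ENNReal.ofReal ((nw w x + 2 * |q x|) * |w c x|)
        * ENNReal.ofReal (1 / ((T' - τ) + (x c - y) ^ 2))))
      + ∫⁻ x, ENNReal.ofReal ((nw w x + 2 * |q x|) * ∑ j, |w j x| * |H459R3.NS.pd j ζ x|)
        * ENNReal.ofReal (gW ν c T' y τ x) := by
  have hk := kap_pos ν
  have m1 : Measurable fun x => ENNReal.ofReal (ζ x) *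
        (ENNReal.ofReal ((nw w x + 2 * |q x|) * |w c x|)
        * ENNReal.ofReal (1 / ((T' - τ) + (x c - y) ^ 2))) := by
    have a1 : Measurable fun x => (nw w x + 2 * |q x|) * |w c x| := by
      have a2 : Measurable fun x => nw w x := by
        unfold nw
        exact Finset.measurable_sum _ fun i _ => (mw i).pow_const 2
      have a3 : Measurable fun x => |q x| := mq.norm
      have a4 : Measurable fun x => |w c x| := (mw c).norm
      exact (a2.add (a3.const_mul 2)).mul a4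
    have a5 : Measurable fun x : V => 1 / ((T' - τ) + (x c - y) ^ 2) := by fun_prop
    exact hζ.continuous.measurable.ennreal_ofReal.mul (a1.ennreal_ofReal.mul a5.ennreal_ofReal)
  rw [← lintegral_const_mul _ m1, ← lintegral_add_left (m1.const_mul _)]
  unfold flW
  apply ofReal_int_le
  intro x
  have hn := nw_nonneg w x
  have hg := gW_nonneg (ν := ν) (c := c) (T' := T') (y := y) (τ := τ) x
  have hq : 0 < (T' - τ) + (x c - y) ^ 2 := by
    have := sq_nonneg (x c - y)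
    linarith
  have h1 : |∑ j, w j x * H459R3.NS.pd j (wg ζ ν c T' y τ) x|
      ≤ ζ x * (|w c x| * (kap ν ^ 2 / ν * (1 / ((T' - τ) + (x c - y) ^ 2))))
        + (∑ j, |w j x| * |H459R3.NS.pd j ζ x|) * gW ν c T' y τ x := by
    have e1 : ∑ j, w j x * H459R3.NS.pd j (wg ζ ν c T' y τ) x
        = ζ x * (w c x * H459R3.NS.pd c (gW ν c T' y τ) x)
          + ∑ j, w j x * H459R3.NS.pd j ζ x * gW ν c T' y τ x := by
      have e2 : ∀ j, w j x * H459R3.NS.pd j (wg ζ ν c T' y τ) x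
          = ζ x * (w j x * H459R3.NS.pd j (gW ν c T' y τ) x)
            + w j x * H459R3.NS.pd j ζ x * gW ν c T' y τ x := by
        intro j
        rw [pd_wg hζ]
        ring
      simp only [e2]
      rw [Finset.sum_add_distrib, ← Finset.mul_sum]
      congr 2
      rw [Finset.sum_eq_single c]
      · intro j _ hj
        rw [gW_pd_ne hj, mul_zero]
      · intro hc
        exact absurd (Finset.mem_univ c) hc
    rw [e1]
    refine (abs_add_le _ _).trans (add_le_add ?_ ?_)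
    · rw [abs_mul, abs_of_nonneg (hζ0 x), abs_mul]
      gcongr
      · exact hζ0 x
      · exact pd_gW_le hν hτ c x
    · refine (Finset.abs_sum_le_sum_abs _ _).trans ?_
      rw [Finset.sum_mul]
      gcongr with j _
      rw [abs_mul, abs_mul, abs_of_nonneg hg]
  have hS : 0 ≤ ∑ j, |w j x| * |H459R3.NS.pd j ζ x| := Finset.sum_nonneg fun j _ => by positivity
  calc ENNReal.ofReal |((∑ i, w i x ^ 2) + 2 * q x) * ∑ j, w j x * H459R3.NS.pd j (wg ζ ν c T' y τ) x|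
      ≤ ENNReal.ofReal ((nw w x + 2 * |q x|) *
        (ζ x * (|w c x| * (kap ν ^ 2 / ν * (1 / ((T' - τ) + (x c - y) ^ 2))))
        + (∑ j, |w j x| * |H459R3.NS.pd j ζ x|) * gW ν c T' y τ x)) := by
        apply ENNReal.ofReal_le_ofReal
        rw [abs_mul]
        apply mul_le_mul _ h1 (abs_nonneg _) (by positivity)
        refine (abs_add_le _ _).trans ?_
        rw [abs_mul, abs_of_pos (by norm_num : (0 : ℝ) < 2)]
        have : |∑ i, w i x ^ 2| = nw w x := abs_of_nonneg hn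
        rw [this]
    _ = _ := by
        have hz := hζ0 x
        rw [← ENNReal.ofReal_mul (by positivity), ← ENNReal.ofReal_mul hz,
          ← ENNReal.ofReal_mul (by positivity), ← ENNReal.ofReal_mul (by positivity),
          ← ENNReal.ofReal_add (by positivity) (by positivity)]
        congr 1
        ring

end

end Pool.Agent.H305.SL
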