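import Pool.Agent.H305.SL.Flx

/-!
The flux through a slab, integrated in time, and the sum over all scales.
-/

set_option autoImplicit false

open MeasureTheory Set Metric Filter Topology
open scoped ContDiff ENNReal

namespace Pool.Agent.H305.SL

open H459R3.NS W221.NS Pool.Agent.V1183.PM Pool.Agent.H305.OS
open Pool.Agent.W583.MD (sm_pd pd_mul')
open Pool.Agent.W22.ME.TD (pd_comm)
open Pool.Agent.H305.TI (it it_nil it_cons it_sm J_it dt_it)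

section
variable {c : Fin 3} {ν T : ℝ} {u : ℝ → V → V} {p : ℝ → V → ℝ} {t₀ σ E A : ℝ} {N : ℝ → ℝ≥0∞}

lemma MS.mem0 (h : MS ν T u p c t₀ σ E N) {τ : ℝ} (hτ : τ ∈ Ico t₀ T) : τ ∈ Ioo 0 T :=
  ⟨h.t0.trans_le hτ.1, hτ.2⟩

/-- The integral of the full norm. -/
lemma MS.Dt_int (h : MS ν T u p c t₀ σ E N) {k : ℕ} (hB : Bd u c t₀ T k A) (hEA : E ≤ A)
    {s s' : ℝ} (hs' : t₀ ≤ s') (hss : s' ≤ s) (hs : s < T) (hk : s - s' ≤ (1 / 4) ^ k) (y : ℝ) :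
    ∫⁻ τ in Ioc s' s, Dt (cw u τ) c y ((1 / 2) ^ k) ≤ ENNReal.ofReal (8 * B1 ^ 2 * A * (1 / 2) ^ k) := by
  have hA : 0 ≤ A := h.E0.trans hEA
  have hB1 := B1_one
  have hI : Ioc s' s ⊆ Ioo 0 T := fun τ hτ => ⟨h.t0.trans_le (hs'.trans hτ.1.le), hτ.2.trans_lt hs⟩
  unfold Dt
  rw [lintegral_add_left' (HS.m_sG h.toHS c y _ measurableSet_Ioc hI),
    lintegral_const_mul' _ _ ENNReal.ofReal_ne_top]
  have h1 := h.sG4 hB hEA hs' hss hs hk y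
  have h2 : ∫⁻ τ in Ioc s' s, sE (cw u τ) c y (4 * (1 / 2) ^ k)
      ≤ ENNReal.ofReal (4 * A * (1 / 2) ^ k * (1 / 4) ^ k) := by
    calc ∫⁻ τ in Ioc s' s, sE (cw u τ) c y (4 * (1 / 2) ^ k)
        ≤ ∫⁻ τ in Ioc s' s, ENNReal.ofReal (4 * A * (1 / 2) ^ k) := by
          apply setLIntegral_mono' measurableSet_Ioc
          intro τ hτ
          exact h.sE4 hB hEA ⟨hs'.trans hτ.1.le, hτ.2.trans_lt hs⟩ y
      _ = ENNReal.ofReal (4 * A * (1 / 2) ^ k) * ENNReal.ofReal (s - s') := by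
          rw [setLIntegral_const, Real.volume_Ioc]
      _ ≤ _ := by
          rw [← ENNReal.ofReal_mul (by positivity)]
          apply ENNReal.ofReal_le_ofReal
          gcongr
  calc _ ≤ ENNReal.ofReal (4 * A * (1 / 2) ^ k) + ENNReal.ofReal ((B1 / (1 / 2) ^ k) ^ 2)
        * ENNReal.ofReal (4 * A * (1 / 2) ^ k * (1 / 4) ^ k) := by gcongr
    _ = ENNReal.ofReal (4 * A * (1 / 2) ^ k + 4 * B1 ^ 2 * A * (1 / 2) ^ k) := by
        rw [← ENNReal.ofReal_mul (by positivity), ← ENNReal.ofReal_add (by positivity) (by positivity)]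
        congr 1
        have e : ((1 : ℝ) / 4) ^ k = ((1 / 2) ^ k) ^ 2 := by
          rw [← pow_mul, mul_comm, pow_mul]
          norm_num
        have hp : (0 : ℝ) < (1 / 2) ^ k := by positivity
        rw [e, div_pow]
        field_simp
    _ ≤ _ := by
        apply ENNReal.ofReal_le_ofReal
        have hp : (0 : ℝ) ≤ A * (1 / 2) ^ k := by positivity
        nlinarith [mul_le_mul_of_nonneg_right (one_le_pow₀ hB1 (n := 2)) hp]

/-- The flux in a slab, integrated in time. -/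
lemma Hk : ∃ C : ℝ, 0 ≤ C ∧ ∀ (c : Fin 3) (ν T : ℝ) (u : ℝ → V → V) (p : ℝ → V → ℝ)
    (t₀ σ E A : ℝ) (N : ℝ → ℝ≥0∞), MS ν T u p c t₀ σ E N → ∀ k : ℕ, Bd u c t₀ T k A → E ≤ A →
    ∀ s' s : ℝ, t₀ ≤ s' → s' ≤ s → s < T → s - s' ≤ (1 / 4) ^ k → ∀ y : ℝ,
    ∫⁻ τ in Ioc s' s, fxd (cw u τ) (p τ) (cw u τ c) c y ((1 / 2) ^ k)
      ≤ ENNReal.ofReal (C * (A * (1 + k) * (1 / 4) ^ k)) * nI σ N (Ioc s' s) := by
  obtain ⟨C, hC, hinst⟩ := inst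
  have hB1 := B1_one
  refine ⟨C * (8 * B1 ^ 2 + 4), by positivity, ?_⟩
  intro c ν T u p t₀ σ E A N h k hB hEA s' s hs' hss hs hk y
  have hA : 0 ≤ A := h.E0.trans hEA
  have hσ0 := h.σ0
  have hσ1 := h.σ1
  have hI : Ioc s' s ⊆ Ioo 0 T := fun τ hτ => ⟨h.t0.trans_le (hs'.trans hτ.1.le), hτ.2.trans_lt hs⟩
  have hI2 : Ioc s' s ⊆ Ioo t₀ T := fun τ hτ => ⟨hs'.trans_lt hτ.1, hτ.2.trans_lt hs⟩
  obtain ⟨ρ, hρe⟩ : ∃ ρ : ℝ, ρ = (1 / 2) ^ k := ⟨_, rfl⟩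
  have hρ : 0 < ρ := by rw [hρe]; positivity
  have hρ2 : ((1 : ℝ) / 4) ^ k = ρ ^ 2 := by
    rw [hρe, ← pow_mul, mul_comm, pow_mul]
    norm_num
  have mN : AEMeasurable N (volume.restrict (Ioc s' s)) := h.mN.mono_set hI2
  have mD : AEMeasurable (fun τ => Dt (cw u τ) c y ρ) (volume.restrict (Ioc s' s)) := by
    unfold Dt
    exact (HS.m_sG h.toHS c y _ measurableSet_Ioc hI).add
      ((HS.m_sE h.toHS c y _ measurableSet_Ioc hI).const_mul _)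
  obtain ⟨α, hα⟩ : ∃ α : ℝ, α = (1 - 2 * σ) / 2 := ⟨_, rfl⟩
  obtain ⟨β, hβ⟩ : ∃ β : ℝ, β = (1 + 2 * σ) / 2 := ⟨_, rfl⟩
  have hα0 : 0 ≤ α := by rw [hα]; linarith
  have hβ0 : 0 ≤ β := by rw [hβ]; linarith
  obtain ⟨P, hP⟩ : ∃ P, P = ENNReal.ofReal ((ρ ^ 2)⁻¹) := ⟨_, rfl⟩
  -- pointwise
  have h1 : ∀ τ ∈ Ioc s' s, fxd (cw u τ) (p τ) (cw u τ c) c y ρ ≤
      ENNReal.ofReal C * (ENNReal.ofReal ρ * ENNReal.ofReal (4 * A * ρ) ^ α
        * (N τ * Dt (cw u τ) c y ρ ^ β) + (ENNReal.ofReal ρ * P ^ σ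
          * ENNReal.ofReal (4 * A * (1 + k))) * N τ) := by
    intro τ hτ
    have hτ1 : τ ∈ Ico t₀ T := ⟨hs'.trans hτ.1.le, hτ.2.trans_lt hs⟩
    have hτ0 := hI hτ
    have hv : ∀ i, HF (cw u τ i) := fun i => h.toHS.cw_HF hτ0 i
    refine (hinst σ (N τ) (cw u τ) (p τ) (cw u τ c) c y ρ (h.mu τ (hI2 hτ)) hv
      (h.div τ hτ0) (h.toHS.p_HF hτ0) (HS.press h.toHS hτ0) (hv c).sm.continuous hσ0 hσ1.le
      hρ).trans ?_
    have h2 : sE (cw u τ) c y (4 * ρ) ≤ ENNReal.ofReal (4 * A * ρ) := by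
      rw [hρe]
      exact h.sE4 hB hEA hτ1 y
    have h3 : ∫⁻ R in Ioi ρ, ENNReal.ofReal ((R ^ 2)⁻¹) * sE (cw u τ) c y (2 * R)
        ≤ ENNReal.ofReal (4 * A * (1 + k)) := by
      rw [hρe]
      refine (TC3 hA h.E0 (fun ρ => h.sE_le hτ1 y ρ) k (fun j hj => (hB j hj y τ hτ1).1) k
        le_rfl).trans ?_
      apply ENNReal.ofReal_le_ofReal
      nlinarith
    rw [← hα, ← hβ, ← hP]
    calc ENNReal.ofReal C * (ENNReal.ofReal ρ * (N τ * (sE (cw u τ) c y (4 * ρ) ^ α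
          * Dt (cw u τ) c y ρ ^ β)) + N τ * (ENNReal.ofReal ρ * P ^ σ
          * ∫⁻ R in Ioi ρ, ENNReal.ofReal ((R ^ 2)⁻¹) * sE (cw u τ) c y (2 * R)))
        ≤ ENNReal.ofReal C * (ENNReal.ofReal ρ * (N τ * (ENNReal.ofReal (4 * A * ρ) ^ α
          * Dt (cw u τ) c y ρ ^ β)) + N τ * (ENNReal.ofReal ρ * P ^ σ
          * ENNReal.ofReal (4 * A * (1 + k)))) := by gcongr
      _ = _ := by ring
  rw [← hρe]
  have h4 : ∫⁻ τ in Ioc s' s, fxd (cw u τ) (p τ) (cw u τ c) c y ρ ≤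
      ENNReal.ofReal C * (ENNReal.ofReal ρ * ENNReal.ofReal (4 * A * ρ) ^ α
        * (∫⁻ τ in Ioc s' s, N τ * Dt (cw u τ) c y ρ ^ β) + (ENNReal.ofReal ρ * P ^ σ
          * ENNReal.ofReal (4 * A * (1 + k))) * ∫⁻ τ in Ioc s' s, N τ) := by
    refine (setLIntegral_mono' measurableSet_Ioc h1).trans ?_
    rw [lintegral_const_mul' _ _ ENNReal.ofReal_ne_top]
    have mX : AEMeasurable (fun τ => N τ * Dt (cw u τ) c y ρ ^ β) (volume.restrict (Ioc s' s)) :=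
      mN.mul (mD.pow_const β)
    have mm : AEMeasurable (fun τ => ENNReal.ofReal ρ * ENNReal.ofReal (4 * A * ρ) ^ α
        * (N τ * Dt (cw u τ) c y ρ ^ β)) (volume.restrict (Ioc s' s)) := mX.const_mul _
    rw [lintegral_add_left' mm, lintegral_const_mul'' _ mX, lintegral_const_mul'' _ mN]
  refine h4.trans ?_
  have h5 : ∫⁻ τ in Ioc s' s, N τ * Dt (cw u τ) c y ρ ^ β ≤
      nI σ N (Ioc s' s) * ENNReal.ofReal (8 * B1 ^ 2 * A * ρ) ^ β := by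
    rw [hβ]
    refine (hold mN mD hσ0 hσ1).trans ?_
    unfold nI
    have h6 := h.Dt_int hB hEA hs' hss hs hk y
    rw [← hρe] at h6
    gcongr
  have h7 : ∫⁻ τ in Ioc s' s, N τ ≤ nI σ N (Ioc s' s) * ENNReal.ofReal (ρ ^ 2) ^ β := by
    have h8 := hold (D := fun _ => 1) mN aemeasurable_const hσ0 hσ1
    simp only [ENNReal.one_rpow, mul_one, lintegral_const, Measure.restrict_apply
      MeasurableSet.univ, univ_inter, Real.volume_Ioc, one_mul] at h8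
    refine h8.trans ?_
    unfold nI
    rw [hβ]
    gcongr
    rw [← hρ2]
    exact hk
  have h9 : ENNReal.ofReal (4 * A * ρ) ^ α * ENNReal.ofReal (8 * B1 ^ 2 * A * ρ) ^ β
      ≤ ENNReal.ofReal (8 * B1 ^ 2 * A * ρ) := by
    calc ENNReal.ofReal (4 * A * ρ) ^ α * ENNReal.ofReal (8 * B1 ^ 2 * A * ρ) ^ β
        ≤ ENNReal.ofReal (8 * B1 ^ 2 * A * ρ) ^ α * ENNReal.ofReal (8 * B1 ^ 2 * A * ρ) ^ β := by
          gcongr
          nlinarith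
      _ = _ := by
          rw [← ENNReal.rpow_add_of_nonneg _ _ hα0 hβ0, hα, hβ,
            show (1 - 2 * σ) / 2 + (1 + 2 * σ) / 2 = 1 by ring, ENNReal.rpow_one]
  have h10 : ENNReal.ofReal ρ * P ^ σ * ENNReal.ofReal (ρ ^ 2) ^ β = ENNReal.ofReal (ρ ^ 2) := by
    have e1 : ENNReal.ofReal (ρ ^ 2) ^ β = ENNReal.ofReal (ρ ^ 2) ^ σ * ENNReal.ofReal ρ := by
      rw [hβ, show (1 + 2 * σ) / 2 = σ + 1 / 2 by ring,
        ENNReal.rpow_add_of_nonneg _ _ hσ0 (by norm_num)]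
      congr 1
      rw [ENNReal.ofReal_pow hρ.le, ← ENNReal.rpow_natCast, ← ENNReal.rpow_mul]
      norm_num
    have e2 : P ^ σ * ENNReal.ofReal (ρ ^ 2) ^ σ = 1 := by
      rw [← ENNReal.mul_rpow_of_nonneg _ _ hσ0, hP, ← ENNReal.ofReal_mul (by positivity),
        inv_mul_cancel₀ (by positivity), ENNReal.ofReal_one, ENNReal.one_rpow]
    rw [e1]
    calc ENNReal.ofReal ρ * P ^ σ * (ENNReal.ofReal (ρ ^ 2) ^ σ * ENNReal.ofReal ρ)
        = (P ^ σ * ENNReal.ofReal (ρ ^ 2) ^ σ) * (ENNReal.ofReal ρ * ENNReal.ofReal ρ) := by ring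
      _ = _ := by
          rw [e2, one_mul, ← ENNReal.ofReal_mul hρ.le, sq]
  obtain ⟨M, hM⟩ : ∃ M, M = nI σ N (Ioc s' s) := ⟨_, rfl⟩
  rw [← hM] at h5 h7 ⊢
  calc ENNReal.ofReal C * (ENNReal.ofReal ρ * ENNReal.ofReal (4 * A * ρ) ^ α
        * (∫⁻ τ in Ioc s' s, N τ * Dt (cw u τ) c y ρ ^ β) + (ENNReal.ofReal ρ * P ^ σ
          * ENNReal.ofReal (4 * A * (1 + k))) * ∫⁻ τ in Ioc s' s, N τ)
      ≤ ENNReal.ofReal C * (ENNReal.ofReal ρ * ENNReal.ofReal (4 * A * ρ) ^ α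
        * (M * ENNReal.ofReal (8 * B1 ^ 2 * A * ρ) ^ β) + (ENNReal.ofReal ρ * P ^ σ
          * ENNReal.ofReal (4 * A * (1 + k))) * (M * ENNReal.ofReal (ρ ^ 2) ^ β)) := by gcongr
    _ = ENNReal.ofReal C * (ENNReal.ofReal ρ * (ENNReal.ofReal (4 * A * ρ) ^ α
        * ENNReal.ofReal (8 * B1 ^ 2 * A * ρ) ^ β) + (ENNReal.ofReal ρ * P ^ σ
          * ENNReal.ofReal (ρ ^ 2) ^ β) * ENNReal.ofReal (4 * A * (1 + k))) * M := by ring
    _ ≤ ENNReal.ofReal C * (ENNReal.ofReal ρ * ENNReal.ofReal (8 * B1 ^ 2 * A * ρ)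
        + ENNReal.ofReal (ρ ^ 2) * ENNReal.ofReal (4 * A * (1 + k))) * M := by
        rw [h10]
        gcongr
    _ ≤ _ := by
        gcongr
        rw [← ENNReal.ofReal_mul hρ.le, ← ENNReal.ofReal_mul (by positivity),
          ← ENNReal.ofReal_add (by positivity) (by positivity), ← ENNReal.ofReal_mul hC]
        apply ENNReal.ofReal_le_ofReal
        rw [hρ2]
        have hk0 : (0 : ℝ) ≤ k := Nat.cast_nonneg k
        have h12 : 0 ≤ 8 * B1 ^ 2 * (A * ρ ^ 2) * k := by positivity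
        have h13 : ρ * (8 * B1 ^ 2 * A * ρ) + ρ ^ 2 * (4 * A * (1 + k))
            ≤ (8 * B1 ^ 2 + 4) * (A * (1 + k) * ρ ^ 2) := by linarith
        calc C * (ρ * (8 * B1 ^ 2 * A * ρ) + ρ ^ 2 * (4 * A * (1 + k)))
            ≤ C * ((8 * B1 ^ 2 + 4) * (A * (1 + k) * ρ ^ 2)) := mul_le_mul_of_nonneg_left h13 hC
          _ = _ := by ring

end

end Pool.Agent.H305.SL
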