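import Pool.Agent.H305.SL.Cls

/-!
The flux in a slab of all components: bounds without a multiplier.
-/

set_option autoImplicit false

open MeasureTheory Set Metric Filter Topology
open scoped ContDiff ENNReal

namespace Pool.Agent.H305.SL

open H459R3.NS W221.NS Pool.Agent.V1183.PM Pool.Agent.H305.OS
open Pool.Agent.W583.MD (sm_pd pd_mul')
open Pool.Agent.W22.ME.TD (pd_comm)
open Pool.Agent.H305.TI (it it_nil it_cons it_sm J_it dt_it)

section
variable {c : Fin 3} {y ρ ρ' R : ℝ} {v : Fin 3 → V → ℝ} {w : V → ℝ}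

/-- Changing the order of integration. -/
lemma swapB {G : V → ℝ≥0∞} (hw : Continuous w) (hG : Measurable G) (hR : 0 < R)
    (hρ' : ρ + R ≤ ρ') {K : ℝ≥0∞}
    (hK : ∀ z, ∫⁻ x in slb c y ρ ∩ closedBall z R, ENNReal.ofReal |w x| ≤ K) :
    ∫⁻ x in slb c y ρ, ENNReal.ofReal |w x| * ∫⁻ y' in closedBall (0 : V) 1, G (x + R • y')
      ≤ ENNReal.ofReal ((R ^ 3)⁻¹) * (K * ∫⁻ z in slb c y ρ', G z) := by
  have e1 : ∀ x, ∫⁻ y' in closedBall (0 : V) 1, G (x + R • y')
      = ENNReal.ofReal ((R ^ 3)⁻¹) * ∫⁻ z in closedBall x R, G z := fun x => ball_av hR hG x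
  have mw : Measurable fun x => ENNReal.ofReal |w x| :=
    (ENNReal.continuous_ofReal.comp hw.abs).measurable
  have e2 : ∫⁻ x in slb c y ρ, ENNReal.ofReal |w x| * ∫⁻ y' in closedBall (0 : V) 1, G (x + R • y')
      = ENNReal.ofReal ((R ^ 3)⁻¹) * ∫⁻ x in slb c y ρ, ∫⁻ z in closedBall x R,
        ENNReal.ofReal |w x| * G z := by
    rw [← lintegral_const_mul' _ _ ENNReal.ofReal_ne_top]
    apply lintegral_congr
    intro x
    rw [e1 x, lintegral_const_mul' _ _ ENNReal.ofReal_ne_top]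
    ring
  rw [e2]
  refine mul_le_mul_right ?_ _
  have e3 : ∫⁻ x in slb c y ρ, ∫⁻ z in closedBall x R, ENNReal.ofReal |w x| * G z
      = ∫⁻ z, ∫⁻ x in slb c y ρ, (if dist z x ≤ R then ENNReal.ofReal |w x| * G z else 0) := by
    rw [lintegral_lintegral_swap]
    · apply lintegral_congr
      intro x
      rw [← lintegral_indicator measurableSet_closedBall]
      rfl
    · apply Measurable.aemeasurable
      apply Measurable.ite
      · exact measurableSet_le (by fun_prop) measurable_const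
      · exact (mw.comp measurable_snd).mul (hG.comp measurable_fst)
      · exact measurable_const
  rw [e3]
  have e4 : ∀ z, ∫⁻ x in slb c y ρ, (if dist z x ≤ R then ENNReal.ofReal |w x| * G z else 0)
      = (∫⁻ x in slb c y ρ ∩ closedBall z R, ENNReal.ofReal |w x|) * G z := by
    intro z
    rw [← lintegral_mul_const _ mw, inter_comm,
      ← Measure.restrict_restrict measurableSet_closedBall, ← lintegral_indicator
      measurableSet_closedBall]
    apply lintegral_congr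
    intro x
    simp only [indicator, mem_closedBall]
    rw [dist_comm z x]
  simp only [e4]
  have e5 : ∀ z, (∫⁻ x in slb c y ρ ∩ closedBall z R, ENNReal.ofReal |w x|) * G z
      ≤ (slb c y ρ').indicator (fun z => K * G z) z := by
    intro z
    by_cases hz : z ∈ slb c y ρ'
    · rw [indicator_of_mem hz]
      exact mul_le_mul_left (hK z) _
    · have : slb c y ρ ∩ closedBall z R = ∅ := by
        rw [eq_empty_iff_forall_notMem]
        rintro x ⟨hx1, hx2⟩
        apply hz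
        rw [mem_closedBall, dist_eq_norm, pi_norm_le_iff_of_nonneg hR.le] at hx2
        have a1 : |x c - z c| ≤ R := hx2 c
        have a2 : |x c - y| < ρ := hx1
        show |z c - y| < ρ'
        have a4 : z c - y = -(x c - z c) + (x c - y) := by ring
        rw [a4]
        refine (abs_add_le _ _).trans_lt ?_
        rw [abs_neg]
        linarith
      rw [this]
      simp
  refine (lintegral_mono e5).trans ?_
  rw [lintegral_indicator slb_meas, lintegral_const_mul _ hG]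

/-- The `L⁴` norm in a slab. -/
lemma L4s (hv : ∀ i, HF (v i)) (hρ : 0 < ρ) (i : Fin 3) :
    ∫⁻ x in slb c y ρ, ENNReal.ofReal (v i x ^ 4) ≤
      432 * (sE v c y (4 * ρ) ^ (1 / 2 : ℝ) * Dt v c y ρ ^ (3 / 2 : ℝ)) := by
  obtain ⟨a, b, hT⟩ := exists_tri c
  have h := loc_aux (χ := ct c y ρ) (B := B1 / ρ) (S := slb c y (3 * ρ)) hv (ct_BF hρ)
    (fun x => by rw [abs_of_nonneg (ct_nonneg x)]; exact ct_le x)
    (fun m x => pd_ct_le hρ m x) slb_meas
    (fun x hx => ct_out hρ fun h => hx (slb_mono (by linarith) h))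
    (fun m x hx => pd_ct_out hρ m hx) 0 i
  simp only [add_zero] at h
  obtain ⟨hF, h1, h2⟩ := h
  obtain ⟨F, hFe⟩ : ∃ F : V → ℝ, F = fun x => v i x * ct c y ρ x := ⟨_, rfl⟩
  rw [← hFe] at hF h1 h2
  have h3 := hF.lady hT
  have hE : ∫⁻ x in slb c y (3 * ρ), ENNReal.ofReal (nw v x) ≤ sE v c y (4 * ρ) :=
    lintegral_mono_set (slb_mono (by linarith))
  have hG : ∫⁻ x in slb c y (3 * ρ), ENNReal.ofReal (gw v x) ≤ sG v c y (4 * ρ) :=
    lintegral_mono_set (slb_mono (by linarith))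
  have h1' := h1.trans hE
  have h2' : ∑ k, sqi (pd k F) ≤ 6 * Dt v c y ρ := by
    refine h2.trans ?_
    unfold Dt
    gcongr
  have hs : ∀ k, sqi (pd k F) ≤ 6 * Dt v c y ρ := fun k =>
    (Finset.single_le_sum (f := fun k => sqi (pd k F)) (fun _ _ => zero_le)
      (Finset.mem_univ k)).trans h2'
  have h4 : (∫⁻ x, ENNReal.ofReal (F x ^ 2 * F x ^ 2)) ^ 2
      ≤ (432 * (sE v c y (4 * ρ) ^ (1 / 2 : ℝ) * Dt v c y ρ ^ (3 / 2 : ℝ))) ^ 2 := by
    calc (∫⁻ x, ENNReal.ofReal (F x ^ 2 * F x ^ 2)) ^ 2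
        ≤ 144 * (sqi F * (sqi (pd c F) * sqi (pd a F) * sqi (pd b F))) := h3
      _ ≤ 144 * (sE v c y (4 * ρ) * ((6 * Dt v c y ρ) * (6 * Dt v c y ρ) * (6 * Dt v c y ρ))) := by
          gcongr
          · exact hs c
          · exact hs a
          · exact hs b
      _ = (144 * 216) * (sE v c y (4 * ρ) * Dt v c y ρ ^ 3) := by ring
      _ ≤ (432 * 432) * (sE v c y (4 * ρ) * Dt v c y ρ ^ 3) := by
          gcongr
          all_goals norm_num
      _ = _ := by
          rw [mul_pow, mul_pow, ← ENNReal.rpow_natCast (_ ^ (1 / 2 : ℝ)),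
            ← ENNReal.rpow_natCast (_ ^ (3 / 2 : ℝ)), ← ENNReal.rpow_mul, ← ENNReal.rpow_mul,
            show (1 / 2 : ℝ) * ((2 : ℕ) : ℝ) = 1 by norm_num,
            show (3 / 2 : ℝ) * ((2 : ℕ) : ℝ) = ((3 : ℕ) : ℝ) by norm_num, ENNReal.rpow_one,
            ENNReal.rpow_natCast]
          ring
  have h5 := (ENNReal.pow_le_pow_left_iff two_ne_zero).1 h4
  refine le_trans ?_ h5
  rw [← lintegral_indicator slb_meas]
  apply lintegral_mono
  intro x
  by_cases hx : x ∈ slb c y ρ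
  · simp only
    rw [indicator_of_mem hx, hFe]
    simp only
    rw [ct_one hρ hx, mul_one]
    apply ENNReal.ofReal_le_ofReal
    apply le_of_eq
    ring
  · simp only
    rw [indicator_of_notMem hx]
    exact zero_le

/-- The cubic term. -/
lemma cubH (hv : ∀ i, HF (v i)) (hρ : 0 < ρ) (i : Fin 3) :
    ∫⁻ x in slb c y ρ, ENNReal.ofReal (|v i x| * nw v x) ≤
      3888 * (sE v c y (4 * ρ) ^ (3 / 4 : ℝ) * Dt v c y ρ ^ (3 / 4 : ℝ)) := by
  have cn := nw_cont hv
  have mv : ∀ i, Measurable (v i) := fun i => (hv i).sm.continuous.measurable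
  have h1 : ∫⁻ x in slb c y ρ, ENNReal.ofReal (|v i x| * nw v x)
      ≤ (∫⁻ x in slb c y ρ, ENNReal.ofReal |v i x| ^ 2) ^ (1 / 2 : ℝ)
        * (∫⁻ x in slb c y ρ, ENNReal.ofReal (nw v x) ^ 2) ^ (1 / 2 : ℝ) := by
    have m1 : Measurable fun x => ENNReal.ofReal |v i x| := (mv i).norm.ennreal_ofReal
    have m2 : Measurable fun x => ENNReal.ofReal (nw v x) := cn.measurable.ennreal_ofReal
    refine le_trans (le_of_eq ?_) (csE m1.aemeasurable m2.aemeasurable)
    apply lintegral_congr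
    intro x
    exact ENNReal.ofReal_mul (abs_nonneg _)
  have h2 : ∫⁻ x in slb c y ρ, ENNReal.ofReal |v i x| ^ 2 ≤ sE v c y (4 * ρ) := by
    refine le_trans ?_ (lintegral_mono_set (slb_mono (by linarith : ρ ≤ 4 * ρ)))
    apply lintegral_mono
    intro x
    simp only
    rw [← ENNReal.ofReal_pow (abs_nonneg _), sq_abs]
    apply ENNReal.ofReal_le_ofReal
    exact Finset.single_le_sum (f := fun i => v i x ^ 2) (fun i _ => sq_nonneg _) (Finset.mem_univ i)
  have h3 : ∫⁻ x in slb c y ρ, ENNReal.ofReal (nw v x) ^ 2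
      ≤ 3888 * (sE v c y (4 * ρ) ^ (1 / 2 : ℝ) * Dt v c y ρ ^ (3 / 2 : ℝ)) := by
    calc ∫⁻ x in slb c y ρ, ENNReal.ofReal (nw v x) ^ 2
        ≤ ∫⁻ x in slb c y ρ, 3 * ∑ k, ENNReal.ofReal (v k x ^ 4) := by
          apply lintegral_mono
          intro x
          simp only
          rw [← ENNReal.ofReal_pow (nw_nonneg v x), ← ENNReal.ofReal_sum_of_nonneg
            (fun k _ => by positivity), show (3 : ℝ≥0∞) = ENNReal.ofReal 3 by norm_num,
            ← ENNReal.ofReal_mul (by norm_num)]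
          apply ENNReal.ofReal_le_ofReal
          unfold nw
          simp only [Fin.sum_univ_three]
          nlinarith [sq_nonneg (v 0 x ^ 2 - v 1 x ^ 2), sq_nonneg (v 1 x ^ 2 - v 2 x ^ 2),
            sq_nonneg (v 0 x ^ 2 - v 2 x ^ 2)]
      _ = 3 * ∑ k, ∫⁻ x in slb c y ρ, ENNReal.ofReal (v k x ^ 4) := by
          rw [lintegral_const_mul _ (Finset.measurable_sum _ fun k _ =>
            ((mv k).pow_const 4).ennreal_ofReal), lintegral_finsetSum _ fun k _ =>
            ((mv k).pow_const 4).ennreal_ofReal]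
      _ ≤ 3 * ∑ _k : Fin 3, 432 * (sE v c y (4 * ρ) ^ (1 / 2 : ℝ) * Dt v c y ρ ^ (3 / 2 : ℝ)) := by
          gcongr with k _
          exact L4s hv hρ k
      _ = _ := by
          rw [Finset.sum_const, Finset.card_univ, Fintype.card_fin, nsmul_eq_mul]
          push_cast
          ring
  calc ∫⁻ x in slb c y ρ, ENNReal.ofReal (|v i x| * nw v x)
      ≤ sE v c y (4 * ρ) ^ (1 / 2 : ℝ)
        * (3888 * (sE v c y (4 * ρ) ^ (1 / 2 : ℝ) * Dt v c y ρ ^ (3 / 2 : ℝ))) ^ (1 / 2 : ℝ) := by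
        refine h1.trans ?_
        gcongr
    _ = (3888 : ℝ≥0∞) ^ (1 / 2 : ℝ) * ((sE v c y (4 * ρ) ^ (1 / 2 : ℝ)
        * sE v c y (4 * ρ) ^ (1 / 4 : ℝ)) * Dt v c y ρ ^ (3 / 4 : ℝ)) := by
        rw [ENNReal.mul_rpow_of_nonneg _ _ (by norm_num), ENNReal.mul_rpow_of_nonneg _ _ (by norm_num),
          ← ENNReal.rpow_mul, ← ENNReal.rpow_mul, show (1 / 2 : ℝ) * (1 / 2) = 1 / 4 by norm_num,
          show (3 / 2 : ℝ) * (1 / 2) = 3 / 4 by norm_num]
        ring
    _ ≤ _ := by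
        rw [← ENNReal.rpow_add_of_nonneg _ _ (by norm_num) (by norm_num),
          show (1 / 2 : ℝ) + 1 / 4 = 3 / 4 by norm_num]
        gcongr
        calc (3888 : ℝ≥0∞) ^ (1 / 2 : ℝ) ≤ (3888 : ℝ≥0∞) ^ (1 : ℝ) :=
              ENNReal.rpow_le_rpow_of_exponent_le (by norm_num) (by norm_num)
          _ = _ := ENNReal.rpow_one _

/-- Integrals over balls in the slab. -/
lemma ball4 (hv : ∀ i, HF (v i)) (hρ : 0 < ρ) (hR : 0 < R) (i : Fin 3) (z : V) :
    ∫⁻ x in slb c y ρ ∩ closedBall z R, ENNReal.ofReal |v i x| ≤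
      3456 * (ENNReal.ofReal R ^ (9 / 4 : ℝ)
        * (sE v c y (4 * ρ) ^ (1 / 8 : ℝ) * Dt v c y ρ ^ (3 / 8 : ℝ))) := by
  have mv : Measurable (v i) := (hv i).sm.continuous.measurable
  have m4 : Measurable fun x => ENNReal.ofReal (v i x ^ 4) := (mv.pow_const 4).ennreal_ofReal
  have h := hol3 (μ := volume.restrict (slb c y ρ ∩ closedBall z R))
    (f := fun x => ENNReal.ofReal (v i x ^ 4)) (g := fun _ => 1) (h := fun _ => 1)
    m4.aemeasurable aemeasurable_const aemeasurable_const (p := 1 / 4) (q := 3 / 4) (r := 0)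
    (by norm_num) (by norm_num) le_rfl (by norm_num)
  simp only [ENNReal.one_rpow, mul_one, ENNReal.rpow_zero] at h
  have e : ∀ x, ENNReal.ofReal (v i x ^ 4) ^ (1 / 4 : ℝ) = ENNReal.ofReal |v i x| := by
    intro x
    rw [show v i x ^ 4 = |v i x| ^ 4 by rw [show 4 = 2 * 2 by norm_num, pow_mul, pow_mul, sq_abs],
      ENNReal.ofReal_pow (abs_nonneg _), ← ENNReal.rpow_natCast, ← ENNReal.rpow_mul]
    norm_num
  simp only [e] at h
  refine h.trans ?_
  have h1 : ∫⁻ x in slb c y ρ ∩ closedBall z R, ENNReal.ofReal (v i x ^ 4)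
      ≤ 432 * (sE v c y (4 * ρ) ^ (1 / 2 : ℝ) * Dt v c y ρ ^ (3 / 2 : ℝ)) :=
    (lintegral_mono_set inter_subset_left).trans (L4s hv hρ i)
  have h2 : ∫⁻ _x in slb c y ρ ∩ closedBall z R, (1 : ℝ≥0∞) ≤ 8 * ENNReal.ofReal R ^ 3 := by
    refine (lintegral_mono_set inter_subset_right).trans ?_
    rw [setLIntegral_one]
    have hb := Real.volume_pi_closedBall z hR.le
    rw [hb, Fintype.card_fin, ENNReal.ofReal_pow (by positivity), ENNReal.ofReal_mul (by norm_num),
      mul_pow]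
    gcongr
    norm_num
  calc _ ≤ (432 * (sE v c y (4 * ρ) ^ (1 / 2 : ℝ) * Dt v c y ρ ^ (3 / 2 : ℝ))) ^ (1 / 4 : ℝ)
        * (8 * ENNReal.ofReal R ^ 3) ^ (3 / 4 : ℝ) := by gcongr
    _ = ((432 : ℝ≥0∞) ^ (1 / 4 : ℝ) * (8 : ℝ≥0∞) ^ (3 / 4 : ℝ)) * (ENNReal.ofReal R ^ (9 / 4 : ℝ)
        * (sE v c y (4 * ρ) ^ (1 / 8 : ℝ) * Dt v c y ρ ^ (3 / 8 : ℝ))) := by
        rw [ENNReal.mul_rpow_of_nonneg _ _ (by norm_num), ENNReal.mul_rpow_of_nonneg _ _ (by norm_num),
          ENNReal.mul_rpow_of_nonneg _ _ (by norm_num),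
          ← ENNReal.rpow_mul, ← ENNReal.rpow_mul, show (1 / 2 : ℝ) * (1 / 4) = 1 / 8 by norm_num,
          show (3 / 2 : ℝ) * (1 / 4) = 3 / 8 by norm_num, ← ENNReal.rpow_natCast,
          ← ENNReal.rpow_mul, show ((3 : ℕ) : ℝ) * (3 / 4) = 9 / 4 by norm_num]
        ring
    _ ≤ _ := by
        gcongr
        calc ((432 : ℝ≥0∞) ^ (1 / 4 : ℝ) * (8 : ℝ≥0∞) ^ (3 / 4 : ℝ))
            ≤ ((432 : ℝ≥0∞) ^ (1 : ℝ) * (8 : ℝ≥0∞) ^ (1 : ℝ)) := by
              gcongr
              · norm_num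
              · norm_num
              · norm_num
              · norm_num
          _ = _ := by
              rw [ENNReal.rpow_one, ENNReal.rpow_one]
              norm_num

lemma ball2 (hv : ∀ i, HF (v i)) (hρ : 0 < ρ) (hR : 0 < R) (i : Fin 3) (z : V) :
    ∫⁻ x in slb c y ρ ∩ closedBall z R, ENNReal.ofReal |v i x| ≤
      ENNReal.ofReal (216 * (ρ * R ^ 2)) ^ (1 / 2 : ℝ) * sE v c y (4 * ρ) ^ (1 / 2 : ℝ) := by
  have mv : Measurable (v i) := (hv i).sm.continuous.measurable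
  have m1 : Measurable fun x => ENNReal.ofReal |v i x| := mv.norm.ennreal_ofReal
  have h := csE (μ := volume.restrict (slb c y ρ ∩ closedBall z R))
    (f := fun _ => 1) (g := fun x => ENNReal.ofReal |v i x|) aemeasurable_const m1.aemeasurable
  simp only [one_mul, one_pow] at h
  refine h.trans ?_
  have h1 : ∫⁻ x in slb c y ρ ∩ closedBall z R, ENNReal.ofReal |v i x| ^ 2 ≤ sE v c y (4 * ρ) := by
    refine (lintegral_mono_set inter_subset_left).trans ?_
    refine le_trans ?_ (lintegral_mono_set (slb_mono (by linarith : ρ ≤ 4 * ρ)))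
    apply lintegral_mono
    intro x
    simp only
    rw [← ENNReal.ofReal_pow (abs_nonneg _), sq_abs]
    apply ENNReal.ofReal_le_ofReal
    exact Finset.single_le_sum (f := fun i => v i x ^ 2) (fun i _ => sq_nonneg _) (Finset.mem_univ i)
  have h2 : ∫⁻ _x in slb c y ρ ∩ closedBall z R, (1 : ℝ≥0∞) ≤ ENNReal.ofReal (216 * (ρ * R ^ 2)) := by
    rw [setLIntegral_one]
    refine le_trans (measure_mono ?_) (bx_vol (c := c) (y := y) (z := z) hρ hR)
    apply inter_subset_inter (slb_mono (by linarith))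
    exact closedBall_subset_ball (by linarith)
  gcongr

/-- The near part of the pressure. -/
lemma nearH (hv : ∀ i, HF (v i)) (hρ : 0 < ρ) (i : Fin 3) :
    ∫⁻ x in slb c y ρ, ENNReal.ofReal |v i x| * nearP v ρ x ≤
      13824 * (ENNReal.ofReal ρ ^ (1 / 4 : ℝ)
        * (sE v c y (4 * ρ) ^ (5 / 8 : ℝ) * Dt v c y ρ ^ (7 / 8 : ℝ))) := by
  have cn := nw_cont hv
  have cg := gw_cont hv
  have hw : Continuous (v i) := (hv i).sm.continuous
  obtain ⟨G, hG⟩ : ∃ G : V → ℝ, G = fun x => √(nw v x) * √(gw v x) := ⟨_, rfl⟩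
  have cG : Continuous G := by
    rw [hG]
    exact cn.sqrt.mul cg.sqrt
  have mG : Measurable fun x => ENNReal.ofReal (G x) := cG.measurable.ennreal_ofReal
  have m1 : Measurable fun x => ENNReal.ofReal |v i x| := hw.measurable.norm.ennreal_ofReal
  have e0 : ∫⁻ x in slb c y ρ, ENNReal.ofReal |v i x| * nearP v ρ x
      = ∫⁻ R in Ioc 0 ρ, ∫⁻ x in slb c y ρ, ENNReal.ofReal |v i x|
        * ∫⁻ y' in closedBall (0 : V) 1, ENNReal.ofReal (G (x + R • y')) := by
    unfold nearP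
    have m2 : Measurable fun z : V × ℝ => ∫⁻ y' in closedBall (0 : V) 1,
        ENNReal.ofReal (G (z.1 + z.2 • y')) := by
      have : Measurable fun q : (V × ℝ) × V => ENNReal.ofReal (G (q.1.1 + q.1.2 • q.2)) := by
        have : Continuous fun q : (V × ℝ) × V => G (q.1.1 + q.1.2 • q.2) := by fun_prop
        exact (ENNReal.continuous_ofReal.comp this).measurable
      exact this.lintegral_prod_right'
    have e6 : ∀ x, ENNReal.ofReal |v i x| * ∫⁻ R in Ioc 0 ρ,
        ∫⁻ y' in closedBall (0 : V) 1,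
          ENNReal.ofReal (√(nw v (x + R • y')) * √(gw v (x + R • y')))
        = ∫⁻ R in Ioc 0 ρ, ENNReal.ofReal |v i x| *
        ∫⁻ y' in closedBall (0 : V) 1, ENNReal.ofReal (G (x + R • y')) := by
      intro x
      rw [hG, ← lintegral_const_mul' _ _ ENNReal.ofReal_ne_top]
    simp only [e6]
    rw [lintegral_lintegral_swap]
    apply Measurable.aemeasurable
    exact (m1.comp measurable_fst).mul m2
  rw [e0]
  obtain ⟨X, hX⟩ : ∃ X : ℝ≥0∞, X = sE v c y (4 * ρ) ^ (1 / 8 : ℝ) * Dt v c y ρ ^ (3 / 8 : ℝ) :=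
    ⟨_, rfl⟩
  have hGi : ∫⁻ z in slb c y (2 * ρ), ENNReal.ofReal (G z)
      ≤ sE v c y (4 * ρ) ^ (1 / 2 : ℝ) * Dt v c y ρ ^ (1 / 2 : ℝ) := by
    have h := csE (μ := volume.restrict (slb c y (2 * ρ))) (f := fun x => ENNReal.ofReal √(nw v x))
      (g := fun x => ENNReal.ofReal √(gw v x)) cn.sqrt.measurable.ennreal_ofReal.aemeasurable
      cg.sqrt.measurable.ennreal_ofReal.aemeasurable
    have e1 : ∫⁻ z in slb c y (2 * ρ), ENNReal.ofReal (G z)
        = ∫⁻ x in slb c y (2 * ρ), ENNReal.ofReal √(nw v x) * ENNReal.ofReal √(gw v x) := by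
      rw [hG]
      apply lintegral_congr
      intro x
      exact ENNReal.ofReal_mul (Real.sqrt_nonneg _)
    rw [e1]
    refine h.trans ?_
    have e2 : ∫⁻ x in slb c y (2 * ρ), ENNReal.ofReal √(nw v x) ^ 2 ≤ sE v c y (4 * ρ) := by
      refine le_trans ?_ (lintegral_mono_set (slb_mono (by linarith : 2 * ρ ≤ 4 * ρ)))
      apply lintegral_mono
      intro x
      simp only
      rw [← ENNReal.ofReal_pow (Real.sqrt_nonneg _), Real.sq_sqrt (nw_nonneg v x)]
    have e3 : ∫⁻ x in slb c y (2 * ρ), ENNReal.ofReal √(gw v x) ^ 2 ≤ Dt v c y ρ := by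
      refine le_trans (le_trans ?_ (lintegral_mono_set (slb_mono (by linarith : 2 * ρ ≤ 4 * ρ))))
        (le_self_add : sG v c y (4 * ρ) ≤ Dt v c y ρ)
      apply lintegral_mono
      intro x
      simp only
      rw [← ENNReal.ofReal_pow (Real.sqrt_nonneg _), Real.sq_sqrt (gw_nonneg v x)]
    gcongr
  calc ∫⁻ R in Ioc 0 ρ, ∫⁻ x in slb c y ρ, ENNReal.ofReal |v i x|
        * ∫⁻ y' in closedBall (0 : V) 1, ENNReal.ofReal (G (x + R • y'))
      ≤ ∫⁻ R in Ioc 0 ρ, (3456 * X * (sE v c y (4 * ρ) ^ (1 / 2 : ℝ) * Dt v c y ρ ^ (1 / 2 : ℝ)))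
        * ENNReal.ofReal (R ^ (-(3 / 4) : ℝ)) := by
        apply setLIntegral_mono' measurableSet_Ioc
        intro R hR
        have hR0 : 0 < R := hR.1
        refine (swapB (ρ' := 2 * ρ) hw mG hR0 (by linarith [hR.2])
          (fun z => ball4 hv hρ hR0 i z)).trans ?_
        rw [← hX]
        have e1 : ENNReal.ofReal ((R ^ 3)⁻¹) * ENNReal.ofReal R ^ (9 / 4 : ℝ)
            = ENNReal.ofReal (R ^ (-(3 / 4) : ℝ)) := by
          rw [ENNReal.ofReal_rpow_of_pos hR0, ← ENNReal.ofReal_mul (by positivity)]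
          congr 1
          rw [← Real.rpow_natCast, ← Real.rpow_neg hR0.le, ← Real.rpow_add hR0]
          norm_num
        calc ENNReal.ofReal ((R ^ 3)⁻¹) * (3456 * (ENNReal.ofReal R ^ (9 / 4 : ℝ) * X)
              * ∫⁻ z in slb c y (2 * ρ), ENNReal.ofReal (G z))
            = 3456 * X * (∫⁻ z in slb c y (2 * ρ), ENNReal.ofReal (G z))
              * (ENNReal.ofReal ((R ^ 3)⁻¹) * ENNReal.ofReal R ^ (9 / 4 : ℝ)) := by ring
          _ ≤ _ := by
              rw [e1]
              gcongr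
    _ = (3456 * X * (sE v c y (4 * ρ) ^ (1 / 2 : ℝ) * Dt v c y ρ ^ (1 / 2 : ℝ)))
        * ∫⁻ R in Ioc 0 ρ, ENNReal.ofReal (R ^ (-(3 / 4) : ℝ)) := by
        rw [lintegral_const_mul]
        apply Measurable.ennreal_ofReal
        fun_prop
    _ = (3456 * X * (sE v c y (4 * ρ) ^ (1 / 2 : ℝ) * Dt v c y ρ ^ (1 / 2 : ℝ)))
        * (4 * ENNReal.ofReal ρ ^ (1 / 4 : ℝ)) := by
        congr 1
        have i1 : IntervalIntegrable (fun R : ℝ => R ^ (-(3 / 4) : ℝ)) volume 0 ρ :=
          intervalIntegral.intervalIntegrable_rpow' (by norm_num)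
        rw [intervalIntegrable_iff_integrableOn_Ioc_of_le hρ.le] at i1
        rw [← ofReal_integral_eq_lintegral_ofReal i1]
        · rw [← intervalIntegral.integral_of_le hρ.le, integral_rpow (Or.inl (by norm_num)),
            ENNReal.ofReal_rpow_of_pos hρ, show (4 : ℝ≥0∞) = ENNReal.ofReal 4 by norm_num,
            ← ENNReal.ofReal_mul (by norm_num)]
          congr 1
          rw [Real.zero_rpow (by norm_num)]
          norm_num
          ring
        · rw [EventuallyLE, ae_restrict_iff' measurableSet_Ioc]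
          exact Eventually.of_forall fun R hR => Real.rpow_nonneg hR.1.le _
    _ = 13824 * (ENNReal.ofReal ρ ^ (1 / 4 : ℝ)
        * ((sE v c y (4 * ρ) ^ (1 / 8 : ℝ) * sE v c y (4 * ρ) ^ (1 / 2 : ℝ))
          * (Dt v c y ρ ^ (3 / 8 : ℝ) * Dt v c y ρ ^ (1 / 2 : ℝ)))) := by
        rw [hX]
        ring
    _ = _ := by
        rw [← ENNReal.rpow_add_of_nonneg _ _ (by norm_num) (by norm_num),
          ← ENNReal.rpow_add_of_nonneg _ _ (by norm_num) (by norm_num)]
        norm_num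

/-- The far part of the pressure. -/
lemma farH (hv : ∀ i, HF (v i)) (hρ : 0 < ρ) (i : Fin 3) {A : ℝ} (hA : 0 ≤ A)
    (hE : ∀ R, 0 < R → sE v c y R ≤ ENNReal.ofReal (A * R)) :
    ∫⁻ x in slb c y ρ, ENNReal.ofReal |v i x| * farP v ρ x ≤ ENNReal.ofReal (216 * (1 + A) ^ 2) := by
  have cn := nw_cont hv
  have mn : Measurable fun x => ENNReal.ofReal (nw v x) := cn.measurable.ennreal_ofReal
  have hw : Continuous (v i) := (hv i).sm.continuous
  have m1 : Measurable fun x => ENNReal.ofReal |v i x| := hw.measurable.norm.ennreal_ofReal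
  have e0 : ∫⁻ x in slb c y ρ, ENNReal.ofReal |v i x| * farP v ρ x
      = ∫⁻ R in Ioi ρ, ENNReal.ofReal R⁻¹ * ∫⁻ x in slb c y ρ, ENNReal.ofReal |v i x|
        * ∫⁻ y' in closedBall (0 : V) 1, ENNReal.ofReal (nw v (x + R • y')) := by
    unfold farP
    have m2 : Measurable fun z : V × ℝ => ∫⁻ y' in closedBall (0 : V) 1,
        ENNReal.ofReal (nw v (z.1 + z.2 • y')) := by
      have : Measurable fun q : (V × ℝ) × V => ENNReal.ofReal (nw v (q.1.1 + q.1.2 • q.2)) := by
        have : Continuous fun q : (V × ℝ) × V => nw v (q.1.1 + q.1.2 • q.2) := by fun_prop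
        exact (ENNReal.continuous_ofReal.comp this).measurable
      exact this.lintegral_prod_right'
    have e6 : ∀ x, ENNReal.ofReal |v i x| * ∫⁻ R in Ioi ρ, ENNReal.ofReal R⁻¹ *
        ∫⁻ y' in closedBall (0 : V) 1, ENNReal.ofReal (nw v (x + R • y'))
        = ∫⁻ R in Ioi ρ, ENNReal.ofReal |v i x| * (ENNReal.ofReal R⁻¹ *
        ∫⁻ y' in closedBall (0 : V) 1, ENNReal.ofReal (nw v (x + R • y'))) := fun x =>
      (lintegral_const_mul' _ _ ENNReal.ofReal_ne_top).symm
    simp only [e6]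
    rw [lintegral_lintegral_swap]
    · apply lintegral_congr
      intro R
      rw [← lintegral_const_mul' _ _ ENNReal.ofReal_ne_top]
      apply lintegral_congr
      intro x
      ring
    · apply Measurable.aemeasurable
      apply (m1.comp measurable_fst).mul
      apply Measurable.mul _ m2
      fun_prop
  rw [e0]
  have key : ∀ R ∈ Ioi ρ, ENNReal.ofReal R⁻¹ * ∫⁻ x in slb c y ρ, ENNReal.ofReal |v i x|
      * ∫⁻ y' in closedBall (0 : V) 1, ENNReal.ofReal (nw v (x + R • y'))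
      ≤ ENNReal.ofReal (ρ * (216 * (1 + A) ^ 2)) * ENNReal.ofReal (R ^ (-2 : ℝ)) := by
    intro R hR
    have hR0 : 0 < R := hρ.trans hR
    have hR1 : ρ < R := hR
    have h1 := swapB (c := c) (y := y) (ρ := ρ) (ρ' := 2 * R) hw mn hR0 (by linarith)
      (fun z => ball2 hv hρ hR0 i z)
    have h2 : ∫⁻ z in slb c y (2 * R), ENNReal.ofReal (nw v z) ≤ ENNReal.ofReal (A * (2 * R)) :=
      hE (2 * R) (by linarith)
    have h3 : ENNReal.ofReal (216 * (ρ * R ^ 2)) ^ (1 / 2 : ℝ) * sE v c y (4 * ρ) ^ (1 / 2 : ℝ)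
        ≤ ENNReal.ofReal (ρ * R * (108 * (1 + A))) := by
      have h4 := hE (4 * ρ) (by linarith)
      calc ENNReal.ofReal (216 * (ρ * R ^ 2)) ^ (1 / 2 : ℝ) * sE v c y (4 * ρ) ^ (1 / 2 : ℝ)
          ≤ ENNReal.ofReal (216 * (ρ * R ^ 2)) ^ (1 / 2 : ℝ)
            * ENNReal.ofReal (A * (4 * ρ)) ^ (1 / 2 : ℝ) := by gcongr
        _ = ENNReal.ofReal ((216 * (ρ * R ^ 2)) * (A * (4 * ρ))) ^ (1 / 2 : ℝ) := by
            rw [← ENNReal.mul_rpow_of_nonneg _ _ (by norm_num), ← ENNReal.ofReal_mul (by positivity)]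
        _ ≤ ENNReal.ofReal ((ρ * R * (108 * (1 + A))) ^ 2) ^ (1 / 2 : ℝ) := by
            apply ENNReal.rpow_le_rpow _ (by norm_num)
            apply ENNReal.ofReal_le_ofReal
            have : (ρ * R * (108 * (1 + A))) ^ 2 - (216 * (ρ * R ^ 2)) * (A * (4 * ρ))
                = (ρ * R) ^ 2 * (11664 * (1 + A) ^ 2 - 864 * A) := by ring
            have h6 : 0 ≤ (ρ * R) ^ 2 * (11664 * (1 + A) ^ 2 - 864 * A) := by
              apply mul_nonneg (by positivity)
              nlinarith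
            linarith
        _ = _ := by
            rw [ENNReal.ofReal_pow (by positivity), ← ENNReal.rpow_natCast, ← ENNReal.rpow_mul]
            norm_num
    calc _ ≤ ENNReal.ofReal R⁻¹ * (ENNReal.ofReal ((R ^ 3)⁻¹) *
          (ENNReal.ofReal (ρ * R * (108 * (1 + A))) * ENNReal.ofReal (A * (2 * R)))) := by
          refine mul_le_mul_right (h1.trans ?_) _
          gcongr
      _ ≤ _ := by
          rw [← ENNReal.ofReal_mul (by positivity), ← ENNReal.ofReal_mul (by positivity),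
            ← ENNReal.ofReal_mul (by positivity), ← ENNReal.ofReal_mul (by positivity)]
          apply ENNReal.ofReal_le_ofReal
          rw [Real.rpow_neg hR0.le, show (2 : ℝ) = ((2 : ℕ) : ℝ) by norm_num, Real.rpow_natCast]
          have e1 : R⁻¹ * ((R ^ 3)⁻¹ * (ρ * R * (108 * (1 + A)) * (A * (((2 : ℕ) : ℝ) * R))))
              = ρ * (216 * ((1 + A) * A)) * (R ^ 2)⁻¹ := by
            push_cast
            field_simp
            ring
          rw [e1]
          gcongr
          nlinarith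
  refine (setLIntegral_mono' measurableSet_Ioi key).trans ?_
  rw [lintegral_const_mul' _ _ ENNReal.ofReal_ne_top,
    ← ofReal_integral_eq_lintegral_ofReal (integrableOn_Ioi_rpow_of_lt (by norm_num) hρ),
    integral_Ioi_rpow_of_lt (by norm_num) hρ, ← ENNReal.ofReal_mul (by positivity)]
  · apply ENNReal.ofReal_le_ofReal
    apply le_of_eq
    rw [show (-2 : ℝ) + 1 = -1 by norm_num, Real.rpow_neg_one]
    field_simp
  · rw [EventuallyLE, ae_restrict_iff' measurableSet_Ioi]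
    exact Eventually.of_forall fun R hR => Real.rpow_nonneg (hρ.trans hR).le _

end

end Pool.Agent.H305.SL
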