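import Pool.Agent.H305.SL.Bdd
import Pool.Agent.H305.OS.Fin

/-!
The multiplier bound from the one-sided bound for one entry of the gradient.
-/

set_option autoImplicit false

open MeasureTheory Set Metric Filter Topology
open scoped ContDiff ENNReal

namespace Pool.Agent.H305.SL

open H459R3.NS W221.NS W382.ME Pool.Agent.V1183.PM Pool.Agent.H305.OS

lemma MU.mono {σ : ℝ} {N N' : ℝ≥0∞} {w : V → ℝ} (h : MU σ N w) (hN : N ≤ N') : MU σ N' w := by
  intro F hF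
  refine (h F hF).trans ?_
  exact mul_le_mul_left (pow_le_pow_left' hN 2) _

/-- The multiplier bound. -/
lemma mu_dir {r : ℝ} (hr : 2 < r) : ∃ C : ℝ, 0 ≤ C ∧ ∀ (h : V → ℝ) (e : V), HF h →
    ∑ i, e i ^ 2 = 1 → MU (1 / r)
      (ENNReal.ofReal C * (∫⁻ x, ENNReal.ofReal (|h x| ^ (r - 1) * max (-(De e h x)) 0)) ^ (1 / r)) h := by
  obtain ⟨C, hC, hmain⟩ := tri_dir hr (δ₀ := 1 / 2) (by norm_num)
  refine ⟨√C, Real.sqrt_nonneg _, ?_⟩
  intro h e hh he F hF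
  have hr0 : 0 < r := by linarith
  obtain ⟨j, hj⟩ : ∃ j, 1 / 2 ≤ |e j| := by
    by_contra hn
    push Not at hn
    have h1 : ∀ j, e j ^ 2 < 1 / 4 := by
      intro j
      rw [← sq_abs]
      have := hn j
      nlinarith [abs_nonneg (e j)]
    rw [Fin.sum_univ_three] at he
    linarith [h1 0, h1 1, h1 2]
  obtain ⟨a, b, hT⟩ := exists_tri j
  obtain ⟨X, hX⟩ : ∃ X : ℝ≥0∞, X = ∫⁻ x, ENNReal.ofReal (|h x| ^ (r - 1) * max (-(De e h x)) 0) :=
    ⟨_, rfl⟩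
  have h1 := hmain F h e j a b hF hh hT hj
  rw [← hX] at h1 ⊢
  refine h1.trans ?_
  have e1 : (ENNReal.ofReal √C * X ^ (1 / r)) ^ 2 = ENNReal.ofReal C * X ^ (2 / r) := by
    rw [mul_pow, ← ENNReal.ofReal_pow (Real.sqrt_nonneg _), Real.sq_sqrt hC,
      ← ENNReal.rpow_natCast, ← ENNReal.rpow_mul]
    congr 2
    push_cast
    ring
  rw [e1]
  refine mul_le_mul_right ?_ _
  have e2 : 1 - 2 * (1 / r) = 1 - 2 / r := by ring
  have e3 : 2 * (1 / r) = 2 / r := by ring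
  rw [e2, e3]
  refine mul_le_mul_right ?_ _
  have k : ∀ m, sqi (H459R3.NS.pd m F) ≤ ∑ k, sqi (H459R3.NS.pd k F) := fun m =>
    Finset.single_le_sum (f := fun k => sqi (H459R3.NS.pd k F)) (fun _ _ => zero_le) (Finset.mem_univ m)
  calc (sqi (H459R3.NS.pd a F) * sqi (H459R3.NS.pd b F)) ^ (1 / r)
      ≤ ((∑ k, sqi (H459R3.NS.pd k F)) * (∑ k, sqi (H459R3.NS.pd k F))) ^ (1 / r) :=
        ENNReal.rpow_le_rpow (mul_le_mul' (k a) (k b)) (by positivity)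
    _ = (∑ k, sqi (H459R3.NS.pd k F)) ^ (2 / r) := by
        rw [← pow_two, ← ENNReal.rpow_natCast, ← ENNReal.rpow_mul]
        have e4 : ((2 : ℕ) : ℝ) * (1 / r) = 2 / r := by push_cast; ring
        rw [e4]

/-- The time integrability. -/
lemma nI_le {a₀ T b α' r : ℝ} {α : ℝ≥0∞} (hα : α' = α⁻¹.toReal) (hα0 : α ≠ 0)
    (hab : 2 * α' + 2 * b < 1) (hr : r = 3 - 2 * b) {g : ℝ → ℝ}
    (hg : MemLp g α (volume.restrict (Ioo a₀ T))) {K : ℝ} (hK : 0 ≤ K) :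
    ∃ K' γ : ℝ, 0 ≤ K' ∧ 0 < γ ∧ ∀ s' s : ℝ, a₀ ≤ s' → s' ≤ s → s < T →
      nI (1 / r) (fun τ => ENNReal.ofReal (K * |g τ| ^ (1 / r))) (Ioc s' s)
        ≤ ENNReal.ofReal (K' * (s - s') ^ γ) := by
  have hα'0 : 0 ≤ α' := by rw [hα]; exact ENNReal.toReal_nonneg
  have hb2 : 0 < 1 - 2 * b := by linarith
  have hr2 : 2 < r := by rw [hr]; linarith
  have hr0 : 0 < r := by linarith
  obtain ⟨s₀, hs₀⟩ : ∃ s₀ : ℝ, s₀ = 2 / (1 - 2 * b) := ⟨_, rfl⟩
  have hs₀0 : 0 < s₀ := by rw [hs₀]; positivity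
  have hs₀i : 1 / s₀ = (1 - 2 * b) / 2 := by rw [hs₀, one_div_div]
  obtain ⟨γ₀, hγ₀⟩ : ∃ γ₀ : ℝ, γ₀ = 1 / s₀ - α' := ⟨_, rfl⟩
  have hγ₀0 : 0 < γ₀ := by rw [hγ₀, hs₀i]; linarith
  have hr3 : r - 2 = 1 - 2 * b := by rw [hr]; ring
  have ex1 : 2 / (1 - 2 * (1 / r)) = r * s₀ := by
    rw [hs₀, ← hr3]
    have : r - 2 ≠ 0 := by linarith
    field_simp
  have ex2 : (1 - 2 * (1 / r)) / 2 = 1 / (r * s₀) := by
    rw [← ex1, one_div_div]
  have hαp : ENNReal.ofReal s₀ ≤ α := by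
    by_cases hαt : α = ⊤
    · rw [hαt]; exact le_top
    · have h1 : α' = (α.toReal)⁻¹ := by rw [hα, ENNReal.toReal_inv]
      have h2 : 0 < α.toReal := ENNReal.toReal_pos hα0 hαt
      rw [← ENNReal.ofReal_toReal hαt]
      apply ENNReal.ofReal_le_ofReal
      have h3 : (α.toReal)⁻¹ ≤ 1 / s₀ := by rw [← h1]; linarith
      rw [one_div] at h3
      exact (inv_le_inv₀ h2 hs₀0).1 h3
  have hα'' : 1 / α.toReal = α' := by rw [hα, ENNReal.toReal_inv, one_div]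
  obtain ⟨G, hG⟩ : ∃ G : ℝ, G = (eLpNorm g α (volume.restrict (Ioo a₀ T))).toReal := ⟨_, rfl⟩
  have hG0 : 0 ≤ G := by rw [hG]; exact ENNReal.toReal_nonneg
  have hGE : eLpNorm g α (volume.restrict (Ioo a₀ T)) = ENNReal.ofReal G := by
    rw [hG, ENNReal.ofReal_toReal hg.2.ne]
  refine ⟨K * G ^ (1 / r), γ₀ / r, by positivity, by positivity, ?_⟩
  intro s' s h1 h2 h3
  have hrs : 0 < r * s₀ := by positivity
  by_cases hss : s' = s
  · subst hss
    unfold nI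
    rw [Ioc_self, ex2]
    simp only [Measure.restrict_empty, lintegral_zero_measure]
    rw [ENNReal.zero_rpow_of_pos (by positivity)]
    exact zero_le
  have hlt : s' < s := lt_of_le_of_ne h2 hss
  have hle : volume.restrict (Ioc s' s) ≤ volume.restrict (Ioo a₀ T) := by
    have hsub : Ioc s' s ⊆ Ioo a₀ T := fun x hx => ⟨h1.trans_lt hx.1, hx.2.trans_lt h3⟩
    exact Measure.restrict_mono hsub le_rfl
  have hgI : AEStronglyMeasurable g (volume.restrict (Ioc s' s)) := hg.1.mono_measure hle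
  have k1 := eLpNorm_le_eLpNorm_mul_rpow_measure_univ (μ := volume.restrict (Ioc s' s)) hαp hgI
  have k2 : eLpNorm g α (volume.restrict (Ioc s' s)) ≤ ENNReal.ofReal G := by
    rw [← hGE]
    exact eLpNorm_mono_measure g hle
  rw [ENNReal.toReal_ofReal hs₀0.le, hα'', ← hγ₀, Measure.restrict_apply MeasurableSet.univ, univ_inter,
    Real.volume_Ioc, eLpNorm_eq_lintegral_rpow_enorm_toReal (by positivity) ENNReal.ofReal_ne_top,
    ENNReal.toReal_ofReal hs₀0.le] at k1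
  have k3 : (∫⁻ x in Ioc s' s, ‖g x‖ₑ ^ s₀) ^ (1 / s₀)
      ≤ ENNReal.ofReal (G * (s - s') ^ γ₀) := by
    refine k1.trans ((mul_le_mul_left k2 _).trans (le_of_eq ?_))
    rw [ENNReal.ofReal_rpow_of_pos (by linarith), ← ENNReal.ofReal_mul hG0]
  have k4 : ∀ τ, ENNReal.ofReal (K * |g τ| ^ (1 / r)) ^ (r * s₀)
      = ENNReal.ofReal K ^ (r * s₀) * ‖g τ‖ₑ ^ s₀ := by
    intro τ
    rw [ENNReal.ofReal_mul hK, ENNReal.mul_rpow_of_nonneg _ _ hrs.le,
      ← ENNReal.ofReal_rpow_of_nonneg (abs_nonneg _) (by positivity), ← ENNReal.rpow_mul,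
      ← Real.norm_eq_abs, ofReal_norm_eq_enorm]
    congr 2
    field_simp
  unfold nI
  rw [ex1, ex2]
  simp only [k4]
  rw [lintegral_const_mul' _ _ (ENNReal.rpow_ne_top_of_nonneg hrs.le ENNReal.ofReal_ne_top),
    ENNReal.mul_rpow_of_nonneg _ _ (by positivity), ← ENNReal.rpow_mul, mul_one_div_cancel hrs.ne',
    ENNReal.rpow_one]
  have k5 : (∫⁻ x in Ioc s' s, ‖g x‖ₑ ^ s₀) ^ (1 / (r * s₀))
      = ((∫⁻ x in Ioc s' s, ‖g x‖ₑ ^ s₀) ^ (1 / s₀)) ^ (1 / r) := by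
    rw [← ENNReal.rpow_mul]
    congr 1
    field_simp
  rw [k5]
  calc ENNReal.ofReal K * ((∫⁻ x in Ioc s' s, ‖g x‖ₑ ^ s₀) ^ (1 / s₀)) ^ (1 / r)
      ≤ ENNReal.ofReal K * (ENNReal.ofReal (G * (s - s') ^ γ₀)) ^ (1 / r) :=
        mul_le_mul_right (ENNReal.rpow_le_rpow k3 (by positivity)) _
    _ = ENNReal.ofReal (K * G ^ (1 / r) * (s - s') ^ (γ₀ / r)) := by
        have hd : 0 ≤ s - s' := by linarith
        rw [ENNReal.ofReal_rpow_of_nonneg (by positivity) (by positivity), ← ENNReal.ofReal_mul hK,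
          Real.mul_rpow hG0 (by positivity), ← Real.rpow_mul hd]
        congr 1
        rw [mul_assoc]
        congr 3
        ring

end Pool.Agent.H305.SL
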