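import Pool.Agent.H305.SL.Dec

/-!
The dissipation is small in small cylinders.
-/

set_option autoImplicit false

open MeasureTheory Set Metric Filter Topology
open scoped ContDiff ENNReal

namespace Pool.Agent.H305.SL

open H459R3.NS W221.NS Pool.Agent.V1183.PM Pool.Agent.H305.OS
open Pool.Agent.W583.MD (sm_pd pd_mul')
open Pool.Agent.W22.ME.TD (pd_comm)
open Pool.Agent.H305.TI (it it_nil it_cons it_sm J_it dt_it)

section
variable {c a b : Fin 3} {ν T : ℝ} {u : ℝ → V → V} {p : ℝ → V → ℝ} {t₀ σ E A ε κ : ℝ}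
  {N : ℝ → ℝ≥0∞}

/-- The flux of one component, with a Gaussian weight. -/
lemma horiz : ∃ C : ℝ, 0 ≤ C ∧ ∀ (c : Fin 3) (ν T : ℝ) (u : ℝ → V → V) (p : ℝ → V → ℝ)
    (t₀ A : ℝ), HS ν T u p → 0 < t₀ → SB u c t₀ T A → ∀ (j : Fin 3) (y r t₁ s : ℝ), 0 < r →
    t₀ ≤ t₁ → T - r ^ 2 ≤ t₁ → t₁ ≤ s → s < T →
    ∫⁻ τ in Ioc t₁ s, ∫⁻ x, ENNReal.ofReal (fx u p j τ x)
      * ENNReal.ofReal (gk ν ((T + r ^ 2) - τ) (x c - y))
      ≤ ENNReal.ofReal (kap ν * C * (1 + A) ^ 2 * r) := by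
  obtain ⟨C, hC, hT3⟩ := T3
  have hZ := Zs_pos
  refine ⟨6 * Zs * C, by positivity, ?_⟩
  intro c ν T u p t₀ A h ht₀ hB j y r t₁ s hr ht₁ hrt hts hs
  have hν := h.hν
  have hk := kap_pos ν
  have hA := hB.A0
  have hI : Ioc t₁ s ⊆ Ioo 0 T := fun τ hτ => ⟨ht₀.trans_le (ht₁.trans hτ.1.le), hτ.2.trans_lt hs⟩
  have hz1 : ∀ τ ∈ Ioc t₁ s, ∀ i : ℤ, ∀ z : ℝ, |z - i * r| < r →
      (fun (τ : ℝ) (z : ℝ) => ENNReal.ofReal (gk ν ((T + r ^ 2) - τ) z)) τ z
        ≤ ENNReal.ofReal ((6 * kap ν / r) / (1 + (i : ℝ) ^ 2)) := by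
    intro τ hτ i z hi
    apply ENNReal.ofReal_le_ofReal
    have h1 : r ^ 2 ≤ (T + r ^ 2) - τ := by linarith [hτ.2]
    have h2 : (T + r ^ 2) - τ ≤ 2 * r ^ 2 := by linarith [hτ.1]
    have h0 : 0 < (T + r ^ 2) - τ := lt_of_lt_of_le (by positivity) h1
    have h3 : √((T + r ^ 2) - τ) ≤ 2 * r := by
      rw [Real.sqrt_le_left (by positivity)]
      nlinarith
    have h4 := wt_i hr i hi
    calc gk ν ((T + r ^ 2) - τ) z ≤ kap ν * (√((T + r ^ 2) - τ) / (((T + r ^ 2) - τ) + z ^ 2)) :=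
          gk_le hν h0
      _ ≤ kap ν * ((2 * r) / (r ^ 2 + z ^ 2)) := by gcongr
      _ = kap ν * (2 * r) * (1 / (r ^ 2 + z ^ 2)) := by ring
      _ ≤ kap ν * (2 * r) * (3 / (r ^ 2 * (1 + (i : ℝ) ^ 2))) := by gcongr
      _ = _ := by
          field_simp
          ring
  have h0 : ∀ y', ∫⁻ τ in Ioc t₁ s, ∫⁻ x in slb c y' r, ENNReal.ofReal (fx u p j τ x)
      ≤ ENNReal.ofReal (C * (1 + A) ^ 2 * r ^ 2) := by
    intro y'
    exact hT3 c ν T u p t₀ A h ht₀ hB j y' r t₁ s hr ht₁ hts hs (by linarith)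
  have h1 := cov_t (c := c) (y := y) hr (measurableSet_Ioc (a := t₁) (b := s))
    (F := fun τ x => ENNReal.ofReal (fx u p j τ x)) (fun τ hτ => fx_meas h j (hI hτ))
    (fun y' => C_aem (fx_contOn h j) _ measurableSet_Ioc hI) hz1 h0
  rw [Zs_ofReal _ (by positivity), ← ENNReal.ofReal_mul (by positivity)] at h1
  refine h1.trans (ENNReal.ofReal_le_ofReal (le_of_eq ?_))
  field_simp

/-- The local energy inequality. -/
lemma LE_main : ∃ C : ℝ, 0 ≤ C ∧ ∀ (c a b : Fin 3) (ν T : ℝ) (u : ℝ → V → V) (p : ℝ → V → ℝ)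
    (t₀ σ E A ε κ : ℝ) (N : ℝ → ℝ≥0∞), Tri c a b → P1 ν T u p c t₀ σ E N A ε κ →
    ∀ (K M η y : ℝ) (k : ℕ) (x₀ : V) (t₁ s : ℝ), 1 ≤ K → 0 < M → 0 < η →
    t₀ ≤ T - (1 / 4) ^ k → t₁ ∈ Ioo (T - (1 / 4) ^ k) (T - (1 / 4) ^ k / 4) →
    sG (cw u t₁) c y (2 * M * (1 / 2) ^ k) ≤ ENNReal.ofReal (η / (1 / 2) ^ k) →
    t₁ ≤ s → s < T →
    ENNReal.ofReal ν * (∫⁻ τ in Ioc t₁ s, ∫⁻ x, ENNReal.ofReal (gw (cw u τ) x)
      * ENNReal.ofReal (wg (hc a b x₀ (K * (1 / 2) ^ k)) ν c (T + (1 / 4) ^ k) y τ x))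
    ≤ ENNReal.ofReal (24 * K * √(4 * A * M * η) + C * kap ν ^ 2 * A / M ^ 2
      + C * ν * kap ν * A / K ^ 2 + C * (kap ν ^ 2 / ν) * A * (ε * κ ^ k * (k + 1) ^ 2)
      + C * kap ν * (1 + A) ^ 2 / K) := by
  obtain ⟨C₁, hC₁, hFL⟩ := FL
  obtain ⟨C₃, hC₃, hH⟩ := horiz
  have hZ := Zs_pos
  have hB1 := B1_one
  have hB2 := B2c_one
  refine ⟨24 * Zs + 12 * B2c * Zs + C₁ + 12 * B1 * C₃, by positivity, ?_⟩
  intro c a b ν T u p t₀ σ E A ε κ N hT h K M η y k x₀ t₁ s hK hM hη hkT ht₁ hsG hts hs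
  have hν := h.hν
  have hk := kap_pos ν
  have hA := h.A0
  have hκ0 := h.κ0
  have hκ1 := h.κ1
  have hε0 := h.ε0
  have hSB : SB u c t₀ T (2 * A) := h.toMS.SB h.EA h.bd
  obtain ⟨r, hr⟩ : ∃ r : ℝ, r = (1 / 2) ^ k := ⟨_, rfl⟩
  have hr0 : 0 < r := by rw [hr]; positivity
  rw [pow4, ← hr] at hkT ht₁
  rw [pow4, ← hr]
  rw [← hr] at hsG
  have ht₀ : t₀ ≤ t₁ := by linarith [ht₁.1]
  have ht₁0 : 0 < t₁ := h.t0.trans_le ht₀
  have hKr : 0 < K * r := by positivity
  have hI : ∀ τ ∈ Icc t₁ s, τ ∈ Ioo 0 T := fun τ hτ => ⟨ht₁0.trans_le hτ.1, hτ.2.trans_lt hs⟩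
  have hw : ∀ τ ∈ Icc t₁ s, ∀ i, HF (cw u τ i) := fun τ hτ i => h.cw_HF (hI τ hτ) i
  obtain ⟨ζ, hζe⟩ : ∃ ζ : V → ℝ, ζ = hc a b x₀ (K * r) := ⟨_, rfl⟩
  have hζB : BF ζ := by rw [hζe]; exact hc_BF hKr
  have hζ0 : ∀ x, 0 ≤ ζ x := fun x => by rw [hζe]; exact hc_nonneg x
  have hζ1 : ∀ x, ζ x ≤ 1 := fun x => by rw [hζe]; exact hc_le x
  have hζc : ∀ x, pd c ζ x = 0 := fun x => by rw [hζe]; exact pd_hc_c hT x
  have hζd : ∀ m x, |pd m ζ x| ≤ B1 / (K * r) := fun m x => by rw [hζe]; exact pd_hc_le hT hKr m x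
  have hζl : ∀ x, |lp ζ x| ≤ 2 * B2c / (K * r) ^ 2 := fun x => by rw [hζe]; exact lp_hc_le hT hKr x
  rw [← hζe]
  have hsT' : s < T + r ^ 2 := by nlinarith
  have key := gin (c := c) h.toHS ht₁0 hts hs hsT' hζB hζc hζ0 y
  have hΨ0 : ∀ τ x, 0 ≤ wg ζ ν c (T + r ^ 2) y τ x := fun τ x => mul_nonneg (hζ0 x) (gW_nonneg x)
  have hΨB : ∀ τ ∈ Icc t₁ s, BF (wg ζ ν c (T + r ^ 2) y τ) := fun τ hτ =>
    wg_BF hζB hν (hτ.2.trans_lt hsT')
  -- the time interval
  have hτ1 : ∀ τ ∈ Icc t₁ s, r ^ 2 ≤ (T + r ^ 2) - τ ∧ (T + r ^ 2) - τ ≤ 2 * r ^ 2 := fun τ hτ =>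
    ⟨by linarith [hτ.2], by linarith [hτ.1, ht₁.1]⟩
  have hτ0 : ∀ τ ∈ Icc t₁ s, 0 < (T + r ^ 2) - τ := fun τ hτ =>
    lt_of_lt_of_le (by positivity) (hτ1 τ hτ).1
  -- the Gaussian integrals of the energy
  have hgi : ∀ τ ∈ Icc t₁ s, ∀ y' : ℝ, ∫⁻ x in slb c y' (√((T + r ^ 2) - τ)),
      ENNReal.ofReal (nw (cw u τ) x) ≤ ENNReal.ofReal (2 * A * √((T + r ^ 2) - τ)) := fun τ hτ y' =>
    hSB.sb1 y' _ (Real.sqrt_pos.2 (hτ0 τ hτ)) τ ⟨ht₀.trans hτ.1, hτ.2.trans_lt hs⟩
  have mn : ∀ τ ∈ Icc t₁ s, Measurable fun x => ENNReal.ofReal (nw (cw u τ) x) := fun τ hτ =>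
    (nw_cont (hw τ hτ)).measurable.ennreal_ofReal
  have hG : ∀ τ ∈ Icc t₁ s, ∫⁻ x, ENNReal.ofReal (nw (cw u τ) x)
      * ENNReal.ofReal (gk ν ((T + r ^ 2) - τ) (x c - y)) ≤ ENNReal.ofReal (3 * kap ν * Zs * (2 * A)) :=
    fun τ hτ => gk_int hν (hτ0 τ hτ) (mn τ hτ) (by positivity) (hgi τ hτ)
  -- (a)
  have Ia : ENNReal.ofReal (enW (cw u t₁) (wg ζ ν c (T + r ^ 2) y t₁))
      ≤ ENNReal.ofReal (24 * K * √(4 * A * M * η) + 24 * Zs * kap ν ^ 2 * A / M ^ 2) := by
    have ht : t₁ ∈ Icc t₁ s := ⟨le_rfl, hts⟩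
    rw [enW_lint (hw t₁ ht) (hΨB t₁ ht) (hΨ0 t₁)]
    have e1 : ∀ x, ENNReal.ofReal (nw (cw u t₁) x) * ENNReal.ofReal (wg ζ ν c (T + r ^ 2) y t₁ x)
        ≤ (slb c y (M * r)).indicator (fun x => ENNReal.ofReal r⁻¹ *
          (ENNReal.ofReal (nw (cw u t₁) x) * ENNReal.ofReal (ζ x))) x
        + ENNReal.ofReal (4 * kap ν ^ 2 / M ^ 2) * (ENNReal.ofReal (nw (cw u t₁) x)
          * ENNReal.ofReal (√((T + r ^ 2) - t₁) / (((T + r ^ 2) - t₁) + (x c - y) ^ 2))) := by
      intro x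
      unfold wg
      rw [ENNReal.ofReal_mul (hζ0 x)]
      by_cases hx : x ∈ slb c y (M * r)
      · rw [indicator_of_mem hx]
        refine le_trans ?_ le_self_add
        have e2 : gW ν c (T + r ^ 2) y t₁ x ≤ r⁻¹ := by
          show gk ν ((T + r ^ 2) - t₁) (x c - y) ≤ r⁻¹
          unfold gk
          have s1 : r ≤ √((T + r ^ 2) - t₁) := by
            apply Real.le_sqrt_of_sq_le
            exact (hτ1 t₁ ht).1
          have s2 : Real.exp (-(1 / (4 * ν * ((T + r ^ 2) - t₁))) * (x c - y) ^ 2) ≤ 1 := by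
            rw [Real.exp_le_one_iff]
            have := hτ0 t₁ ht
            have : 0 ≤ 1 / (4 * ν * ((T + r ^ 2) - t₁)) * (x c - y) ^ 2 := by positivity
            linarith
          calc (√((T + r ^ 2) - t₁))⁻¹ * Real.exp (-(1 / (4 * ν * ((T + r ^ 2) - t₁))) * (x c - y) ^ 2)
              ≤ r⁻¹ * 1 := by
                gcongr
            _ = _ := mul_one _
        calc ENNReal.ofReal (nw (cw u t₁) x) * (ENNReal.ofReal (ζ x)
              * ENNReal.ofReal (gW ν c (T + r ^ 2) y t₁ x))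
            ≤ ENNReal.ofReal (nw (cw u t₁) x) * (ENNReal.ofReal (ζ x) * ENNReal.ofReal r⁻¹) := by
              gcongr
          _ = _ := by ring
      · rw [indicator_of_notMem hx, zero_add]
        have hz : M * r ≤ |x c - y| := not_lt.1 hx
        have e2 : gW ν c (T + r ^ 2) y t₁ x ≤ 4 * kap ν ^ 2 / M ^ 2 *
            (√((T + r ^ 2) - t₁) / (((T + r ^ 2) - t₁) + (x c - y) ^ 2)) :=
          gk_tail hν (hτ0 t₁ ht) hr0 hM (hτ1 t₁ ht).2 hz
        have e3 : ENNReal.ofReal (ζ x) ≤ 1 := by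
          rw [← ENNReal.ofReal_one]
          exact ENNReal.ofReal_le_ofReal (hζ1 x)
        calc ENNReal.ofReal (nw (cw u t₁) x) * (ENNReal.ofReal (ζ x)
              * ENNReal.ofReal (gW ν c (T + r ^ 2) y t₁ x))
            ≤ ENNReal.ofReal (nw (cw u t₁) x) * (1 * ENNReal.ofReal (4 * kap ν ^ 2 / M ^ 2 *
            (√((T + r ^ 2) - t₁) / (((T + r ^ 2) - t₁) + (x c - y) ^ 2)))) := by
              gcongr
          _ = _ := by
              rw [ENNReal.ofReal_mul (by positivity)]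
              ring
    refine (lintegral_mono e1).trans ?_
    have mζ : Measurable fun x => ENNReal.ofReal (ζ x) := hζB.sm.continuous.measurable.ennreal_ofReal
    have mI : Measurable fun x => (slb c y (M * r)).indicator (fun x => ENNReal.ofReal r⁻¹ *
        (ENNReal.ofReal (nw (cw u t₁) x) * ENNReal.ofReal (ζ x))) x :=
      (((mn t₁ ht).mul mζ).const_mul _).indicator slb_meas
    rw [lintegral_add_left mI, lintegral_indicator slb_meas, lintegral_const_mul' _ _ ENNReal.ofReal_ne_top,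
      lintegral_const_mul' _ _ ENNReal.ofReal_ne_top]
    have e4 := loc_en (x₀ := x₀) (y := y) (hw t₁ ht) hT (ρ := M * r) (K' := K * r)
      (e := 2 * A * (2 * (M * r))) (d := η / r) (by positivity) hKr (by positivity) (by positivity)
      (hSB.sb1 y _ (by positivity) t₁ ⟨ht₀, hts.trans_lt hs⟩)
      (by rw [← mul_assoc]; exact hsG)
    rw [← hζe] at e4
    have e5 := wt_int (c := c) (y := y) (hτ0 t₁ ht) (mn t₁ ht) (m := 2 * A) (by positivity) (hgi t₁ ht)
    refine (add_le_add (mul_le_mul_right e4 _) (mul_le_mul_right e5 _)).trans ?_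
    rw [← ENNReal.ofReal_mul (by positivity), ← ENNReal.ofReal_mul (by positivity),
      ← ENNReal.ofReal_add (by positivity) (by positivity)]
    apply ENNReal.ofReal_le_ofReal
    apply le_of_eq
    congr 1
    · rw [show 2 * A * (2 * (M * r)) * (η / r) = 4 * A * M * η by field_simp; ring]
      field_simp
    · ring
  -- the pointwise bound
  have hpt : ∀ τ ∈ Ioc t₁ s, ENNReal.ofReal |flW (cw u τ) (p τ) (wg ζ ν c (T + r ^ 2) y τ)
      + ν * enW (cw u τ) (fun x => lp ζ x * gW ν c (T + r ^ 2) y τ x)|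
      ≤ ENNReal.ofReal (kap ν ^ 2 / ν) * (∫⁻ x, ENNReal.ofReal (fx u p c τ x)
        * ENNReal.ofReal (1 / (((T + r ^ 2) - τ) + (x c - y) ^ 2)))
      + ENNReal.ofReal (B1 / (K * r)) * (∑ j, ∫⁻ x, ENNReal.ofReal (fx u p j τ x)
        * ENNReal.ofReal (gk ν ((T + r ^ 2) - τ) (x c - y)))
      + ENNReal.ofReal (ν * (2 * B2c / (K * r) ^ 2) * (3 * kap ν * Zs * (2 * A))) := by
    intro τ hτ
    have hτ' := Ioc_subset_Icc_self hτ
    have hwm : ∀ i, Measurable (cw u τ i) := fun i => (hw τ hτ' i).sm.continuous.measurable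
    have hpm : Measurable (p τ) := (h.p_HF (hI τ hτ')).sm.continuous.measurable
    calc ENNReal.ofReal |flW (cw u τ) (p τ) (wg ζ ν c (T + r ^ 2) y τ)
        + ν * enW (cw u τ) (fun x => lp ζ x * gW ν c (T + r ^ 2) y τ x)|
        ≤ ENNReal.ofReal |flW (cw u τ) (p τ) (wg ζ ν c (T + r ^ 2) y τ)|
          + ENNReal.ofReal ν * ENNReal.ofReal |enW (cw u τ)
            (fun x => lp ζ x * gW ν c (T + r ^ 2) y τ x)| := by
          rw [← ENNReal.ofReal_mul hν.le, ← ENNReal.ofReal_add (abs_nonneg _) (by positivity)]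
          apply ENNReal.ofReal_le_ofReal
          refine (abs_add_le _ _).trans (le_of_eq ?_)
          rw [abs_mul, abs_of_pos hν]
      _ ≤ _ := by
          refine add_le_add ?_ ?_
          · refine (flW_le hν (hτ.2.trans_lt hsT') (cw u τ) (p τ) hζB.sm hζ0 hζc hwm hpm).trans ?_
            refine add_le_add ?_ ?_
            · refine mul_le_mul_right (lintegral_mono fun x => ?_) _
              have e3 : ENNReal.ofReal (ζ x) ≤ 1 := by
                rw [← ENNReal.ofReal_one]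
                exact ENNReal.ofReal_le_ofReal (hζ1 x)
              calc ENNReal.ofReal (ζ x) * (ENNReal.ofReal ((nw (cw u τ) x + 2 * |p τ x|) * |cw u τ c x|)
                    * ENNReal.ofReal (1 / (((T + r ^ 2) - τ) + (x c - y) ^ 2)))
                  ≤ 1 * (ENNReal.ofReal ((nw (cw u τ) x + 2 * |p τ x|) * |cw u τ c x|)
                    * ENNReal.ofReal (1 / (((T + r ^ 2) - τ) + (x c - y) ^ 2))) := by gcongr
                _ = _ := one_mul _
            · have mj : ∀ j, Measurable fun x => ENNReal.ofReal (fx u p j τ x)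
                  * ENNReal.ofReal (gk ν ((T + r ^ 2) - τ) (x c - y)) := by
                intro j
                have : Measurable fun x : V => gW ν c (T + r ^ 2) y τ x :=
                  (gW_sm ν c (T + r ^ 2) y τ).continuous.measurable
                exact (fx_meas h.toHS j (hI τ hτ')).mul this.ennreal_ofReal
              rw [← lintegral_finsetSum _ fun j _ => mj j,
                ← lintegral_const_mul' _ _ ENNReal.ofReal_ne_top]
              apply lintegral_mono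
              intro x
              simp only
              have hn := nw_nonneg (cw u τ) x
              rw [← Finset.sum_mul, ← mul_assoc]
              refine mul_le_mul_left ?_ _
              rw [← ENNReal.ofReal_sum_of_nonneg fun j _ => fx_nonneg u p j τ x,
                ← ENNReal.ofReal_mul (by positivity)]
              apply ENNReal.ofReal_le_ofReal
              unfold fx
              calc (nw (cw u τ) x + 2 * |p τ x|) * ∑ j, |cw u τ j x| * |pd j ζ x|
                  ≤ (nw (cw u τ) x + 2 * |p τ x|) * ∑ j, |cw u τ j x| * (B1 / (K * r)) := by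
                    gcongr with j _
                    exact hζd j x
                _ = _ := by
                    rw [← Finset.sum_mul, ← Finset.mul_sum]
                    ring
          · rw [mul_assoc ν, ENNReal.ofReal_mul hν.le]
            refine mul_le_mul_right ?_ _
            have e5 : ENNReal.ofReal |enW (cw u τ) (fun x => lp ζ x * gW ν c (T + r ^ 2) y τ x)|
                ≤ ∫⁻ x, ENNReal.ofReal (2 * B2c / (K * r) ^ 2) * (ENNReal.ofReal (nw (cw u τ) x)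
                  * ENNReal.ofReal (gk ν ((T + r ^ 2) - τ) (x c - y))) := by
              unfold enW
              apply ofReal_int_le
              intro x
              have hn := nw_nonneg (cw u τ) x
              have hg0 : 0 ≤ gW ν c (T + r ^ 2) y τ x := gW_nonneg x
              rw [← ENNReal.ofReal_mul hn, ← ENNReal.ofReal_mul (by positivity)]
              apply ENNReal.ofReal_le_ofReal
              rw [abs_mul, abs_mul, abs_of_nonneg hg0]
              have e6 : |∑ i, cw u τ i x ^ 2| = nw (cw u τ) x := abs_of_nonneg hn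
              rw [e6]
              calc nw (cw u τ) x * (|lp ζ x| * gW ν c (T + r ^ 2) y τ x)
                  ≤ nw (cw u τ) x * (2 * B2c / (K * r) ^ 2 * gW ν c (T + r ^ 2) y τ x) := by
                    gcongr
                    exact hζl x
                _ = 2 * B2c / (K * r) ^ 2 * (nw (cw u τ) x * gk ν ((T + r ^ 2) - τ) (x c - y)) := by
                    unfold gW
                    ring
            refine e5.trans ?_
            rw [lintegral_const_mul' _ _ ENNReal.ofReal_ne_top, ENNReal.ofReal_mul (by positivity)]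
            exact mul_le_mul_right (hG τ hτ') _
  -- the time integrals
  have Ic := hFL c ν T u p t₀ σ E A N h.toMS k (h.bd k) h.EA t₁ s (T + r ^ 2) ht₀ hts hs
    (by rw [pow4, ← hr]; linarith) y
  have Ic2 : ∑ j ∈ Finset.range (k + 1), (1 + (j : ℝ≥0∞)) * nI σ N (Ioc (max t₁ (s - (1 / 4) ^ j)) s)
      ≤ ENNReal.ofReal (ε * κ ^ k * (k + 1) ^ 2) := by
    calc ∑ j ∈ Finset.range (k + 1), (1 + (j : ℝ≥0∞)) * nI σ N (Ioc (max t₁ (s - (1 / 4) ^ j)) s)
        ≤ ∑ _j ∈ Finset.range (k + 1), ENNReal.ofReal ((k + 1) * (ε * κ ^ k)) := by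
          apply Finset.sum_le_sum
          intro j hj
          rw [Finset.mem_range] at hj
          have e1 : nI σ N (Ioc (max t₁ (s - (1 / 4) ^ j)) s) ≤ ENNReal.ofReal (ε * κ ^ k) := by
            refine (nI_mono h.σ1.le (Ioc_subset_Ioc_left (le_max_left t₁ _))).trans ?_
            apply h.nu k t₁ s ht₀ hts hs
            rw [pow4, ← hr]
            linarith [ht₁.1]
          have e3 : (1 + (j : ℝ≥0∞)) = ENNReal.ofReal (1 + j) := by
            rw [ENNReal.ofReal_add (by norm_num) (Nat.cast_nonneg j), ENNReal.ofReal_one,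
              ENNReal.ofReal_natCast]
          rw [e3]
          refine (mul_le_mul_right e1 _).trans ?_
          rw [← ENNReal.ofReal_mul (by positivity)]
          apply ENNReal.ofReal_le_ofReal
          have : (1 : ℝ) + j ≤ k + 1 := by
            have : j ≤ k := by omega
            have : (j : ℝ) ≤ k := by exact_mod_cast this
            linarith
          gcongr
      _ = _ := by
          rw [Finset.sum_const, Finset.card_range, nsmul_eq_mul]
          have e4 : ((k + 1 : ℕ) : ℝ≥0∞) = ENNReal.ofReal (k + 1) := by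
            rw [ENNReal.ofReal_add (Nat.cast_nonneg k) (by norm_num), ENNReal.ofReal_one,
              ENNReal.ofReal_natCast]
            push_cast
            rfl
          rw [e4, ← ENNReal.ofReal_mul (by positivity)]
          congr 1
          ring
  have Id : ∀ j, ∫⁻ τ in Ioc t₁ s, ∫⁻ x, ENNReal.ofReal (fx u p j τ x)
      * ENNReal.ofReal (gk ν ((T + r ^ 2) - τ) (x c - y))
      ≤ ENNReal.ofReal (kap ν * C₃ * (1 + 2 * A) ^ 2 * r) := fun j =>
    hH c ν T u p t₀ (2 * A) h.toHS h.t0 hSB j y r t₁ s hr0 ht₀ (by linarith [ht₁.1]) hts hs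
  have hmono : ∫⁻ τ in Ioc t₁ s, ENNReal.ofReal |flW (cw u τ) (p τ) (wg ζ ν c (T + r ^ 2) y τ)
      + ν * enW (cw u τ) (fun x => lp ζ x * gW ν c (T + r ^ 2) y τ x)|
      ≤ ENNReal.ofReal (kap ν ^ 2 / ν) * (ENNReal.ofReal (C₁ * A)
          * ENNReal.ofReal (ε * κ ^ k * (k + 1) ^ 2))
        + ENNReal.ofReal (B1 / (K * r)) * (∑ _j : Fin 3, ENNReal.ofReal (kap ν * C₃ * (1 + 2 * A) ^ 2 * r))
        + ENNReal.ofReal (ν * (2 * B2c / (K * r) ^ 2) * (3 * kap ν * Zs * (2 * A)) * r ^ 2) := by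
    have hI' : Ioc t₁ s ⊆ Ioo 0 T := fun τ hτ => hI τ (Ioc_subset_Icc_self hτ)
    have mgk : ContinuousOn (fun z : ℝ × V => gk ν ((T + r ^ 2) - z.1) (z.2 c - y)) (Ioo 0 T ×ˢ univ) := by
      have := (gW_j (ν := ν) (c := c) hν (by nlinarith : T ≤ T + r ^ 2) y).continuousOn
      exact this
    have m1 : AEMeasurable (fun τ => ENNReal.ofReal (kap ν ^ 2 / ν) * (∫⁻ x, ENNReal.ofReal (fx u p c τ x)
        * ENNReal.ofReal (1 / (((T + r ^ 2) - τ) + (x c - y) ^ 2)))) (volume.restrict (Ioc t₁ s)) := by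
      apply AEMeasurable.const_mul
      have hcc : ContinuousOn (fun z : ℝ × V => fx u p c z.1 z.2
          * (1 / (((T + r ^ 2) - z.1) + (z.2 c - y) ^ 2))) (Ioo 0 T ×ˢ univ) := by
        apply (fx_contOn h.toHS c).mul
        apply ContinuousOn.div continuousOn_const (by fun_prop)
        intro z hz
        have := hz.1.2
        have : 0 < ((T + r ^ 2) - z.1) + (z.2 c - y) ^ 2 := by nlinarith [sq_nonneg (z.2 c - y)]
        exact this.ne'
      have := C_aem (F := fun τ x => fx u p c τ x * (1 / (((T + r ^ 2) - τ) + (x c - y) ^ 2))) hcc univ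
        (μ := volume) (measurableSet_Ioc (a := t₁) (b := s)) hI'
      simp only [Measure.restrict_univ] at this
      refine this.congr (Eventually.of_forall fun τ => ?_)
      apply lintegral_congr
      intro x
      rw [ENNReal.ofReal_mul (fx_nonneg u p c τ x)]
    have m2 : ∀ j, AEMeasurable (fun τ => ∫⁻ x, ENNReal.ofReal (fx u p j τ x)
        * ENNReal.ofReal (gk ν ((T + r ^ 2) - τ) (x c - y))) (volume.restrict (Ioc t₁ s)) := by
      intro j
      have := C_aem (F := fun τ x => fx u p j τ x * gk ν ((T + r ^ 2) - τ) (x c - y))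
        ((fx_contOn h.toHS j).mul mgk) univ (μ := volume) (measurableSet_Ioc (a := t₁) (b := s)) hI'
      simp only [Measure.restrict_univ] at this
      refine this.congr (Eventually.of_forall fun τ => ?_)
      apply lintegral_congr
      intro x
      rw [ENNReal.ofReal_mul (fx_nonneg u p j τ x)]
    have m3 : AEMeasurable (fun τ => ENNReal.ofReal (B1 / (K * r)) * (∑ j, ∫⁻ x, ENNReal.ofReal
        (fx u p j τ x) * ENNReal.ofReal (gk ν ((T + r ^ 2) - τ) (x c - y))))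
        (volume.restrict (Ioc t₁ s)) :=
      (Finset.aemeasurable_fun_sum _ fun j _ => m2 j).const_mul _
    have m4 : AEMeasurable (fun τ => ENNReal.ofReal (kap ν ^ 2 / ν) * (∫⁻ x, ENNReal.ofReal (fx u p c τ x)
        * ENNReal.ofReal (1 / (((T + r ^ 2) - τ) + (x c - y) ^ 2))) + ENNReal.ofReal (B1 / (K * r)) *
        (∑ j, ∫⁻ x, ENNReal.ofReal
        (fx u p j τ x) * ENNReal.ofReal (gk ν ((T + r ^ 2) - τ) (x c - y))))
        (volume.restrict (Ioc t₁ s)) := m1.add m3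
    refine (setLIntegral_mono' measurableSet_Ioc hpt).trans ?_
    rw [lintegral_add_left' m4, lintegral_add_left' m1,
      lintegral_const_mul' _ _ ENNReal.ofReal_ne_top, lintegral_const_mul' _ _ ENNReal.ofReal_ne_top,
      lintegral_finset_sum' _ fun j _ => m2 j, setLIntegral_const, Real.volume_Ioc]
    refine add_le_add (add_le_add ?_ ?_) ?_
    · exact mul_le_mul_right (Ic.trans (mul_le_mul_right Ic2 _)) _
    · exact mul_le_mul_right (Finset.sum_le_sum fun j _ => Id j) _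
    · rw [← ENNReal.ofReal_mul (by positivity)]
      apply ENNReal.ofReal_le_ofReal
      gcongr
      linarith [ht₁.1]
  have hL : ENNReal.ofReal ν * (∫⁻ τ in Ioc t₁ s, ∫⁻ x, ENNReal.ofReal (gw (cw u τ) x)
      * ENNReal.ofReal (wg ζ ν c (T + r ^ 2) y τ x))
      = ∫⁻ τ in Ioc t₁ s, ENNReal.ofReal (ν * dsW (cw u τ) (wg ζ ν c (T + r ^ 2) y τ)) := by
    rw [← lintegral_const_mul' _ _ ENNReal.ofReal_ne_top]
    apply setLIntegral_congr_fun measurableSet_Ioc
    intro τ hτ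
    have hτ' := Ioc_subset_Icc_self hτ
    simp only
    rw [ENNReal.ofReal_mul hν.le, dsW_lint (hw τ hτ') (hΨB τ hτ') (hΨ0 τ)]
  rw [hL]
  refine (le_add_self.trans key).trans ((add_le_add Ia hmono).trans ?_)
  rw [Finset.sum_const, Finset.card_univ, Fintype.card_fin, nsmul_eq_mul,
    show ((3 : ℕ) : ℝ≥0∞) = ENNReal.ofReal 3 by norm_num,
    ← ENNReal.ofReal_mul (by positivity), ← ENNReal.ofReal_mul (by positivity),
    ← ENNReal.ofReal_mul (by positivity), ← ENNReal.ofReal_mul (by positivity),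
    ← ENNReal.ofReal_add (by positivity) (by positivity),
    ← ENNReal.ofReal_add (by positivity) (by positivity),
    ← ENNReal.ofReal_add (by positivity) (by positivity)]
  apply ENNReal.ofReal_le_ofReal
  have b1 : 24 * Zs * kap ν ^ 2 * A / M ^ 2
      ≤ (24 * Zs + 12 * B2c * Zs + C₁ + 12 * B1 * C₃) * kap ν ^ 2 * A / M ^ 2 := by
    gcongr
    have : 0 ≤ 12 * B2c * Zs + C₁ + 12 * B1 * C₃ := by positivity
    linarith
  have b2 : ν * (2 * B2c / (K * r) ^ 2) * (3 * kap ν * Zs * (2 * A)) * r ^ 2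
      ≤ (24 * Zs + 12 * B2c * Zs + C₁ + 12 * B1 * C₃) * ν * kap ν * A / K ^ 2 := by
    have e : ν * (2 * B2c / (K * r) ^ 2) * (3 * kap ν * Zs * (2 * A)) * r ^ 2
        = (12 * B2c * Zs) * ν * kap ν * A / K ^ 2 := by
      field_simp
      ring
    rw [e]
    gcongr
    have : 0 ≤ 24 * Zs + C₁ + 12 * B1 * C₃ := by positivity
    linarith
  have b3 : kap ν ^ 2 / ν * (C₁ * A * (ε * κ ^ k * (k + 1) ^ 2))
      ≤ (24 * Zs + 12 * B2c * Zs + C₁ + 12 * B1 * C₃) * (kap ν ^ 2 / ν) * A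
        * (ε * κ ^ k * (k + 1) ^ 2) := by
    have e : kap ν ^ 2 / ν * (C₁ * A * (ε * κ ^ k * (k + 1) ^ 2))
        = C₁ * (kap ν ^ 2 / ν) * A * (ε * κ ^ k * (k + 1) ^ 2) := by ring
    rw [e]
    gcongr
    have : 0 ≤ 24 * Zs + 12 * B2c * Zs + 12 * B1 * C₃ := by positivity
    linarith
  have b4 : B1 / (K * r) * (3 * (kap ν * C₃ * (1 + 2 * A) ^ 2 * r))
      ≤ (24 * Zs + 12 * B2c * Zs + C₁ + 12 * B1 * C₃) * kap ν * (1 + A) ^ 2 / K := by
    have e : B1 / (K * r) * (3 * (kap ν * C₃ * (1 + 2 * A) ^ 2 * r))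
        = (3 * B1 * C₃) * kap ν * (1 + 2 * A) ^ 2 / K := by
      field_simp
    rw [e]
    have e2 : (1 + 2 * A) ^ 2 ≤ 4 * (1 + A) ^ 2 := by nlinarith
    calc (3 * B1 * C₃) * kap ν * (1 + 2 * A) ^ 2 / K ≤ (3 * B1 * C₃) * kap ν * (4 * (1 + A) ^ 2) / K := by
          gcongr
      _ = (12 * B1 * C₃) * kap ν * (1 + A) ^ 2 / K := by ring
      _ ≤ _ := by
          gcongr
          have : 0 ≤ 24 * Zs + 12 * B2c * Zs + C₁ := by positivity
          linarith
  linarith

end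

end Pool.Agent.H305.SL
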