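import Pool.Agent.H305.SL.Lce

/-!
The dissipation is small in small cylinders: choice of the parameters.
-/

set_option autoImplicit false

open MeasureTheory Set Metric Filter Topology
open scoped ContDiff ENNReal

namespace Pool.Agent.H305.SL

open H459R3.NS W221.NS Pool.Agent.V1183.PM Pool.Agent.H305.OS
open Pool.Agent.W583.MD (sm_pd pd_mul')
open Pool.Agent.W22.ME.TD (pd_comm)
open Pool.Agent.H305.TI (it it_nil it_cons it_sm J_it dt_it)

lemma pow_lim {κ : ℝ} (h0 : 0 < κ) (h1 : κ < 1) :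
    Tendsto (fun k : ℕ => κ ^ k * ((k : ℝ) + 1) ^ 2) atTop (𝓝 0) := by
  have h2 := tendsto_pow_const_mul_const_pow_of_abs_lt_one 2 (r := κ)
    (by rw [abs_of_pos h0]; exact h1)
  have h3 := (h2.comp (tendsto_add_atTop_nat 1)).const_mul κ⁻¹
  rw [mul_zero] at h3
  refine h3.congr fun k => ?_
  simp only [Function.comp]
  push_cast
  rw [pow_succ κ k]
  field_simp

section
variable {c a b : Fin 3} {ν T : ℝ} {u : ℝ → V → V} {p : ℝ → V → ℝ} {t₀ σ E A ε κ : ℝ}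
  {N : ℝ → ℝ≥0∞}

/-- The dissipation in small cylinders is small. -/
theorem P1.small (h : P1 ν T u p c t₀ σ E N A ε κ) (y : ℝ) {L θ : ℝ} (hL : 0 < L) (hθ : 0 < θ) :
    ∀ᶠ k : ℕ in atTop, t₀ ≤ T - (1 / 4) ^ k ∧ ∀ x₀ : V, x₀ c = y → ∀ s ∈ Ico (T - (1 / 4) ^ k / 4) T,
      ∫⁻ τ in Ioc (T - (1 / 4) ^ k / 4) s, ∫⁻ x in ball x₀ (L * (1 / 2) ^ k),
        ENNReal.ofReal (gw (cw u τ) x) ≤ ENNReal.ofReal (θ * (1 / 2) ^ k) := by
  obtain ⟨C, hC, hLE⟩ := LE_main
  obtain ⟨a, b, hT⟩ := exists_tri c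
  have hν := h.hν
  have hk := kap_pos ν
  have hA := h.A0
  have hκ0 := h.κ0
  have hκ1 := h.κ1
  have hε0 := h.ε0
  obtain ⟨R, hR⟩ : ∃ R : ℝ, R = ν * θ * Real.exp (-(L ^ 2 / (4 * ν))) / 2 := ⟨_, rfl⟩
  have hR0 : 0 < R := by
    rw [hR]
    have := Real.exp_pos (-(L ^ 2 / (4 * ν)))
    positivity
  -- the choice of K
  obtain ⟨D, hD⟩ : ∃ D : ℝ, D = C * ν * kap ν * A + C * kap ν * (1 + A) ^ 2 := ⟨_, rfl⟩
  have hD0 : 0 ≤ D := by rw [hD]; positivity
  obtain ⟨K, hK⟩ : ∃ K : ℝ, K = 1 + L + 4 * D / R := ⟨_, rfl⟩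
  have hK1 : 1 ≤ K := by
    rw [hK]
    have : 0 ≤ 4 * D / R := by positivity
    linarith
  have hKL : L ≤ K := by
    rw [hK]
    have : 0 ≤ 4 * D / R := by positivity
    linarith
  have q1 : C * ν * kap ν * A / K ^ 2 + C * kap ν * (1 + A) ^ 2 / K ≤ R / 4 := by
    have e1 : C * ν * kap ν * A / K ^ 2 ≤ C * ν * kap ν * A / K := by
      apply div_le_div_of_nonneg_left (by positivity) (by linarith)
      nlinarith
    have e2 : C * ν * kap ν * A / K + C * kap ν * (1 + A) ^ 2 / K = D / K := by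
      rw [hD]
      ring
    have e3 : D / K ≤ R / 4 := by
      rw [div_le_div_iff₀ (by linarith) (by norm_num)]
      have e4 : R * (4 * D / R) = 4 * D := by field_simp
      have e5 : R * K = R * (1 + L) + 4 * D := by
        rw [hK, mul_add, e4]
      nlinarith
    linarith
  -- the choice of M
  obtain ⟨M, hM⟩ : ∃ M : ℝ, M = 1 + 4 * (C * kap ν ^ 2 * A) / R := ⟨_, rfl⟩
  have hM1 : 1 ≤ M := by
    rw [hM]
    have : 0 ≤ 4 * (C * kap ν ^ 2 * A) / R := by positivity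
    linarith
  have q2 : C * kap ν ^ 2 * A / M ^ 2 ≤ R / 4 := by
    rw [div_le_div_iff₀ (by positivity) (by norm_num)]
    have e4 : R * (4 * (C * kap ν ^ 2 * A) / R) = 4 * (C * kap ν ^ 2 * A) := by field_simp
    have e5 : R * M = R + 4 * (C * kap ν ^ 2 * A) := by rw [hM, mul_add, e4, mul_one]
    have e6 : R * M ≤ R * M ^ 2 := by
      apply mul_le_mul_of_nonneg_left _ hR0.le
      nlinarith
    linarith
  -- the choice of η
  obtain ⟨η, hη⟩ : ∃ η : ℝ, η = (R / (96 * K)) ^ 2 / (4 * A * M + 1) := ⟨_, rfl⟩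
  have hη0 : 0 < η := by
    rw [hη]
    positivity
  have q3 : 24 * K * √(4 * A * M * η) ≤ R / 4 := by
    have e1 : 4 * A * M * η ≤ (R / (96 * K)) ^ 2 := by
      rw [hη, mul_div_assoc', div_le_iff₀ (by positivity)]
      have : 0 ≤ (R / (96 * K)) ^ 2 := by positivity
      nlinarith
    have e2 : √(4 * A * M * η) ≤ R / (96 * K) := by
      rw [← Real.sqrt_sq (by positivity : 0 ≤ R / (96 * K))]
      exact Real.sqrt_le_sqrt e1
    calc 24 * K * √(4 * A * M * η) ≤ 24 * K * (R / (96 * K)) := by gcongr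
      _ = R / 4 := by
          field_simp
          norm_num
  -- the choice of k
  have hlim : Tendsto (fun k : ℕ => C * (kap ν ^ 2 / ν) * A * (ε * κ ^ k * ((k : ℝ) + 1) ^ 2)) atTop
      (𝓝 0) := by
    have := (pow_lim hκ0 hκ1).const_mul (C * (kap ν ^ 2 / ν) * A * ε)
    rw [mul_zero] at this
    refine this.congr fun k => ?_
    ring
  have hev : ∀ᶠ k : ℕ in atTop, C * (kap ν ^ 2 / ν) * A * (ε * κ ^ k * ((k : ℝ) + 1) ^ 2) < R / 4 :=
    (tendsto_order.1 hlim).2 _ (by positivity)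
  filter_upwards [h.good y (M := 2 * M) (by positivity) hη0, hev] with k hg q4
  obtain ⟨hkT, t₁, ht₁, hsG⟩ := hg
  refine ⟨hkT, ?_⟩
  intro x₀ hx₀ s hs
  have h4 : 0 < ((1 : ℝ) / 4) ^ k := by positivity
  have hs1 : t₁ ≤ s := ht₁.2.le.trans hs.1
  have key := hLE c a b ν T u p t₀ σ E A ε κ N hT h K M η y k x₀ t₁ s hK1 (by linarith) hη0 hkT ht₁
    hsG hs1 hs.2
  obtain ⟨r, hr⟩ : ∃ r : ℝ, r = (1 / 2) ^ k := ⟨_, rfl⟩
  have hr0 : 0 < r := by rw [hr]; positivity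
  rw [pow4, ← hr] at key hkT ht₁ hs ⊢
  rw [← hr] at hsG
  have key2 : ENNReal.ofReal ν * (∫⁻ τ in Ioc t₁ s, ∫⁻ x, ENNReal.ofReal (gw (cw u τ) x)
      * ENNReal.ofReal (wg (hc a b x₀ (K * r)) ν c (T + r ^ 2) y τ x)) ≤ ENNReal.ofReal R := by
    refine key.trans (ENNReal.ofReal_le_ofReal ?_)
    linarith
  obtain ⟨e, he⟩ : ∃ e : ℝ, e = Real.exp (-(L ^ 2 / (4 * ν))) := ⟨_, rfl⟩
  have he0 : 0 < e := by rw [he]; exact Real.exp_pos _
  have low : ∀ τ ∈ Ioc (T - r ^ 2 / 4) s, ENNReal.ofReal ((2 * r)⁻¹ * e) *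
      (∫⁻ x in ball x₀ (L * r), ENNReal.ofReal (gw (cw u τ) x))
      ≤ ∫⁻ x, ENNReal.ofReal (gw (cw u τ) x)
        * ENNReal.ofReal (wg (hc a b x₀ (K * r)) ν c (T + r ^ 2) y τ x) := by
    intro τ hτ
    rw [← lintegral_const_mul' _ _ ENNReal.ofReal_ne_top]
    refine le_trans ?_ (setLIntegral_le_lintegral (ball x₀ (L * r)) _)
    apply setLIntegral_mono' measurableSet_ball
    intro x hx
    rw [mul_comm]
    gcongr
    rw [mem_ball, dist_pi_lt_iff (by positivity)] at hx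
    have hx1 : ∀ i, |x i - x₀ i| < L * r := fun i => by
      have := hx i
      rwa [Real.dist_eq] at this
    have hLK : L * r ≤ K * r := by gcongr
    have e1 : wg (hc a b x₀ (K * r)) ν c (T + r ^ 2) y τ x = gk ν ((T + r ^ 2) - τ) (x c - y) := by
      unfold wg
      rw [hc_one (by positivity) ((hx1 a).trans_le hLK) ((hx1 b).trans_le hLK), one_mul]
      rfl
    rw [e1, he]
    apply gk_low hν hr0
    · linarith [hτ.2, hs.2]
    · nlinarith [hτ.1]
    · have := hx1 c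
      rw [hx₀] at this
      exact this.le
  have h5 : ENNReal.ofReal (ν * ((2 * r)⁻¹ * e)) * (∫⁻ τ in Ioc (T - r ^ 2 / 4) s,
      ∫⁻ x in ball x₀ (L * r), ENNReal.ofReal (gw (cw u τ) x)) ≤ ENNReal.ofReal R := by
    refine le_trans ?_ key2
    rw [ENNReal.ofReal_mul hν.le, mul_assoc]
    refine mul_le_mul_right ?_ _
    rw [← lintegral_const_mul' _ _ ENNReal.ofReal_ne_top]
    refine (setLIntegral_mono' measurableSet_Ioc low).trans ?_
    exact lintegral_mono_set (Ioc_subset_Ioc_left ht₁.2.le)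
  refine (ofReal_cancel (by positivity) h5).trans (ENNReal.ofReal_le_ofReal (le_of_eq ?_))
  rw [hR, ← he]
  field_simp

end

end Pool.Agent.H305.SL
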