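import Pool.Agent.H305.SL.Sb

/-!
The local energy at good times, and the parts of the local energy inequality.
-/

set_option autoImplicit false

open MeasureTheory Set Metric Filter Topology
open scoped ContDiff ENNReal

namespace Pool.Agent.H305.SL

open H459R3.NS W221.NS Pool.Agent.V1183.PM Pool.Agent.H305.OS
open Pool.Agent.W583.MD (sm_pd pd_mul')
open Pool.Agent.W22.ME.TD (pd_comm)
open Pool.Agent.H305.TI (it it_nil it_cons it_sm J_it dt_it)

/-! ### The second derivative of the cut-off function -/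

lemma db1_sm : ContDiff ℝ ∞ (deriv b1) := (contDiff_infty_iff_deriv.1 b1_sm).2

lemma exists_B2 : ∃ B : ℝ, 1 ≤ B ∧ ∀ s, |deriv (deriv b1) s| ≤ B := by
  have hc : HasCompactSupport (deriv (deriv b1)) := b1_cs.deriv.deriv
  have hcont : Continuous (deriv (deriv b1)) := (contDiff_infty_iff_deriv.1 db1_sm).2.continuous
  obtain ⟨C, hC⟩ := hcont.bounded_above_of_compact_support hc
  exact ⟨max C 1, le_max_right _ _, fun y => (hC y).trans (le_max_left _ _)⟩

/-- The bound for the second derivative. -/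
noncomputable def B2c : ℝ := exists_B2.choose
lemma B2c_one : 1 ≤ B2c := exists_B2.choose_spec.1
lemma B2c_le (s : ℝ) : |deriv (deriv b1) s| ≤ B2c := exists_B2.choose_spec.2 s

section
variable {c a b : Fin 3} {y ρ : ℝ} {x₀ : V}

lemma pd_sc {g : ℝ → ℝ} (hg : ContDiff ℝ ∞ g) (y ρ : ℝ) (c m : Fin 3) (x : V) :
    pd m (fun x : V => g ((x c - y) / ρ)) x = if m = c then ρ⁻¹ * deriv g ((x c - y) / ρ) else 0 := by
  have hs : ContDiff ℝ ∞ (fun s : ℝ => g ((s - y) / ρ)) := hg.comp (by fun_prop)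
  have h1 := congrFun (pd_coord hs c m) x
  rw [h1]
  split_ifs with h
  · have h2 : HasDerivAt (fun s : ℝ => (s - y) / ρ) (1 / ρ) (x c) :=
      ((hasDerivAt_id _).sub_const y).div_const ρ
    have h3 : HasDerivAt g (deriv g ((x c - y) / ρ)) ((x c - y) / ρ) :=
      ((hg.differentiable (by simp)) _).hasDerivAt
    have h4 : HasDerivAt (g ∘ fun s : ℝ => (s - y) / ρ)
      (deriv g ((x c - y) / ρ) * (1 / ρ)) (x c) := HasDerivAt.comp (x c) h3 h2
    have h5 : deriv (fun s : ℝ => g ((s - y) / ρ)) (x c) = _ := h4.deriv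
    simp only
    rw [h5]
    ring
  · rfl

lemma pd2_ct (m : Fin 3) (x : V) : pd m (pd m (ct c y ρ)) x
    = if m = c then ρ⁻¹ * (ρ⁻¹ * deriv (deriv b1) ((x c - y) / ρ)) else 0 := by
  by_cases hm : m = c
  · rw [if_pos hm]
    have e1 : pd m (ct c y ρ) = fun x => ρ⁻¹ * deriv b1 ((x c - y) / ρ) := by
      funext x
      rw [pd_ct, if_pos hm]
    rw [e1]
    have hs : ContDiff ℝ ∞ fun x : V => deriv b1 ((x c - y) / ρ) := db1_sm.comp (by fun_prop)
    have e2 := congrFun (pd_cmul3 hs ρ⁻¹ m) x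
    rw [e2, pd_sc db1_sm, if_pos hm]
  · rw [if_neg hm]
    have e1 : pd m (ct c y ρ) = fun _ => 0 := by
      funext x
      rw [pd_ct, if_neg hm]
    rw [e1]
    unfold pd
    simp

lemma pd2_ct_le (hρ : 0 < ρ) (m : Fin 3) (x : V) : |pd m (pd m (ct c y ρ)) x| ≤ B2c / ρ ^ 2 := by
  have hB := B2c_one
  rw [pd2_ct]
  split_ifs
  · rw [abs_mul, abs_mul, abs_of_pos (inv_pos.2 hρ), ← mul_assoc, ← mul_inv, inv_mul_eq_div, ← sq]
    exact div_le_div_of_nonneg_right (B2c_le _) (by positivity)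
  · rw [abs_zero]
    positivity

/-- The horizontal cut-off function. -/
noncomputable def hc (a b : Fin 3) (x₀ : V) (ρ : ℝ) : V → ℝ := fun x =>
  ct a (x₀ a) ρ x * ct b (x₀ b) ρ x

lemma hc_BF (hρ : 0 < ρ) : BF (hc a b x₀ ρ) := UB.mul (ct_BF hρ) (ct_BF hρ)

lemma hc_nonneg (x : V) : 0 ≤ hc a b x₀ ρ x := mul_nonneg (ct_nonneg x) (ct_nonneg x)

lemma hc_le (x : V) : hc a b x₀ ρ x ≤ 1 := mul_le_one₀ (ct_le x) (ct_nonneg x) (ct_le x)

lemma pd_hc (m : Fin 3) (x : V) : pd m (hc a b x₀ ρ) x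
    = ct a (x₀ a) ρ x * pd m (ct b (x₀ b) ρ) x + pd m (ct a (x₀ a) ρ) x * ct b (x₀ b) ρ x :=
  pd_mul' ct_sm ct_sm m x

lemma pd_hc_c (hT : Tri c a b) (x : V) : pd c (hc a b x₀ ρ) x = 0 := by
  rw [pd_hc, pd_ct, pd_ct, if_neg hT.1, if_neg hT.2.1]
  ring

lemma pd_hc_le (hT : Tri c a b) (hρ : 0 < ρ) (m : Fin 3) (x : V) :
    |pd m (hc a b x₀ ρ) x| ≤ B1 / ρ := by
  have hB := B1_one
  have h0 : 0 ≤ B1 / ρ := by positivity
  rw [pd_hc]
  have e1 := pd_ct_le (c := a) (y := x₀ a) hρ m x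
  have e2 := pd_ct_le (c := b) (y := x₀ b) hρ m x
  by_cases hm : m = a
  · have : m ≠ b := fun h => hT.2.2 (hm ▸ h)
    have e3 : pd m (ct b (x₀ b) ρ) x = 0 := by rw [pd_ct, if_neg this]
    rw [e3, mul_zero, zero_add, abs_mul, abs_of_nonneg (ct_nonneg x)]
    calc |pd m (ct a (x₀ a) ρ) x| * ct b (x₀ b) ρ x ≤ B1 / ρ * 1 := by
          gcongr
          · exact ct_nonneg x
          · exact ct_le x
      _ = _ := mul_one _
  · have e3 : pd m (ct a (x₀ a) ρ) x = 0 := by rw [pd_ct, if_neg hm]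
    rw [e3, zero_mul, add_zero, abs_mul, abs_of_nonneg (ct_nonneg x)]
    calc ct a (x₀ a) ρ x * |pd m (ct b (x₀ b) ρ) x| ≤ 1 * (B1 / ρ) := by
          gcongr
          exact ct_le x
      _ = _ := one_mul _

lemma lp_hc_le (hT : Tri c a b) (hρ : 0 < ρ) (x : V) : |lp (hc a b x₀ ρ) x| ≤ 2 * B2c / ρ ^ 2 := by
  have hB := B2c_one
  have h0 : 0 ≤ B2c / ρ ^ 2 := by positivity
  have h1 : ∀ m, pd m (pd m (hc a b x₀ ρ)) x = ct a (x₀ a) ρ x * pd m (pd m (ct b (x₀ b) ρ)) x
      + 2 * (pd m (ct a (x₀ a) ρ) x * pd m (ct b (x₀ b) ρ) x)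
      + pd m (pd m (ct a (x₀ a) ρ)) x * ct b (x₀ b) ρ x := by
    intro m
    have e : pd m (hc a b x₀ ρ) = fun x => ct a (x₀ a) ρ x * pd m (ct b (x₀ b) ρ) x
      + pd m (ct a (x₀ a) ρ) x * ct b (x₀ b) ρ x := funext fun x => pd_hc m x
    have s1 : ContDiff ℝ ∞ (ct a (x₀ a) ρ) := ct_sm
    have s2 : ContDiff ℝ ∞ (ct b (x₀ b) ρ) := ct_sm
    have e' : pd m (fun x => ct a (x₀ a) ρ x * pd m (ct b (x₀ b) ρ) x
      + pd m (ct a (x₀ a) ρ) x * ct b (x₀ b) ρ x) x
      = pd m (fun x => ct a (x₀ a) ρ x * pd m (ct b (x₀ b) ρ) x) x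
        + pd m (fun x => pd m (ct a (x₀ a) ρ) x * ct b (x₀ b) ρ x) x :=
      pd_add2 ((s1.mul (sm_pd s2 m)).of_le (by norm_cast)) (((sm_pd s1 m).mul s2).of_le
        (by norm_cast)) m x
    rw [e, e', pd_mul' s1 (sm_pd s2 m), pd_mul' (sm_pd s1 m) s2]
    ring
  have h2 : ∀ m, pd m (ct a (x₀ a) ρ) x * pd m (ct b (x₀ b) ρ) x = 0 := by
    intro m
    rw [pd_ct, pd_ct]
    by_cases hm : m = a
    · have : m ≠ b := fun h => hT.2.2 (hm ▸ h)
      rw [if_neg this, mul_zero]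
    · rw [if_neg hm, zero_mul]
  have h3 : lp (hc a b x₀ ρ) x = ct a (x₀ a) ρ x * pd b (pd b (ct b (x₀ b) ρ)) x
      + pd a (pd a (ct a (x₀ a) ρ)) x * ct b (x₀ b) ρ x := by
    unfold OS.lp
    simp only [h1, h2, mul_zero, add_zero]
    rw [Finset.sum_add_distrib, ← Finset.mul_sum, ← Finset.sum_mul]
    congr 2
    · rw [Finset.sum_eq_single b]
      · intro m _ hm
        rw [pd2_ct, if_neg hm]
      · intro h
        exact absurd (Finset.mem_univ b) h
    · rw [Finset.sum_eq_single a]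
      · intro m _ hm
        rw [pd2_ct, if_neg hm]
      · intro h
        exact absurd (Finset.mem_univ a) h
  rw [h3]
  have e1 := pd2_ct_le (c := b) (y := x₀ b) hρ b x
  have e2 := pd2_ct_le (c := a) (y := x₀ a) hρ a x
  calc |ct a (x₀ a) ρ x * pd b (pd b (ct b (x₀ b) ρ)) x + pd a (pd a (ct a (x₀ a) ρ)) x * ct b (x₀ b) ρ x|
      ≤ ct a (x₀ a) ρ x * |pd b (pd b (ct b (x₀ b) ρ)) x|
        + |pd a (pd a (ct a (x₀ a) ρ)) x| * ct b (x₀ b) ρ x := by
        refine (abs_add_le _ _).trans (le_of_eq ?_)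
        rw [abs_mul, abs_mul, abs_of_nonneg (ct_nonneg x), abs_of_nonneg (ct_nonneg x)]
    _ ≤ 1 * (B2c / ρ ^ 2) + (B2c / ρ ^ 2) * 1 := by
        gcongr
        · exact ct_le x
        · exact ct_nonneg x
        · exact ct_le x
    _ = _ := by ring

lemma hc_one (hρ : 0 < ρ) {x : V} (ha : |x a - x₀ a| < ρ) (hb : |x b - x₀ b| < ρ) :
    hc a b x₀ ρ x = 1 := by
  unfold hc
  rw [ct_one hρ ha, ct_one hρ hb, one_mul]

lemma hc_out (hρ : 0 < ρ) {x : V} (h : ¬ (|x a - x₀ a| < 2 * ρ ∧ |x b - x₀ b| < 2 * ρ)) :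
    hc a b x₀ ρ x = 0 := by
  unfold hc
  by_cases ha : |x a - x₀ a| < 2 * ρ
  · have hb : ¬ |x b - x₀ b| < 2 * ρ := fun hb => h ⟨ha, hb⟩
    rw [ct_out (c := b) hρ hb, mul_zero]
  · rw [ct_out (c := a) hρ ha, zero_mul]

end

/-! ### Weights -/

section
variable {c a b : Fin 3} {y ν τ m r M : ℝ} {v : Fin 3 → V → ℝ} {x₀ : V}

lemma wt_int (hτ : 0 < τ) {F : V → ℝ≥0∞} (hF : Measurable F) (hm : 0 ≤ m)
    (h : ∀ y', ∫⁻ x in slb c y' (√τ), F x ≤ ENNReal.ofReal (m * √τ)) :
    ∫⁻ x, F x * ENNReal.ofReal (√τ / (τ + (x c - y) ^ 2)) ≤ ENNReal.ofReal (3 * Zs * m) := by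
  have h0 : 0 < √τ := Real.sqrt_pos.2 hτ
  have hZ := Zs_pos
  have h1 := cov_le (c := c) (y := y) h0 hF (φ := fun z => ENNReal.ofReal (√τ / (τ + z ^ 2)))
    (Φ := fun i : ℤ => ENNReal.ofReal ((3 / √τ) / (1 + (i : ℝ) ^ 2))) (by
      intro i z hi
      apply ENNReal.ofReal_le_ofReal
      have h2 := wt_i h0 i hi
      rw [Real.sq_sqrt hτ.le] at h2
      calc √τ / (τ + z ^ 2) = √τ * (1 / (τ + z ^ 2)) := by ring
        _ ≤ √τ * (3 / (τ * (1 + (i : ℝ) ^ 2))) := by gcongr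
        _ = _ := by
            nth_rewrite 2 [← Real.mul_self_sqrt hτ.le]
            field_simp) h
  refine h1.trans ?_
  rw [Zs_ofReal _ (by positivity), ← ENNReal.ofReal_mul (by positivity)]
  apply ENNReal.ofReal_le_ofReal
  apply le_of_eq
  field_simp

/-- The Gaussian tail. -/
lemma gk_tail (hν : 0 < ν) (hτ : 0 < τ) (hr : 0 < r) (hM : 0 < M) (h2 : τ ≤ 2 * r ^ 2) {z : ℝ}
    (hz : M * r ≤ |z|) : gk ν τ z ≤ 4 * kap ν ^ 2 / M ^ 2 * (√τ / (τ + z ^ 2)) := by
  have h0 : 0 < √τ := Real.sqrt_pos.2 hτ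
  have hk := kap_pos ν
  have hq : 0 < τ + z ^ 2 := by positivity
  refine (gk_le2 hν hτ).trans ?_
  have h3 : τ / (τ + z ^ 2) ≤ 2 / M ^ 2 := by
    rw [div_le_div_iff₀ hq (by positivity)]
    have h4 : (M * r) ^ 2 ≤ z ^ 2 := by
      rw [← sq_abs z]
      exact pow_le_pow_left₀ (by positivity) hz 2
    nlinarith [sq_nonneg M]
  calc 2 * kap ν ^ 2 * ((√τ)⁻¹ * (τ / (τ + z ^ 2)) ^ 2)
      = 2 * kap ν ^ 2 * ((√τ)⁻¹ * (τ / (τ + z ^ 2)) * (τ / (τ + z ^ 2))) := by ring
    _ ≤ 2 * kap ν ^ 2 * ((√τ)⁻¹ * (τ / (τ + z ^ 2)) * (2 / M ^ 2)) := by gcongr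
    _ = 4 * kap ν ^ 2 / M ^ 2 * (((√τ)⁻¹ * (√τ * √τ)) / (τ + z ^ 2)) := by
        rw [Real.mul_self_sqrt hτ.le]
        ring
    _ = _ := by rw [inv_mul_cancel_left₀ h0.ne']

/-- The local energy, from the energy and the dissipation in the slab. -/
lemma loc_en (hv : ∀ i, HF (v i)) (hT : Tri c a b) {ρ K' e d : ℝ} (hρ : 0 < ρ) (hK : 0 < K')
    (he : 0 ≤ e) (hd : 0 ≤ d) (h1 : sE v c y (2 * ρ) ≤ ENNReal.ofReal e)
    (h2 : sG v c y (2 * ρ) ≤ ENNReal.ofReal d) :
    ∫⁻ x in slb c y ρ, ENNReal.ofReal (nw v x) * ENNReal.ofReal (hc a b x₀ K' x)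
      ≤ ENNReal.ofReal (24 * K' * √(e * d)) := by
  have hb : ∀ i, ∫⁻ x in slb c y ρ, ENNReal.ofReal (v i x ^ 2) * ENNReal.ofReal (hc a b x₀ K' x)
      ≤ ENNReal.ofReal (8 * K' * √(e * d)) := by
    intro i
    obtain ⟨f, hf⟩ : ∃ f : V → ℝ, f = fun x => v i x * ct c y ρ x := ⟨_, rfl⟩
    have hF : HF f := by
      rw [hf]
      exact HF.mulB (hv i) (ct_BF hρ)
    have f1 : sqi f ≤ ENNReal.ofReal e := by
      refine le_trans ?_ h1
      unfold sqi sE
      rw [← lintegral_indicator slb_meas]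
      apply lintegral_mono
      intro x
      simp only
      by_cases hx : x ∈ slb c y (2 * ρ)
      · rw [indicator_of_mem hx]
        apply ENNReal.ofReal_le_ofReal
        rw [hf]
        simp only
        rw [mul_pow]
        have e1 : v i x ^ 2 ≤ nw v x := Finset.single_le_sum (f := fun i => v i x ^ 2)
          (fun i _ => sq_nonneg _) (Finset.mem_univ i)
        have e2 : ct c y ρ x ^ 2 ≤ 1 := pow_le_one₀ (ct_nonneg x) (ct_le x)
        calc v i x ^ 2 * ct c y ρ x ^ 2 ≤ v i x ^ 2 * 1 := by gcongr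
          _ ≤ _ := by linarith
      · rw [indicator_of_notMem hx, hf]
        simp only
        rw [ct_out hρ hx]
        simp
    have f2 : ∀ m, m ≠ c → sqi (pd m f) ≤ ENNReal.ofReal d := by
      intro m hm
      refine le_trans ?_ h2
      unfold sqi sG
      rw [← lintegral_indicator slb_meas]
      apply lintegral_mono
      intro x
      simp only
      have e0 : pd m f x = pd m (v i) x * ct c y ρ x := by
        rw [hf, pd_mul' (hv i).sm ct_sm, pd_ct, if_neg hm]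
        ring
      by_cases hx : x ∈ slb c y (2 * ρ)
      · rw [indicator_of_mem hx]
        apply ENNReal.ofReal_le_ofReal
        rw [e0, mul_pow]
        have e1 : pd m (v i) x ^ 2 ≤ gw v x := by
          unfold gw
          calc pd m (v i) x ^ 2 ≤ ∑ k, pd k (v i) x ^ 2 :=
                Finset.single_le_sum (f := fun k => pd k (v i) x ^ 2)
                  (fun i _ => sq_nonneg _) (Finset.mem_univ m)
            _ ≤ _ := Finset.single_le_sum (f := fun i => ∑ k, pd k (v i) x ^ 2)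
                  (fun i _ => Finset.sum_nonneg fun k _ => sq_nonneg _) (Finset.mem_univ i)
        have e2 : ct c y ρ x ^ 2 ≤ 1 := pow_le_one₀ (ct_nonneg x) (ct_le x)
        calc pd m (v i) x ^ 2 * ct c y ρ x ^ 2 ≤ pd m (v i) x ^ 2 * 1 := by gcongr
          _ ≤ _ := by linarith
      · rw [indicator_of_notMem hx, e0, ct_out hρ hx]
        simp
    have f3 := hF.II_two hT
    have f4 : II c a f 2 ≤ ENNReal.ofReal (4 * (e * d)) := by
      have : II c a f 2 ^ 2 ≤ ENNReal.ofReal (4 * (e * d)) ^ 2 := by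
        refine f3.trans ?_
        calc 16 * sqi f ^ 2 * (sqi (pd a f) * sqi (pd b f))
            ≤ 16 * ENNReal.ofReal e ^ 2 * (ENNReal.ofReal d * ENNReal.ofReal d) := by
              gcongr
              · exact f2 a hT.1.symm
              · exact f2 b hT.2.1.symm
          _ = _ := by
              rw [show (4 : ℝ) * (e * d) = 4 * e * d by ring, ENNReal.ofReal_mul (by positivity),
                ENNReal.ofReal_mul (by norm_num), show ENNReal.ofReal 4 = 4 by norm_num]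
              ring
      exact (ENNReal.pow_le_pow_left_iff two_ne_zero).1 this
    -- the box
    obtain ⟨Q, hQ⟩ : ∃ Q : Set (ℝ × ℝ), Q = Ioo (x₀ b - 2 * K') (x₀ b + 2 * K') ×ˢ
      Ioo (x₀ a - 2 * K') (x₀ a + 2 * K') := ⟨_, rfl⟩
    have mQ : MeasurableSet Q := by
      rw [hQ]
      exact measurableSet_Ioo.prod measurableSet_Ioo
    have vQ : volume Q = ENNReal.ofReal (4 * K') ^ 2 := by
      rw [hQ, Measure.volume_eq_prod, Measure.prod_prod, Real.volume_Ioo, Real.volume_Ioo, sq]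
      congr 2 <;> ring
    obtain ⟨o, ho⟩ : ∃ o : ℝ × ℝ → ℝ≥0∞, o = Q.indicator (fun _ => 1) := ⟨_, rfl⟩
    have mo : Measurable o := by
      rw [ho]
      exact measurable_const.indicator mQ
    have mH : Measurable fun x : V => ENNReal.ofReal (sqf f x) * o (x b, x a) := by
      have m1 : Measurable fun x : V => ENNReal.ofReal (sqf f x) :=
        hF.sqL.cont.measurable.ennreal_ofReal
      have m2 : Measurable fun x : V => ((x b, x a) : ℝ × ℝ) := by fun_prop
      exact m1.mul (mo.comp m2)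
    have g1 : ∫⁻ x in slb c y ρ, ENNReal.ofReal (v i x ^ 2) * ENNReal.ofReal (hc a b x₀ K' x)
        ≤ ∫⁻ x : V, ENNReal.ofReal (sqf f x) * o (x b, x a) := by
      rw [← lintegral_indicator slb_meas]
      apply lintegral_mono
      intro x
      simp only
      by_cases hx : x ∈ slb c y ρ
      · rw [indicator_of_mem hx]
        apply mul_le_mul'
        · apply ENNReal.ofReal_le_ofReal
          rw [hf]
          simp only [sqf]
          rw [ct_one hρ hx, mul_one, sq]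
        · by_cases hxQ : |x a - x₀ a| < 2 * K' ∧ |x b - x₀ b| < 2 * K'
          · have : ((x b, x a) : ℝ × ℝ) ∈ Q := by
              rw [hQ]
              have a1 := abs_lt.1 hxQ.1
              have a2 := abs_lt.1 hxQ.2
              exact ⟨⟨by linarith [a2.1], by linarith [a2.2]⟩, ⟨by linarith [a1.1], by linarith [a1.2]⟩⟩
            rw [ho, indicator_of_mem this, ← ENNReal.ofReal_one]
            exact ENNReal.ofReal_le_ofReal (hc_le x)
          · rw [hc_out hK hxQ]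
            simp
      · rw [indicator_of_notMem hx]
        exact zero_le
    refine g1.trans ?_
    rw [hT.fub2 mH]
    have g2 : ∀ z : ℝ × ℝ, ∫⁻ s, ENNReal.ofReal (sqf f (pt c a s z.2 z.1)) *
        o (pt c a s z.2 z.1 b, pt c a s z.2 z.1 a)
        = Q.indicator (fun z => ENNReal.ofReal (sl c a (sqf f) z.2 z.1)) z := by
      intro z
      have e1 : ∀ s, ((pt c a s z.2 z.1 b, pt c a s z.2 z.1 a) : ℝ × ℝ) = z := by
        intro s
        unfold pt
        rw [if_neg hT.2.1.symm, if_neg hT.2.2.symm, if_neg hT.1.symm, if_pos rfl]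
      simp only [e1]
      by_cases hz : z ∈ Q
      · have e2 : o z = 1 := by rw [ho, indicator_of_mem hz]
        simp only [e2, mul_one]
        rw [indicator_of_mem hz]
        exact (hF.sqL.sl_ofReal hT (sqf_nonneg f) z.2 z.1).symm
      · have e2 : o z = 0 := by rw [ho, indicator_of_notMem hz]
        simp only [e2, mul_zero, lintegral_zero]
        rw [indicator_of_notMem hz]
    simp only [g2]
    rw [lintegral_indicator mQ]
    have mS : Measurable fun z : ℝ × ℝ => ENNReal.ofReal (sl c a (sqf f) z.2 z.1) :=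
      (sl_meas hF.sqL.cont c a).ennreal_ofReal
    have g3 := csE (μ := volume.restrict Q) (f := fun _ => 1) (g := fun z : ℝ × ℝ =>
      ENNReal.ofReal (sl c a (sqf f) z.2 z.1)) aemeasurable_const mS.aemeasurable
    simp only [one_mul, one_pow, setLIntegral_one] at g3
    refine g3.trans ?_
    have g4 : ∫⁻ z in Q, ENNReal.ofReal (sl c a (sqf f) z.2 z.1) ^ 2 ≤ ENNReal.ofReal (4 * (e * d)) := by
      refine le_trans ?_ f4
      unfold II
      refine (setLIntegral_le_lintegral _ _).trans (le_of_eq ?_)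
      apply lintegral_congr
      intro z
      rw [Real.rpow_two, ENNReal.ofReal_pow (sl_nonneg (sqf_nonneg f) _ _)]
    calc volume Q ^ (1 / 2 : ℝ) * (∫⁻ z in Q, ENNReal.ofReal (sl c a (sqf f) z.2 z.1) ^ 2) ^ (1 / 2 : ℝ)
        ≤ (ENNReal.ofReal (4 * K') ^ 2) ^ (1 / 2 : ℝ) * ENNReal.ofReal (4 * (e * d)) ^ (1 / 2 : ℝ) := by
          rw [vQ]
          gcongr
      _ = ENNReal.ofReal (4 * K') * ENNReal.ofReal (2 * √(e * d)) := by
          congr 1
          · rw [← ENNReal.rpow_natCast, ← ENNReal.rpow_mul]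
            norm_num
          · rw [ENNReal.ofReal_rpow_of_nonneg (by positivity) (by norm_num), ← Real.sqrt_eq_rpow,
              show (4 : ℝ) * (e * d) = 2 ^ 2 * (e * d) by ring, Real.sqrt_mul (by norm_num),
              Real.sqrt_sq (by norm_num)]
      _ = _ := by
          rw [← ENNReal.ofReal_mul (by positivity)]
          congr 1
          ring
  have mv : ∀ i, Measurable (v i) := fun i => (hv i).sm.continuous.measurable
  have mh : Measurable (hc a b x₀ K') := (hc_BF hK).sm.continuous.measurable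
  calc ∫⁻ x in slb c y ρ, ENNReal.ofReal (nw v x) * ENNReal.ofReal (hc a b x₀ K' x)
      = ∑ i, ∫⁻ x in slb c y ρ, ENNReal.ofReal (v i x ^ 2) * ENNReal.ofReal (hc a b x₀ K' x) := by
        rw [← lintegral_finsetSum]
        · apply lintegral_congr
          intro x
          rw [← Finset.sum_mul, ← ENNReal.ofReal_sum_of_nonneg fun i _ => sq_nonneg _]
          rfl
        · intro i _
          exact ((mv i).pow_const 2).ennreal_ofReal.mul mh.ennreal_ofReal
    _ ≤ ∑ _i : Fin 3, ENNReal.ofReal (8 * K' * √(e * d)) := Finset.sum_le_sum fun i _ => hb i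
    _ = _ := by
        rw [Finset.sum_const, Finset.card_univ, Fintype.card_fin, nsmul_eq_mul,
          show ((3 : ℕ) : ℝ≥0∞) = ENNReal.ofReal 3 by norm_num, ← ENNReal.ofReal_mul (by norm_num)]
        congr 1
        ring

end

end Pool.Agent.H305.SL
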