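import Pool.Agent.H305.SL.Gau

/-!
Multipliers, slabs and cut-off functions.
-/

set_option autoImplicit false

open MeasureTheory Set Metric Filter Topology
open scoped ContDiff ENNReal

namespace Pool.Agent.H305.SL

open H459R3.NS W221.NS Pool.Agent.V1183.PM Pool.Agent.H305.OS
open Pool.Agent.W583.MD (sm_pd pd_mul')
open Pool.Agent.W22.ME.TD (pd_comm)
open Pool.Agent.H305.TI (it it_nil it_cons it_sm J_it dt_it)

/-! ### Translations -/

section
variable {f g : V → ℝ}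

lemma pd_tr (hf : ContDiff ℝ ∞ f) (z : V) (m : Fin 3) :
    pd m (fun x => f (x + z)) = fun x => pd m f (x + z) := by
  funext x
  unfold H459R3.NS.pd
  rw [fderiv_comp_add_right]

lemma it_tr (l : List (Fin 3)) (z : V) : ∀ {f : V → ℝ}, ContDiff ℝ ∞ f →
    it l (fun x => f (x + z)) = fun x => it l f (x + z) := by
  induction l with
  | nil => intro f _; rfl
  | cons i l ih =>
    intro f hf
    rw [it_cons, it_cons, pd_tr hf z i]
    exact ih (sm_pd hf i)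

lemma HFtr (hf : HF f) (z : V) : HF (fun x => f (x + z)) := by
  refine ⟨fun _ _ => hf.sm.comp (by fun_prop), fun l => ?_⟩
  obtain ⟨C, hC, h1⟩ := hf.bd l
  refine ⟨C, hC, fun _ _ => ?_⟩
  rw [it_tr l z hf.sm]
  refine ⟨fun x => (h1 0 (mem_univ _)).1 _, ?_⟩
  have h2 := (h1 0 (mem_univ _)).2
  unfold sqi at h2 ⊢
  rwa [lintegral_add_right_eq_self (fun x => ENNReal.ofReal (it l f x ^ 2)) z]

end

/-! ### Cut-off functions -/

/-- The cut-off function of one variable. -/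
noncomputable def b1 (s : ℝ) : ℝ := Real.smoothTransition ((4 - s ^ 2) / 3)

lemma b1_sm : ContDiff ℝ ∞ b1 := Real.smoothTransition.contDiff.comp (by fun_prop)
lemma b1_nonneg (s : ℝ) : 0 ≤ b1 s := Real.smoothTransition.nonneg _
lemma b1_le (s : ℝ) : b1 s ≤ 1 := Real.smoothTransition.le_one _
lemma b1_one {s : ℝ} (h : |s| ≤ 1) : b1 s = 1 := by
  apply Real.smoothTransition.one_of_one_le
  have : s ^ 2 ≤ 1 := by
    rw [← sq_abs]
    exact pow_le_one₀ (abs_nonneg _) h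
  linarith
lemma b1_zero {s : ℝ} (h : 2 ≤ |s|) : b1 s = 0 := by
  apply Real.smoothTransition.zero_of_nonpos
  have : 4 ≤ s ^ 2 := by
    rw [← sq_abs]
    nlinarith
  linarith

lemma b1_cs : HasCompactSupport b1 := by
  apply HasCompactSupport.of_support_subset_isCompact (isCompact_Icc (a := -2) (b := 2))
  intro s hs
  by_contra h
  apply hs
  apply b1_zero
  rw [mem_Icc, ← abs_le, not_le] at h
  exact h.le

lemma exists_B1 : ∃ B : ℝ, 1 ≤ B ∧ ∀ s, |deriv b1 s| ≤ B := by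
  have h1 : Continuous (deriv b1) := b1_sm.continuous_deriv (by simp)
  obtain ⟨C, hC⟩ := h1.bounded_above_of_compact_support b1_cs.deriv
  exact ⟨max C 1, le_max_right _ _, fun y => (hC y).trans (le_max_left _ _)⟩

/-- The bound for the derivative. -/
noncomputable def B1 : ℝ := exists_B1.choose
lemma B1_one : 1 ≤ B1 := exists_B1.choose_spec.1
lemma B1_le (s : ℝ) : |deriv b1 s| ≤ B1 := exists_B1.choose_spec.2 s

lemma deriv_b1_zero {s : ℝ} (h : 2 < |s|) : deriv b1 s = 0 := by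
  have h1 : b1 =ᶠ[𝓝 s] fun _ => 0 := by
    have : {s : ℝ | 2 < |s|} ∈ 𝓝 s := (isOpen_lt continuous_const continuous_abs).mem_nhds h
    filter_upwards [this] with z hz
    exact b1_zero (le_of_lt hz)
  rw [h1.deriv_eq]
  simp

/-- The cut-off function in the coordinate `c`. -/
noncomputable def ct (c : Fin 3) (y ρ : ℝ) : V → ℝ := fun x => b1 ((x c - y) / ρ)

section
variable {c : Fin 3} {y ρ : ℝ}

lemma ct1_sm (y ρ : ℝ) : ContDiff ℝ ∞ (fun s : ℝ => b1 ((s - y) / ρ)) :=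
  b1_sm.comp (by fun_prop)

lemma ct_sm : ContDiff ℝ ∞ (ct c y ρ) := (ct1_sm y ρ).comp (contDiff_apply ℝ ℝ c)

lemma ct_nonneg (x : V) : 0 ≤ ct c y ρ x := b1_nonneg _
lemma ct_le (x : V) : ct c y ρ x ≤ 1 := b1_le _

lemma pd_ct (m : Fin 3) (x : V) : pd m (ct c y ρ) x
    = if m = c then ρ⁻¹ * deriv b1 ((x c - y) / ρ) else 0 := by
  have h1 := congrFun (pd_coord (ct1_sm y ρ) c m) x
  unfold ct
  rw [h1]
  split_ifs with h
  · have h2 : HasDerivAt (fun s : ℝ => (s - y) / ρ) (1 / ρ) (x c) :=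
      ((hasDerivAt_id _).sub_const y).div_const ρ
    have h3 : HasDerivAt b1 (deriv b1 ((x c - y) / ρ)) ((x c - y) / ρ) :=
      ((b1_sm.differentiable (by simp)) _).hasDerivAt
    have h4 : HasDerivAt (b1 ∘ fun s : ℝ => (s - y) / ρ)
      (deriv b1 ((x c - y) / ρ) * (1 / ρ)) (x c) := HasDerivAt.comp (x c) h3 h2
    have h5 : deriv (fun s : ℝ => b1 ((s - y) / ρ)) (x c) = _ := h4.deriv
    simp only
    rw [h5]
    ring
  · rfl

lemma pd_ct_le (hρ : 0 < ρ) (m : Fin 3) (x : V) : |pd m (ct c y ρ) x| ≤ B1 / ρ := by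
  have hB := B1_one
  rw [pd_ct]
  split_ifs
  · rw [abs_mul, abs_of_pos (inv_pos.2 hρ), inv_mul_eq_div]
    exact div_le_div_of_nonneg_right (B1_le _) hρ.le
  · rw [abs_zero]
    positivity

/-- The slab. -/
def slb (c : Fin 3) (y ρ : ℝ) : Set V := {x | |x c - y| < ρ}

lemma slb_meas : MeasurableSet (slb c y ρ) := by
  unfold slb
  exact measurableSet_lt (by fun_prop) measurable_const

lemma slb_mono {ρ' : ℝ} (h : ρ ≤ ρ') : slb c y ρ ⊆ slb c y ρ' := fun x hx => lt_of_lt_of_le hx h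

lemma ct_one (hρ : 0 < ρ) {x : V} (hx : x ∈ slb c y ρ) : ct c y ρ x = 1 := by
  apply b1_one
  rw [abs_div, abs_of_pos hρ, div_le_one hρ]
  exact le_of_lt hx

lemma ct_out (hρ : 0 < ρ) {x : V} (hx : x ∉ slb c y (2 * ρ)) : ct c y ρ x = 0 := by
  apply b1_zero
  rw [abs_div, abs_of_pos hρ, le_div_iff₀ hρ]
  exact not_lt.1 hx

lemma pd_ct_out (hρ : 0 < ρ) (m : Fin 3) {x : V} (hx : x ∉ slb c y (3 * ρ)) :
    pd m (ct c y ρ) x = 0 := by
  rw [pd_ct]
  split_ifs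
  · rw [deriv_b1_zero, mul_zero]
    rw [abs_div, abs_of_pos hρ, lt_div_iff₀ hρ]
    have : 3 * ρ ≤ |x c - y| := not_lt.1 hx
    linarith
  · rfl

lemma BF_coord (c : Fin 3) : ∀ {g : ℝ → ℝ}, ContDiff ℝ ∞ g → HasCompactSupport g →
    BF (fun x => g (x c)) := by
  have h1 : ∀ l : List (Fin 3), ∀ {g : ℝ → ℝ}, ContDiff ℝ ∞ g → HasCompactSupport g →
      ∃ C : ℝ, 0 ≤ C ∧ ∀ x : V, |it l (fun x => g (x c)) x| ≤ C := by
    intro l
    induction l with
    | nil =>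
      intro g hg hc
      obtain ⟨C, hC⟩ := hg.continuous.bounded_above_of_compact_support hc
      exact ⟨max C 0, le_max_right _ _, fun y => (hC _).trans (le_max_left _ _)⟩
    | cons i l ih =>
      intro g hg hc
      rw [it_cons, pd_coord hg]
      split_ifs
      · exact ih ((contDiff_infty_iff_deriv.1 hg).2) hc.deriv
      · rw [it_zero']
        exact ⟨0, le_rfl, fun x => by simp⟩
  intro g hg hc
  refine ⟨fun _ _ => hg.comp (contDiff_apply ℝ ℝ c), fun l => ?_⟩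
  obtain ⟨C, hC, h2⟩ := h1 l hg hc
  exact ⟨C, hC, fun _ _ => h2⟩

lemma ct_BF (hρ : 0 < ρ) : BF (ct c y ρ) := by
  apply BF_coord c (ct1_sm y ρ)
  apply HasCompactSupport.of_support_subset_isCompact (isCompact_Icc (a := y - 2 * ρ) (b := y + 2 * ρ))
  intro s hs
  by_contra h
  apply hs
  apply b1_zero
  rw [abs_div, abs_of_pos hρ, le_div_iff₀ hρ]
  by_contra h3
  rw [not_le, abs_lt] at h3
  exact h ⟨by linarith [h3.1], by linarith [h3.2]⟩

end

/-! ### Multipliers -/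

/-- `w` is a multiplier with norm `N`. -/
def MU (σ : ℝ) (N : ℝ≥0∞) (w : V → ℝ) : Prop := ∀ F : V → ℝ, HF F →
  ∫⁻ x, ENNReal.ofReal (w x ^ 2 * F x ^ 2) ≤
    N ^ 2 * (sqi F ^ (1 - 2 * σ) * (∑ k, sqi (pd k F)) ^ (2 * σ))

lemma ofReal_mul_abs (a b : ℝ) : ENNReal.ofReal (|a| * |b|) ^ 2 = ENNReal.ofReal (a ^ 2) * ENNReal.ofReal (b ^ 2) := by
  rw [← ENNReal.ofReal_pow (by positivity), ← ENNReal.ofReal_mul (sq_nonneg a), mul_pow, sq_abs, sq_abs]

lemma sqrt_le_rpow {x A : ℝ≥0∞} (h : x ^ 2 ≤ A) : x ≤ A ^ (1 / 2 : ℝ) := by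
  have h1 := ENNReal.rpow_le_rpow h (by norm_num : (0 : ℝ) ≤ 1 / 2)
  rwa [← ENNReal.rpow_natCast, ← ENNReal.rpow_mul, show ((2 : ℕ) : ℝ) * (1 / 2) = 1 by norm_num,
    ENNReal.rpow_one] at h1

section
variable {σ : ℝ} {N : ℝ≥0∞} {w : V → ℝ} {v : Fin 3 → V → ℝ} {χ : V → ℝ} {B : ℝ} {S : Set V}

/-- The localised field. -/
lemma loc_aux (hv : ∀ i, HF (v i)) (hχ : BF χ) (h1 : ∀ x, |χ x| ≤ 1)
    (hB : ∀ m x, |pd m χ x| ≤ B) (hS : MeasurableSet S) (h2 : ∀ x ∉ S, χ x = 0)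
    (h3 : ∀ m, ∀ x ∉ S, pd m χ x = 0) (z : V) (i : Fin 3) :
    HF (fun x => v i (x + z) * χ x) ∧
    sqi (fun x => v i (x + z) * χ x) ≤ ∫⁻ x in S, ENNReal.ofReal (nw v (x + z)) ∧
    ∑ k, sqi (pd k (fun x => v i (x + z) * χ x)) ≤ 6 * ((∫⁻ x in S, ENNReal.ofReal (gw v (x + z)))
      + ENNReal.ofReal (B ^ 2) * ∫⁻ x in S, ENNReal.ofReal (nw v (x + z))) := by
  have hF := HF.mulB (HFtr (hv i) z) hχ
  have hn : ∀ x, v i x ^ 2 ≤ nw v x := fun x => Finset.single_le_sum (f := fun i => v i x ^ 2)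
      (fun i _ => sq_nonneg _) (Finset.mem_univ i)
  refine ⟨hF, ?_, ?_⟩
  · unfold sqi
    rw [← lintegral_indicator hS]
    apply lintegral_mono
    intro x
    simp only
    by_cases hx : x ∈ S
    · rw [indicator_of_mem hx]
      apply ENNReal.ofReal_le_ofReal
      rw [mul_pow]
      have a1 : χ x ^ 2 ≤ 1 := by
        rw [← sq_abs]
        exact pow_le_one₀ (abs_nonneg _) (h1 x)
      calc v i (x + z) ^ 2 * χ x ^ 2 ≤ v i (x + z) ^ 2 * 1 :=
            mul_le_mul_of_nonneg_left a1 (sq_nonneg _)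
        _ ≤ _ := by rw [mul_one]; exact hn _
    · rw [h2 x hx]
      simp
  · have e1 : ∀ k, pd k (fun x => v i (x + z) * χ x)
        = fun x => v i (x + z) * pd k χ x + pd k (v i) (x + z) * χ x := by
      intro k
      funext x
      rw [pd_mul' (HFtr (hv i) z).sm hχ.sm k x, pd_tr (hv i).sm]
    have h4 : ∀ k, sqi (pd k (fun x => v i (x + z) * χ x)) ≤
        2 * (ENNReal.ofReal (B ^ 2) * ∫⁻ x in S, ENNReal.ofReal (nw v (x + z)))
          + 2 * ∫⁻ x in S, ENNReal.ofReal (pd k (v i) (x + z) ^ 2) := by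
      intro k
      rw [e1 k]
      have m1 : Measurable fun x => v i (x + z) * pd k χ x :=
        ((HFtr (hv i) z).sm.continuous.mul (sm_pd hχ.sm k).continuous).measurable
      have m2 : Measurable fun x => pd k (v i) (x + z) * χ x :=
        ((HFtr ((hv i).pd k) z).sm.continuous.mul hχ.sm.continuous).measurable
      refine (sqi_add_le m1 m2).trans ?_
      gcongr
      · unfold sqi
        rw [← lintegral_const_mul' _ _ ENNReal.ofReal_ne_top, ← lintegral_indicator hS]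
        apply lintegral_mono
        intro x
        simp only
        by_cases hx : x ∈ S
        · rw [indicator_of_mem hx, ← ENNReal.ofReal_mul (sq_nonneg B)]
          apply ENNReal.ofReal_le_ofReal
          rw [mul_pow, mul_comm]
          apply mul_le_mul _ (hn _) (sq_nonneg _) (sq_nonneg _)
          rw [← sq_abs]
          exact pow_le_pow_left₀ (abs_nonneg _) (hB k x) 2
        · rw [h3 k x hx]
          simp
      · unfold sqi
        rw [← lintegral_indicator hS]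
        apply lintegral_mono
        intro x
        simp only
        by_cases hx : x ∈ S
        · rw [indicator_of_mem hx]
          apply ENNReal.ofReal_le_ofReal
          rw [mul_pow]
          have a1 : χ x ^ 2 ≤ 1 := by
            rw [← sq_abs]
            exact pow_le_one₀ (abs_nonneg _) (h1 x)
          nlinarith [sq_nonneg (pd k (v i) (x + z))]
        · rw [h2 x hx]
          simp
    have h5 : ∑ k, ∫⁻ x in S, ENNReal.ofReal (pd k (v i) (x + z) ^ 2)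
        ≤ ∫⁻ x in S, ENNReal.ofReal (gw v (x + z)) := by
      have mm : ∀ k, Measurable fun x => ENNReal.ofReal (pd k (v i) (x + z) ^ 2) := fun k =>
        (ENNReal.continuous_ofReal.comp ((HFtr ((hv i).pd k) z).sm.continuous.pow 2)).measurable
      rw [← lintegral_finsetSum _ fun k _ => mm k]
      apply lintegral_mono
      intro x
      simp only
      rw [← ENNReal.ofReal_sum_of_nonneg fun k _ => sq_nonneg _]
      apply ENNReal.ofReal_le_ofReal
      exact Finset.single_le_sum (f := fun i => ∑ k, pd k (v i) (x + z) ^ 2)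
        (fun i _ => Finset.sum_nonneg fun _ _ => sq_nonneg _) (Finset.mem_univ i)
    calc ∑ k, sqi (pd k (fun x => v i (x + z) * χ x))
        ≤ ∑ k, (2 * (ENNReal.ofReal (B ^ 2) * ∫⁻ x in S, ENNReal.ofReal (nw v (x + z)))
          + 2 * ∫⁻ x in S, ENNReal.ofReal (pd k (v i) (x + z) ^ 2)) :=
          Finset.sum_le_sum fun k _ => h4 k
      _ = 6 * (ENNReal.ofReal (B ^ 2) * ∫⁻ x in S, ENNReal.ofReal (nw v (x + z)))
          + 2 * ∑ k, ∫⁻ x in S, ENNReal.ofReal (pd k (v i) (x + z) ^ 2) := by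
          rw [Finset.sum_add_distrib, Finset.mul_sum]
          simp only [Finset.sum_const, Finset.card_univ, Fintype.card_fin, nsmul_eq_mul]
          rw [← mul_assoc]
          norm_num
      _ ≤ 6 * (ENNReal.ofReal (B ^ 2) * ∫⁻ x in S, ENNReal.ofReal (nw v (x + z)))
          + 6 * ∫⁻ x in S, ENNReal.ofReal (gw v (x + z)) := by
          gcongr
          norm_num
      _ = _ := by
          rw [← mul_add, add_comm]

/-- The Cauchy–Schwarz inequality. -/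
lemma csE {X : Type*} [MeasurableSpace X] {μ : Measure X} {f g : X → ℝ≥0∞}
    (hf : AEMeasurable f μ) (hg : AEMeasurable g μ) :
    ∫⁻ x, f x * g x ∂μ ≤ (∫⁻ x, f x ^ 2 ∂μ) ^ (1 / 2 : ℝ) * (∫⁻ x, g x ^ 2 ∂μ) ^ (1 / 2 : ℝ) := by
  have := ENNReal.lintegral_mul_le_Lp_mul_Lq μ Real.HolderConjugate.two_two hf hg
  simpa using this

/-- The local energy and dissipation. -/
lemma mul_sq (hN : MU σ N w) (hv : ∀ i, HF (v i)) (hχ : BF χ) (h1 : ∀ x, |χ x| ≤ 1)
    (hB : ∀ m x, |pd m χ x| ≤ B) (hS : MeasurableSet S) (h2 : ∀ x ∉ S, χ x = 0)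
    (h3 : ∀ m, ∀ x ∉ S, pd m χ x = 0) (hw : Continuous w) (hσ0 : 0 ≤ σ) (hσ : σ ≤ 1 / 2) (z : V) :
    ∫⁻ x, ENNReal.ofReal (w x ^ 2 * χ x ^ 2 * nw v (x + z)) ≤
      18 * (N ^ 2 * ((∫⁻ x in S, ENNReal.ofReal (nw v (x + z))) ^ (1 - 2 * σ)
        * ((∫⁻ x in S, ENNReal.ofReal (gw v (x + z)))
      + ENNReal.ofReal (B ^ 2) * ∫⁻ x in S, ENNReal.ofReal (nw v (x + z))) ^ (2 * σ))) := by
  obtain ⟨a, ha⟩ : ∃ a, a = ∫⁻ x in S, ENNReal.ofReal (nw v (x + z)) := ⟨_, rfl⟩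
  obtain ⟨D, hD⟩ : ∃ D, D = (∫⁻ x in S, ENNReal.ofReal (gw v (x + z)))
      + ENNReal.ofReal (B ^ 2) * ∫⁻ x in S, ENNReal.ofReal (nw v (x + z)) := ⟨_, rfl⟩
  have k1 : ∀ x, ENNReal.ofReal (w x ^ 2 * χ x ^ 2 * nw v (x + z))
      = ∑ i, ENNReal.ofReal (w x ^ 2 * (v i (x + z) * χ x) ^ 2) := by
    intro x
    rw [← ENNReal.ofReal_sum_of_nonneg fun i _ => by positivity]
    congr 1
    unfold nw
    rw [Finset.mul_sum]
    apply Finset.sum_congr rfl
    intro i _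
    ring
  simp only [k1]
  have k2 : ∀ i, Measurable fun x => ENNReal.ofReal (w x ^ 2 * (v i (x + z) * χ x) ^ 2) := fun i =>
    (ENNReal.continuous_ofReal.comp ((hw.pow 2).mul
      (((HFtr (hv i) z).sm.continuous.mul hχ.sm.continuous).pow 2))).measurable
  rw [lintegral_finsetSum _ fun i _ => k2 i, ← hD, ← ha]
  have k3 : ∀ i, ∫⁻ x, ENNReal.ofReal (w x ^ 2 * (v i (x + z) * χ x) ^ 2)
      ≤ 6 * (N ^ 2 * (a ^ (1 - 2 * σ) * D ^ (2 * σ))) := by
    intro i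
    obtain ⟨c1, c2, c3⟩ := loc_aux hv hχ h1 hB hS h2 h3 z i
    rw [← ha, ← hD] at *
    refine (hN _ c1).trans ?_
    have e1 : sqi (fun x => v i (x + z) * χ x) ^ (1 - 2 * σ) ≤ a ^ (1 - 2 * σ) :=
      ENNReal.rpow_le_rpow c2 (by linarith)
    have e2 : (∑ k, sqi (pd k (fun x => v i (x + z) * χ x))) ^ (2 * σ) ≤ 6 * D ^ (2 * σ) := by
      refine (ENNReal.rpow_le_rpow c3 (by linarith)).trans ?_
      rw [ENNReal.mul_rpow_of_nonneg _ _ (by linarith)]
      gcongr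
      calc (6 : ℝ≥0∞) ^ (2 * σ) ≤ 6 ^ (1 : ℝ) :=
            ENNReal.rpow_le_rpow_of_exponent_le (by norm_num) (by linarith)
        _ = 6 := ENNReal.rpow_one _
    calc N ^ 2 * (sqi (fun x => v i (x + z) * χ x) ^ (1 - 2 * σ)
          * (∑ k, sqi (pd k (fun x => v i (x + z) * χ x))) ^ (2 * σ))
        ≤ N ^ 2 * (a ^ (1 - 2 * σ) * (6 * D ^ (2 * σ))) := by gcongr
      _ = _ := by ring
  calc ∑ i, ∫⁻ x, ENNReal.ofReal (w x ^ 2 * (v i (x + z) * χ x) ^ 2)
      ≤ ∑ _i : Fin 3, 6 * (N ^ 2 * (a ^ (1 - 2 * σ) * D ^ (2 * σ))) :=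
        Finset.sum_le_sum fun i _ => k3 i
    _ = _ := by
      simp only [Finset.sum_const, Finset.card_univ, Fintype.card_fin, nsmul_eq_mul]
      rw [← mul_assoc]
      norm_num

lemma nw_cont (hv : ∀ i, HF (v i)) : Continuous (nw v) := by
  unfold nw
  exact continuous_finsetSum _ fun i _ => (hv i).sm.continuous.pow 2

lemma gw_cont (hv : ∀ i, HF (v i)) : Continuous (gw v) := by
  unfold gw
  exact continuous_finsetSum _ fun i _ => continuous_finsetSum _ fun k _ =>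
    ((hv i).pd k).sm.continuous.pow 2

lemma rpow_half_pair (a D : ℝ≥0∞) :
    (18 * (N ^ 2 * (a ^ (1 - 2 * σ) * D ^ (2 * σ)))) ^ (1 / 2 : ℝ)
      ≤ 18 * (N * (a ^ ((1 - 2 * σ) / 2) * D ^ σ)) := by
  rw [ENNReal.mul_rpow_of_nonneg _ _ (by norm_num), ENNReal.mul_rpow_of_nonneg _ _ (by norm_num),
    ENNReal.mul_rpow_of_nonneg _ _ (by norm_num), ← ENNReal.rpow_mul, ← ENNReal.rpow_mul,
    ← ENNReal.rpow_natCast, ← ENNReal.rpow_mul]
  have e1 : ((2 : ℕ) : ℝ) * (1 / 2) = 1 := by norm_num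
  have e2 : (1 - 2 * σ) * (1 / 2) = (1 - 2 * σ) / 2 := by ring
  have e3 : 2 * σ * (1 / 2) = σ := by ring
  rw [e1, e2, e3, ENNReal.rpow_one]
  gcongr
  calc (18 : ℝ≥0∞) ^ (1 / 2 : ℝ) ≤ 18 ^ (1 : ℝ) :=
        ENNReal.rpow_le_rpow_of_exponent_le (by norm_num) (by norm_num)
    _ = 18 := ENNReal.rpow_one _

/-- The pairing with the near part of the pressure. -/
lemma TA (hN : MU σ N w) (hv : ∀ i, HF (v i)) (hχ : BF χ) (h1 : ∀ x, |χ x| ≤ 1)
    (hB : ∀ m x, |pd m χ x| ≤ B) (hS : MeasurableSet S) (h2 : ∀ x ∉ S, χ x = 0)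
    (h3 : ∀ m, ∀ x ∉ S, pd m χ x = 0) (hw : Continuous w) (hσ0 : 0 ≤ σ) (hσ : σ ≤ 1 / 2) (z : V) :
    ∫⁻ x, ENNReal.ofReal (|w x| * χ x ^ 2) *
        ENNReal.ofReal (√(nw v (x + z)) * √(gw v (x + z))) ≤
      18 * (N * ((∫⁻ x in S, ENNReal.ofReal (nw v (x + z))) ^ ((1 - 2 * σ) / 2)
        * ((∫⁻ x in S, ENNReal.ofReal (gw v (x + z)))
      + ENNReal.ofReal (B ^ 2) * ∫⁻ x in S, ENNReal.ofReal (nw v (x + z))) ^ ((1 + 2 * σ) / 2))) := by
  have hcz : Continuous fun x : V => x + z := by fun_prop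
  have cn : Continuous fun x => nw v (x + z) := (nw_cont hv).comp hcz
  have cg : Continuous fun x => gw v (x + z) := (gw_cont hv).comp hcz
  have hn0 : ∀ x, 0 ≤ nw v (x + z) := fun x => nw_nonneg v _
  have hg0 : ∀ x, 0 ≤ gw v (x + z) := fun x => gw_nonneg v _
  obtain ⟨D, hD⟩ : ∃ D, D = (∫⁻ x in S, ENNReal.ofReal (gw v (x + z)))
      + ENNReal.ofReal (B ^ 2) * ∫⁻ x in S, ENNReal.ofReal (nw v (x + z)) := ⟨_, rfl⟩
  have e0 : ∀ x, ENNReal.ofReal (|w x| * χ x ^ 2) *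
        ENNReal.ofReal (√(nw v (x + z)) * √(gw v (x + z)))
      = ENNReal.ofReal (|w x| * |χ x| * √(nw v (x + z))) * ENNReal.ofReal (|χ x| * √(gw v (x + z))) := by
    intro x
    rw [← ENNReal.ofReal_mul (by positivity), ← ENNReal.ofReal_mul (by positivity), ← sq_abs (χ x)]
    congr 1
    ring
  simp only [e0]
  have m1 : Measurable fun x => ENNReal.ofReal (|w x| * |χ x| * √(nw v (x + z))) :=
    (ENNReal.continuous_ofReal.comp ((hw.abs.mul hχ.sm.continuous.abs).mul cn.sqrt)).measurable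
  have m2 : Measurable fun x => ENNReal.ofReal (|χ x| * √(gw v (x + z))) :=
    (ENNReal.continuous_ofReal.comp (hχ.sm.continuous.abs.mul cg.sqrt)).measurable
  refine (csE m1.aemeasurable m2.aemeasurable).trans ?_
  have e1 : ∫⁻ x, ENNReal.ofReal (|w x| * |χ x| * √(nw v (x + z))) ^ 2
      = ∫⁻ x, ENNReal.ofReal (w x ^ 2 * χ x ^ 2 * nw v (x + z)) := by
    apply lintegral_congr
    intro x
    rw [← ENNReal.ofReal_pow (by positivity), mul_pow, mul_pow, sq_abs, sq_abs,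
      Real.sq_sqrt (hn0 x)]
  have e2 : ∫⁻ x, ENNReal.ofReal (|χ x| * √(gw v (x + z))) ^ 2 ≤ D := by
    have : ∫⁻ x, ENNReal.ofReal (|χ x| * √(gw v (x + z))) ^ 2
        ≤ ∫⁻ x in S, ENNReal.ofReal (gw v (x + z)) := by
      rw [← lintegral_indicator hS]
      apply lintegral_mono
      intro x
      simp only
      by_cases hx : x ∈ S
      · rw [indicator_of_mem hx, ← ENNReal.ofReal_pow (by positivity), mul_pow, sq_abs,
          Real.sq_sqrt (hg0 x)]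
        apply ENNReal.ofReal_le_ofReal
        have a1 : χ x ^ 2 ≤ 1 := by
          rw [← sq_abs]
          exact pow_le_one₀ (abs_nonneg _) (h1 x)
        nlinarith [hg0 x]
      · rw [h2 x hx]
        simp
    rw [hD]
    exact this.trans le_self_add
  rw [e1]
  have k1 := mul_sq hN hv hχ h1 hB hS h2 h3 hw hσ0 hσ z
  rw [← hD] at k1 ⊢
  obtain ⟨a, ha⟩ : ∃ a, a = ∫⁻ x in S, ENNReal.ofReal (nw v (x + z)) := ⟨_, rfl⟩
  rw [← ha] at k1 ⊢
  have k2 := (ENNReal.rpow_le_rpow k1 (by norm_num : (0 : ℝ) ≤ 1 / 2)).trans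
    (rpow_half_pair a D)
  have k3 := ENNReal.rpow_le_rpow e2 (by norm_num : (0 : ℝ) ≤ 1 / 2)
  calc _ ≤ 18 * (N * (a ^ ((1 - 2 * σ) / 2) * D ^ σ)) * D ^ (1 / 2 : ℝ) := mul_le_mul' k2 k3
    _ = 18 * (N * (a ^ ((1 - 2 * σ) / 2) * (D ^ σ * D ^ (1 / 2 : ℝ)))) := by ring
    _ = _ := by
      rw [← ENNReal.rpow_add_of_nonneg _ _ hσ0 (by norm_num)]
      congr 5
      ring

/-- The cubic term. -/
lemma TB (hN : MU σ N w) (hv : ∀ i, HF (v i)) (hχ : BF χ) (h1 : ∀ x, |χ x| ≤ 1)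
    (hB : ∀ m x, |pd m χ x| ≤ B) (hS : MeasurableSet S) (h2 : ∀ x ∉ S, χ x = 0)
    (h3 : ∀ m, ∀ x ∉ S, pd m χ x = 0) (hw : Continuous w) (hσ0 : 0 ≤ σ) (hσ : σ ≤ 1 / 2) :
    ∫⁻ x, ENNReal.ofReal (|w x| * χ x ^ 2 * nw v x) ≤
      18 * (N * ((∫⁻ x in S, ENNReal.ofReal (nw v x)) ^ ((1 - 2 * σ) / 2)
        * ((∫⁻ x in S, ENNReal.ofReal (gw v x))
      + ENNReal.ofReal (B ^ 2) * ∫⁻ x in S, ENNReal.ofReal (nw v x)) ^ σ))
        * (∫⁻ x in S, ENNReal.ofReal (nw v x)) ^ (1 / 2 : ℝ) := by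
  have hn0 : ∀ x, 0 ≤ nw v x := fun x => nw_nonneg v _
  obtain ⟨D, hD⟩ : ∃ D, D = (∫⁻ x in S, ENNReal.ofReal (gw v x))
      + ENNReal.ofReal (B ^ 2) * ∫⁻ x in S, ENNReal.ofReal (nw v x) := ⟨_, rfl⟩
  have e0 : ∀ x, ENNReal.ofReal (|w x| * χ x ^ 2 * nw v x)
      = ENNReal.ofReal (|w x| * |χ x| * √(nw v x)) * ENNReal.ofReal (|χ x| * √(nw v x)) := by
    intro x
    rw [← ENNReal.ofReal_mul (by positivity), ← sq_abs (χ x)]
    congr 1
    nth_rewrite 1 [← Real.mul_self_sqrt (hn0 x)]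
    ring
  simp only [e0]
  have m1 : Measurable fun x => ENNReal.ofReal (|w x| * |χ x| * √(nw v x)) :=
    (ENNReal.continuous_ofReal.comp ((hw.abs.mul hχ.sm.continuous.abs).mul
      (nw_cont hv).sqrt)).measurable
  have m2 : Measurable fun x => ENNReal.ofReal (|χ x| * √(nw v x)) :=
    (ENNReal.continuous_ofReal.comp (hχ.sm.continuous.abs.mul (nw_cont hv).sqrt)).measurable
  refine (csE m1.aemeasurable m2.aemeasurable).trans ?_
  have e1 : ∫⁻ x, ENNReal.ofReal (|w x| * |χ x| * √(nw v x)) ^ 2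
      = ∫⁻ x, ENNReal.ofReal (w x ^ 2 * χ x ^ 2 * nw v (x + 0)) := by
    apply lintegral_congr
    intro x
    rw [← ENNReal.ofReal_pow (by positivity), mul_pow, mul_pow, sq_abs, sq_abs,
      Real.sq_sqrt (hn0 x), add_zero]
  have e2 : ∫⁻ x, ENNReal.ofReal (|χ x| * √(nw v x)) ^ 2 ≤ ∫⁻ x in S, ENNReal.ofReal (nw v x) := by
    rw [← lintegral_indicator hS]
    apply lintegral_mono
    intro x
    simp only
    by_cases hx : x ∈ S
    · rw [indicator_of_mem hx, ← ENNReal.ofReal_pow (by positivity), mul_pow, sq_abs,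
        Real.sq_sqrt (hn0 x)]
      apply ENNReal.ofReal_le_ofReal
      have a1 : χ x ^ 2 ≤ 1 := by
        rw [← sq_abs]
        exact pow_le_one₀ (abs_nonneg _) (h1 x)
      nlinarith [hn0 x]
    · rw [h2 x hx]
      simp
  rw [e1]
  have k1 := mul_sq hN hv hχ h1 hB hS h2 h3 hw hσ0 hσ 0
  simp only [add_zero] at k1 ⊢
  rw [← hD] at k1 ⊢
  obtain ⟨a, ha⟩ : ∃ a, a = ∫⁻ x in S, ENNReal.ofReal (nw v x) := ⟨_, rfl⟩
  rw [← ha] at k1 e2 ⊢
  have k2 := (ENNReal.rpow_le_rpow k1 (by norm_num : (0 : ℝ) ≤ 1 / 2)).trans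
    (rpow_half_pair a D)
  have k3 := ENNReal.rpow_le_rpow e2 (by norm_num : (0 : ℝ) ≤ 1 / 2)
  exact mul_le_mul' k2 k3

end

end Pool.Agent.H305.SL
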