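import Pool.Agent.H305.SL.Wid
import Mathlib.Analysis.SpecialFunctions.SmoothTransition

/-!
A representation of the pressure with kernels of compact support.
-/

set_option autoImplicit false

open MeasureTheory Set Metric Filter Topology
open scoped ContDiff ENNReal

namespace Pool.Agent.H305.SL

open H459R3.NS W221.NS Pool.Agent.V1183.PM Pool.Agent.H305.OS
open Pool.Agent.W583.MD (sm_pd pd_mul')
open Pool.Agent.W22.ME.TD (pd_comm)
open Pool.Agent.H305.TI (it it_nil it_cons it_sm J_it dt_it)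

/-! ### The kernels -/

/-- The profile. -/
noncomputable def pr0 (s : ℝ) : ℝ := Real.smoothTransition (1 - s)

lemma pr0_sm : ContDiff ℝ ∞ pr0 := Real.smoothTransition.contDiff.comp (by fun_prop)
lemma pr0_nonneg (s : ℝ) : 0 ≤ pr0 s := Real.smoothTransition.nonneg _
lemma pr0_le (s : ℝ) : pr0 s ≤ 1 := Real.smoothTransition.le_one _
lemma pr0_zero {s : ℝ} (h : 1 ≤ s) : pr0 s = 0 :=
  Real.smoothTransition.zero_of_nonpos (by linarith)

/-- A primitive of the profile. -/
noncomputable def pr1 (s : ℝ) : ℝ := ∫ z in (1 : ℝ)..s, pr0 z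

lemma pr1_hd (s : ℝ) : HasDerivAt pr1 (pr0 s) s :=
  intervalIntegral.integral_hasDerivAt_right (pr0_sm.continuous.intervalIntegrable _ _)
    (pr0_sm.continuous.stronglyMeasurableAtFilter _ _) pr0_sm.continuous.continuousAt

lemma pr1_sm : ContDiff ℝ ∞ pr1 := by
  rw [contDiff_infty_iff_deriv]
  have : deriv pr1 = pr0 := funext fun s => (pr1_hd s).deriv
  exact ⟨fun s => (pr1_hd s).differentiableAt, this ▸ pr0_sm⟩

lemma pr1_zero {s : ℝ} (h : 1 ≤ s) : pr1 s = 0 := by
  unfold pr1
  rw [intervalIntegral.integral_congr (g := fun _ => (0 : ℝ))]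
  · simp
  · intro z hz
    rw [uIcc_of_le h] at hz
    exact pr0_zero hz.1

/-- The square of the Euclidean norm. -/
noncomputable def eq2 (y : V) : ℝ := ∑ i, y i ^ 2

lemma eq2_sm : ContDiff ℝ ∞ eq2 := by
  unfold eq2
  apply ContDiff.sum
  intro i _
  exact (contDiff_apply ℝ ℝ i).pow 2

lemma eq2_ge {y : V} (h : y ∉ ball (0 : V) 1) : 1 ≤ eq2 y := by
  rw [mem_ball, dist_zero_right, pi_norm_lt_iff one_pos] at h
  push Not at h
  obtain ⟨i, hi⟩ := h
  rw [Real.norm_eq_abs] at hi
  have h1 : y i ^ 2 ≤ eq2 y := Finset.single_le_sum (f := fun i => y i ^ 2)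
    (fun i _ => sq_nonneg _) (Finset.mem_univ i)
  have h2 : 1 ≤ y i ^ 2 := by
    rw [← sq_abs]
    nlinarith
  linarith

lemma pd_eq2 (i : Fin 3) (y : V) : fderiv ℝ eq2 y (Pi.single i 1) = 2 * y i := by
  have h1 : HasFDerivAt eq2 (∑ j, (2 * y j) • ContinuousLinearMap.proj (R := ℝ) (φ := fun _ : Fin 3 => ℝ) j) y := by
    unfold eq2
    apply HasFDerivAt.fun_sum
    intro j _
    have h2 : HasFDerivAt (fun y : V => y j) (ContinuousLinearMap.proj (R := ℝ) (φ := fun _ : Fin 3 => ℝ) j) y :=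
      (ContinuousLinearMap.proj (R := ℝ) (φ := fun _ : Fin 3 => ℝ) j).hasFDerivAt
    have h3 := h2.pow 2
    refine h3.congr_fderiv ?_
    simp
  rw [h1.fderiv]
  simp [Pi.single_apply, Fin.sum_univ_three]
  fin_cases i <;> simp

/-- The compactly supported functions. -/
noncomputable def k0 (y : V) : ℝ := pr0 (eq2 y)
noncomputable def k1 (y : V) : ℝ := (1 / 2) * pr1 (eq2 y)

lemma k0_sm : ContDiff ℝ ∞ k0 := pr0_sm.comp eq2_sm
lemma k1_sm : ContDiff ℝ ∞ k1 := contDiff_const.mul (pr1_sm.comp eq2_sm)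

lemma k0_out {y : V} (h : y ∉ ball (0 : V) 1) : k0 y = 0 := pr0_zero (eq2_ge h)
lemma k1_out {y : V} (h : y ∉ ball (0 : V) 1) : k1 y = 0 := by
  unfold k1
  rw [pr1_zero (eq2_ge h), mul_zero]

lemma cs_of_out {f : V → ℝ} {R : ℝ} (h : ∀ y ∉ ball (0 : V) R, f y = 0) : HasCompactSupport f := by
  apply HasCompactSupport.of_support_subset_isCompact (isCompact_closedBall (0 : V) R)
  intro y hy
  by_contra h1
  exact hy (h y fun h2 => h1 (ball_subset_closedBall h2))

lemma k0_cs : HasCompactSupport k0 := cs_of_out fun _ h => k0_out h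
lemma k1_cs : HasCompactSupport k1 := cs_of_out fun _ h => k1_out h

lemma pd_k1 (i : Fin 3) : pd i k1 = fun y => y i * k0 y := by
  funext y
  have h1 : HasDerivAt pr1 (pr0 (eq2 y)) (eq2 y) := pr1_hd _
  have h2 : HasFDerivAt eq2 (fderiv ℝ eq2 y) y := ((eq2_sm.differentiable (by simp)) y).hasFDerivAt
  have h3 := (h1.comp_hasFDerivAt y h2).const_mul (1 / 2 : ℝ)
  have h4 : fderiv ℝ k1 y = _ := h3.fderiv
  unfold H459R3.NS.pd
  rw [h4]
  simp only [ContinuousLinearMap.smul_apply, smul_eq_mul, pd_eq2]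
  unfold k0
  ring

/-- The mass. -/
noncomputable def mk : ℝ := ∫ y, k0 y

lemma mk_pos : 0 < mk := by
  apply k0_sm.continuous.integral_pos_of_hasCompactSupport_nonneg_nonzero (x := 0) k0_cs
    (fun y => pr0_nonneg _)
  unfold k0 pr0 eq2
  simp [Real.smoothTransition.one_of_one_le]

/-! ### Integration by parts -/

lemma int_pd_cs {f : V → ℝ} (hf : ContDiff ℝ ∞ f) (hc : HasCompactSupport f) (m : Fin 3) :
    ∫ x, pd m f x = 0 := by
  have hd : HasCompactSupport (pd m f) := by
    have : HasCompactSupport (fderiv ℝ f) := hc.fderiv (𝕜 := ℝ)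
    exact this.comp_left (g := fun L : V →L[ℝ] ℝ => L (Pi.single m 1)) (by simp)
  have h1 := integral_mul_fderiv_eq_neg_fderiv_mul_of_integrable (μ := (volume : Measure V))
    (𝕜 := ℝ) (f := fun _ => (1 : ℝ)) (g := f) (v := (Pi.single m 1 : V)) (by simp)
    (by
      simp only [one_mul]
      exact (sm_pd hf m).continuous.integrable_of_hasCompactSupport hd)
    (by simpa using hf.continuous.integrable_of_hasCompactSupport hc)
    (fun x _ => differentiableAt_const _) (fun x _ => (hf.differentiable (by simp)) x)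
  simp only [one_mul, fderiv_const_apply, zero_mul, integral_zero, neg_zero,
    ContinuousLinearMap.zero_apply, Pi.zero_apply] at h1
  exact h1

lemma pd_aff {G : V → ℝ} (hG : ContDiff ℝ ∞ G) (x : V) (R : ℝ) (m : Fin 3) :
    pd m (fun y => G (x + R • y)) = fun y => R * pd m G (x + R • y) := by
  funext y
  have h1 : HasFDerivAt (fun y : V => x + R • y) (R • ContinuousLinearMap.id ℝ V) y :=
    ((hasFDerivAt_id y).const_smul R).const_add x
  have h2 : HasFDerivAt G (fderiv ℝ G (x + R • y)) (x + R • y) :=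
    ((hG.differentiable (by simp)) _).hasFDerivAt
  have h3 : fderiv ℝ (fun y => G (x + R • y)) y = _ := (h2.comp y h1).fderiv
  unfold H459R3.NS.pd
  rw [h3]
  simp

lemma sm_aff {G : V → ℝ} (hG : ContDiff ℝ ∞ G) (x : V) (R : ℝ) :
    ContDiff ℝ ∞ (fun y => G (x + R • y)) := hG.comp (by fun_prop)

/-- Integration by parts with a kernel. -/
lemma ibp_k {K G : V → ℝ} (hK : ContDiff ℝ ∞ K) (hc : HasCompactSupport K) (hG : ContDiff ℝ ∞ G)
    (x : V) (R : ℝ) (m : Fin 3) :
    ∫ y, pd m K y * G (x + R • y) = - (R * ∫ y, K y * pd m G (x + R • y)) := by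
  have h1 := int_pd_cs (hK.mul (sm_aff hG x R)) (hc.mul_right (f' := fun y => G (x + R • y))) m
  have h2 : ∀ y, pd m (fun y => K y * G (x + R • y)) y
      = R * (K y * pd m G (x + R • y)) + pd m K y * G (x + R • y) := by
    intro y
    rw [pd_mul' hK (sm_aff hG x R) m y, pd_aff hG]
    ring
  have hd : HasCompactSupport (pd m K) := by
    have : HasCompactSupport (fderiv ℝ K) := hc.fderiv (𝕜 := ℝ)
    exact this.comp_left (g := fun L : V →L[ℝ] ℝ => L (Pi.single m 1)) (by simp)
  have i1 : Integrable fun y => K y * pd m G (x + R • y) := by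
    have hcm := (sm_aff (sm_pd hG m) x R).continuous
    exact (hK.continuous.mul hcm).integrable_of_hasCompactSupport hc.mul_right
  have i2 : Integrable fun y => pd m K y * G (x + R • y) := by
    have hcm := (sm_aff hG x R).continuous
    exact ((sm_pd hK m).continuous.mul hcm).integrable_of_hasCompactSupport hd.mul_right
  have h3 : ∫ y, pd m (fun y => K y * G (x + R • y)) y
      = R * (∫ y, K y * pd m G (x + R • y)) + ∫ y, pd m K y * G (x + R • y) := by
    simp only [h2]
    rw [integral_add (i1.const_mul R) i2, integral_const_mul]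
  have h4 : ∫ y, pd m (fun y => K y * G (x + R • y)) y = 0 := h1
  linarith

/-! ### The representation -/

/-- The average at scale `R`. -/
noncomputable def avK (q : V → ℝ) (x : V) (R : ℝ) : ℝ := ∫ y, k0 y * q (x + R • y)

/-- The derivative of the average. -/
noncomputable def avD (G : Fin 3 → V → ℝ) (x : V) (R : ℝ) : ℝ :=
  ∑ i, ∫ y, pd i k1 y * G i (x + R • y)

lemma hd_line {q : V → ℝ} (hq : ContDiff ℝ ∞ q) (x y : V) (R : ℝ) :
    HasDerivAt (fun R : ℝ => q (x + R • y)) (∑ i, y i * pd i q (x + R • y)) R := by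
  have h1 : HasDerivAt (fun R : ℝ => x + R • y) y R := by
    have := ((hasDerivAt_id R).smul_const y).const_add x
    simpa using this
  have h2 := (((hq.differentiable (by simp)) (x + R • y)).hasFDerivAt).comp_hasDerivAt R h1
  rw [fderiv_sum] at h2
  exact h2

/-- The space derivative of the average in direction of the scale. -/
lemma av_in {q : V → ℝ} {G : Fin 3 → V → ℝ} (hq : ContDiff ℝ ∞ q) (hG : ∀ i, ContDiff ℝ ∞ (G i))
    (he : ∀ x, - lp q x = ∑ i, pd i (G i) x) (x : V) (R : ℝ) :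
    ∫ y, k0 y * ∑ i, y i * pd i q (x + R • y) = - avD G x R := by
  have h1 : ∀ y, k0 y * ∑ i, y i * pd i q (x + R • y) = ∑ i, pd i k1 y * pd i q (x + R • y) := by
    intro y
    rw [Finset.mul_sum]
    apply Finset.sum_congr rfl
    intro i _
    rw [pd_k1]
    ring
  simp only [h1]
  have hd : ∀ m, HasCompactSupport (pd m k1) := by
    intro m
    have : HasCompactSupport (fderiv ℝ k1) := k1_cs.fderiv (𝕜 := ℝ)
    exact this.comp_left (g := fun L : V →L[ℝ] ℝ => L (Pi.single m 1)) (by simp)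
  have i2 : ∀ i, Integrable fun y => pd i k1 y * pd i q (x + R • y) := by
    intro i
    have hcm := (sm_aff (sm_pd hq i) x R).continuous
    exact ((sm_pd k1_sm i).continuous.mul hcm).integrable_of_hasCompactSupport (hd i).mul_right
  have i3 : ∀ i, Integrable fun y => k1 y * pd i (pd i q) (x + R • y) := by
    intro i
    have hcm := (sm_aff (sm_pd (sm_pd hq i) i) x R).continuous
    exact (k1_sm.continuous.mul hcm).integrable_of_hasCompactSupport k1_cs.mul_right
  have i4 : ∀ i, Integrable fun y => k1 y * pd i (G i) (x + R • y) := by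
    intro i
    have hcm := (sm_aff (sm_pd (hG i) i) x R).continuous
    exact (k1_sm.continuous.mul hcm).integrable_of_hasCompactSupport k1_cs.mul_right
  rw [integral_finsetSum _ fun i _ => i2 i]
  have h2 : ∀ i, ∫ y, pd i k1 y * pd i q (x + R • y)
      = - (R * ∫ y, k1 y * pd i (pd i q) (x + R • y)) := fun i =>
    ibp_k k1_sm k1_cs (sm_pd hq i) x R i
  have h3 : ∀ i, ∫ y, pd i k1 y * G i (x + R • y)
      = - (R * ∫ y, k1 y * pd i (G i) (x + R • y)) := fun i =>
    ibp_k k1_sm k1_cs (hG i) x R i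
  unfold avD
  simp only [h2, h3]
  have h4 : ∑ i, (∫ y, k1 y * pd i (pd i q) (x + R • y))
      = - ∑ i, ∫ y, k1 y * pd i (G i) (x + R • y) := by
    rw [← integral_finsetSum _ fun i _ => i3 i, ← integral_finsetSum _ fun i _ => i4 i,
      ← integral_neg]
    congr 1
    funext y
    rw [← Finset.mul_sum, ← Finset.mul_sum, ← he]
    unfold Pool.Agent.H305.OS.lp
    ring
  simp only [Finset.sum_neg_distrib, ← Finset.mul_sum, h4]
  ring

lemma cont_av {q : V → ℝ} (hq : Continuous q) (x : V) :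
    Continuous fun z : V × ℝ => k0 z.1 * q (x + z.2 • z.1) := by
  have := k0_sm.continuous
  fun_prop

/-- The change of the average. -/
lemma av_diff {q : V → ℝ} {G : Fin 3 → V → ℝ} (hq : ContDiff ℝ ∞ q)
    (hG : ∀ i, ContDiff ℝ ∞ (G i)) (he : ∀ x, - lp q x = ∑ i, pd i (G i) x) (x : V) {a b : ℝ}
    (hab : a ≤ b) :
    avK q x b - avK q x a = - ∫ R in Ioc a b, avD G x R := by
  have hc : Continuous fun z : V × ℝ => k0 z.1 * ∑ i, z.1 i * pd i q (x + z.2 • z.1) := by
    have := k0_sm.continuous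
    have := fun i => (sm_pd hq i).continuous
    apply Continuous.mul (by fun_prop)
    apply continuous_finsetSum
    intro i _
    fun_prop
  have iK : ∀ R : ℝ, Integrable fun y => k0 y * q (x + R • y) := by
    intro R
    have hcm := (sm_aff hq x R).continuous
    exact (k0_sm.continuous.mul hcm).integrable_of_hasCompactSupport k0_cs.mul_right
  have h1 : avK q x b - avK q x a
      = ∫ y, ∫ R in Ioc a b, k0 y * ∑ i, y i * pd i q (x + R • y) := by
    unfold avK
    rw [← integral_sub (iK b) (iK a)]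
    congr 1
    funext y
    rw [integral_const_mul, ← intervalIntegral.integral_of_le hab,
      intervalIntegral.integral_eq_sub_of_hasDerivAt (f := fun R : ℝ => q (x + R • y))
        (fun R _ => hd_line hq x y R)]
    · ring
    · apply Continuous.intervalIntegrable
      have := fun i => (sm_pd hq i).continuous
      apply continuous_finsetSum
      intro i _
      fun_prop
  rw [h1, integral_integral_swap]
  · rw [← integral_neg]
    congr 1
    funext R
    exact av_in hq hG he x R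
  · have hK : IsCompact (closedBall (0 : V) 1 ×ˢ Icc a b) :=
      (isCompact_closedBall 0 1).prod isCompact_Icc
    have h2 : IntegrableOn (fun z : V × ℝ => k0 z.1 * ∑ i, z.1 i * pd i q (x + z.2 • z.1))
        (closedBall (0 : V) 1 ×ˢ Icc a b) (volume.prod volume) :=
      hc.continuousOn.integrableOn_compact hK
    have h3 : IntegrableOn (fun z : V × ℝ => k0 z.1 * ∑ i, z.1 i * pd i q (x + z.2 • z.1))
        (univ ×ˢ Ioc a b) (volume.prod volume) := by
      have h4 : IntegrableOn (fun z : V × ℝ => k0 z.1 * ∑ i, z.1 i * pd i q (x + z.2 • z.1))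
          (closedBall (0 : V) 1 ×ˢ Ioc a b) (volume.prod volume) :=
        h2.mono_set (prod_mono le_rfl Ioc_subset_Icc_self)
      have hm : MeasurableSet (univ ×ˢ Ioc a b : Set (V × ℝ)) :=
        MeasurableSet.univ.prod measurableSet_Ioc
      refine h4.of_forall_diff_eq_zero hm ?_
      rintro ⟨y, R⟩ ⟨⟨-, hR⟩, hn⟩
      have : y ∉ ball (0 : V) 1 := fun h => hn ⟨ball_subset_closedBall h, hR⟩
      simp only [k0_out this, zero_mul]
    unfold IntegrableOn at h3
    rwa [← Measure.prod_restrict, Measure.restrict_univ] at h3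

/-! ### The pointwise bound -/

/-- `|w|²`. -/
noncomputable def nw (w : Fin 3 → V → ℝ) (x : V) : ℝ := ∑ i, w i x ^ 2

/-- `|∇w|²`. -/
noncomputable def gw (w : Fin 3 → V → ℝ) (x : V) : ℝ := ∑ i, ∑ k, pd k (w i) x ^ 2

lemma nw_nonneg (w : Fin 3 → V → ℝ) (x : V) : 0 ≤ nw w x := Finset.sum_nonneg fun _ _ => sq_nonneg _
lemma gw_nonneg (w : Fin 3 → V → ℝ) (x : V) : 0 ≤ gw w x :=
  Finset.sum_nonneg fun _ _ => Finset.sum_nonneg fun _ _ => sq_nonneg _

lemma nl_le (w : Fin 3 → V → ℝ) (i : Fin 3) (x : V) : |nl w i x| ≤ √(nw w x) * √(gw w x) := by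
  rw [← Real.sqrt_mul (nw_nonneg w x)]
  apply Real.abs_le_sqrt
  have h1 : (∑ j, w j x * pd j (w i) x) ^ 2 ≤ (∑ j, w j x ^ 2) * ∑ j, pd j (w i) x ^ 2 :=
    Finset.sum_mul_sq_le_sq_mul_sq _ _ _
  have h2 : ∑ j, pd j (w i) x ^ 2 ≤ gw w x :=
    Finset.single_le_sum (f := fun i => ∑ j, pd j (w i) x ^ 2)
      (fun i _ => Finset.sum_nonneg fun _ _ => sq_nonneg _) (Finset.mem_univ i)
  exact h1.trans (mul_le_mul_of_nonneg_left h2 (nw_nonneg w x))

lemma ww_le (w : Fin 3 → V → ℝ) (i j : Fin 3) (x : V) : |w j x * w i x| ≤ nw w x := by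
  have h1 : w i x ^ 2 ≤ nw w x := Finset.single_le_sum (f := fun i => w i x ^ 2)
      (fun i _ => sq_nonneg _) (Finset.mem_univ i)
  have h2 : w j x ^ 2 ≤ nw w x := Finset.single_le_sum (f := fun i => w i x ^ 2)
      (fun i _ => sq_nonneg _) (Finset.mem_univ j)
  rw [abs_mul]
  rw [← sq_abs] at h1 h2
  nlinarith [sq_nonneg (|w j x| - |w i x|)]

lemma pd_out {f : V → ℝ} (hf : ∀ y ∉ ball (0 : V) 1, f y = 0) (m : Fin 3) :
    ∀ y ∉ closedBall (0 : V) 1, pd m f y = 0 := by
  intro y hy
  have h1 : f =ᶠ[𝓝 y] fun _ => 0 := by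
    filter_upwards [isClosed_closedBall.isOpen_compl.mem_nhds hy] with z hz
    exact hf z fun h => hz (ball_subset_closedBall h)
  unfold H459R3.NS.pd
  rw [h1.fderiv_eq]
  simp

lemma kbd {f : V → ℝ} (hf : Continuous f) (hc : HasCompactSupport f) :
    ∃ C : ℝ, 0 ≤ C ∧ ∀ y, |f y| ≤ C := by
  obtain ⟨C, hC⟩ := hf.bounded_above_of_compact_support hc
  exact ⟨max C 0, le_max_right _ _, fun y => (hC y).trans (le_max_left _ _)⟩

lemma pd_cs {f : V → ℝ} (hc : HasCompactSupport f) (m : Fin 3) : HasCompactSupport (pd m f) := by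
  have : HasCompactSupport (fderiv ℝ f) := hc.fderiv (𝕜 := ℝ)
  exact this.comp_left (g := fun L : V →L[ℝ] ℝ => L (Pi.single m 1)) (by simp)

/-- A bound for the integral against a kernel. -/
lemma kern_le {K f g : V → ℝ} {C : ℝ} (hC : 0 ≤ C) (hK : ∀ y, |K y| ≤ C)
    (hout : ∀ y ∉ closedBall (0 : V) 1, K y = 0) (hfg : ∀ z, |f z| ≤ g z) (x : V) (R : ℝ) :
    ENNReal.ofReal |∫ y, K y * f (x + R • y)| ≤
      ENNReal.ofReal C * ∫⁻ y in closedBall (0 : V) 1, ENNReal.ofReal (g (x + R • y)) := by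
  rw [← Real.enorm_eq_ofReal_abs]
  refine (enorm_integral_le_lintegral_enorm _).trans ?_
  rw [← lintegral_const_mul' _ _ ENNReal.ofReal_ne_top,
    ← lintegral_indicator measurableSet_closedBall]
  apply lintegral_mono
  intro y
  by_cases hy : y ∈ closedBall (0 : V) 1
  · simp only
    rw [indicator_of_mem hy, Real.enorm_eq_ofReal_abs, ← ENNReal.ofReal_mul hC, abs_mul]
    apply ENNReal.ofReal_le_ofReal
    exact mul_le_mul (hK y) (hfg _) (abs_nonneg _) hC
  · simp only
    rw [hout y hy]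
    simp

/-- The near part. -/
noncomputable def nearP (w : Fin 3 → V → ℝ) (r : ℝ) (x : V) : ℝ≥0∞ :=
  ∫⁻ R in Ioc 0 r, ∫⁻ y in closedBall (0 : V) 1,
    ENNReal.ofReal (√(nw w (x + R • y)) * √(gw w (x + R • y)))

/-- The far part. -/
noncomputable def farP (w : Fin 3 → V → ℝ) (r : ℝ) (x : V) : ℝ≥0∞ :=
  ∫⁻ R in Ioi r, ENNReal.ofReal R⁻¹ * ∫⁻ y in closedBall (0 : V) 1,
    ENNReal.ofReal (nw w (x + R • y))

lemma avD_near : ∃ C : ℝ, 0 ≤ C ∧ ∀ (w : Fin 3 → V → ℝ) (x : V) (R : ℝ),
    ENNReal.ofReal |avD (nl w) x R| ≤ ENNReal.ofReal C * ∫⁻ y in closedBall (0 : V) 1,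
      ENNReal.ofReal (√(nw w (x + R • y)) * √(gw w (x + R • y))) := by
  have h1 : ∀ i, ∃ C : ℝ, 0 ≤ C ∧ ∀ y, |pd i k1 y| ≤ C := fun i =>
    kbd (sm_pd k1_sm i).continuous (pd_cs k1_cs i)
  choose C hC hb using h1
  refine ⟨∑ i, C i, Finset.sum_nonneg fun i _ => hC i, fun w x R => ?_⟩
  unfold avD
  have h2 : ENNReal.ofReal |∑ i, ∫ y, pd i k1 y * nl w i (x + R • y)|
      ≤ ∑ i, ENNReal.ofReal |∫ y, pd i k1 y * nl w i (x + R • y)| := by
    rw [← ENNReal.ofReal_sum_of_nonneg fun i _ => abs_nonneg _]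
    exact ENNReal.ofReal_le_ofReal (Finset.abs_sum_le_sum_abs _ _)
  refine h2.trans ?_
  rw [ENNReal.ofReal_sum_of_nonneg fun i _ => hC i, Finset.sum_mul]
  apply Finset.sum_le_sum
  intro i _
  exact kern_le (hC i) (hb i) (pd_out (fun _ h => k1_out h) i) (nl_le w i) x R

lemma nl_div {w : Fin 3 → V → ℝ} (hw : ∀ i, HF (w i)) (hdiv : ∀ x, ∑ i, pd i (w i) x = 0)
    (i : Fin 3) (x : V) : nl w i x = ∑ j, pd j (fun y => w j y * w i y) x := by
  have h1 : ∀ j, pd j (fun y => w j y * w i y) x = w j x * pd j (w i) x + pd j (w j) x * w i x :=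
    fun j => pd_mul' (hw j).sm (hw i).sm j x
  simp only [h1, Finset.sum_add_distrib, ← Finset.sum_mul, hdiv x, zero_mul, add_zero]
  rfl

lemma avD_far : ∃ C : ℝ, 0 ≤ C ∧ ∀ (w : Fin 3 → V → ℝ), (∀ i, HF (w i)) →
    (∀ x, ∑ i, pd i (w i) x = 0) → ∀ (x : V) (R : ℝ), 0 < R →
    ENNReal.ofReal |avD (nl w) x R| ≤ ENNReal.ofReal C * (ENNReal.ofReal R⁻¹ *
      ∫⁻ y in closedBall (0 : V) 1, ENNReal.ofReal (nw w (x + R • y))) := by
  have h1 : ∀ i j, ∃ C : ℝ, 0 ≤ C ∧ ∀ y, |pd j (pd i k1) y| ≤ C := fun i j =>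
    kbd (sm_pd (sm_pd k1_sm i) j).continuous (pd_cs (pd_cs k1_cs i) j)
  choose C hC hb using h1
  refine ⟨∑ i, ∑ j, C i j, Finset.sum_nonneg fun i _ => Finset.sum_nonneg fun j _ => hC i j,
    fun w hw hdiv x R hR => ?_⟩
  have hout : ∀ i j, ∀ y ∉ closedBall (0 : V) 1, pd j (pd i k1) y = 0 := by
    intro i j y hy
    have h1 : pd i k1 =ᶠ[𝓝 y] fun _ => 0 := by
      filter_upwards [isClosed_closedBall.isOpen_compl.mem_nhds hy] with z hz
      exact pd_out (fun _ h => k1_out h) i z hz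
    unfold H459R3.NS.pd at h1 ⊢
    rw [h1.fderiv_eq]
    simp
  have e1 : ∀ i, ∫ y, pd i k1 y * nl w i (x + R • y)
      = ∑ j, - (R⁻¹ * ∫ y, pd j (pd i k1) y * (w j (x + R • y) * w i (x + R • y))) := by
    intro i
    have e2 : ∀ j, ∫ y, pd j (pd i k1) y * (w j (x + R • y) * w i (x + R • y))
        = - (R * ∫ y, pd i k1 y * pd j (fun y => w j y * w i y) (x + R • y)) := fun j =>
      ibp_k (sm_pd k1_sm i) (pd_cs k1_cs i) ((hw j).mul (hw i)).sm x R j
    simp only [e2]
    have e3 : ∀ j, - (R⁻¹ * - (R * ∫ y, pd i k1 y * pd j (fun y => w j y * w i y) (x + R • y)))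
        = ∫ y, pd i k1 y * pd j (fun y => w j y * w i y) (x + R • y) := by
      intro j
      field_simp
    simp only [e3]
    have i2 : ∀ j, Integrable fun y => pd i k1 y * pd j (fun y => w j y * w i y) (x + R • y) := by
      intro j
      have hcm := (sm_aff (sm_pd ((hw j).mul (hw i)).sm j) x R).continuous
      exact ((sm_pd k1_sm i).continuous.mul hcm).integrable_of_hasCompactSupport
        (pd_cs k1_cs i).mul_right
    rw [← integral_finsetSum _ fun j _ => i2 j]
    congr 1
    funext y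
    rw [nl_div hw hdiv, Finset.mul_sum]
  unfold avD
  simp only [e1]
  have h2 : ENNReal.ofReal |∑ i, ∑ j, - (R⁻¹ * ∫ y, pd j (pd i k1) y
      * (w j (x + R • y) * w i (x + R • y)))|
      ≤ ∑ i, ∑ j, ENNReal.ofReal R⁻¹ * ENNReal.ofReal |∫ y, pd j (pd i k1) y
        * (w j (x + R • y) * w i (x + R • y))| := by
    have h3 : |∑ i, ∑ j, - (R⁻¹ * ∫ y, pd j (pd i k1) y * (w j (x + R • y) * w i (x + R • y)))|
        ≤ ∑ i, ∑ j, R⁻¹ * |∫ y, pd j (pd i k1) y * (w j (x + R • y) * w i (x + R • y))| := by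
      refine (Finset.abs_sum_le_sum_abs _ _).trans (Finset.sum_le_sum fun i _ => ?_)
      refine (Finset.abs_sum_le_sum_abs _ _).trans (Finset.sum_le_sum fun j _ => ?_)
      rw [abs_neg, abs_mul, abs_of_pos (inv_pos.2 hR)]
    refine (ENNReal.ofReal_le_ofReal h3).trans (le_of_eq ?_)
    rw [ENNReal.ofReal_sum_of_nonneg fun i _ => Finset.sum_nonneg fun j _ =>
      mul_nonneg (inv_pos.2 hR).le (abs_nonneg _)]
    apply Finset.sum_congr rfl
    intro i _
    rw [ENNReal.ofReal_sum_of_nonneg fun j _ => mul_nonneg (inv_pos.2 hR).le (abs_nonneg _)]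
    apply Finset.sum_congr rfl
    intro j _
    rw [ENNReal.ofReal_mul (inv_pos.2 hR).le]
  refine h2.trans ?_
  rw [ENNReal.ofReal_sum_of_nonneg fun i _ => Finset.sum_nonneg fun j _ => hC i j, Finset.sum_mul]
  apply Finset.sum_le_sum
  intro i _
  rw [ENNReal.ofReal_sum_of_nonneg fun j _ => hC i j, Finset.sum_mul]
  apply Finset.sum_le_sum
  intro j _
  rw [mul_left_comm]
  refine mul_le_mul_right ?_ _
  exact kern_le (f := fun z => w j z * w i z) (hC i j) (hb i j) (hout i j) (ww_le w i j) x R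

lemma avK_zero (q : V → ℝ) (x : V) : avK q x 0 = mk * q x := by
  unfold avK mk
  simp only [zero_smul, add_zero]
  rw [integral_mul_const]

lemma line_cocompact (x : V) {y : V} (hy : y ≠ 0) :
    Tendsto (fun R : ℝ => x + R • y) atTop (cocompact V) := by
  rw [← Metric.cobounded_eq_cocompact, ← tendsto_norm_atTop_iff_cobounded]
  have h1 : Tendsto (fun R : ℝ => R * ‖y‖ - ‖x‖) atTop atTop := by
    apply tendsto_atTop_add_const_right
    exact tendsto_id.atTop_mul_const (norm_pos_iff.2 hy)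
  apply tendsto_atTop_mono _ h1
  intro R
  have h2 : ‖R • y‖ ≤ ‖x + R • y‖ + ‖x‖ := by
    have := norm_sub_le (x + R • y) x
    rwa [add_sub_cancel_left] at this
  have h3 : R * ‖y‖ ≤ ‖R • y‖ := by
    rw [norm_smul, Real.norm_eq_abs]
    exact mul_le_mul_of_nonneg_right (le_abs_self R) (norm_nonneg _)
  linarith

lemma avK_top {q : V → ℝ} (hq : HF q) (x : V) : Tendsto (fun R => avK q x R) atTop (𝓝 0) := by
  obtain ⟨C, hC, hb⟩ := hq.bd []
  have h0 := hq.tendsto_zero
  have h1 : Tendsto (fun R : ℝ => ∫ y, k0 y * q (x + R • y)) atTop (𝓝 (∫ y : V, k0 y * 0)) := by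
    apply tendsto_integral_filter_of_dominated_convergence (fun y => k0 y * C)
    · apply Eventually.of_forall
      intro R
      have hcm := (sm_aff hq.sm x R).continuous
      exact (k0_sm.continuous.mul hcm).aestronglyMeasurable
    · apply Eventually.of_forall
      intro R
      apply Eventually.of_forall
      intro y
      have hk : 0 ≤ k0 y := pr0_nonneg _
      rw [Real.norm_eq_abs, abs_mul, abs_of_nonneg hk]
      exact mul_le_mul_of_nonneg_left ((hb 0 (mem_univ _)).1 _) hk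
    · exact (k0_sm.continuous.integrable_of_hasCompactSupport k0_cs).mul_const C
    · have h2 : ∀ᵐ y : V, y ≠ 0 := by
        rw [ae_iff]
        simp
      filter_upwards [h2] with y hy
      exact (h0.comp (line_cocompact x hy)).const_mul (k0 y)
  simpa [avK] using h1

/-- The pointwise bound for the pressure. -/
theorem press_bd : ∃ C : ℝ, 0 ≤ C ∧ ∀ (w : Fin 3 → V → ℝ) (q : V → ℝ), (∀ i, HF (w i)) →
    (∀ x, ∑ i, pd i (w i) x = 0) → HF q → (∀ x, - lp q x = ∑ i, pd i (nl w i) x) →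
    ∀ r : ℝ, 0 < r → ∀ x, ENNReal.ofReal |q x| ≤ ENNReal.ofReal C * (nearP w r x + farP w r x) := by
  obtain ⟨C₁, hC₁, h1⟩ := avD_near
  obtain ⟨C₂, hC₂, h2⟩ := avD_far
  refine ⟨mk⁻¹ * (C₁ + C₂), by have := mk_pos; positivity, ?_⟩
  intro w q hw hdiv hq he r hr x
  have hG : ∀ i, ContDiff ℝ ∞ (nl w i) := fun i => (nl_HF hw i).sm
  have hd : ∀ a b : ℝ, a ≤ b → ENNReal.ofReal |avK q x b - avK q x a|
      ≤ ∫⁻ R in Ioc a b, ENNReal.ofReal |avD (nl w) x R| := by
    intro a b hab
    rw [av_diff hq.sm hG he x hab, abs_neg, ← Real.enorm_eq_ofReal_abs]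
    refine (enorm_integral_le_lintegral_enorm _).trans (le_of_eq ?_)
    simp only [Real.enorm_eq_ofReal_abs]
  have hn : ENNReal.ofReal |avK q x r - avK q x 0| ≤ ENNReal.ofReal C₁ * nearP w r x := by
    refine (hd 0 r hr.le).trans ?_
    unfold nearP
    rw [← lintegral_const_mul' _ _ ENNReal.ofReal_ne_top]
    exact lintegral_mono fun R => h1 w x R
  have hf : ∀ L, r ≤ L → ENNReal.ofReal |avK q x L - avK q x r|
      ≤ ENNReal.ofReal C₂ * farP w r x := by
    intro L hL
    refine (hd r L hL).trans ?_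
    unfold farP
    rw [← lintegral_const_mul' _ _ ENNReal.ofReal_ne_top]
    refine (lintegral_mono_set Ioc_subset_Ioi_self).trans ?_
    apply setLIntegral_mono' measurableSet_Ioi
    intro R hR
    exact h2 w hw hdiv x R (hr.trans hR)
  have h3 : ∀ L, r ≤ L → ENNReal.ofReal (mk * |q x|)
      ≤ ENNReal.ofReal C₁ * nearP w r x + ENNReal.ofReal C₂ * farP w r x
        + ENNReal.ofReal |avK q x L| := by
    intro L hL
    have h4 : mk * |q x| ≤ |avK q x r - avK q x 0| + |avK q x L - avK q x r| + |avK q x L| := by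
      have e1 : mk * |q x| = |avK q x 0| := by
        rw [avK_zero, abs_mul, abs_of_pos mk_pos]
      rw [e1]
      have e2 : avK q x 0 = - (avK q x r - avK q x 0) - (avK q x L - avK q x r) + avK q x L := by ring
      calc |avK q x 0| = |- (avK q x r - avK q x 0) - (avK q x L - avK q x r) + avK q x L| := by
            rw [← e2]
        _ ≤ |- (avK q x r - avK q x 0) - (avK q x L - avK q x r)| + |avK q x L| := abs_add_le _ _
        _ ≤ |- (avK q x r - avK q x 0)| + |avK q x L - avK q x r| + |avK q x L| := by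
            gcongr
            exact abs_sub _ _
        _ = _ := by rw [abs_neg]
    refine (ENNReal.ofReal_le_ofReal h4).trans ?_
    rw [ENNReal.ofReal_add (by positivity) (by positivity),
      ENNReal.ofReal_add (by positivity) (by positivity)]
    exact add_le_add (add_le_add hn (hf L hL)) le_rfl
  have h5 : ENNReal.ofReal (mk * |q x|)
      ≤ ENNReal.ofReal C₁ * nearP w r x + ENNReal.ofReal C₂ * farP w r x + 0 := by
    have h6 : Tendsto (fun L => ENNReal.ofReal C₁ * nearP w r x + ENNReal.ofReal C₂ * farP w r x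
        + ENNReal.ofReal |avK q x L|) atTop (𝓝 (ENNReal.ofReal C₁ * nearP w r x
          + ENNReal.ofReal C₂ * farP w r x + 0)) := by
      apply Tendsto.const_add
      have := (ENNReal.continuous_ofReal.tendsto 0).comp
        ((continuous_abs.tendsto' 0 0 abs_zero).comp (avK_top hq x))
      simpa [Function.comp_def] using this
    apply ge_of_tendsto h6
    filter_upwards [eventually_ge_atTop r] with L hL
    exact h3 L hL
  rw [add_zero] at h5
  have h7 : ENNReal.ofReal |q x| = ENNReal.ofReal mk⁻¹ * ENNReal.ofReal (mk * |q x|) := by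
    rw [← ENNReal.ofReal_mul (inv_pos.2 mk_pos).le, inv_mul_cancel_left₀ mk_pos.ne']
  rw [h7, ENNReal.ofReal_mul (inv_pos.2 mk_pos).le, mul_assoc]
  refine mul_le_mul_right (h5.trans ?_) _
  rw [mul_add]
  have : 0 ≤ C₁ := hC₁
  gcongr
  · linarith
  · linarith

/-- The equation for the pressure. -/
lemma HS.press {ν T : ℝ} {u : ℝ → V → V} {p : ℝ → V → ℝ} (h : HS ν T u p) {t : ℝ}
    (ht : t ∈ Ioo 0 T) (x : V) : - lp (p t) x = ∑ i, pd i (nl (cw u t) i) x := by
  have hw : ∀ i, HF (cw u t i) := fun i => h.cw_HF ht i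
  have hq := h.p_HF ht
  -- the divergence of the time derivative vanishes
  have h1 : ∑ i, pd i (fun y => deriv (fun s => u s y i) t) x = 0 := by
    have h2 : ∀ i, pd i (fun y => deriv (fun s => u s y i) t) x
        = deriv (fun s => pd i (fun y => u s y i) x) t := fun i => ((h.ju i).comm ht x i).symm
    simp only [h2]
    have h3 : ∀ i, DifferentiableAt ℝ (fun s => pd i (fun y => u s y i) x) t := fun i =>
      ((h.ju i).pd i).dfT ht x
    have h4 : deriv (fun s => ∑ i, pd i (fun y => u s y i) x) t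
        = ∑ i, deriv (fun s => pd i (fun y => u s y i) x) t := by
      rw [deriv_fun_sum fun i _ => h3 i]
    rw [← h4]
    have h5 : (fun s => ∑ i, pd i (fun y => u s y i) x) =ᶠ[𝓝 t] fun _ => 0 := by
      filter_upwards [Ioo_mem_nhds ht.1 ht.2] with s hs
      exact h.div s hs x
    rw [h5.deriv_eq]
    simp
  have h2 : ∀ i, (fun y => deriv (fun s => u s y i) t)
      = fun y => ν * lp (cw u t i) y - nl (cw u t) i y - pd i (p t) y := by
    intro i
    funext y
    exact h.mom i t ht y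
  simp only [h2] at h1
  have h3 : ∀ i, pd i (fun y => ν * lp (cw u t i) y - nl (cw u t) i y - pd i (p t) y) x
      = ν * lp (pd i (cw u t i)) x - pd i (nl (cw u t) i) x - pd i (pd i (p t)) x := by
    intro i
    have a1 : HF (lp (cw u t i)) := (hw i).lp
    have a2 : HF (nl (cw u t) i) := nl_HF hw i
    have a3 : HF (pd i (p t)) := hq.pd i
    rw [Pool.Agent.TH305.DR.pd_sub' (by exact (a1.cmul ν |>.sub a2).sm) a3.sm,
      Pool.Agent.TH305.DR.pd_sub' (a1.cmul ν).sm a2.sm]
    simp only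
    congr 2
    have e1 : pd i (fun y => ν * lp (cw u t i) y) x = ν * pd i (lp (cw u t i)) x := by
      have := it_cmul [i] ν a1.sm
      exact congrFun this x
    rw [e1]
    congr 1
    unfold Pool.Agent.H305.OS.lp
    have e2 : pd i (fun x => ∑ k, pd k (pd k (cw u t i)) x) x
        = ∑ k, pd i (pd k (pd k (cw u t i))) x := by
      have := it_sum [i] (f := fun k => pd k (pd k (cw u t i))) fun k => (((hw i).pd k).pd k).sm
      exact congrFun this x
    rw [e2]
    apply Finset.sum_congr rfl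
    intro k _
    rw [pd_comm (sm_pd (hw i).sm k) i k, pd_comm (hw i).sm i k]
  simp only [h3, Finset.sum_sub_distrib, ← Finset.mul_sum] at h1
  have h4 : ∑ i, lp (pd i (cw u t i)) x = 0 := by
    unfold Pool.Agent.H305.OS.lp
    rw [Finset.sum_comm]
    apply Finset.sum_eq_zero
    intro k _
    have e1 : ∑ i, pd k (pd k (pd i (cw u t i))) x
        = pd k (pd k (fun x => ∑ i, pd i (cw u t i) x)) x := by
      have := it_sum [k, k] (f := fun i => pd i (cw u t i)) fun i => ((hw i).pd i).sm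
      exact (congrFun this x).symm
    rw [e1]
    have e2 : (fun x => ∑ i, pd i (cw u t i) x) = fun _ => 0 := funext fun x => h.div t ht x
    rw [e2]
    have := it_zero' [k, k]
    exact congrFun this x
  rw [h4] at h1
  have h5 : lp (p t) x = ∑ i, pd i (pd i (p t)) x := rfl
  linarith

end Pool.Agent.H305.SL
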