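import Pool.Agent.H305.SL.Hor

/-!
Uniform slab bounds, and the flux of all components integrated in time.
-/

set_option autoImplicit false

open MeasureTheory Set Metric Filter Topology
open scoped ContDiff ENNReal

namespace Pool.Agent.H305.SL

open H459R3.NS W221.NS Pool.Agent.V1183.PM Pool.Agent.H305.OS
open Pool.Agent.W583.MD (sm_pd pd_mul')
open Pool.Agent.W22.ME.TD (pd_comm)
open Pool.Agent.H305.TI (it it_nil it_cons it_sm J_it dt_it)

/-- Bounds on all slabs. -/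
structure SB (u : ℝ → V → V) (c : Fin 3) (t₀ T A : ℝ) : Prop where
  A0 : 0 ≤ A
  sb1 : ∀ y ρ : ℝ, 0 < ρ → ∀ s ∈ Ico t₀ T, sE (cw u s) c y ρ ≤ ENNReal.ofReal (A * ρ)
  sb2 : ∀ y ρ : ℝ, 0 < ρ → ∀ s' s : ℝ, t₀ ≤ s' → s' ≤ s → s < T → s - s' ≤ ρ ^ 2 →
    ∫⁻ τ in Ioc s' s, sG (cw u τ) c y ρ ≤ ENNReal.ofReal (A * ρ)

section
variable {c : Fin 3} {ν T : ℝ} {u : ℝ → V → V} {p : ℝ → V → ℝ} {t₀ σ E A : ℝ} {N : ℝ → ℝ≥0∞}

lemma MS.SB (h : MS ν T u p c t₀ σ E N) (hEA : E ≤ A) (hB : ∀ n, Bd u c t₀ T n A) :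
    SB u c t₀ T (2 * A) := by
  have hA : 0 ≤ A := h.E0.trans hEA
  refine ⟨by linarith, ?_, ?_⟩
  · intro y ρ hρ s hs
    rcases le_or_gt ρ 1 with h1 | h1
    · obtain ⟨n, hn1, hn2⟩ := exists_nat_pow_near_of_lt_one hρ h1 (by norm_num : (0 : ℝ) < 1 / 2)
        (by norm_num)
      refine le_trans (lintegral_mono_set (slb_mono hn2)) ((hB n n le_rfl y s hs).1.trans ?_)
      apply ENNReal.ofReal_le_ofReal
      rw [pow_succ] at hn1
      nlinarith
    · refine (h.sE_le hs y ρ).trans (ENNReal.ofReal_le_ofReal ?_)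
      nlinarith
  · intro y ρ hρ s' s hs' hss hs hk
    rcases le_or_gt ρ 1 with h1 | h1
    · obtain ⟨n, hn1, hn2⟩ := exists_nat_pow_near_of_lt_one hρ h1 (by norm_num : (0 : ℝ) < 1 / 2)
        (by norm_num)
      have e1 : ρ ^ 2 ≤ (1 / 4) ^ n := by
        have : (((1 : ℝ) / 2) ^ n) ^ 2 = (1 / 4) ^ n := by
          rw [← pow_mul, mul_comm, pow_mul]
          norm_num
        rw [← this]
        exact pow_le_pow_left₀ hρ.le hn2 2
      calc ∫⁻ τ in Ioc s' s, sG (cw u τ) c y ρ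
          ≤ ∫⁻ τ in Ioc (max t₀ (s - (1 / 4) ^ n)) s, sG (cw u τ) c y ρ :=
            lintegral_mono_set (Ioc_subset_Ioc_left (max_le hs' (by linarith)))
        _ ≤ ∫⁻ τ in Ioc (max t₀ (s - (1 / 4) ^ n)) s, sG (cw u τ) c y ((1 / 2) ^ n) :=
            lintegral_mono fun τ => lintegral_mono_set (slb_mono hn2)
        _ ≤ ENNReal.ofReal (A * (1 / 2) ^ n) := (hB n n le_rfl y s ⟨hs'.trans hss, hs⟩).2
        _ ≤ _ := by
            apply ENNReal.ofReal_le_ofReal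
            rw [pow_succ] at hn1
            nlinarith
    · refine (h.sG_le hs' hs y ρ).trans (ENNReal.ofReal_le_ofReal ?_)
      nlinarith

/-- Hölder's inequality for a power. -/
lemma jen {I : Set ℝ} {D : ℝ → ℝ≥0∞} (hD : AEMeasurable D (volume.restrict I)) {β : ℝ}
    (h0 : 0 ≤ β) (h1 : β ≤ 1) :
    ∫⁻ τ in I, D τ ^ β ≤ (∫⁻ τ in I, D τ) ^ β * volume I ^ (1 - β) := by
  have h := hol3 (μ := volume.restrict I) (f := D) (g := fun _ => 1) (h := fun _ => 1)
    hD aemeasurable_const aemeasurable_const (p := β) (q := 1 - β) (r := 0)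
    h0 (by linarith) le_rfl (by ring)
  simp only [ENNReal.one_rpow, mul_one, ENNReal.rpow_zero, setLIntegral_one] at h
  exact h

lemma SB.Dt_int (hB : SB u c t₀ T A) (h : HS ν T u p) (ht₀ : 0 < t₀) {s s' : ℝ} (hs' : t₀ ≤ s')
    (hss : s' ≤ s) (hs : s < T) {ρ : ℝ} (hρ : 0 < ρ) (hk : s - s' ≤ ρ ^ 2) (y : ℝ) :
    ∫⁻ τ in Ioc s' s, Dt (cw u τ) c y ρ ≤ ENNReal.ofReal (8 * B1 ^ 2 * A * ρ) := by
  have hA := hB.A0
  have hB1 := B1_one
  have hI : Ioc s' s ⊆ Ioo 0 T := fun τ hτ => ⟨ht₀.trans_le (hs'.trans hτ.1.le), hτ.2.trans_lt hs⟩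
  unfold Dt
  rw [lintegral_add_left' (HS.m_sG h c y _ measurableSet_Ioc hI),
    lintegral_const_mul' _ _ ENNReal.ofReal_ne_top]
  have h1 := hB.sb2 y (4 * ρ) (by linarith) s' s hs' hss hs (by nlinarith)
  have h2 : ∫⁻ τ in Ioc s' s, sE (cw u τ) c y (4 * ρ)
      ≤ ENNReal.ofReal (A * (4 * ρ) * ρ ^ 2) := by
    calc ∫⁻ τ in Ioc s' s, sE (cw u τ) c y (4 * ρ)
        ≤ ∫⁻ τ in Ioc s' s, ENNReal.ofReal (A * (4 * ρ)) := by
          apply setLIntegral_mono' measurableSet_Ioc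
          intro τ hτ
          exact hB.sb1 y (4 * ρ) (by linarith) τ ⟨hs'.trans hτ.1.le, hτ.2.trans_lt hs⟩
      _ = ENNReal.ofReal (A * (4 * ρ)) * ENNReal.ofReal (s - s') := by
          rw [setLIntegral_const, Real.volume_Ioc]
      _ ≤ _ := by
          rw [← ENNReal.ofReal_mul (by positivity)]
          apply ENNReal.ofReal_le_ofReal
          gcongr
  calc _ ≤ ENNReal.ofReal (A * (4 * ρ)) + ENNReal.ofReal ((B1 / ρ) ^ 2)
        * ENNReal.ofReal (A * (4 * ρ) * ρ ^ 2) := by gcongr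
    _ = ENNReal.ofReal (4 * (A * ρ) + 4 * B1 ^ 2 * (A * ρ)) := by
        rw [← ENNReal.ofReal_mul (by positivity), ← ENNReal.ofReal_add (by positivity) (by positivity)]
        congr 1
        field_simp
    _ ≤ _ := by
        apply ENNReal.ofReal_le_ofReal
        have hp : (0 : ℝ) ≤ A * ρ := by positivity
        nlinarith [mul_le_mul_of_nonneg_right (one_le_pow₀ hB1 (n := 2)) hp]

/-- The flux of all components in a slab. -/
theorem T3 : ∃ C : ℝ, 0 ≤ C ∧ ∀ (c : Fin 3) (ν T : ℝ) (u : ℝ → V → V) (p : ℝ → V → ℝ)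
    (t₀ A : ℝ), HS ν T u p → 0 < t₀ → SB u c t₀ T A → ∀ (i : Fin 3) (y ρ s' s : ℝ), 0 < ρ →
    t₀ ≤ s' → s' ≤ s → s < T → s - s' ≤ ρ ^ 2 →
    ∫⁻ τ in Ioc s' s, fxd (cw u τ) (p τ) (cw u τ i) c y ρ ≤ ENNReal.ofReal (C * (1 + A) ^ 2 * ρ ^ 2) := by
  obtain ⟨Cp, hCp, hp⟩ := press_bd
  have hB1 := B1_one
  refine ⟨(3888 + 2 * Cp * 13824) * (8 * B1 ^ 2) ^ 2 + 2 * Cp * 216, by positivity, ?_⟩
  intro c ν T u p t₀ A h ht₀ hB i y ρ s' s hρ hs' hss hs hk
  have hA := hB.A0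
  have hI : Ioc s' s ⊆ Ioo 0 T := fun τ hτ => ⟨ht₀.trans_le (hs'.trans hτ.1.le), hτ.2.trans_lt hs⟩
  obtain ⟨X, hX⟩ : ∃ X : ℝ≥0∞, X = ENNReal.ofReal (8 * B1 ^ 2 * (1 + A)) := ⟨_, rfl⟩
  obtain ⟨P, hP⟩ : ∃ P : ℝ≥0∞, P = ENNReal.ofReal ρ := ⟨_, rfl⟩
  have hX1 : 1 ≤ X := by
    rw [hX, ← ENNReal.ofReal_one]
    apply ENNReal.ofReal_le_ofReal
    nlinarith
  -- pointwise
  have h1 : ∀ τ ∈ Ioc s' s, fxd (cw u τ) (p τ) (cw u τ i) c y ρ ≤
      3888 * ((X * P) ^ (3 / 4 : ℝ) * Dt (cw u τ) c y ρ ^ (3 / 4 : ℝ))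
      + ENNReal.ofReal (2 * Cp) * (13824 * (P ^ (1 / 4 : ℝ) * ((X * P) ^ (5 / 8 : ℝ)
        * Dt (cw u τ) c y ρ ^ (7 / 8 : ℝ))) + ENNReal.ofReal (216 * (1 + A) ^ 2)) := by
    intro τ hτ
    have hτ1 : τ ∈ Ico t₀ T := ⟨hs'.trans hτ.1.le, hτ.2.trans_lt hs⟩
    have hτ0 := hI hτ
    have hv : ∀ i, HF (cw u τ i) := fun i => h.cw_HF hτ0 i
    have hw : Continuous (cw u τ i) := (hv i).sm.continuous
    have cn := nw_cont hv
    have mw : Measurable fun x => ENNReal.ofReal |cw u τ i x| := hw.measurable.norm.ennreal_ofReal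
    have h2 : fxd (cw u τ) (p τ) (cw u τ i) c y ρ ≤
        (∫⁻ x in slb c y ρ, ENNReal.ofReal (|cw u τ i x| * nw (cw u τ) x))
        + ENNReal.ofReal (2 * Cp) * ((∫⁻ x in slb c y ρ, ENNReal.ofReal |cw u τ i x| * nearP (cw u τ) ρ x)
          + ∫⁻ x in slb c y ρ, ENNReal.ofReal |cw u τ i x| * farP (cw u τ) ρ x) := by
      have m1 : Measurable fun x => ENNReal.ofReal (|cw u τ i x| * nw (cw u τ) x) :=
        (ENNReal.continuous_ofReal.comp (hw.abs.mul cn)).measurable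
      have m2 : Measurable fun x => ENNReal.ofReal |cw u τ i x| * nearP (cw u τ) ρ x := by
        apply mw.mul
        unfold nearP
        have cG : Continuous fun x => √(nw (cw u τ) x) * √(gw (cw u τ) x) :=
          cn.sqrt.mul (gw_cont hv).sqrt
        have : Measurable fun z : V × ℝ => ∫⁻ y' in closedBall (0 : V) 1,
            ENNReal.ofReal (√(nw (cw u τ) (z.1 + z.2 • y')) * √(gw (cw u τ) (z.1 + z.2 • y'))) := by
          have : Measurable fun q : (V × ℝ) × V => ENNReal.ofReal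
              ((fun x => √(nw (cw u τ) x) * √(gw (cw u τ) x)) (q.1.1 + q.1.2 • q.2)) := by
            have : Continuous fun q : (V × ℝ) × V =>
                (fun x => √(nw (cw u τ) x) * √(gw (cw u τ) x)) (q.1.1 + q.1.2 • q.2) :=
              cG.comp (by fun_prop)
            exact (ENNReal.continuous_ofReal.comp this).measurable
          exact this.lintegral_prod_right'
        exact this.lintegral_prod_right'
      unfold fxd
      rw [← lintegral_add_left m2, ← lintegral_const_mul' _ _ ENNReal.ofReal_ne_top,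
        ← lintegral_add_left m1]
      apply lintegral_mono
      intro x
      simp only
      have h2 : ENNReal.ofReal ((nw (cw u τ) x + 2 * |p τ x|) * |cw u τ i x|)
          = ENNReal.ofReal (|cw u τ i x| * nw (cw u τ) x) + ENNReal.ofReal 2 *
            (ENNReal.ofReal |cw u τ i x| * ENNReal.ofReal |p τ x|) := by
        have n1 := nw_nonneg (cw u τ) x
        rw [← ENNReal.ofReal_mul (abs_nonneg _), ← ENNReal.ofReal_mul (by norm_num),
          ← ENNReal.ofReal_add (by positivity) (by positivity)]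
        congr 1
        ring
      rw [h2]
      have h3 := hp (cw u τ) (p τ) hv (h.div τ hτ0) (h.p_HF hτ0) (HS.press h hτ0) ρ hρ x
      calc ENNReal.ofReal (|cw u τ i x| * nw (cw u τ) x) + ENNReal.ofReal 2 *
            (ENNReal.ofReal |cw u τ i x| * ENNReal.ofReal |p τ x|)
          ≤ ENNReal.ofReal (|cw u τ i x| * nw (cw u τ) x) + ENNReal.ofReal 2 *
            (ENNReal.ofReal |cw u τ i x| * (ENNReal.ofReal Cp
              * (nearP (cw u τ) ρ x + farP (cw u τ) ρ x))) := by gcongr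
        _ = _ := by
            rw [ENNReal.ofReal_mul (by norm_num : (0 : ℝ) ≤ 2)]
            ring
    have h3 : sE (cw u τ) c y (4 * ρ) ≤ X * P := by
      refine (hB.sb1 y (4 * ρ) (by linarith) τ hτ1).trans ?_
      rw [hX, hP, ← ENNReal.ofReal_mul (by positivity)]
      apply ENNReal.ofReal_le_ofReal
      have : 0 ≤ A * ρ := by positivity
      nlinarith [mul_le_mul_of_nonneg_right (one_le_pow₀ hB1 (n := 2)) this,
        mul_pos (by positivity : 0 < B1 ^ 2) hρ]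
    refine h2.trans ?_
    have c1 := cubH (c := c) (y := y) hv hρ i
    have c2 := nearH (c := c) (y := y) hv hρ i
    have c3 := farH (c := c) (y := y) hv hρ i hA (fun R hR => hB.sb1 y R hR τ hτ1)
    rw [← hP] at c2
    refine (add_le_add c1 (mul_le_mul_right (add_le_add c2 c3) _)).trans ?_
    gcongr
  have mD : AEMeasurable (fun τ => Dt (cw u τ) c y ρ) (volume.restrict (Ioc s' s)) := by
    unfold Dt
    exact (HS.m_sG h c y _ measurableSet_Ioc hI).add
      ((HS.m_sE h c y _ measurableSet_Ioc hI).const_mul _)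
  have hDi : ∫⁻ τ in Ioc s' s, Dt (cw u τ) c y ρ ≤ X * P := by
    refine (hB.Dt_int h ht₀ hs' hss hs hρ hk y).trans ?_
    rw [hX, hP, ← ENNReal.ofReal_mul (by positivity)]
    apply ENNReal.ofReal_le_ofReal
    gcongr
    linarith
  have hvol : volume (Ioc s' s) ≤ P ^ 2 := by
    rw [Real.volume_Ioc, hP, ← ENNReal.ofReal_pow hρ.le]
    exact ENNReal.ofReal_le_ofReal hk
  have hPne : P ≠ 0 := by
    rw [hP]
    simpa using hρ
  have hPt : P ≠ (⊤ : ℝ≥0∞) := by rw [hP]; exact ENNReal.ofReal_ne_top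
  have q1 : (X * P) ^ (3 / 4 : ℝ) * ∫⁻ τ in Ioc s' s, Dt (cw u τ) c y ρ ^ (3 / 4 : ℝ)
      ≤ X ^ 2 * P ^ 2 := by
    calc (X * P) ^ (3 / 4 : ℝ) * ∫⁻ τ in Ioc s' s, Dt (cw u τ) c y ρ ^ (3 / 4 : ℝ)
        ≤ (X * P) ^ (3 / 4 : ℝ) * ((X * P) ^ (3 / 4 : ℝ) * (P ^ 2) ^ (1 - 3 / 4 : ℝ)) := by
          refine mul_le_mul_right ((jen mD (by norm_num) (by norm_num)).trans ?_) _
          gcongr
      _ = X ^ (3 / 2 : ℝ) * P ^ (2 : ℝ) := by
          rw [ENNReal.mul_rpow_of_nonneg _ _ (by norm_num), ← ENNReal.rpow_natCast,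
            ← ENNReal.rpow_mul]
          have e1 : X ^ (3 / 2 : ℝ) = X ^ (3 / 4 : ℝ) * X ^ (3 / 4 : ℝ) := by
            rw [← ENNReal.rpow_add_of_nonneg _ _ (by norm_num) (by norm_num)]
            norm_num
          have e2 : P ^ (2 : ℝ) = P ^ (3 / 4 : ℝ) * P ^ (3 / 4 : ℝ) * P ^ (((2 : ℕ) : ℝ) * (1 - 3 / 4)) := by
            rw [← ENNReal.rpow_add_of_nonneg _ _ (by norm_num) (by norm_num),
              ← ENNReal.rpow_add_of_nonneg _ _ (by norm_num) (by norm_num)]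
            norm_num
          rw [e1, e2]
          ring
      _ ≤ _ := by
          rw [ENNReal.rpow_two]
          gcongr
          calc X ^ (3 / 2 : ℝ) ≤ X ^ (2 : ℝ) :=
                ENNReal.rpow_le_rpow_of_exponent_le hX1 (by norm_num)
            _ = _ := ENNReal.rpow_two X
  have q2 : P ^ (1 / 4 : ℝ) * ((X * P) ^ (5 / 8 : ℝ)
      * ∫⁻ τ in Ioc s' s, Dt (cw u τ) c y ρ ^ (7 / 8 : ℝ)) ≤ X ^ 2 * P ^ 2 := by
    calc P ^ (1 / 4 : ℝ) * ((X * P) ^ (5 / 8 : ℝ)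
        * ∫⁻ τ in Ioc s' s, Dt (cw u τ) c y ρ ^ (7 / 8 : ℝ))
        ≤ P ^ (1 / 4 : ℝ) * ((X * P) ^ (5 / 8 : ℝ) * ((X * P) ^ (7 / 8 : ℝ)
          * (P ^ 2) ^ (1 - 7 / 8 : ℝ))) := by
          refine mul_le_mul_right (mul_le_mul_right ((jen mD (by norm_num) (by norm_num)).trans ?_) _) _
          gcongr
      _ = X ^ (3 / 2 : ℝ) * P ^ (2 : ℝ) := by
          rw [ENNReal.mul_rpow_of_nonneg _ _ (by norm_num), ENNReal.mul_rpow_of_nonneg _ _ (by norm_num),
            ← ENNReal.rpow_natCast, ← ENNReal.rpow_mul]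
          have e1 : X ^ (3 / 2 : ℝ) = X ^ (5 / 8 : ℝ) * X ^ (7 / 8 : ℝ) := by
            rw [← ENNReal.rpow_add_of_nonneg _ _ (by norm_num) (by norm_num)]
            norm_num
          have e2 : P ^ (2 : ℝ) = P ^ (1 / 4 : ℝ) * P ^ (5 / 8 : ℝ) * P ^ (7 / 8 : ℝ)
              * P ^ (((2 : ℕ) : ℝ) * (1 - 7 / 8)) := by
            rw [← ENNReal.rpow_add_of_nonneg _ _ (by norm_num) (by norm_num),
              ← ENNReal.rpow_add_of_nonneg _ _ (by norm_num) (by norm_num),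
              ← ENNReal.rpow_add_of_nonneg _ _ (by norm_num) (by norm_num)]
            norm_num
          rw [e1, e2]
          ring
      _ ≤ _ := by
          rw [ENNReal.rpow_two]
          gcongr
          calc X ^ (3 / 2 : ℝ) ≤ X ^ (2 : ℝ) :=
                ENNReal.rpow_le_rpow_of_exponent_le hX1 (by norm_num)
            _ = _ := ENNReal.rpow_two X
  have m1 : AEMeasurable (fun τ => 3888 * ((X * P) ^ (3 / 4 : ℝ) * Dt (cw u τ) c y ρ ^ (3 / 4 : ℝ)))
      (volume.restrict (Ioc s' s)) := ((mD.pow_const _).const_mul _).const_mul _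
  have m2 : AEMeasurable (fun τ => 13824 * (P ^ (1 / 4 : ℝ) * ((X * P) ^ (5 / 8 : ℝ)
        * Dt (cw u τ) c y ρ ^ (7 / 8 : ℝ)))) (volume.restrict (Ioc s' s)) :=
    (((mD.pow_const _).const_mul _).const_mul _).const_mul _
  have mm1 : AEMeasurable (fun τ => Dt (cw u τ) c y ρ ^ (3 / 4 : ℝ)) (volume.restrict (Ioc s' s)) :=
    mD.pow_const _
  have mm2 : AEMeasurable (fun τ => Dt (cw u τ) c y ρ ^ (7 / 8 : ℝ)) (volume.restrict (Ioc s' s)) :=
    mD.pow_const _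
  have mm3 : AEMeasurable (fun τ => (X * P) ^ (5 / 8 : ℝ) * Dt (cw u τ) c y ρ ^ (7 / 8 : ℝ))
      (volume.restrict (Ioc s' s)) := mm2.const_mul _
  have mm4 : AEMeasurable (fun τ => P ^ (1 / 4 : ℝ) * ((X * P) ^ (5 / 8 : ℝ)
        * Dt (cw u τ) c y ρ ^ (7 / 8 : ℝ))) (volume.restrict (Ioc s' s)) := mm3.const_mul _
  have mm5 : AEMeasurable (fun τ => (X * P) ^ (3 / 4 : ℝ) * Dt (cw u τ) c y ρ ^ (3 / 4 : ℝ))
      (volume.restrict (Ioc s' s)) := mm1.const_mul _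
  refine (setLIntegral_mono' measurableSet_Ioc h1).trans ?_
  rw [lintegral_add_left' m1, lintegral_const_mul' _ _ ENNReal.ofReal_ne_top,
    lintegral_add_left' m2, lintegral_const_mul'' _ mm5, lintegral_const_mul'' _ mm1,
    lintegral_const_mul'' _ mm4, lintegral_const_mul'' _ mm3, lintegral_const_mul'' _ mm2,
    setLIntegral_const]
  calc _ ≤ 3888 * (X ^ 2 * P ^ 2) + ENNReal.ofReal (2 * Cp) * (13824 * (X ^ 2 * P ^ 2)
        + ENNReal.ofReal (216 * (1 + A) ^ 2) * P ^ 2) := by gcongr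
    _ = _ := by
        rw [show (3888 : ℝ≥0∞) = ENNReal.ofReal 3888 by norm_num,
          show (13824 : ℝ≥0∞) = ENNReal.ofReal 13824 by norm_num, hX, hP,
          ← ENNReal.ofReal_pow (by positivity), ← ENNReal.ofReal_pow (by positivity),
          ← ENNReal.ofReal_mul (by positivity), ← ENNReal.ofReal_mul (by positivity),
          ← ENNReal.ofReal_mul (by positivity), ← ENNReal.ofReal_mul (by positivity),
          ← ENNReal.ofReal_add (by positivity) (by positivity), ← ENNReal.ofReal_mul (by positivity),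
          ← ENNReal.ofReal_add (by positivity) (by positivity)]
        congr 1
        ring

end

end Pool.Agent.H305.SL
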