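import Pool.Agent.H305.SL.Far
import Pool.Agent.H305.SL.Gau

/-!
The flux through a slab at one time.
-/

set_option autoImplicit false

open MeasureTheory Set Metric Filter Topology
open scoped ContDiff ENNReal

namespace Pool.Agent.H305.SL

open H459R3.NS W221.NS Pool.Agent.V1183.PM Pool.Agent.H305.OS
open Pool.Agent.W583.MD (sm_pd pd_mul')
open Pool.Agent.W22.ME.TD (pd_comm)
open Pool.Agent.H305.TI (it it_nil it_cons it_sm J_it dt_it)

section
variable {c : Fin 3} {y ρ R : ℝ} {v : Fin 3 → V → ℝ} {w : V → ℝ}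

/-- The dissipation in a slab. -/
noncomputable def sG (v : Fin 3 → V → ℝ) (c : Fin 3) (y ρ : ℝ) : ℝ≥0∞ :=
  ∫⁻ x in slb c y ρ, ENNReal.ofReal (gw v x)

/-- The full `H¹` norm in a slab. -/
noncomputable def Dt (v : Fin 3 → V → ℝ) (c : Fin 3) (y ρ : ℝ) : ℝ≥0∞ :=
  sG v c y (4 * ρ) + ENNReal.ofReal ((B1 / ρ) ^ 2) * sE v c y (4 * ρ)

lemma shift_le {F : V → ℝ≥0∞} {z : V} (hz : |z c| ≤ ρ) :
    ∫⁻ x in slb c y (3 * ρ), F (x + z) ≤ ∫⁻ x in slb c y (4 * ρ), F x := by
  rw [← lintegral_indicator slb_meas, ← lintegral_indicator slb_meas,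
    ← lintegral_add_right_eq_self (fun x => (slb c y (4 * ρ)).indicator F x) z]
  apply lintegral_mono
  intro x
  by_cases hx : x ∈ slb c y (3 * ρ)
  · have : x + z ∈ slb c y (4 * ρ) := by
      have h1 : |x c - y| < 3 * ρ := hx
      show |(x + z) c - y| < 4 * ρ
      have h2 : (x + z) c - y = (x c - y) + z c := by
        simp only [Pi.add_apply]
        ring
      rw [h2]
      exact (abs_add_le _ _).trans_lt (by linarith)
    simp only
    rw [indicator_of_mem hx, indicator_of_mem this]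
  · simp only
    rw [indicator_of_notMem hx]
    exact zero_le

lemma vol_cb : volume (closedBall (0 : V) 1) = 8 := by
  have h := Real.volume_pi_closedBall (0 : V) (zero_le_one)
  rw [h]
  norm_num

lemma BR_nonneg (hρ : 0 < ρ) : 0 ≤ B1 / ρ := by
  have := B1_one
  positivity

lemma TA' {σ : ℝ} {N : ℝ≥0∞} (hN : MU σ N w) (hv : ∀ i, HF (v i)) (hw : Continuous w)
    (hσ0 : 0 ≤ σ) (hσ : σ ≤ 1 / 2) (hρ : 0 < ρ) {z : V} (hz : |z c| ≤ ρ) :
    ∫⁻ x in slb c y ρ, ENNReal.ofReal |w x| *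
        ENNReal.ofReal (√(nw v (x + z)) * √(gw v (x + z))) ≤
      18 * (N * ((sE v c y (4 * ρ)) ^ ((1 - 2 * σ) / 2) * (Dt v c y ρ) ^ ((1 + 2 * σ) / 2))) := by
  have h := TA (χ := ct c y ρ) (B := B1 / ρ) (S := slb c y (3 * ρ)) hN hv (ct_BF hρ)
    (fun x => by rw [abs_of_nonneg (ct_nonneg x)]; exact ct_le x)
    (fun m x => pd_ct_le hρ m x) slb_meas
    (fun x hx => ct_out hρ fun h => hx (slb_mono (by linarith) h))
    (fun m x hx => pd_ct_out hρ m hx) hw hσ0 hσ z
  have h1 : ∫⁻ x in slb c y ρ, ENNReal.ofReal |w x| *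
        ENNReal.ofReal (√(nw v (x + z)) * √(gw v (x + z))) ≤
      ∫⁻ x, ENNReal.ofReal (|w x| * ct c y ρ x ^ 2) *
        ENNReal.ofReal (√(nw v (x + z)) * √(gw v (x + z))) := by
    rw [← lintegral_indicator slb_meas]
    apply lintegral_mono
    intro x
    by_cases hx : x ∈ slb c y ρ
    · simp only
      rw [indicator_of_mem hx, ct_one hρ hx]
      simp
    · simp only
      rw [indicator_of_notMem hx]
      exact zero_le
  refine h1.trans (h.trans ?_)
  have hE := shift_le (c := c) (y := y) (F := fun x => ENNReal.ofReal (nw v x)) hz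
  have hG := shift_le (c := c) (y := y) (F := fun x => ENNReal.ofReal (gw v x)) hz
  gcongr
  · linarith
  · exact hE
  · unfold Dt
    gcongr
    · exact hG
    · exact hE

/-- The cubic term. -/
lemma TB' {σ : ℝ} {N : ℝ≥0∞} (hN : MU σ N w) (hv : ∀ i, HF (v i)) (hw : Continuous w)
    (hσ0 : 0 ≤ σ) (hσ : σ ≤ 1 / 2) (hρ : 0 < ρ) :
    ∫⁻ x in slb c y ρ, ENNReal.ofReal (|w x| * nw v x) ≤
      18 * (ENNReal.ofReal ρ * (N * ((sE v c y (4 * ρ)) ^ ((1 - 2 * σ) / 2)
        * (Dt v c y ρ) ^ ((1 + 2 * σ) / 2)))) := by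
  have h := TB (χ := ct c y ρ) (B := B1 / ρ) (S := slb c y (3 * ρ)) hN hv (ct_BF hρ)
    (fun x => by rw [abs_of_nonneg (ct_nonneg x)]; exact ct_le x)
    (fun m x => pd_ct_le hρ m x) slb_meas
    (fun x hx => ct_out hρ fun h => hx (slb_mono (by linarith) h))
    (fun m x hx => pd_ct_out hρ m hx) hw hσ0 hσ
  have h1 : ∫⁻ x in slb c y ρ, ENNReal.ofReal (|w x| * nw v x) ≤
      ∫⁻ x, ENNReal.ofReal (|w x| * ct c y ρ x ^ 2 * nw v x) := by
    rw [← lintegral_indicator slb_meas]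
    apply lintegral_mono
    intro x
    by_cases hx : x ∈ slb c y ρ
    · simp only
      rw [indicator_of_mem hx, ct_one hρ hx]
      simp
    · simp only
      rw [indicator_of_notMem hx]
      exact zero_le
  refine h1.trans (h.trans ?_)
  have hE : ∫⁻ x in slb c y (3 * ρ), ENNReal.ofReal (nw v x) ≤ sE v c y (4 * ρ) :=
    lintegral_mono_set (slb_mono (by linarith))
  have hG : ∫⁻ x in slb c y (3 * ρ), ENNReal.ofReal (gw v x) ≤ sG v c y (4 * ρ) :=
    lintegral_mono_set (slb_mono (by linarith))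
  have hD : (∫⁻ x in slb c y (3 * ρ), ENNReal.ofReal (gw v x))
      + ENNReal.ofReal ((B1 / ρ) ^ 2) * ∫⁻ x in slb c y (3 * ρ), ENNReal.ofReal (nw v x)
      ≤ Dt v c y ρ := by
    unfold Dt
    gcongr
  have hh : (∫⁻ x in slb c y (3 * ρ), ENNReal.ofReal (nw v x)) ^ (1 / 2 : ℝ)
      ≤ ENNReal.ofReal ρ * (Dt v c y ρ) ^ (1 / 2 : ℝ) := by
    have h2 : ∫⁻ x in slb c y (3 * ρ), ENNReal.ofReal (nw v x)
        ≤ ENNReal.ofReal ρ ^ 2 * Dt v c y ρ := by
      calc ∫⁻ x in slb c y (3 * ρ), ENNReal.ofReal (nw v x)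
          ≤ sE v c y (4 * ρ) := hE
        _ = 1 * sE v c y (4 * ρ) := (one_mul _).symm
        _ ≤ (ENNReal.ofReal ρ ^ 2 * ENNReal.ofReal ((B1 / ρ) ^ 2)) * sE v c y (4 * ρ) := by
            gcongr
            rw [← ENNReal.ofReal_pow hρ.le, ← ENNReal.ofReal_mul (by positivity),
              ← ENNReal.ofReal_one]
            apply ENNReal.ofReal_le_ofReal
            have := B1_one
            rw [← mul_pow, mul_div_cancel₀ _ hρ.ne']
            nlinarith
        _ ≤ _ := by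
            rw [mul_assoc]
            gcongr
            unfold Dt
            exact le_add_self
    calc (∫⁻ x in slb c y (3 * ρ), ENNReal.ofReal (nw v x)) ^ (1 / 2 : ℝ)
        ≤ (ENNReal.ofReal ρ ^ 2 * Dt v c y ρ) ^ (1 / 2 : ℝ) :=
          ENNReal.rpow_le_rpow h2 (by norm_num)
      _ = _ := by
          rw [ENNReal.mul_rpow_of_nonneg _ _ (by norm_num), ← ENNReal.rpow_natCast,
            ← ENNReal.rpow_mul, show ((2 : ℕ) : ℝ) * (1 / 2) = 1 by norm_num, ENNReal.rpow_one]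
  calc 18 * (N * ((∫⁻ x in slb c y (3 * ρ), ENNReal.ofReal (nw v x)) ^ ((1 - 2 * σ) / 2)
        * ((∫⁻ x in slb c y (3 * ρ), ENNReal.ofReal (gw v x))
      + ENNReal.ofReal ((B1 / ρ) ^ 2) * ∫⁻ x in slb c y (3 * ρ), ENNReal.ofReal (nw v x)) ^ σ))
        * (∫⁻ x in slb c y (3 * ρ), ENNReal.ofReal (nw v x)) ^ (1 / 2 : ℝ)
      ≤ 18 * (N * ((sE v c y (4 * ρ)) ^ ((1 - 2 * σ) / 2) * (Dt v c y ρ) ^ σ))
        * (ENNReal.ofReal ρ * (Dt v c y ρ) ^ (1 / 2 : ℝ)) := by
        gcongr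
        linarith
    _ = 18 * (ENNReal.ofReal ρ * (N * ((sE v c y (4 * ρ)) ^ ((1 - 2 * σ) / 2)
        * ((Dt v c y ρ) ^ σ * (Dt v c y ρ) ^ (1 / 2 : ℝ))))) := by ring
    _ = _ := by
        rw [← ENNReal.rpow_add_of_nonneg _ _ hσ0 (by norm_num), show σ + 1 / 2 = (1 + 2 * σ) / 2 by ring]

/-- The near part of the pressure. -/
lemma TN {σ : ℝ} {N : ℝ≥0∞} (hN : MU σ N w) (hv : ∀ i, HF (v i)) (hw : Continuous w)
    (hσ0 : 0 ≤ σ) (hσ : σ ≤ 1 / 2) (hρ : 0 < ρ) :
    ∫⁻ x in slb c y ρ, ENNReal.ofReal |w x| * nearP v ρ x ≤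
      144 * (ENNReal.ofReal ρ * (N * ((sE v c y (4 * ρ)) ^ ((1 - 2 * σ) / 2)
        * (Dt v c y ρ) ^ ((1 + 2 * σ) / 2)))) := by
  have cn := nw_cont hv
  have cg := gw_cont hv
  obtain ⟨G, hG⟩ : ∃ G : V → ℝ, G = fun x => √(nw v x) * √(gw v x) := ⟨_, rfl⟩
  have cG : Continuous G := by
    rw [hG]
    exact cn.sqrt.mul cg.sqrt
  have m1 : Measurable fun x => ENNReal.ofReal |w x| :=
    (ENNReal.continuous_ofReal.comp hw.abs).measurable
  have e0 : ∫⁻ x in slb c y ρ, ENNReal.ofReal |w x| * nearP v ρ x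
      = ∫⁻ R in Ioc 0 ρ, ∫⁻ y' in closedBall (0 : V) 1, ∫⁻ x in slb c y ρ, ENNReal.ofReal |w x|
        * ENNReal.ofReal (G (x + R • y')) := by
    unfold nearP
    have m2 : Measurable fun z : V × ℝ => ∫⁻ y' in closedBall (0 : V) 1,
        ENNReal.ofReal (G (z.1 + z.2 • y')) := by
      have : Measurable fun q : (V × ℝ) × V => ENNReal.ofReal (G (q.1.1 + q.1.2 • q.2)) := by
        have : Continuous fun q : (V × ℝ) × V => G (q.1.1 + q.1.2 • q.2) := by fun_prop
        exact (ENNReal.continuous_ofReal.comp this).measurable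
      exact this.lintegral_prod_right'
    have e6 : ∀ x, ENNReal.ofReal |w x| * ∫⁻ R in Ioc 0 ρ,
        ∫⁻ y' in closedBall (0 : V) 1,
          ENNReal.ofReal (√(nw v (x + R • y')) * √(gw v (x + R • y')))
        = ∫⁻ R in Ioc 0 ρ, ENNReal.ofReal |w x| *
        ∫⁻ y' in closedBall (0 : V) 1, ENNReal.ofReal (G (x + R • y')) := by
      intro x
      rw [hG, ← lintegral_const_mul' _ _ ENNReal.ofReal_ne_top]
    simp only [e6]
    rw [lintegral_lintegral_swap]
    · apply lintegral_congr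
      intro R
      simp only [← lintegral_const_mul' _ _ ENNReal.ofReal_ne_top]
      rw [lintegral_lintegral_swap]
      apply Measurable.aemeasurable
      apply (m1.comp measurable_fst).mul
      have : Continuous fun q : V × V => G (q.1 + R • q.2) := by fun_prop
      exact (ENNReal.continuous_ofReal.comp this).measurable
    · apply Measurable.aemeasurable
      exact (m1.comp measurable_fst).mul m2
  rw [e0]
  calc ∫⁻ R in Ioc 0 ρ, ∫⁻ y' in closedBall (0 : V) 1, ∫⁻ x in slb c y ρ, ENNReal.ofReal |w x|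
        * ENNReal.ofReal (G (x + R • y'))
      ≤ ∫⁻ R in Ioc 0 ρ, ∫⁻ y' in closedBall (0 : V) 1,
        18 * (N * ((sE v c y (4 * ρ)) ^ ((1 - 2 * σ) / 2) * (Dt v c y ρ) ^ ((1 + 2 * σ) / 2))) := by
        apply setLIntegral_mono' measurableSet_Ioc
        intro R hR
        apply setLIntegral_mono' measurableSet_closedBall
        intro y' hy'
        rw [hG]
        apply TA' hN hv hw hσ0 hσ hρ
        rw [mem_closedBall, dist_zero_right, pi_norm_le_iff_of_nonneg zero_le_one] at hy'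
        have h1 : |y' c| ≤ 1 := hy' c
        show |R * y' c| ≤ ρ
        rw [abs_mul, abs_of_pos hR.1]
        calc R * |y' c| ≤ R * 1 := mul_le_mul_of_nonneg_left h1 hR.1.le
          _ ≤ ρ := by linarith [hR.2]
    _ = _ := by
        simp only [lintegral_const, Measure.restrict_apply MeasurableSet.univ, univ_inter, vol_cb,
          Real.volume_Ioc, sub_zero]
        ring

end

end Pool.Agent.H305.SL
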