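import Pool.Agent.H305.OS.Sup
import Pool.Agent.H305.OS.Rot

/-!
Weights: smooth functions with bounded derivatives, the Gaussian kernel in one variable.
-/

set_option autoImplicit false

open MeasureTheory Set Metric Filter Topology
open scoped ContDiff ENNReal

namespace Pool.Agent.H305.SL

open H459R3.NS W221.NS Pool.Agent.V1183.PM Pool.Agent.H305.OS
open Pool.Agent.W583.MD (sm_pd pd_mul')
open Pool.Agent.W22.ME.TD (pd_comm)
open Pool.Agent.H305.TI (it it_nil it_cons it_sm J_it dt_it)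

/-- All derivatives are bounded, uniformly for `t ∈ I`. -/
structure UB (I : Set ℝ) (F : ℝ → V → ℝ) : Prop where
  sm : ∀ t ∈ I, ContDiff ℝ ∞ (F t)
  bd : ∀ l : List (Fin 3), ∃ C : ℝ, 0 ≤ C ∧ ∀ t ∈ I, ∀ x, |it l (F t) x| ≤ C

section
variable {I : Set ℝ} {F G : ℝ → V → ℝ} {f g : V → ℝ}

lemma UF.ub (h : UF I F) : UB I F := by
  refine ⟨h.sm, fun l => ?_⟩
  obtain ⟨C, hC, h1⟩ := h.bd l
  exact ⟨C, hC, fun t ht => (h1 t ht).1⟩

lemma UB.pd (h : UB I F) (j : Fin 3) : UB I (fun t => pd j (F t)) := by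
  refine ⟨fun t ht => sm_pd (h.sm t ht) j, fun l => ?_⟩
  exact h.bd (j :: l)

lemma UB.mono {I' : Set ℝ} (h : UB I F) (hI : I' ⊆ I) : UB I' F :=
  ⟨fun t ht => h.sm t (hI ht), fun l => by
    obtain ⟨C, hC, h1⟩ := h.bd l
    exact ⟨C, hC, fun t ht => h1 t (hI ht)⟩⟩

lemma UB.congr (h : UB I F) (hFG : ∀ τ ∈ I, G τ = F τ) : UB I G := by
  refine ⟨fun τ hτ => by rw [hFG τ hτ]; exact h.sm τ hτ, fun l => ?_⟩
  obtain ⟨C, hC, h1⟩ := h.bd l
  exact ⟨C, hC, fun τ hτ => by rw [hFG τ hτ]; exact h1 τ hτ⟩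

lemma BL_mulB (hF : UF I F) (hG : UB I G) : BL I (fun t x => F t x * G t x) := by
  obtain ⟨C1, hC1, h1⟩ := hF.bd []
  obtain ⟨C2, hC2, h2⟩ := hG.bd []
  refine ⟨C1 * C2 + C2 ^ 2 * C1, by positivity, fun t ht => ⟨fun x => ?_, ?_⟩⟩
  · have a1 := (h1 t ht).1 x
    have a2 := h2 t ht x
    rw [it_nil] at a1 a2
    rw [abs_mul]
    have := mul_le_mul a1 a2 (abs_nonneg _) hC1
    have : 0 ≤ C2 ^ 2 * C1 := by positivity
    linarith
  · have a1 := (h1 t ht).2
    rw [it_nil] at a1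
    have e : sqi (fun x => F t x * G t x) ≤ ENNReal.ofReal (C2 ^ 2) * sqi (F t) := by
      unfold sqi
      rw [← lintegral_const_mul _ (by
        have := (hF.sm t ht).continuous.measurable
        fun_prop)]
      apply lintegral_mono
      intro x
      simp only
      rw [← ENNReal.ofReal_mul (sq_nonneg C2)]
      apply ENNReal.ofReal_le_ofReal
      have a1 := h2 t ht x
      rw [it_nil] at a1
      rw [mul_pow, mul_comm]
      apply mul_le_mul_of_nonneg_right _ (sq_nonneg _)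
      rw [← sq_abs]
      exact pow_le_pow_left₀ (abs_nonneg _) a1 2
    refine e.trans ((mul_le_mul_right a1 _).trans ?_)
    rw [← ENNReal.ofReal_mul (sq_nonneg C2)]
    apply ENNReal.ofReal_le_ofReal
    have : 0 ≤ C1 * C2 := by positivity
    linarith

lemma UF.mulB_aux (l : List (Fin 3)) : ∀ {F G : ℝ → V → ℝ}, UF I F → UB I G →
    BL I (fun t => it l (fun x => F t x * G t x)) := by
  induction l with
  | nil => intro F G hF hG; exact BL_mulB hF hG
  | cons i l ih =>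
    intro F G hF hG
    obtain ⟨C1, hC1, h1⟩ := ih hF (hG.pd i)
    obtain ⟨C2, hC2, h2⟩ := ih (hF.pd i) hG
    refine ⟨2 * C1 + 2 * C2, by positivity, fun t ht => ?_⟩
    have sF := hF.sm t ht
    have sG := hG.sm t ht
    have e : it (i :: l) (fun x => F t x * G t x)
        = fun x => it l (fun x => F t x * H459R3.NS.pd i (G t) x) x
          + it l (fun x => H459R3.NS.pd i (F t) x * G t x) x := by
      rw [it_cons, ← it_add l (sF.mul (sm_pd sG i)) ((sm_pd sF i).mul sG)]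
      congr 1
      funext x
      rw [pd_mul' sF sG]
    show (∀ x, |it (i :: l) (fun x => F t x * G t x) x| ≤ 2 * C1 + 2 * C2) ∧
      sqi (it (i :: l) (fun x => F t x * G t x)) ≤ ENNReal.ofReal (2 * C1 + 2 * C2)
    rw [e]
    refine ⟨fun x => ?_, ?_⟩
    · have a1 := (h1 t ht).1 x
      have a2 := (h2 t ht).1 x
      exact (abs_add_le _ _).trans (by linarith)
    · refine (sqi_add_le (it_sm l (sF.mul (sm_pd sG i))).continuous.measurable
        (it_sm l ((sm_pd sF i).mul sG)).continuous.measurable).trans ?_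
      rw [ENNReal.ofReal_add (by positivity) (by positivity), ENNReal.ofReal_mul (by norm_num),
        ENNReal.ofReal_mul (by norm_num), ENNReal.ofReal_ofNat]
      exact add_le_add (mul_le_mul_right (h1 t ht).2 _) (mul_le_mul_right (h2 t ht).2 _)

lemma UF.mulB (hF : UF I F) (hG : UB I G) : UF I (fun t x => F t x * G t x) :=
  ⟨fun t ht => (hF.sm t ht).mul (hG.sm t ht), fun l => UF.mulB_aux l hF hG⟩

lemma UB.mul_aux (l : List (Fin 3)) : ∀ {F G : ℝ → V → ℝ}, UB I F → UB I G →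
    ∃ C : ℝ, 0 ≤ C ∧ ∀ t ∈ I, ∀ x, |it l (fun x => F t x * G t x) x| ≤ C := by
  induction l with
  | nil =>
    intro F G hF hG
    obtain ⟨C1, hC1, h1⟩ := hF.bd []
    obtain ⟨C2, hC2, h2⟩ := hG.bd []
    refine ⟨C1 * C2, by positivity, fun t ht x => ?_⟩
    have a1 := h1 t ht x
    have a2 := h2 t ht x
    rw [it_nil] at a1 a2 ⊢
    rw [abs_mul]
    exact mul_le_mul a1 a2 (abs_nonneg _) hC1
  | cons i l ih =>
    intro F G hF hG
    obtain ⟨C1, hC1, h1⟩ := ih hF (hG.pd i)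
    obtain ⟨C2, hC2, h2⟩ := ih (hF.pd i) hG
    refine ⟨C1 + C2, by positivity, fun t ht x => ?_⟩
    have sF := hF.sm t ht
    have sG := hG.sm t ht
    have e : it (i :: l) (fun x => F t x * G t x)
        = fun x => it l (fun x => F t x * H459R3.NS.pd i (G t) x) x
          + it l (fun x => H459R3.NS.pd i (F t) x * G t x) x := by
      rw [it_cons, ← it_add l (sF.mul (sm_pd sG i)) ((sm_pd sF i).mul sG)]
      congr 1
      funext x
      rw [pd_mul' sF sG]
    rw [e]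
    exact (abs_add_le _ _).trans (add_le_add (h1 t ht x) (h2 t ht x))

lemma UB.mul (hF : UB I F) (hG : UB I G) : UB I (fun t x => F t x * G t x) :=
  ⟨fun t ht => (hF.sm t ht).mul (hG.sm t ht), fun l => UB.mul_aux l hF hG⟩

lemma UB.add (hF : UB I F) (hG : UB I G) : UB I (fun t x => F t x + G t x) := by
  refine ⟨fun t ht => (hF.sm t ht).add (hG.sm t ht), fun l => ?_⟩
  obtain ⟨C1, hC1, h1⟩ := hF.bd l
  obtain ⟨C2, hC2, h2⟩ := hG.bd l
  refine ⟨C1 + C2, by positivity, fun t ht x => ?_⟩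
  rw [it_add l (hF.sm t ht) (hG.sm t ht)]
  exact (abs_add_le _ _).trans (add_le_add (h1 t ht x) (h2 t ht x))

lemma UB.cmul (hF : UB I F) (c : ℝ) : UB I (fun t x => c * F t x) := by
  refine ⟨fun t ht => contDiff_const.mul (hF.sm t ht), fun l => ?_⟩
  obtain ⟨C1, hC1, h1⟩ := hF.bd l
  refine ⟨|c| * C1, by positivity, fun t ht x => ?_⟩
  rw [it_cmul l c (hF.sm t ht)]
  simp only
  rw [abs_mul]
  exact mul_le_mul_of_nonneg_left (h1 t ht x) (abs_nonneg c)

lemma it_zero' (l : List (Fin 3)) : it l (fun _ : V => (0 : ℝ)) = fun _ => 0 := by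
  have := it_cmul l 0 (f := fun _ : V => (0 : ℝ)) contDiff_const
  simpa using this

lemma UB.zero : UB I (fun _ _ => 0) := by
  refine ⟨fun t ht => contDiff_const, fun l => ⟨0, le_rfl, fun t ht x => ?_⟩⟩
  rw [it_zero' l]
  simp

lemma it_const (c : ℝ) (i : Fin 3) (l : List (Fin 3)) :
    it (i :: l) (fun _ : V => c) = fun _ => 0 := by
  rw [it_cons]
  have : H459R3.NS.pd i (fun _ : V => c) = fun _ => 0 := by
    funext x
    unfold H459R3.NS.pd
    simp
  rw [this, it_zero']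

lemma UB.const (c : ℝ) : UB I (fun _ _ => c) := by
  refine ⟨fun t ht => contDiff_const, fun l => ⟨|c|, abs_nonneg _, fun t ht x => ?_⟩⟩
  cases l with
  | nil => exact le_rfl
  | cons i l =>
    rw [it_const]
    simp

lemma UB.sum {F : Fin 3 → ℝ → V → ℝ} (hF : ∀ i, UB I (F i)) : UB I (fun t x => ∑ i, F i t x) := by
  have := ((hF 0).add (hF 1)).add (hF 2)
  simpa [Fin.sum_univ_three] using this

/-- A smooth function with compact support has bounded and square integrable derivatives. -/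
lemma HF_of_supp {f : V → ℝ} (hf : ContDiff ℝ ∞ f) (hc : HasCompactSupport f) : HF f := by
  refine ⟨fun _ _ => hf, fun l => ?_⟩
  have h1 : ∀ l : List (Fin 3), ∀ {g : V → ℝ}, ContDiff ℝ ∞ g → HasCompactSupport g →
      ContDiff ℝ ∞ (it l g) ∧ HasCompactSupport (it l g) := by
    intro l
    induction l with
    | nil => intro g h1 h2; exact ⟨h1, h2⟩
    | cons i l ih =>
      intro g h1 h2
      rw [it_cons]
      apply ih (sm_pd h1 i)
      have : HasCompactSupport (fderiv ℝ g) := h2.fderiv (𝕜 := ℝ)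
      exact this.comp_left (g := fun L : V →L[ℝ] ℝ => L (Pi.single i 1)) (by simp)
  obtain ⟨h2, h3⟩ := h1 l hf hc
  obtain ⟨C, hC⟩ := h2.continuous.bounded_above_of_compact_support h3
  have h4 : Integrable (fun x => it l f x ^ 2) := by
    apply (h2.continuous.pow 2).integrable_of_hasCompactSupport
    have := h3.comp_left (g := fun z : ℝ => z ^ 2) (by simp)
    exact this
  obtain ⟨D, hD⟩ : ∃ D, D = ∫ x, it l f x ^ 2 := ⟨_, rfl⟩
  have hD0 : 0 ≤ D := by
    rw [hD]
    exact integral_nonneg fun x => sq_nonneg _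
  refine ⟨|C| + D, by positivity, fun _ _ => ⟨fun x => ?_, ?_⟩⟩
  · have := hC x
    rw [Real.norm_eq_abs] at this
    have := le_abs_self C
    linarith
  · unfold sqi
    rw [← ofReal_integral_eq_lintegral_ofReal h4 (Eventually.of_forall fun x => sq_nonneg _), ← hD]
    apply ENNReal.ofReal_le_ofReal
    have := abs_nonneg C
    linarith

/-! ### Functions of one variable -/

lemma pd_coord {g : ℝ → ℝ} (hg : ContDiff ℝ ∞ g) (c m : Fin 3) :
    H459R3.NS.pd m (fun x : V => g (x c)) = if m = c then fun x => deriv g (x c) else fun _ => 0 := by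
  have h1 : ∀ x : V, H459R3.NS.pd m (fun x : V => g (x c)) x
      = deriv g (x c) * (Pi.single m 1 : V) c := by
    intro x
    unfold H459R3.NS.pd
    have h2 : HasFDerivAt (fun x : V => x c) (ContinuousLinearMap.proj (R := ℝ) (φ := fun _ : Fin 3 => ℝ) c) x :=
      (ContinuousLinearMap.proj (R := ℝ) (φ := fun _ : Fin 3 => ℝ) c).hasFDerivAt
    have h3 : HasDerivAt g (deriv g (x c)) (x c) :=
      ((hg.differentiable (by simp)) (x c)).hasDerivAt
    have h4 := h3.comp_hasFDerivAt x h2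
    have h5 : fderiv ℝ (fun x : V => g (x c)) x = _ := h4.fderiv
    rw [h5]
    simp
  split_ifs with h
  · subst h
    funext x
    rw [h1 x]
    simp
  · funext x
    rw [h1 x, Pi.single_apply, if_neg (fun h' => h h'.symm)]
    simp

/-- A monomial times a Gaussian. -/
noncomputable def mon (c : Fin 3) (y : ℝ) (k : ℕ) (a b : ℝ) : V → ℝ := fun x =>
  a * (x c - y) ^ k * Real.exp (-b * (x c - y) ^ 2)

lemma mon1_sm (y : ℝ) (k : ℕ) (a b : ℝ) :
    ContDiff ℝ ∞ fun z : ℝ => a * (z - y) ^ k * Real.exp (-b * (z - y) ^ 2) := by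
  fun_prop

lemma mon_sm (c : Fin 3) (y : ℝ) (k : ℕ) (a b : ℝ) : ContDiff ℝ ∞ (mon c y k a b) :=
  (mon1_sm y k a b).comp (contDiff_apply ℝ ℝ c)

lemma pd_mon (c m : Fin 3) (y : ℝ) (k : ℕ) (a b : ℝ) :
    H459R3.NS.pd m (mon c y k a b) = fun x =>
      mon c y (k - 1) (if m = c then k * a else 0) b x
        + mon c y (k + 1) (if m = c then -2 * b * a else 0) b x := by
  have h1 := pd_coord (mon1_sm y k a b) c m
  unfold mon at *
  rw [h1]
  split_ifs with h
  · funext x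
    have h2 : HasDerivAt (fun z : ℝ => a * (z - y) ^ k * Real.exp (-b * (z - y) ^ 2))
        ((a * (k * (x c - y) ^ (k - 1) * 1)) * Real.exp (-b * (x c - y) ^ 2)
          + a * (x c - y) ^ k * (Real.exp (-b * (x c - y) ^ 2) * (-b * (2 * (x c - y) ^ 1 * 1))))
        (x c) := by
      have h3 : HasDerivAt (fun z : ℝ => z - y) 1 (x c) := (hasDerivAt_id _).sub_const y
      have h4 := (h3.pow k).const_mul a
      have h5 := ((h3.pow 2).const_mul (-b)).exp
      have h6 : HasDerivAt (fun z : ℝ => a * (z - y) ^ k * Real.exp (-b * (z - y) ^ 2)) _ (x c) :=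
        h4.mul h5
      refine h6.congr_deriv ?_
      simp only [Nat.cast_ofNat, Nat.add_one_sub_one, Pi.pow_apply]
    rw [h2.deriv]
    ring
  · funext x
    simp

lemma gauss_bd {b₀ : ℝ} (hb : 0 < b₀) (k : ℕ) : ∃ C : ℝ, 0 ≤ C ∧ ∀ b z : ℝ, b₀ ≤ b →
    |z ^ k * Real.exp (-b * z ^ 2)| ≤ C := by
  refine ⟨1 + k.factorial / b₀ ^ k, by positivity, fun b z hbb => ?_⟩
  have h1 : (b₀ * z ^ 2) ^ k / k.factorial ≤ Real.exp (b₀ * z ^ 2) :=
    Real.pow_div_factorial_le_exp _ (by positivity) _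
  have h2 : Real.exp (-b * z ^ 2) ≤ Real.exp (-(b₀ * z ^ 2)) := by
    apply Real.exp_le_exp.2
    nlinarith [sq_nonneg z]
  have h3 : |z| ^ k ≤ 1 + (z ^ 2) ^ k := by
    rcases le_total |z| 1 with h | h
    · have := pow_le_one₀ (abs_nonneg z) h (n := k)
      have : 0 ≤ (z ^ 2) ^ k := by positivity
      linarith
    · have : |z| ^ k ≤ (z ^ 2) ^ k := by
        rw [← sq_abs]
        apply pow_le_pow_left₀ (abs_nonneg _)
        nlinarith
      linarith
  rw [abs_mul, abs_pow, abs_of_pos (Real.exp_pos _)]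
  have h4 : Real.exp (-(b₀ * z ^ 2)) ≤ 1 := by
    rw [Real.exp_le_one_iff]
    have : 0 ≤ b₀ * z ^ 2 := by positivity
    linarith
  have h5 : (z ^ 2) ^ k * Real.exp (-(b₀ * z ^ 2)) ≤ k.factorial / b₀ ^ k := by
    rw [Real.exp_neg]
    rw [mul_inv_le_iff₀ (Real.exp_pos _)]
    rw [mul_pow, div_le_iff₀ (by positivity)] at h1
    rw [div_mul_eq_mul_div, le_div_iff₀ (by positivity)]
    linarith
  calc |z| ^ k * Real.exp (-b * z ^ 2) ≤ (1 + (z ^ 2) ^ k) * Real.exp (-(b₀ * z ^ 2)) := by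
        apply mul_le_mul h3 h2 (Real.exp_pos _).le (by positivity)
    _ = Real.exp (-(b₀ * z ^ 2)) + (z ^ 2) ^ k * Real.exp (-(b₀ * z ^ 2)) := by ring
    _ ≤ _ := by linarith

lemma mon_ub_aux {b₀ b₁ : ℝ} (hb : 0 < b₀) (c : Fin 3) (l : List (Fin 3)) :
    ∀ (A : ℝ), 0 ≤ A → ∀ k : ℕ, ∃ C : ℝ, 0 ≤ C ∧ ∀ (y a b : ℝ), |a| ≤ A → b₀ ≤ b → b ≤ b₁ → ∀ x,
      |it l (mon c y k a b) x| ≤ C := by
  induction l with
  | nil =>
    intro A hA k
    obtain ⟨C, hC, h1⟩ := gauss_bd hb k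
    refine ⟨A * C, by positivity, fun y a b ha hb0 hb1 x => ?_⟩
    rw [it_nil]
    unfold mon
    rw [mul_assoc, abs_mul]
    exact mul_le_mul ha (h1 b _ hb0) (abs_nonneg _) hA
  | cons i l ih =>
    intro A hA k
    obtain ⟨C1, hC1, h1⟩ := ih (k * A) (by positivity) (k - 1)
    obtain ⟨C2, hC2, h2⟩ := ih (2 * |b₁| * A) (by positivity) (k + 1)
    refine ⟨C1 + C2, by positivity, fun y a b ha hb0 hb1 x => ?_⟩
    rw [it_cons, pd_mon, it_add l (mon_sm _ _ _ _ _) (mon_sm _ _ _ _ _)]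
    refine (abs_add_le _ _).trans (add_le_add ?_ ?_)
    · apply h1 y _ b _ hb0 hb1
      split_ifs
      · rw [abs_mul, Nat.abs_cast]
        exact mul_le_mul_of_nonneg_left ha (by positivity)
      · simp only [abs_zero]
        positivity
    · apply h2 y _ b _ hb0 hb1
      split_ifs
      · rw [abs_mul, abs_mul, abs_neg, abs_two]
        have : |b| ≤ |b₁| := by
          rw [abs_of_pos (hb.trans_le hb0)]
          exact hb1.trans (le_abs_self _)
        gcongr
      · simp only [abs_zero]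
        positivity

lemma mon_ub {A b₀ b₁ : ℝ} (hA : 0 ≤ A) (hb : 0 < b₀) (c : Fin 3) (y : ℝ) (k : ℕ)
    {a b : ℝ → ℝ} (ha : ∀ t ∈ I, |a t| ≤ A) (h0 : ∀ t ∈ I, b₀ ≤ b t) (h1 : ∀ t ∈ I, b t ≤ b₁) :
    UB I (fun t => mon c y k (a t) (b t)) := by
  refine ⟨fun t _ => mon_sm _ _ _ _ _, fun l => ?_⟩
  obtain ⟨C, hC, h⟩ := mon_ub_aux (b₁ := b₁) hb c l A hA k
  exact ⟨C, hC, fun t ht x => h y _ _ (ha t ht) (h0 t ht) (h1 t ht) x⟩

end

end Pool.Agent.H305.SL
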