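import Pool.Agent.H305.SL.UB

/-!
The energy identity with a weight.
-/

set_option autoImplicit false

open MeasureTheory Set Metric Filter Topology
open scoped ContDiff ENNReal

namespace Pool.Agent.H305.SL

open H459R3.NS W221.NS Pool.Agent.V1183.PM Pool.Agent.H305.OS
open Pool.Agent.W583.MD (sm_pd pd_mul')
open Pool.Agent.W22.ME.TD (pd_comm)
open Pool.Agent.H305.TI (it it_nil it_cons it_sm J_it dt_it)

/-- A weight. -/
def BF (Φ : V → ℝ) : Prop := UB univ fun _ => Φ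

section
variable {f g h q : V → ℝ} {Φ Φ' : V → ℝ} {w : Fin 3 → V → ℝ} {ν : ℝ}

lemma UB.at {I : Set ℝ} {F : ℝ → V → ℝ} (h : UB I F) {t : ℝ} (ht : t ∈ I) : BF (F t) := by
  refine ⟨fun _ _ => h.sm t ht, fun l => ?_⟩
  obtain ⟨C, hC, h1⟩ := h.bd l
  exact ⟨C, hC, fun _ _ => h1 t ht⟩

lemma BF.sm (h : BF Φ) : ContDiff ℝ ∞ Φ := UB.sm h 0 (mem_univ _)
lemma BF.pd (h : BF Φ) (j : Fin 3) : BF (pd j Φ) := UB.pd h j
lemma HF.mulB (hf : HF f) (h : BF Φ) : HF (fun x => f x * Φ x) := UF.mulB hf h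

/-- The viscous term. -/
lemma visc_id (hf : HF f) (hΦ : BF Φ) :
    2 * ip (lp f) (fun x => f x * Φ x) = - (2 * ∑ k, ∫ x, H459R3.NS.pd k f x ^ 2 * Φ x)
      + ∫ x, f x ^ 2 * lp Φ x := by
  have h0 : ∀ k, 2 * ip (H459R3.NS.pd k (H459R3.NS.pd k f)) (fun x => f x * Φ x)
      = - (2 * ∫ x, H459R3.NS.pd k f x ^ 2 * Φ x)
        + ∫ x, f x ^ 2 * H459R3.NS.pd k (H459R3.NS.pd k Φ) x := by
    intro k
    have e1 : H459R3.NS.pd k (fun x => f x * Φ x)
        = fun x => f x * H459R3.NS.pd k Φ x + H459R3.NS.pd k f x * Φ x := by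
      funext x
      exact pd_mul' hf.sm hΦ.sm k x
    have e2 : H459R3.NS.pd k (fun x => f x * H459R3.NS.pd k Φ x)
        = fun x => f x * H459R3.NS.pd k (H459R3.NS.pd k Φ) x + H459R3.NS.pd k f x * H459R3.NS.pd k Φ x := by
      funext x
      exact pd_mul' hf.sm (hΦ.pd k).sm k x
    have k1 := (hf.pd k).ip_ibp (HF.mulB hf hΦ) k
    rw [e1, (hf.pd k).ip_add (HF.mulB hf (hΦ.pd k)) (HF.mulB (hf.pd k) hΦ)] at k1
    have k2 := hf.ip_ibp (HF.mulB hf (hΦ.pd k)) k
    rw [e2, hf.ip_add (HF.mulB hf ((hΦ.pd k).pd k)) (HF.mulB (hf.pd k) (hΦ.pd k))] at k2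
    have k3 : ip f (fun x => H459R3.NS.pd k f x * H459R3.NS.pd k Φ x)
        = ip (H459R3.NS.pd k f) (fun x => f x * H459R3.NS.pd k Φ x) := by
      unfold ip
      congr 1
      funext x
      ring
    have k4 : ip (H459R3.NS.pd k f) (fun x => H459R3.NS.pd k f x * Φ x)
        = ∫ x, H459R3.NS.pd k f x ^ 2 * Φ x := by
      unfold ip
      congr 1
      funext x
      ring
    have k5 : ip f (fun x => f x * H459R3.NS.pd k (H459R3.NS.pd k Φ) x)
        = ∫ x, f x ^ 2 * H459R3.NS.pd k (H459R3.NS.pd k Φ) x := by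
      unfold ip
      congr 1
      funext x
      ring
    rw [k3, k5] at k2
    rw [k4] at k1
    linarith
  have i0 : ∀ k, Integrable fun x => f x ^ 2 * H459R3.NS.pd k (H459R3.NS.pd k Φ) x := by
    intro k
    have := hf.ip_int (HF.mulB hf ((hΦ.pd k).pd k))
    refine this.congr (Eventually.of_forall fun x => ?_)
    simp only
    ring
  have e3 : ∫ x, f x ^ 2 * lp Φ x = ∑ k, ∫ x, f x ^ 2 * H459R3.NS.pd k (H459R3.NS.pd k Φ) x := by
    rw [← integral_finsetSum _ fun k _ => i0 k]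
    congr 1
    funext x
    unfold Pool.Agent.H305.OS.lp
    rw [Finset.mul_sum]
  have e4 : ip (lp f) (fun x => f x * Φ x)
      = ∑ k, ip (H459R3.NS.pd k (H459R3.NS.pd k f)) (fun x => f x * Φ x) := by
    rw [ip_comm]
    unfold Pool.Agent.H305.OS.lp
    rw [(HF.mulB hf hΦ).ip_sum fun k => (hf.pd k).pd k]
    exact Finset.sum_congr rfl fun k _ => ip_comm _ _
  rw [e3, e4]
  simp only [Fin.sum_univ_three]
  have a0 := h0 0
  have a1 := h0 1
  have a2 := h0 2
  linarith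

/-- The transport term. -/
lemma tr_id (hw : ∀ i, HF (w i)) (hdiv : ∀ x, ∑ i, H459R3.NS.pd i (w i) x = 0) (hf : HF f)
    (hΦ : BF Φ) :
    2 * ip (fun x => ∑ j, w j x * H459R3.NS.pd j f x) (fun x => f x * Φ x)
      = - ∫ x, f x ^ 2 * ∑ j, w j x * H459R3.NS.pd j Φ x := by
  have h0 : ∀ j, 2 * ip (fun x => w j x * H459R3.NS.pd j f x) (fun x => f x * Φ x)
      = - (∫ x, f x ^ 2 * (w j x * H459R3.NS.pd j Φ x))
        - ∫ x, H459R3.NS.pd j (w j) x * (f x ^ 2 * Φ x) := by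
    intro j
    have k1 := hf.ip_ibp (HF.mulB ((hw j).mul hf) hΦ) j
    have e1 : H459R3.NS.pd j (fun x => w j x * f x * Φ x)
        = fun x => (w j x * f x * H459R3.NS.pd j Φ x + w j x * H459R3.NS.pd j f x * Φ x)
          + H459R3.NS.pd j (w j) x * f x * Φ x := by
      funext x
      rw [pd_mul' ((hw j).mul hf).sm hΦ.sm j x]
      have : H459R3.NS.pd j (fun x => w j x * f x) x
          = w j x * H459R3.NS.pd j f x + H459R3.NS.pd j (w j) x * f x := pd_mul' (hw j).sm hf.sm j x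
      rw [this]
      ring
    have H1 : HF fun x => w j x * f x * H459R3.NS.pd j Φ x := HF.mulB ((hw j).mul hf) (hΦ.pd j)
    have H2 : HF fun x => w j x * H459R3.NS.pd j f x * Φ x := HF.mulB ((hw j).mul (hf.pd j)) hΦ
    have H3 : HF fun x => H459R3.NS.pd j (w j) x * f x * Φ x := HF.mulB (((hw j).pd j).mul hf) hΦ
    rw [e1, hf.ip_add (H1.add H2) H3, hf.ip_add H1 H2] at k1
    have k2 : ip (H459R3.NS.pd j f) (fun x => w j x * f x * Φ x)
        = ip (fun x => w j x * H459R3.NS.pd j f x) (fun x => f x * Φ x) := by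
      unfold ip
      congr 1
      funext x
      ring
    have k3 : ip f (fun x => w j x * H459R3.NS.pd j f x * Φ x)
        = ip (fun x => w j x * H459R3.NS.pd j f x) (fun x => f x * Φ x) := by
      unfold ip
      congr 1
      funext x
      ring
    have k4 : ip f (fun x => w j x * f x * H459R3.NS.pd j Φ x)
        = ∫ x, f x ^ 2 * (w j x * H459R3.NS.pd j Φ x) := by
      unfold ip
      congr 1
      funext x
      ring
    have k5 : ip f (fun x => H459R3.NS.pd j (w j) x * f x * Φ x)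
        = ∫ x, H459R3.NS.pd j (w j) x * (f x ^ 2 * Φ x) := by
      unfold ip
      congr 1
      funext x
      ring
    rw [k2, k3, k4, k5] at k1
    linarith
  have i1 : ∀ j, Integrable fun x => f x ^ 2 * (w j x * H459R3.NS.pd j Φ x) := by
    intro j
    refine (hf.ip_int (HF.mulB ((hw j).mul hf) (hΦ.pd j))).congr (Eventually.of_forall fun x => ?_)
    simp only
    ring
  have i2 : ∀ j, Integrable fun x => H459R3.NS.pd j (w j) x * (f x ^ 2 * Φ x) := by
    intro j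
    refine (hf.ip_int (HF.mulB (((hw j).pd j).mul hf) hΦ)).congr (Eventually.of_forall fun x => ?_)
    simp only
    ring
  have e1 : ip (fun x => ∑ j, w j x * H459R3.NS.pd j f x) (fun x => f x * Φ x)
      = ∑ j, ip (fun x => w j x * H459R3.NS.pd j f x) (fun x => f x * Φ x) := by
    rw [ip_comm, (HF.mulB hf hΦ).ip_sum fun j => (hw j).mul (hf.pd j)]
    exact Finset.sum_congr rfl fun k _ => ip_comm _ _
  have e2 : ∫ x, f x ^ 2 * ∑ j, w j x * H459R3.NS.pd j Φ x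
      = ∑ j, ∫ x, f x ^ 2 * (w j x * H459R3.NS.pd j Φ x) := by
    rw [← integral_finsetSum _ fun k _ => i1 k]
    congr 1
    funext x
    rw [Finset.mul_sum]
  have e3 : ∑ j, ∫ x, H459R3.NS.pd j (w j) x * (f x ^ 2 * Φ x) = 0 := by
    rw [← integral_finsetSum _ fun k _ => i2 k]
    have : ∀ x, ∑ j, H459R3.NS.pd j (w j) x * (f x ^ 2 * Φ x) = 0 := by
      intro x
      rw [← Finset.sum_mul, hdiv x, zero_mul]
    simp only [this, integral_zero]
  rw [e1, e2]
  simp only [Fin.sum_univ_three] at e3 ⊢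
  have a0 := h0 0
  have a1 := h0 1
  have a2 := h0 2
  linarith

/-- The pressure term. -/
lemma pr_id (hw : ∀ i, HF (w i)) (hdiv : ∀ x, ∑ i, H459R3.NS.pd i (w i) x = 0) (hq : HF q)
    (hΦ : BF Φ) :
    ∑ i, ip (H459R3.NS.pd i q) (fun x => w i x * Φ x)
      = - ∫ x, q x * ∑ j, w j x * H459R3.NS.pd j Φ x := by
  have h0 : ∀ j, ip (H459R3.NS.pd j q) (fun x => w j x * Φ x)
      = - (∫ x, q x * (w j x * H459R3.NS.pd j Φ x))
        - ∫ x, H459R3.NS.pd j (w j) x * (q x * Φ x) := by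
    intro j
    have k1 := hq.ip_ibp (HF.mulB (hw j) hΦ) j
    have e1 : H459R3.NS.pd j (fun x => w j x * Φ x)
        = fun x => w j x * H459R3.NS.pd j Φ x + H459R3.NS.pd j (w j) x * Φ x := by
      funext x
      exact pd_mul' (hw j).sm hΦ.sm j x
    rw [e1, hq.ip_add (HF.mulB (hw j) (hΦ.pd j)) (HF.mulB ((hw j).pd j) hΦ)] at k1
    have k5 : ip q (fun x => H459R3.NS.pd j (w j) x * Φ x)
        = ∫ x, H459R3.NS.pd j (w j) x * (q x * Φ x) := by
      unfold ip
      congr 1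
      funext x
      ring
    rw [k5] at k1
    rw [k1]
    unfold ip
    ring
  have i1 : ∀ j, Integrable fun x => q x * (w j x * H459R3.NS.pd j Φ x) := fun j =>
    hq.ip_int (HF.mulB (hw j) (hΦ.pd j))
  have i2 : ∀ j, Integrable fun x => H459R3.NS.pd j (w j) x * (q x * Φ x) := by
    intro j
    refine (hq.ip_int (HF.mulB ((hw j).pd j) hΦ)).congr (Eventually.of_forall fun x => ?_)
    simp only
    ring
  have e2 : ∫ x, q x * ∑ j, w j x * H459R3.NS.pd j Φ x
      = ∑ j, ∫ x, q x * (w j x * H459R3.NS.pd j Φ x) := by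
    rw [← integral_finsetSum _ fun k _ => i1 k]
    congr 1
    funext x
    rw [Finset.mul_sum]
  have e3 : ∑ j, ∫ x, H459R3.NS.pd j (w j) x * (q x * Φ x) = 0 := by
    rw [← integral_finsetSum _ fun k _ => i2 k]
    have : ∀ x, ∑ j, H459R3.NS.pd j (w j) x * (q x * Φ x) = 0 := by
      intro x
      rw [← Finset.sum_mul, hdiv x, zero_mul]
    simp only [this, integral_zero]
  rw [e2]
  simp only [Fin.sum_univ_three] at e3 ⊢
  have a0 := h0 0
  have a1 := h0 1
  have a2 := h0 2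
  linarith

/-- The dissipation with a weight. -/
noncomputable def dsW (w : Fin 3 → V → ℝ) (Φ : V → ℝ) : ℝ :=
  ∫ x, (∑ i, ∑ k, H459R3.NS.pd k (w i) x ^ 2) * Φ x

/-- The energy with a weight. -/
noncomputable def enW (w : Fin 3 → V → ℝ) (Φ : V → ℝ) : ℝ := ∫ x, (∑ i, w i x ^ 2) * Φ x

/-- The flux. -/
noncomputable def flW (w : Fin 3 → V → ℝ) (q Φ : V → ℝ) : ℝ :=
  ∫ x, ((∑ i, w i x ^ 2) + 2 * q x) * ∑ j, w j x * H459R3.NS.pd j Φ x

lemma sum_int3 {F : Fin 3 → V → ℝ} (h : ∀ i, Integrable (F i)) :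
    ∫ x, ∑ i, F i x = ∑ i, ∫ x, F i x := integral_finsetSum _ fun i _ => h i

lemma sqB_int (hf : HF f) (hΦ : BF Φ) : Integrable fun x => f x ^ 2 * Φ x := by
  refine (hf.ip_int (HF.mulB hf hΦ)).congr (Eventually.of_forall fun x => ?_)
  simp only
  ring

lemma enW_eq (hw : ∀ i, HF (w i)) (hΦ : BF Φ) :
    enW w Φ = ∑ i, ip (w i) (fun x => w i x * Φ x) := by
  unfold enW
  have h1 : ∀ i, ip (w i) (fun x => w i x * Φ x) = ∫ x, w i x ^ 2 * Φ x := by
    intro i
    unfold ip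
    congr 1
    funext x
    ring
  simp only [h1, Finset.sum_mul]
  exact sum_int3 fun i => sqB_int (hw i) hΦ

lemma flux_id (hw : ∀ i, HF (w i)) (hdiv : ∀ x, ∑ i, H459R3.NS.pd i (w i) x = 0) (hq : HF q)
    (hΦ : BF Φ) :
    2 * ∑ i, ip (fun x => ν * lp (w i) x - nl w i x - H459R3.NS.pd i q x) (fun x => w i x * Φ x)
      = - (2 * ν * dsW w Φ) + ν * enW w (lp Φ) + flW w q Φ := by
  have hnl : ∀ i, HF (nl w i) := fun i => nl_HF hw i
  have e0 : ∀ i, ip (fun x => ν * lp (w i) x - nl w i x - H459R3.NS.pd i q x) (fun x => w i x * Φ x)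
      = ν * ip (lp (w i)) (fun x => w i x * Φ x) - ip (nl w i) (fun x => w i x * Φ x)
        - ip (H459R3.NS.pd i q) (fun x => w i x * Φ x) := by
    intro i
    have H := HF.mulB (hw i) hΦ
    rw [ip_comm, H.ip_sub (((hw i).lp.cmul ν).sub (hnl i)) (hq.pd i),
      H.ip_sub ((hw i).lp.cmul ν) (hnl i), ip_cmul, ip_comm _ (lp (w i)), ip_comm _ (nl w i),
      ip_comm _ (H459R3.NS.pd i q)]
  have e1 : ∀ i, 2 * ip (nl w i) (fun x => w i x * Φ x)
      = - ∫ x, w i x ^ 2 * ∑ j, w j x * H459R3.NS.pd j Φ x := fun i => tr_id hw hdiv (hw i) hΦ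
  have e2 := pr_id hw hdiv hq hΦ
  have e3 : ∀ i, 2 * ip (lp (w i)) (fun x => w i x * Φ x) = _ := fun i => visc_id (hw i) hΦ
  have i1 : ∀ j, HF fun x => w j x * H459R3.NS.pd j Φ x := fun j => HF.mulB (hw j) (hΦ.pd j)
  have i1' : HF fun x => ∑ j, w j x * H459R3.NS.pd j Φ x := HF.sum i1
  have i2 : ∀ i, Integrable fun x => w i x ^ 2 * ∑ j, w j x * H459R3.NS.pd j Φ x := by
    intro i
    refine ((hw i).ip_int ((hw i).mul i1')).congr (Eventually.of_forall fun x => ?_)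
    simp only
    ring
  have i3 : Integrable fun x => q x * ∑ j, w j x * H459R3.NS.pd j Φ x := hq.ip_int i1'
  have e4 : flW w q Φ = ∑ i, (∫ x, w i x ^ 2 * ∑ j, w j x * H459R3.NS.pd j Φ x)
      + 2 * ∫ x, q x * ∑ j, w j x * H459R3.NS.pd j Φ x := by
    unfold flW
    rw [← sum_int3 i2, ← integral_const_mul, ← integral_add (integrable_finsetSum _ fun i _ => i2 i)
      (i3.const_mul 2)]
    congr 1
    funext x
    rw [← Finset.sum_mul]
    ring
  have i4 : ∀ i k, Integrable fun x => H459R3.NS.pd k (w i) x ^ 2 * Φ x := fun i k =>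
    sqB_int ((hw i).pd k) hΦ
  have e5 : dsW w Φ = ∑ i, ∑ k, ∫ x, H459R3.NS.pd k (w i) x ^ 2 * Φ x := by
    unfold dsW
    have : ∀ i, ∑ k, ∫ x, H459R3.NS.pd k (w i) x ^ 2 * Φ x
        = ∫ x, ∑ k, H459R3.NS.pd k (w i) x ^ 2 * Φ x := fun i => (sum_int3 fun k => i4 i k).symm
    simp only [this]
    rw [← sum_int3 fun i => integrable_finsetSum _ fun k _ => i4 i k]
    congr 1
    funext x
    simp only [Finset.sum_mul]
  have hlp : BF (lp Φ) := by
    have : UB univ (fun _ : ℝ => fun x => ∑ k, H459R3.NS.pd k (H459R3.NS.pd k Φ) x) :=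
      UB.sum fun k => UB.pd (UB.pd hΦ k) k
    exact this
  have e6 : enW w (lp Φ) = ∑ i, ∫ x, w i x ^ 2 * lp Φ x := by
    unfold enW
    simp only [Finset.sum_mul]
    exact sum_int3 fun i => sqB_int (hw i) hlp
  simp only [e0]
  rw [e4, e5, e6]
  simp only [Fin.sum_univ_three] at e2 e3 ⊢
  have a0 := e1 0
  have a1 := e1 1
  have a2 := e1 2
  have b0 := e3 0
  have b1 := e3 1
  have b2 := e3 2
  simp only [Fin.sum_univ_three] at a0 a1 a2 b0 b1 b2
  have c0 : ν * (2 * ip (lp (w 0)) (fun x => w 0 x * Φ x)) = ν * _ := congrArg (ν * ·) b0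
  have c1 : ν * (2 * ip (lp (w 1)) (fun x => w 1 x * Φ x)) = ν * _ := congrArg (ν * ·) b1
  have c2 : ν * (2 * ip (lp (w 2)) (fun x => w 2 x * Φ x)) = ν * _ := congrArg (ν * ·) b2
  linarith

end

section
variable {F G F' G' : ℝ → V → ℝ} {s t T : ℝ}

/-- The derivative of an inner product. -/
lemma ip_id2 (hs : 0 < s) (hst : s ≤ t) (ht : t < T) (jF : J T F) (jG : J T G)
    (jF' : J T F') (jG' : J T G')
    (hF : UF (Icc s t) F) (hG : UF (Icc s t) G) (hF' : UF (Icc s t) F') (hG' : UF (Icc s t) G')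
    (hdF : ∀ τ ∈ Icc s t, ∀ x, deriv (fun s => F s x) τ = F' τ x)
    (hdG : ∀ τ ∈ Icc s t, ∀ x, deriv (fun s => G s x) τ = G' τ x) :
    IntegrableOn (fun τ => ip (F τ) (G' τ) + ip (F' τ) (G τ)) (Ioc s t) ∧
    ip (F t) (G t) = ip (F s) (G s) + ∫ τ in Ioc s t, (ip (F τ) (G' τ) + ip (F' τ) (G τ)) := by
  have hI : ∀ τ ∈ Icc s t, τ ∈ Ioo 0 T := fun τ hτ => ⟨hs.trans_le hτ.1, hτ.2.trans_lt ht⟩
  have k1 := ip_id hs hst ht (jF.add jG) (jF'.add jG') (hF.add hG) (hF'.add hG') (by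
    intro τ hτ x
    have h1 := (jF.dfT (hI τ hτ) x).hasDerivAt.add (jG.dfT (hI τ hτ) x).hasDerivAt
    rw [hdF τ hτ x, hdG τ hτ x] at h1
    exact h1.deriv)
  have k2 := ip_id hs hst ht (jF.sub jG) (jF'.sub jG') (hF.sub hG) (hF'.sub hG') (by
    intro τ hτ x
    have h1 := (jF.dfT (hI τ hτ) x).hasDerivAt.sub (jG.dfT (hI τ hτ) x).hasDerivAt
    rw [hdF τ hτ x, hdG τ hτ x] at h1
    exact h1.deriv)
  have pol : ∀ {f g h k : V → ℝ}, HF f → HF g → HF h → HF k →
      ip (fun x => f x + g x) (fun x => h x + k x) - ip (fun x => f x - g x) (fun x => h x - k x)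
        = 2 * (ip f k + ip h g) := by
    intro f g h k hf hg hh hk
    have a1 : ip (fun x => f x + g x) (fun x => h x + k x)
        = (ip f h + ip g h) + (ip f k + ip g k) := by
      rw [(hf.add hg).ip_add hh hk, ip_comm _ h, ip_comm _ k, hh.ip_add hf hg, hk.ip_add hf hg,
        ip_comm h f, ip_comm h g, ip_comm k f, ip_comm k g]
    have a2 : ip (fun x => f x - g x) (fun x => h x - k x)
        = (ip f h - ip g h) - (ip f k - ip g k) := by
      rw [(hf.sub hg).ip_sub hh hk, ip_comm _ h, ip_comm _ k, hh.ip_sub hf hg, hk.ip_sub hf hg,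
        ip_comm h f, ip_comm h g, ip_comm k f, ip_comm k g]
    rw [a1, a2, ip_comm h g]
    ring
  have i1 : IntegrableOn (fun τ => ip (F τ) (G' τ)) (Ioc s t) := ip_intOn hs ht jF jG' hF hG'
  have i2 : IntegrableOn (fun τ => ip (F' τ) (G τ)) (Ioc s t) := ip_intOn hs ht jF' jG hF' hG
  refine ⟨i1.add i2, ?_⟩
  have mt : t ∈ Icc s t := ⟨hst, le_rfl⟩
  have ms : s ∈ Icc s t := ⟨le_rfl, hst⟩
  have b1 := pol (hF.at mt) (hG.at mt) (hF.at mt) (hG.at mt)
  have b2 := pol (hF.at ms) (hG.at ms) (hF.at ms) (hG.at ms)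
  have j1 : IntegrableOn (fun τ => ip (fun x => F τ x + G τ x) (fun x => F' τ x + G' τ x)) (Ioc s t) :=
    ip_intOn hs ht (jF.add jG) (jF'.add jG') (hF.add hG) (hF'.add hG')
  have j2 : IntegrableOn (fun τ => ip (fun x => F τ x - G τ x) (fun x => F' τ x - G' τ x)) (Ioc s t) :=
    ip_intOn hs ht (jF.sub jG) (jF'.sub jG') (hF.sub hG) (hF'.sub hG')
  have b3 : (∫ τ in Ioc s t, 2 * ip (fun x => F τ x + G τ x) (fun x => F' τ x + G' τ x))
      - ∫ τ in Ioc s t, 2 * ip (fun x => F τ x - G τ x) (fun x => F' τ x - G' τ x)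
      = 4 * ∫ τ in Ioc s t, (ip (F τ) (G' τ) + ip (F' τ) (G τ)) := by
    rw [← integral_sub (j1.const_mul 2) (j2.const_mul 2), ← integral_const_mul]
    apply setIntegral_congr_fun measurableSet_Ioc
    intro τ hτ
    have hτ' := Ioc_subset_Icc_self hτ
    have := pol (hF.at hτ') (hG.at hτ') (hF'.at hτ') (hG'.at hτ')
    simp only
    linarith
  have c1 := ip_comm (F t) (G t)
  have c2 := ip_comm (F s) (G s)
  linarith

end

section
variable {ν T : ℝ} {u : ℝ → V → V} {p : ℝ → V → ℝ} {s t : ℝ} {Ψ : ℝ → V → ℝ}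

/-- The energy identity with a weight. -/
theorem wid (h : HS ν T u p) (hs : 0 < s) (hst : s ≤ t) (ht : t < T) (jΨ : J T Ψ)
    (hΨ : UB (Icc s t) Ψ) (hΨ' : UB (Icc s t) (fun τ x => deriv (fun r => Ψ r x) τ)) :
    IntegrableOn (fun τ => - (2 * ν * dsW (cw u τ) (Ψ τ)) + ν * enW (cw u τ) (lp (Ψ τ))
      + flW (cw u τ) (p τ) (Ψ τ) + enW (cw u τ) (fun x => deriv (fun r => Ψ r x) τ)) (Ioc s t) ∧
    enW (cw u t) (Ψ t) = enW (cw u s) (Ψ s) + ∫ τ in Ioc s t,
      (- (2 * ν * dsW (cw u τ) (Ψ τ)) + ν * enW (cw u τ) (lp (Ψ τ))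
      + flW (cw u τ) (p τ) (Ψ τ) + enW (cw u τ) (fun x => deriv (fun r => Ψ r x) τ)) := by
  have hI : ∀ τ ∈ Icc s t, τ ∈ Ioo 0 T := fun τ hτ => ⟨hs.trans_le hτ.1, hτ.2.trans_lt ht⟩
  have hu : ∀ i, UF (Icc s t) (fun τ => cw u τ i) := fun i => h.uu s t hs ht i
  have hju : ∀ i, J T (fun τ => cw u τ i) := fun i => h.ju i
  have hdu : ∀ i, UF (Icc s t) (fun τ => tdv ν u p τ i) := fun i => h.tdv_UF hs ht i
  have hjdu : ∀ i, J T (fun τ x => deriv (fun r => cw u r i x) τ) := fun i => (hju i).dt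
  have hdu' : ∀ i, UF (Icc s t) (fun τ x => deriv (fun r => cw u r i x) τ) := by
    intro i
    refine (hdu i).congr fun τ hτ => ?_
    funext x
    exact h.mom i τ (hI τ hτ) x
  have key : ∀ i, _ := fun i => ip_id2 hs hst ht (hju i) ((hju i).mul jΨ) (hjdu i)
    (((hju i).mul jΨ).dt) (hu i) (UF.mulB (hu i) hΨ) (hdu' i)
    (G' := fun τ x => deriv (fun r => cw u r i x * Ψ r x) τ) (by
      have h1 := (UF.mulB (hdu' i) hΨ).add (UF.mulB (hu i) hΨ')
      refine h1.congr fun τ hτ => ?_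
      funext x
      have h2 := ((hju i).dfT (hI τ hτ) x).hasDerivAt.mul (jΨ.dfT (hI τ hτ) x).hasDerivAt
      exact h2.deriv) (fun τ hτ x => rfl) (fun τ hτ x => rfl)
  have e1 : ∀ τ ∈ Icc s t, ∑ i, (ip (cw u τ i) (fun x => deriv (fun r => cw u r i x * Ψ r x) τ)
      + ip (fun x => deriv (fun r => cw u r i x) τ) (fun x => cw u τ i x * Ψ τ x))
      = - (2 * ν * dsW (cw u τ) (Ψ τ)) + ν * enW (cw u τ) (lp (Ψ τ))
      + flW (cw u τ) (p τ) (Ψ τ) + enW (cw u τ) (fun x => deriv (fun r => Ψ r x) τ) := by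
    intro τ hτ
    have hw : ∀ i, HF (cw u τ i) := fun i => h.cw_HF (hI τ hτ) i
    have hdiv : ∀ x, ∑ i, H459R3.NS.pd i (cw u τ i) x = 0 := h.div τ (hI τ hτ)
    have k1 := flux_id (ν := ν) hw hdiv (h.p_HF (hI τ hτ)) (hΨ.at hτ)
    have k2 := enW_eq hw (hΨ'.at hτ)
    have d0 : ∀ i, (fun x => deriv (fun r => cw u r i x) τ)
        = fun x => ν * lp (cw u τ i) x - nl (cw u τ) i x - H459R3.NS.pd i (p τ) x := by
      intro i
      funext x
      exact h.mom i τ (hI τ hτ) x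
    have HD : ∀ i, HF fun x => deriv (fun r => cw u r i x) τ := fun i => (hdu' i).at hτ
    have d1 : ∀ i, ip (cw u τ i) (fun x => deriv (fun r => cw u r i x * Ψ r x) τ)
        = ip (fun x => deriv (fun r => cw u r i x) τ) (fun x => cw u τ i x * Ψ τ x)
          + ip (cw u τ i) (fun x => cw u τ i x * deriv (fun r => Ψ r x) τ) := by
      intro i
      have e2 : (fun x => deriv (fun r => cw u r i x * Ψ r x) τ)
          = fun x => deriv (fun r => cw u r i x) τ * Ψ τ x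
            + cw u τ i x * deriv (fun r => Ψ r x) τ := by
        funext x
        have h2 := ((hju i).dfT (hI τ hτ) x).hasDerivAt.mul (jΨ.dfT (hI τ hτ) x).hasDerivAt
        exact h2.deriv
      rw [e2, (hw i).ip_add (HF.mulB (HD i) (hΨ.at hτ)) (HF.mulB (hw i) (hΨ'.at hτ))]
      congr 1
      unfold ip
      congr 1
      funext x
      ring
    have d2 : ∑ i, (ip (cw u τ i) (fun x => deriv (fun r => cw u r i x * Ψ r x) τ)
      + ip (fun x => deriv (fun r => cw u r i x) τ) (fun x => cw u τ i x * Ψ τ x))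
      = 2 * ∑ i, ip (fun x => deriv (fun r => cw u r i x) τ) (fun x => cw u τ i x * Ψ τ x)
        + ∑ i, ip (cw u τ i) (fun x => cw u τ i x * deriv (fun r => Ψ r x) τ) := by
      simp only [d1, Fin.sum_univ_three]
      ring
    rw [d2, ← k2]
    simp only [d0]
    rw [k1]
  have e2 : ∀ τ ∈ Icc s t, enW (cw u τ) (Ψ τ)
      = ∑ i, ip (cw u τ i) (fun x => cw u τ i x * Ψ τ x) := fun τ hτ =>
    enW_eq (fun i => h.cw_HF (hI τ hτ) i) (hΨ.at hτ)
  have i1 : IntegrableOn (fun τ => ∑ i, (ip (cw u τ i)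
      (fun x => deriv (fun r => cw u r i x * Ψ r x) τ)
      + ip (fun x => deriv (fun r => cw u r i x) τ) (fun x => cw u τ i x * Ψ τ x))) (Ioc s t) :=
    integrable_finsetSum _ fun i _ => (key i).1
  refine ⟨i1.congr_fun (fun τ hτ => e1 τ (Ioc_subset_Icc_self hτ)) measurableSet_Ioc, ?_⟩
  rw [e2 t ⟨hst, le_rfl⟩, e2 s ⟨le_rfl, hst⟩,
    ← setIntegral_congr_fun measurableSet_Ioc (fun τ hτ => e1 τ (Ioc_subset_Icc_self hτ)),
    integral_finsetSum _ fun i _ => (key i).1, ← Finset.sum_add_distrib]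
  exact Finset.sum_congr rfl fun i _ => (key i).2

end

end Pool.Agent.H305.SL
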